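import Pool.Agent.Lib.MP_f58a57_nt.R.Defs
import Pool.Agent.Lib.MP_f58a57_nt.P.A1_Len
import Pool.Agent.Lib.MP_f58a57_nt.K.A2_Bd

/-! # R/A1_NabBd: degree and length of the covariant derivative -/

open Complex Filter Topology IntermediateField

noncomputable section

namespace Pool.Agent.MSR

open MSD MSP MSK

variable {d : ℕ}

theorem a1r_ite (p : Prop) [Decidable p] (v : MvPolynomial (Vr d) ℤ) (hv : a2_B 1 1 v) :
    a2_B 1 1 (if p then v else 0) := by
  by_cases h : p
  · rw [if_pos h]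
    exact hv
  · rw [if_neg h, ← MvPolynomial.C_0]
    exact a2_mono (a2_C 0) (by omega) (by simp)

/-- A1a. PROOF. `rhp l j` is `X r` times a sum of at most three terms of degree `≤ 1` and length `≤ 1` (lemmas `mlen_add`, `mlen_mul`, `mlen_monomial` of P/A1_Len; write
`1 = monomial 0 1`, `X v = monomial (single v 1) 1`; split the three `if`). -/
theorem rhp_bd (l : Fin (d + 1)) (j : Fin d) : (rhp l j).totalDegree ≤ 2 ∧ mlen (rhp l j) ≤ 3 := by
  have h1 : a2_B 1 1 (1 : MvPolynomial (Vr d) ℤ) := by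
    rw [← MvPolynomial.C_1]
    exact a2_mono (a2_C 1) (by omega) (by simp)
  have h2 := a2_mul (a2_var (Vr.r : Vr d)) (a2_sub (a2_add (a1r_ite (l = j.castSucc) _ h1)
    (a1r_ite (l = Fin.last d) _ (a2_var (Vr.b j.succ)))) (a1r_ite (l = j.succ) _ (a2_var (Vr.z : Vr d))))
  have h3 : a2_B 2 3 (rhp l j) := a2_mono h2 (by omega) (by norm_num)
  exact h3

theorem a1r_dlv (j : Fin d) (v : Vr d) : a2_B 5 (21 * (d + 1)) (dlv j v) := by
  have hd : (0 : ℝ) ≤ d := Nat.cast_nonneg _
  have hr : ∀ (l : Fin (d + 1)) (j : Fin d), a2_B 2 3 (rhp l j) := fun l j => rhp_bd l j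
  have h0 : a2_B 5 (21 * (d + 1)) (0 : MvPolynomial (Vr d) ℤ) := by
    rw [← MvPolynomial.C_0]
    refine a2_mono (a2_C 0) (by omega) ?_
    simp
    positivity
  cases v with
  | X l =>
    change a2_B _ _ (-(rhp l j * MvPolynomial.X (Vr.Y l)))
    exact a2_mono (a2_neg' (a2_mul (hr l j) (a2_var _))) (by omega) (by nlinarith)
  | Y l =>
    change a2_B _ _ (-(rhp l j * (6 * MvPolynomial.X (Vr.X l) ^ 2 - MvPolynomial.X Vr.g)))
    have h1 : a2_B 2 6 (6 * (MvPolynomial.X (Vr.X l) : MvPolynomial (Vr d) ℤ) ^ 2) := by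
      have h2 := a2_mul (a2_C (σ := Vr d) 6) (a2_pow (a2_var (Vr.X l)) 2)
      rw [show (MvPolynomial.C (6 : ℤ) : MvPolynomial (Vr d) ℤ) = 6 from map_ofNat _ 6] at h2
      exact a2_mono h2 (by omega) (by norm_num)
    exact a2_mono (a2_neg' (a2_mul (hr l j) (a2_sub h1 (a2_var Vr.g)))) (by omega) (by nlinarith)
  | Q i =>
    change a2_B _ _ (-∑ l, rhp l i * rhp l j * MvPolynomial.X (Vr.X l))
    have h1 : a2_B 5 (∑ _l : Fin (d + 1), (9 : ℝ)) (∑ l, rhp l i * rhp l j * MvPolynomial.X (Vr.X l)) :=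
      a2_sum _ _ _ _ fun l _ => a2_mono (a2_mul (a2_mul (hr l i) (hr l j)) (a2_var _)) (by omega) (by norm_num)
    refine a2_mono (a2_neg' h1) le_rfl ?_
    rw [Finset.sum_const, Finset.card_univ, Fintype.card_fin, nsmul_eq_mul]
    push_cast
    nlinarith
  | b l => exact h0
  | g => exact h0
  | k => exact h0
  | z => exact h0
  | r => exact h0

theorem a1r_dlt (j : Fin d) (n : ℕ) (H : ℝ) (p : MvPolynomial (Vr d) ℤ)
    (h1 : p.totalDegree ≤ n) (h2 : mlen p ≤ H) : a2_B (n + 4) (21 * (d + 1) * n * H) (dlt j p) := by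
  classical
  have hc : (0 : ℝ) ≤ 21 * (d + 1) := by positivity
  have key : ∀ m ∈ p.support, a2_B (n + 4) (|((p.coeff m : ℤ) : ℝ)| * (21 * (d + 1) * n))
      (dlt j (MvPolynomial.monomial m (p.coeff m))) := by
    intro m hm
    unfold dlt
    rw [MvPolynomial.mkDerivation_monomial, ← MvPolynomial.C_mul', Finsupp.sum]
    have hdeg : ∑ v ∈ m.support, m v ≤ n := (MvPolynomial.le_totalDegree hm).trans h1
    have hs : a2_B (n + 4) (∑ v ∈ m.support, (m v : ℝ) * (21 * (d + 1)))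
        (∑ v ∈ m.support, (MvPolynomial.monomial (m - Finsupp.single v 1) ((m v : ℕ) : ℤ)) • dlv j v) := by
      refine a2_sum _ _ _ _ fun v hv => ?_
      rw [smul_eq_mul]
      have hv1 : 1 ≤ m v := Nat.one_le_iff_ne_zero.mpr (Finsupp.mem_support_iff.mp hv)
      have h3 : a2_B (n - 1) (m v : ℝ)
          (MvPolynomial.monomial (m - Finsupp.single v 1) ((m v : ℕ) : ℤ) : MvPolynomial (Vr d) ℤ) := by
        refine ⟨(MvPolynomial.totalDegree_monomial_le _ _).trans ?_, ?_⟩
        · have e1 : (m - Finsupp.single v 1).sum (fun _ => id) = ∑ w, (m - Finsupp.single v 1 : Vr d →₀ ℕ) w :=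
            Finsupp.sum_fintype _ _ (fun _ => rfl)
          have e2 : ∑ w ∈ m.support, m w = ∑ w, m w := Finsupp.sum_fintype m (fun _ e => e) (fun _ => rfl)
          rw [e2] at hdeg
          rw [e1]
          have e3 : ∑ w, (m - Finsupp.single v 1 : Vr d →₀ ℕ) w + 1 ≤ ∑ w, m w := by
            rw [← Finset.add_sum_erase _ _ (Finset.mem_univ v), ← Finset.add_sum_erase _ (fun w => m w) (Finset.mem_univ v),
              Finsupp.coe_tsub, Pi.sub_apply, Finsupp.single_eq_same]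
            have e4 : ∑ w ∈ Finset.univ.erase v, (m - Finsupp.single v 1 : Vr d →₀ ℕ) w ≤ ∑ w ∈ Finset.univ.erase v, m w := by
              refine Finset.sum_le_sum fun w _ => ?_
              rw [Finsupp.coe_tsub, Pi.sub_apply]
              exact Nat.sub_le _ _
            rw [Finsupp.coe_tsub] at e4
            omega
          omega
        · rw [mlen_monomial]
          push_cast
          rw [abs_of_nonneg (Nat.cast_nonneg _)]
      have hn : 1 ≤ n := by
        refine hv1.trans (le_trans ?_ hdeg)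
        exact Finset.single_le_sum (f := fun v => m v) (fun _ _ => Nat.zero_le _) hv
      exact a2_mono (a2_mul h3 (a1r_dlv j v)) (by omega) le_rfl
    have h4 := a2_mul (a2_C (σ := Vr d) (p.coeff m)) hs
    refine a2_mono h4 (by omega) ?_
    refine mul_le_mul_of_nonneg_left ?_ (abs_nonneg _)
    rw [← Finset.sum_mul, mul_comm]
    refine mul_le_mul_of_nonneg_left ?_ hc
    exact_mod_cast hdeg
  have hsum := a2_sum p.support _ _ _ key
  rw [← map_sum, ← p.as_sum] at hsum
  refine ⟨hsum.1, hsum.2.trans ?_⟩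
  rw [← Finset.sum_mul]
  have h7 : ∑ m ∈ p.support, |((p.coeff m : ℤ) : ℝ)| ≤ H := h2
  have h8 : (0 : ℝ) ≤ 21 * (d + 1) * n := mul_nonneg hc (Nat.cast_nonneg _)
  calc _ ≤ H * (21 * (d + 1) * n) := mul_le_mul_of_nonneg_right h7 h8
    _ = _ := by ring

/-- A1b. PROOF. By `rhp_bd`: `dlv j v` has degree `≤ 3, 4, 5` and length `≤ 3, 21, 9 (d + 1)` for `v = X l, Y l, Q i`, and is `0` for the other variables. So as in `der_bd` (K/A2_Bd; `dlt j R = ∑_m ∑_v c_m m_v X^(m - e_v) dlv j v`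
over the monomials `m` of `R` and the variables `v`, and `∑_v m_v ≤ n`): `dlt j R` has degree `≤ n + 4` and length `≤ 21 (d + 1) n H`; and `X (Q j) * R` has degree `≤ n + 1` and length `≤ H`. -/
theorem nab_bd (j : Fin d) (n : ℕ) (H : ℝ) (R : MvPolynomial (Vr d) ℤ) (h1 : R.totalDegree ≤ n) (h2 : mlen R ≤ H) :
    (nab j R).totalDegree ≤ n + 4 ∧ mlen (nab j R) ≤ 22 * (d + 1) * (n + 1) * H := by
  have hH : 0 ≤ H := (mlen_nonneg R).trans h2
  have hd : (0 : ℝ) ≤ d := Nat.cast_nonneg _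
  have hn : (0 : ℝ) ≤ n := Nat.cast_nonneg _
  have h3 := a2_add (a1r_dlt j n H R h1 h2) (a2_mul (a2_var (Vr.Q j)) (⟨h1, h2⟩ : a2_B n H R))
  have h4 : a2_B (n + 4) (22 * (d + 1) * (n + 1) * H) (nab j R) := by
    refine a2_mono h3 (by omega) ?_
    have e : 22 * ((d : ℝ) + 1) * (n + 1) * H - (21 * (d + 1) * n * H + 1 * H) = (d * n + n + 22 * d + 21) * H := by ring
    have e2 : 0 ≤ ((d : ℝ) * n + n + 22 * d + 21) * H := by positivity
    linarith
  exact h4

end Pool.Agent.MSR
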