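import Pool.Agent.Lib.MP_f58a57_nt.R.Defs
import Pool.Agent.Lib.MP_f58a57_nt.R.A1_NabBd

/-! # R/A2_RpBd: induction for `Rp` and `Bp`; size of `Rp` -/

open Complex Filter Topology IntermediateField

noncomputable section

namespace Pool.Agent.MSR

open MSD MSP MSK

variable {d : ℕ}

/-- A2a. the induction principle. PROOF. `Rp κ` and `Bp q κ` are the same `foldr` over `List.finRange d`; for a list `L` the two `foldr` are related with `n = (L.map κ).sum` (induction on `L`, and for one `j` induction on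
the number of iterations, `Function.iterate_succ_apply'`); `((List.finRange d).map κ).sum = ∑ j, κ j` (`List.sum_ofFn` or `Fin.sum_univ_def`). -/
theorem Rp_ind (q : Fin d → Fin d → ℂ) (Rel : MvPolynomial (Vr d) ℤ → MvPolynomial (Fin d) ℂ → ℕ → Prop) (h0 : Rel 1 1 0)
    (h : ∀ j R B n, Rel R B n → Rel (nab j R) (bb q j B) (n + 1)) (κ : Fin d → ℕ) : Rel (Rp κ) (Bp q κ) (∑ j, κ j) := by
  have hit : ∀ (j : Fin d) (t : ℕ) R B n, Rel R B n → Rel ((nab j)^[t] R) ((bb q j)^[t] B) (n + t) := by
    intro j t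
    induction t with
    | zero => intro R B n hR; simpa using hR
    | succ t ih =>
      intro R B n hR
      rw [Function.iterate_succ_apply', Function.iterate_succ_apply']
      exact h j _ _ _ (ih R B n hR)
  have hL : ∀ L : List (Fin d), Rel (L.foldr (fun j R => (nab j)^[κ j] R) 1) (L.foldr (fun j B => (bb q j)^[κ j] B) 1) ((L.map κ).sum) := by
    intro L
    induction L with
    | nil => simpa using h0
    | cons j L ih =>
      rw [List.foldr_cons, List.foldr_cons, List.map_cons, List.sum_cons, add_comm]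
      exact hit j (κ j) _ _ _ ih
  have := hL (List.finRange d)
  rw [← Fin.sum_univ_def] at this
  exact this

/-- A2b. PROOF. `Rp_ind` with `Rel R _ n := R.totalDegree ≤ 4 n ∧ mlen R ≤ ∏_{i<n} (22 (d+1) (4 i + 1))` (`nab_bd`); every factor is `≤ 88 (d+1) (n+1)` for `i < n`. -/
theorem Rp_bd (κ : Fin d → ℕ) : (Rp κ).totalDegree ≤ 4 * ∑ j, κ j ∧
    mlen (Rp κ) ≤ (88 * (d + 1) * ((∑ j, κ j : ℕ) + 1)) ^ (∑ j, κ j) := by
  have key := Rp_ind (d := d) (fun _ _ => 0)
    (fun R _ n => R.totalDegree ≤ 4 * n ∧ mlen R ≤ ∏ i ∈ Finset.range n, (22 * ((d : ℝ) + 1) * (4 * (i : ℝ) + 1))) (by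
      refine ⟨by simp, ?_⟩
      rw [Finset.range_zero, Finset.prod_empty]
      have h1 : (1 : MvPolynomial (Vr d) ℤ) = MvPolynomial.monomial 0 1 := rfl
      rw [h1]
      refine le_trans (mlen_monomial _ _).le ?_
      simp) (by
      intro j R B n hR
      have := nab_bd j (4 * n) _ R hR.1 hR.2
      refine ⟨by omega, ?_⟩
      refine le_trans this.2 ?_
      rw [Finset.prod_range_succ]
      push_cast
      exact le_of_eq (by ring)) κ
  refine ⟨key.1, le_trans key.2 ?_⟩
  set n := ∑ j, κ j with hn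
  calc ∏ i ∈ Finset.range n, (22 * ((d : ℝ) + 1) * (4 * (i : ℝ) + 1)) ≤ ∏ _i ∈ Finset.range n, (88 * ((d : ℝ) + 1) * ((n : ℝ) + 1)) := by
        apply Finset.prod_le_prod
        · intro i _; positivity
        · intro i hi
          have hi' : (i : ℝ) ≤ n := by exact_mod_cast (Finset.mem_range.mp hi).le
          have hd : (0 : ℝ) ≤ (d : ℝ) + 1 := by positivity
          nlinarith
    _ = (88 * ((d : ℝ) + 1) * ((n : ℝ) + 1)) ^ n := by
        rw [Finset.prod_const, Finset.card_range]

end Pool.Agent.MSR
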