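import Pool.Agent.Lib.MP_f58a57_nt.R.Defs
import Pool.Agent.Lib.MP_f58a57_nt.K.A2_Bd

/-! # R/A3_DerIt: iterated derivatives -/

open Complex Filter Topology IntermediateField

noncomputable section

namespace Pool.Agent.MSR

open MSD MSP MSK

variable {d : ℕ}

/-- A3. PROOF. Induction on `k ≤ T` with `der_bd` (K/A2_Bd), as `der_iter_Mon` there: after `k` steps the degree is `≤ n₀ + (d+3) k` and the length `≤ ∏_{i<k} (8 (d+1) A (n₀ + (d+3) i)) H₀`; all the factors are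
`≤ F = 8 (d+1) A (n₀ + (d+3) T)` and `F ≥ 1`, so `F^k ≤ F^T`. -/
theorem der_iter_gen (a : Fin d → ℤ) (A : ℝ) (hA : 1 ≤ A) (ha : ∀ j, |(a j : ℝ)| ≤ A) (p : MvPolynomial (Vr d) ℤ) (n₀ : ℕ) (H₀ : ℝ)
    (h1 : p.totalDegree ≤ n₀) (h2 : mlen p ≤ H₀) (T k : ℕ) (hT : 1 ≤ T) (hk : k ≤ T) :
    ((der a)^[k] p).totalDegree ≤ n₀ + (d + 3) * T ∧
      mlen ((der a)^[k] p) ≤ (8 * (d + 1) * A * (n₀ + (d + 3) * T)) ^ T * H₀ := by
  have hA0 : 0 ≤ A := zero_le_one.trans hA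
  have hc : (0 : ℝ) ≤ 8 * (d + 1) * A := by positivity
  have hT' : (1 : ℝ) ≤ T := by exact_mod_cast hT
  have hd : (0 : ℝ) ≤ d := Nat.cast_nonneg _
  have hL : (0 : ℝ) ≤ n₀ := Nat.cast_nonneg _
  have hH : 0 ≤ H₀ := (mlen_nonneg p).trans h2
  have hB1 : (1 : ℝ) ≤ 8 * (d + 1) * A * (n₀ + (d + 3) * T) := by
    have h1 : (1 : ℝ) ≤ 8 * (d + 1) * A := by nlinarith [mul_nonneg hd hA0]
    have h2 : (1 : ℝ) ≤ n₀ + (d + 3) * T := by nlinarith
    exact one_le_mul_of_one_le_of_one_le h1 h2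
  have main : ∀ k, k ≤ T → ((der a)^[k] p).totalDegree ≤ n₀ + (d + 3) * k ∧
      mlen ((der a)^[k] p) ≤ (8 * (d + 1) * A * (n₀ + (d + 3) * T)) ^ k * H₀ := by
    intro k
    induction k with
    | zero =>
      intro _
      rw [Function.iterate_zero, id_eq, pow_zero, one_mul]
      exact ⟨h1.trans (by omega), h2⟩
    | succ k ih =>
      intro hk'
      obtain ⟨h1, h2⟩ := ih (by omega)
      rw [Function.iterate_succ_apply']
      obtain ⟨h3, h4⟩ := der_bd a A hA ha _ _ _ h1 h2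
      refine ⟨h3.trans (by rw [Nat.mul_succ]; omega), h4.trans ?_⟩
      rw [pow_succ]
      have h5 : 0 ≤ (8 * (d + 1) * A * (n₀ + (d + 3) * T)) ^ k * H₀ :=
        mul_nonneg (pow_nonneg (zero_le_one.trans hB1) _) hH
      have e1 : (8 * (d + 1) * A * (n₀ + (d + 3) * T)) ^ k * (8 * (d + 1) * A * (n₀ + (d + 3) * T)) * H₀
          = (8 * (d + 1) * A * (n₀ + (d + 3) * T)) * ((8 * (d + 1) * A * (n₀ + (d + 3) * T)) ^ k * H₀) := by ring
      rw [e1]
      refine mul_le_mul_of_nonneg_right ?_ h5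
      refine mul_le_mul_of_nonneg_left ?_ hc
      push_cast
      have h6 : (k : ℝ) ≤ T := by exact_mod_cast (by omega : k ≤ T)
      nlinarith
  obtain ⟨h3, h4⟩ := main k hk
  refine ⟨h3.trans ?_, h4.trans (mul_le_mul_of_nonneg_right (pow_le_pow_right₀ hB1 hk) hH)⟩
  have := Nat.mul_le_mul_left (d + 3) hk
  omega

end Pool.Agent.MSR
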