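import Pool.Agent.Lib.MP_f58a57_nt.R.Defs

/-! # R/A4_Bp: the leading term of `Bp` -/

open Complex Filter Topology IntermediateField

noncomputable section

namespace Pool.Agent.MSR

open MSD MSP MSK

variable {d : ℕ}

lemma a4_pderiv_deg (i : Fin d) (B : MvPolynomial (Fin d) ℂ) : (MvPolynomial.pderiv i B).totalDegree ≤ B.totalDegree := by
  classical
  have h1 : MvPolynomial.pderiv i B = ∑ m ∈ B.support, MvPolynomial.pderiv i (MvPolynomial.monomial m (B.coeff m)) := by
    conv_lhs => rw [B.as_sum]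
    rw [map_sum]
  rw [h1]
  refine MvPolynomial.totalDegree_finsetSum_le fun m hm => ?_
  rw [MvPolynomial.pderiv_monomial]
  refine (MvPolynomial.totalDegree_monomial_le _ _).trans ?_
  refine le_trans ?_ (MvPolynomial.le_totalDegree hm)
  have h2 : m - Finsupp.single i 1 ≤ m := tsub_le_self
  have h3 : ((m - Finsupp.single i 1).sum fun _ => id) = (m - Finsupp.single i 1).degree := by
    rw [Finsupp.degree_eq_sum, Finsupp.sum_fintype]
    · rfl
    · intro _
      rfl
  have h4 : (m.sum fun _ e => e) = m.degree := by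
    rw [Finsupp.degree_eq_sum, Finsupp.sum_fintype]
    intro _
    rfl
  rw [h3, h4, Finsupp.degree_eq_sum, Finsupp.degree_eq_sum]
  exact Finset.sum_le_sum fun j _ => h2 j

/-- the relation carried through the recursion -/
def A4Rel (e : Fin d →₀ ℕ) (B : MvPolynomial (Fin d) ℂ) : Prop :=
  ∃ L : MvPolynomial (Fin d) ℂ, B = MvPolynomial.monomial e 1 + L ∧ (L = 0 ∨ L.totalDegree < ∑ j, e j)

lemma a4_step (q : Fin d → Fin d → ℂ) (j : Fin d) (e : Fin d →₀ ℕ) (B : MvPolynomial (Fin d) ℂ) (h : A4Rel e B) :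
    A4Rel (Finsupp.single j 1 + e) (bb q j B) := by
  obtain ⟨L, hB, hL⟩ := h
  have hBdeg : B.totalDegree ≤ ∑ j, e j := by
    rw [hB]
    refine (MvPolynomial.totalDegree_add _ _).trans (max_le ?_ ?_)
    · rw [MvPolynomial.totalDegree_monomial _ one_ne_zero, Finsupp.sum_fintype]
      intro _
      rfl
    · rcases hL with hL | hL
      · rw [hL]
        simp
      · exact hL.le
  refine ⟨MvPolynomial.X j * L + ∑ i, MvPolynomial.C (q i j) * MvPolynomial.pderiv i B, ?_, Or.inr ?_⟩
  · have h1 : (MvPolynomial.monomial (Finsupp.single j 1 + e) (1 : ℂ)) = MvPolynomial.X j * MvPolynomial.monomial e 1 := by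
      rw [MvPolynomial.X, MvPolynomial.monomial_mul, one_mul]
    rw [h1]
    unfold bb
    nth_rewrite 1 [hB]
    ring
  · have h2 : ∑ k, (Finsupp.single j 1 + e : Fin d →₀ ℕ) k = (∑ k, e k) + 1 := by
      simp only [Finsupp.coe_add, Pi.add_apply, Finset.sum_add_distrib]
      rw [add_comm]
      congr 1
      rw [Finset.sum_eq_single j]
      · simp
      · intro b _ hb
        exact Finsupp.single_eq_of_ne hb
      · intro h
        exact absurd (Finset.mem_univ _) h
    rw [h2, Nat.lt_succ_iff]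
    refine (MvPolynomial.totalDegree_add _ _).trans (max_le ?_ ?_)
    · rcases hL with hL | hL
      · rw [hL, mul_zero]
        simp
      · refine (MvPolynomial.totalDegree_mul _ _).trans ?_
        rw [MvPolynomial.totalDegree_X]
        omega
    · refine MvPolynomial.totalDegree_finsetSum_le fun i _ => ?_
      refine (MvPolynomial.totalDegree_mul _ _).trans ?_
      rw [MvPolynomial.totalDegree_C, zero_add]
      exact (a4_pderiv_deg i B).trans hBdeg

lemma a4_iter (q : Fin d → Fin d → ℂ) (j : Fin d) (k : ℕ) (e : Fin d →₀ ℕ) (B : MvPolynomial (Fin d) ℂ) (h : A4Rel e B) :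
    A4Rel (Finsupp.single j k + e) ((bb q j)^[k] B) := by
  induction k with
  | zero => simpa using h
  | succ k ih =>
    rw [Function.iterate_succ_apply']
    have h1 := a4_step q j _ _ ih
    rw [← add_assoc, ← Finsupp.single_add, add_comm 1 k] at h1
    exact h1

lemma a4_list (q : Fin d → Fin d → ℂ) (κ : Fin d → ℕ) (l : List (Fin d)) :
    A4Rel ((l.map fun j => Finsupp.single j (κ j)).sum) (l.foldr (fun j B => (bb q j)^[κ j] B) 1) := by
  induction l with
  | nil =>
    refine ⟨0, ?_, Or.inl rfl⟩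
    simp
  | cons j l ih =>
    simp only [List.map_cons, List.sum_cons, List.foldr_cons]
    exact a4_iter q j (κ j) _ _ ih

lemma a4_sum (κ : Fin d → ℕ) : (((List.finRange d).map fun j => Finsupp.single j (κ j)).sum : Fin d →₀ ℕ) =
    Finsupp.equivFunOnFinite.symm κ := by
  have h1 : (((List.finRange d).map fun j => Finsupp.single j (κ j)).sum : Fin d →₀ ℕ) = ∑ j, Finsupp.single j (κ j) := by
    rw [← List.ofFn_eq_map, List.sum_ofFn]
  rw [h1]
  ext i
  rw [Finsupp.finsetSum_apply, Finset.sum_eq_single i]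
  · simp
  · intro b _ hb
    exact Finsupp.single_eq_of_ne hb.symm
  · intro h
    exact absurd (Finset.mem_univ _) h

/-- A4a. PROOF. Induction over the `foldr` (as for `Rp_ind`): the relation for a list `L` of indices is `B = monomial (∑_{j ∈ L} κ_j e_j) 1 + R`, `R = 0 ∨ R.totalDegree < n`, `n = ∑_{j ∈ L} κ_j`. One step:
`X j * monomial e 1 = monomial (e + single j 1) 1`, `X j * R` is `0` or of degree `< n + 1`, and `pderiv i B` has degree `≤ n - 1 < n + 1` (or is `0`): `B.totalDegree ≤ n`. -/
theorem Bp_top (q : Fin d → Fin d → ℂ) (κ : Fin d → ℕ) : ∃ L : MvPolynomial (Fin d) ℂ,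
    Bp q κ = MvPolynomial.monomial (Finsupp.equivFunOnFinite.symm κ) 1 + L ∧ (L = 0 ∨ L.totalDegree < ∑ j, κ j) := by
  have h := a4_list q κ (List.finRange d)
  rw [a4_sum] at h
  exact h

theorem Bp_deg (q : Fin d → Fin d → ℂ) (κ : Fin d → ℕ) : (Bp q κ).totalDegree ≤ ∑ j, κ j := by
  obtain ⟨L, hB, hL⟩ := Bp_top q κ
  rw [hB]
  refine (MvPolynomial.totalDegree_add _ _).trans (max_le ?_ ?_)
  · rw [MvPolynomial.totalDegree_monomial _ one_ne_zero, Finsupp.sum_fintype]
    · rfl
    · intro _
      rfl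
  · rcases hL with hL | hL
    · rw [hL]
      simp
    · exact hL.le

/-- A4b. PROOF. `∑ κ_j ≤ d E`. -/
theorem Cs_deg (P : Par d) (D : Dt d) {E : ℕ} (c : Ir d E → ℂ) : (Cs P D c).totalDegree ≤ d * E := by
  unfold Cs
  refine MvPolynomial.totalDegree_finsetSum_le fun κ _ => ?_
  refine (MvPolynomial.totalDegree_mul _ _).trans ?_
  rw [MvPolynomial.totalDegree_C, zero_add]
  refine (Bp_deg _ _).trans ?_
  calc ∑ j, (κ j).val ≤ ∑ _j : Fin d, E := Finset.sum_le_sum fun j _ => (κ j).isLt.le
    _ = d * E := by simp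

/-- A4c. PROOF. Choose `κ₀` with `c κ₀ ≠ 0` and `∑ κ₀_j` maximal. By `Bp_top` the coefficient of `Bp κ` at `κ₀` is `1` for `κ = κ₀` and `0` for the other `κ` with `∑ κ_j ≤ ∑ κ₀_j`
(`MvPolynomial.coeff_eq_zero_of_totalDegree_lt`), so the coefficient of `Cs` at `κ₀` is `c κ₀`. -/
theorem Cs_ne (P : Par d) (D : Dt d) {E : ℕ} (c : Ir d E → ℂ) (hc : c ≠ 0) : Cs P D c ≠ 0 := by
  classical
  obtain ⟨κ₁, hκ₁⟩ := Function.ne_iff.mp hc
  obtain ⟨κ₀, hκ₀, hmax⟩ := Finset.exists_max_image (Finset.univ.filter fun κ : Ir d E => c κ ≠ 0) (fun κ => ∑ j, (κ j).val)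
    ⟨κ₁, by simpa using hκ₁⟩
  have hc0 : c κ₀ ≠ 0 := by simpa using hκ₀
  intro h0
  have h1 : (Cs P D c).coeff (Finsupp.equivFunOnFinite.symm fun j => (κ₀ j).val) = c κ₀ := by
    unfold Cs
    rw [MvPolynomial.coeff_sum, Finset.sum_eq_single κ₀]
    · rw [MvPolynomial.coeff_C_mul]
      obtain ⟨L, hB, hL⟩ := Bp_top (qq P D) (fun j => (κ₀ j).val)
      rw [hB, MvPolynomial.coeff_add, MvPolynomial.coeff_monomial, if_pos rfl]
      have h2 : L.coeff (Finsupp.equivFunOnFinite.symm fun j => (κ₀ j).val) = 0 := by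
        rcases hL with hL | hL
        · rw [hL]
          simp
        · refine MvPolynomial.coeff_eq_zero_of_totalDegree_lt (hL.trans_le (le_of_eq ?_))
          symm
          refine Finset.sum_subset (Finset.subset_univ _) fun j _ hj => ?_
          simpa using hj
      rw [h2, add_zero, mul_one]
    · intro κ _ hκ
      rw [MvPolynomial.coeff_C_mul]
      by_cases hcκ : c κ = 0
      · rw [hcκ, zero_mul]
      · have h3 : ∑ j, (κ j).val ≤ ∑ j, (κ₀ j).val := hmax κ (by simpa using hcκ)
        obtain ⟨L, hB, hL⟩ := Bp_top (qq P D) (fun j => (κ j).val)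
        rw [hB, MvPolynomial.coeff_add, MvPolynomial.coeff_monomial, if_neg]
        · have h2 : L.coeff (Finsupp.equivFunOnFinite.symm fun j => (κ₀ j).val) = 0 := by
            rcases hL with hL | hL
            · rw [hL]
              simp
            · refine MvPolynomial.coeff_eq_zero_of_totalDegree_lt ((hL.trans_le h3).trans_le (le_of_eq ?_))
              symm
              refine Finset.sum_subset (Finset.subset_univ _) fun j _ hj => ?_
              simpa using hj
          rw [h2, add_zero, mul_zero]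
        · intro h4
          apply hκ
          have h5 := Finsupp.equivFunOnFinite.symm.injective h4
          funext j
          exact Fin.ext (congrFun h5 j)
    · intro h
      exact absurd (Finset.mem_univ _) h
  rw [h0, MvPolynomial.coeff_zero] at h1
  exact hc0 h1.symm

end Pool.Agent.MSR
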