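import Pool.Agent.Lib.MP_f58a57_nt.R.Defs

/-! # R/A5_Nm: weighted norms of polynomials -/

open Complex Filter Topology IntermediateField

noncomputable section

namespace Pool.Agent.MSR

open MSD MSP MSK

variable {d : ℕ}

theorem nm_nonneg {σ : Type} (ρ : ℝ) (hρ : 0 ≤ ρ) (B : MvPolynomial σ ℂ) : 0 ≤ nm ρ B :=
  Finset.sum_nonneg fun _ _ => mul_nonneg (norm_nonneg _) (pow_nonneg hρ _)

/-- A5a. a sum over a larger set of exponents -/
theorem nm_eq {σ : Type} (ρ : ℝ) (B : MvPolynomial σ ℂ) (s : Finset (σ →₀ ℕ)) (h : B.support ⊆ s) :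
    nm ρ B = ∑ m ∈ s, ‖B.coeff m‖ * ρ ^ (m.sum fun _ e => e) := by
  unfold nm
  refine Finset.sum_subset h fun m _ hm => ?_
  rw [MvPolynomial.notMem_support_iff] at hm
  rw [hm, norm_zero, zero_mul]

theorem nm_add {σ : Type} (ρ : ℝ) (hρ : 0 ≤ ρ) (A B : MvPolynomial σ ℂ) : nm ρ (A + B) ≤ nm ρ A + nm ρ B := by
  classical
  have h1 : (A + B).support ⊆ A.support ∪ B.support := MvPolynomial.support_add
  rw [nm_eq ρ (A + B) (A.support ∪ B.support) h1, nm_eq ρ A (A.support ∪ B.support) Finset.subset_union_left,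
    nm_eq ρ B (A.support ∪ B.support) Finset.subset_union_right, ← Finset.sum_add_distrib]
  refine Finset.sum_le_sum fun m _ => ?_
  rw [← add_mul, MvPolynomial.coeff_add]
  exact mul_le_mul_of_nonneg_right (norm_add_le _ _) (pow_nonneg hρ _)

theorem a5_zero {σ : Type} (ρ : ℝ) : nm ρ (0 : MvPolynomial σ ℂ) = 0 := by
  unfold nm
  rw [MvPolynomial.support_zero, Finset.sum_empty]

theorem nm_sum {σ ι : Type} (ρ : ℝ) (hρ : 0 ≤ ρ) (s : Finset ι) (B : ι → MvPolynomial σ ℂ) : nm ρ (∑ i ∈ s, B i) ≤ ∑ i ∈ s, nm ρ (B i) := by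
  classical
  induction s using Finset.induction_on with
  | empty => rw [Finset.sum_empty, Finset.sum_empty, a5_zero]
  | insert a s ha ih =>
    rw [Finset.sum_insert ha, Finset.sum_insert ha]
    exact (nm_add ρ hρ _ _).trans (add_le_add le_rfl ih)

theorem a5_monomial {σ : Type} (ρ : ℝ) (m : σ →₀ ℕ) (a : ℂ) :
    nm ρ (MvPolynomial.monomial m a) = ‖a‖ * ρ ^ (m.sum fun _ e => e) := by
  classical
  rw [nm_eq ρ _ {m} MvPolynomial.support_monomial_subset, Finset.sum_singleton, MvPolynomial.coeff_monomial, if_pos rfl]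

/-- A5b. PROOF. `A B = ∑_m ∑_n monomial (m + n) (a_m b_n)` and the triangle inequality. (Compare `mlen_mul` in P/A1_Len.) -/
theorem nm_mul {σ : Type} (ρ : ℝ) (hρ : 0 ≤ ρ) (A B : MvPolynomial σ ℂ) : nm ρ (A * B) ≤ nm ρ A * nm ρ B := by
  classical
  have e : A * B = ∑ m ∈ A.support, ∑ n ∈ B.support, MvPolynomial.monomial (m + n) (A.coeff m * B.coeff n) := by
    conv_lhs => rw [A.as_sum, B.as_sum, Finset.sum_mul_sum]
    refine Finset.sum_congr rfl fun m _ => Finset.sum_congr rfl fun n _ => ?_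
    rw [MvPolynomial.monomial_mul]
  rw [e]
  refine (nm_sum ρ hρ _ _).trans ?_
  have h : nm ρ A * nm ρ B = ∑ i ∈ A.support, ∑ j ∈ B.support,
      (‖A.coeff i‖ * ρ ^ (i.sum fun _ e => e)) * (‖B.coeff j‖ * ρ ^ (j.sum fun _ e => e)) := by
    unfold nm
    rw [Finset.sum_mul_sum]
  rw [h]
  refine Finset.sum_le_sum fun i _ => ?_
  refine (nm_sum ρ hρ _ _).trans ?_
  refine Finset.sum_le_sum fun j _ => ?_
  rw [a5_monomial, norm_mul, Finsupp.sum_add_index' (fun _ => rfl) (fun _ _ _ => rfl), pow_add]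
  exact le_of_eq (by ring)

theorem nm_C {σ : Type} (ρ : ℝ) (a : ℂ) : nm ρ (MvPolynomial.C a : MvPolynomial σ ℂ) = ‖a‖ := by
  have h := a5_monomial (σ := σ) ρ 0 a
  rw [Finsupp.sum_zero_index, pow_zero, mul_one] at h
  exact h

theorem nm_X {σ : Type} (ρ : ℝ) (i : σ) : nm ρ (MvPolynomial.X i : MvPolynomial σ ℂ) = ρ := by
  have h := a5_monomial (σ := σ) ρ (Finsupp.single i 1) 1
  rw [Finsupp.sum_single_index rfl, pow_one, norm_one, one_mul] at h
  exact h

theorem a5_pow {σ : Type} (ρ ρ' : ℝ) (hρ : 0 ≤ ρ) (A : MvPolynomial σ ℂ) (h : nm ρ A ≤ ρ') (n : ℕ) : nm ρ (A ^ n) ≤ ρ' ^ n := by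
  induction n with
  | zero =>
    have h1 := nm_C (σ := σ) ρ 1
    rw [map_one, norm_one] at h1
    rw [pow_zero, pow_zero, h1]
  | succ n ih =>
    rw [pow_succ, pow_succ]
    exact (nm_mul ρ hρ _ _).trans (mul_le_mul ih h (nm_nonneg ρ hρ _) (pow_nonneg ((nm_nonneg ρ hρ _).trans h) _))

theorem a5_prod {σ τ : Type} (ρ : ℝ) (hρ : 0 ≤ ρ) (s : Finset σ) (g : σ → MvPolynomial τ ℂ) (b : σ → ℝ) (hg : ∀ i ∈ s, nm ρ (g i) ≤ b i) :
    nm ρ (∏ i ∈ s, g i) ≤ ∏ i ∈ s, b i := by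
  classical
  induction s using Finset.induction_on with
  | empty =>
    have h1 := nm_C (σ := τ) ρ 1
    rw [map_one, norm_one] at h1
    rw [Finset.prod_empty, Finset.prod_empty, h1]
  | insert a s ha ih =>
    rw [Finset.prod_insert ha, Finset.prod_insert ha]
    exact (nm_mul ρ hρ _ _).trans (mul_le_mul (hg a (Finset.mem_insert_self _ _)) (ih fun i hi => hg i (Finset.mem_insert_of_mem hi))
      (nm_nonneg ρ hρ _) ((nm_nonneg ρ hρ _).trans (hg a (Finset.mem_insert_self _ _))))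

/-- A5c. PROOF. `aeval f B = ∑_m C(b_m) ∏ f_i^(m_i)`, `nm_sum`, `nm_mul`. -/
theorem nm_aeval {σ τ : Type} (ρ ρ' : ℝ) (hρ : 0 ≤ ρ) (f : σ → MvPolynomial τ ℂ) (hf : ∀ i, nm ρ (f i) ≤ ρ') (B : MvPolynomial σ ℂ) :
    nm ρ (MvPolynomial.aeval f B) ≤ nm ρ' B := by
  have e : MvPolynomial.aeval f B = ∑ m ∈ B.support, MvPolynomial.C (B.coeff m) * ∏ i ∈ m.support, f i ^ m i := by
    rw [MvPolynomial.aeval_def, MvPolynomial.eval₂_eq]
    rfl
  rw [e]
  refine (nm_sum ρ hρ _ _).trans ?_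
  unfold nm
  refine Finset.sum_le_sum fun m _ => ?_
  change nm ρ _ ≤ _
  refine (nm_mul ρ hρ _ _).trans ?_
  rw [nm_C]
  refine mul_le_mul_of_nonneg_left ?_ (norm_nonneg _)
  refine (a5_prod ρ hρ m.support _ (fun i => ρ' ^ m i) fun i _ => a5_pow ρ ρ' hρ _ (hf i) _).trans ?_
  rw [Finset.prod_pow_eq_pow_sum]
  exact le_of_eq rfl

theorem coeff_le_nm {σ : Type} (B : MvPolynomial σ ℂ) (m : σ →₀ ℕ) : ‖B.coeff m‖ ≤ nm 1 B := by
  by_cases h : m ∈ B.support
  · have h1 := Finset.single_le_sum (f := fun m => ‖B.coeff m‖ * (1 : ℝ) ^ (m.sum fun _ e => e))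
      (fun i _ => mul_nonneg (norm_nonneg _) (pow_nonneg zero_le_one _)) h
    simp only [one_pow, mul_one] at h1
    unfold nm
    simp only [one_pow, mul_one]
    exact h1
  · rw [MvPolynomial.notMem_support_iff] at h
    rw [h, norm_zero]
    exact nm_nonneg 1 zero_le_one B

theorem nm_mono {σ : Type} (ρ ρ' : ℝ) (hρ : 0 ≤ ρ) (h : ρ ≤ ρ') (B : MvPolynomial σ ℂ) : nm ρ B ≤ nm ρ' B :=
  Finset.sum_le_sum fun _ _ => mul_le_mul_of_nonneg_left (pow_le_pow_left₀ hρ h _) (norm_nonneg _)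

theorem nm_le_pow {σ : Type} (ρ : ℝ) (hρ : 1 ≤ ρ) (n : ℕ) (B : MvPolynomial σ ℂ) (hB : B.totalDegree ≤ n) : nm ρ B ≤ ρ ^ n * nm 1 B := by
  unfold nm
  rw [Finset.mul_sum]
  refine Finset.sum_le_sum fun m hm => ?_
  rw [one_pow, mul_one, mul_comm]
  refine mul_le_mul_of_nonneg_right (pow_le_pow_right₀ hρ ?_) (norm_nonneg _)
  exact (MvPolynomial.le_totalDegree hm).trans hB

theorem eval_le_nm {σ : Type} [Fintype σ] (ρ : ℝ) (x : σ → ℂ) (hx : ∀ i, ‖x i‖ ≤ ρ) (B : MvPolynomial σ ℂ) : ‖MvPolynomial.eval x B‖ ≤ nm ρ B := by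
  rw [MvPolynomial.eval_eq]
  refine (norm_sum_le _ _).trans ?_
  unfold nm
  refine Finset.sum_le_sum fun m _ => ?_
  rw [norm_mul, norm_prod]
  refine mul_le_mul_of_nonneg_left ?_ (norm_nonneg _)
  refine (Finset.prod_le_prod (fun i _ => norm_nonneg _) (g := fun i => ρ ^ m i) fun i _ => ?_).trans ?_
  · rw [norm_pow]
    exact pow_le_pow_left₀ (norm_nonneg _) (hx i) _
  · rw [Finset.prod_pow_eq_pow_sum]
    exact le_of_eq rfl

/-- A5d. PROOF. the number of exponents `m` with `∑ m_i ≤ n` is `≤ (n+1)^d` -/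
theorem exists_coeff_nm (n : ℕ) (B : MvPolynomial (Fin d) ℂ) (hB : B.totalDegree ≤ n) : ∃ m : Fin d →₀ ℕ, (m.sum fun _ e => e) ≤ n ∧
    nm 1 B ≤ (n + 1) ^ d * ‖B.coeff m‖ := by
  classical
  by_cases h0 : B.support = ∅
  · refine ⟨0, by rw [Finsupp.sum_zero_index]; exact Nat.zero_le _, ?_⟩
    unfold nm
    rw [h0, Finset.sum_empty]
    positivity
  · obtain ⟨m, hm, hmax⟩ := Finset.exists_max_image B.support (fun m => ‖B.coeff m‖) (Finset.nonempty_iff_ne_empty.mpr h0)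
    refine ⟨m, (MvPolynomial.le_totalDegree hm).trans hB, ?_⟩
    have hcard : B.support.card ≤ (n + 1) ^ d := by
      have h1 : B.support.card ≤ (Finset.univ : Finset (Fin d → Fin (n + 1))).card := by
        refine Finset.card_le_card_of_injOn (fun k i => (⟨min (k i) n, by omega⟩ : Fin (n + 1))) (fun _ _ => Finset.mem_coe.mpr (Finset.mem_univ _)) ?_
        intro k hk l hl hkl
        have hb : ∀ k ∈ B.support, ∀ i, k i ≤ n := by
          intro k hk i
          refine le_trans ?_ ((MvPolynomial.le_totalDegree hk).trans hB)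
          by_cases hi : i ∈ k.support
          · exact Finset.single_le_sum (f := fun i => k i) (fun _ _ => Nat.zero_le _) hi
          · rw [Finsupp.notMem_support_iff.mp hi]
            exact Nat.zero_le _
        ext i
        have h2 := congrArg Fin.val (congrFun hkl i)
        have h3 := hb k (Finset.mem_coe.mp hk) i
        have h4 := hb l (Finset.mem_coe.mp hl) i
        simp only at h2
        omega
      rw [Finset.card_univ, Fintype.card_fun, Fintype.card_fin, Fintype.card_fin] at h1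
      exact h1
    unfold nm
    calc ∑ k ∈ B.support, ‖B.coeff k‖ * (1 : ℝ) ^ (k.sum fun _ e => e)
        ≤ ∑ _k ∈ B.support, ‖B.coeff m‖ := by
          refine Finset.sum_le_sum fun k hk => ?_
          rw [one_pow, mul_one]
          exact hmax k hk
      _ = (B.support.card : ℝ) * ‖B.coeff m‖ := by rw [Finset.sum_const, nsmul_eq_mul]
      _ ≤ (n + 1) ^ d * ‖B.coeff m‖ := by
          refine mul_le_mul_of_nonneg_right ?_ (norm_nonneg _)
          exact_mod_cast hcard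

end Pool.Agent.MSR
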