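import Pool.Agent.Lib.MP_f58a57_nt.R.Defs
import Pool.Agent.Lib.MP_f58a57_nt.R.A5_Nm
import Pool.Agent.Lib.MP_f58a57_nt.R.A4_Bp
import Pool.Agent.Lib.MP_f58a57_nt.R.A2_RpBd

/-! # R/A6_NmBp: the norm of `Bp` -/

open Complex Filter Topology IntermediateField

noncomputable section

namespace Pool.Agent.MSR

open MSD MSP MSK

variable {d : ℕ}

theorem a6_pderiv_eq (i : Fin d) (B : MvPolynomial (Fin d) ℂ) :
    MvPolynomial.pderiv i B = ∑ m ∈ B.support, MvPolynomial.monomial (m - Finsupp.single i 1) (B.coeff m * m i) := by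
  conv_lhs => rw [B.as_sum, map_sum]
  refine Finset.sum_congr rfl fun m _ => ?_
  rw [MvPolynomial.pderiv_monomial]

theorem a6_sum_sub (i : Fin d) (m : Fin d →₀ ℕ) : ((m - Finsupp.single i 1).sum fun _ e => e) ≤ m.sum fun _ e => e := by
  rw [Finsupp.sum_fintype _ _ (fun _ => rfl), Finsupp.sum_fintype _ _ (fun _ => rfl)]
  refine Finset.sum_le_sum fun w _ => ?_
  rw [Finsupp.coe_tsub, Pi.sub_apply]
  exact Nat.sub_le _ _

theorem a6_deg_pderiv (i : Fin d) (B : MvPolynomial (Fin d) ℂ) (n : ℕ) (hB : B.totalDegree ≤ n) : (MvPolynomial.pderiv i B).totalDegree ≤ n := by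
  rw [a6_pderiv_eq]
  refine MvPolynomial.totalDegree_finsetSum_le fun m hm => ?_
  refine (MvPolynomial.totalDegree_monomial_le _ _).trans ?_
  exact (a6_sum_sub i m).trans ((MvPolynomial.le_totalDegree hm).trans hB)

theorem a6_nm_pderiv (i : Fin d) (B : MvPolynomial (Fin d) ℂ) (n : ℕ) (hB : B.totalDegree ≤ n) (ρ : ℝ) (hρ : 1 ≤ ρ) :
    nm ρ (MvPolynomial.pderiv i B) ≤ n * nm ρ B := by
  have hρ0 : 0 ≤ ρ := zero_le_one.trans hρ
  rw [a6_pderiv_eq]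
  refine (nm_sum ρ hρ0 _ _).trans ?_
  conv_rhs => unfold nm
  rw [Finset.mul_sum]
  refine Finset.sum_le_sum fun m hm => ?_
  rw [a5_monomial, norm_mul, Complex.norm_natCast]
  have h1 : (m i : ℝ) ≤ n := by
    have h2 : m i ≤ n := by
      refine le_trans ?_ ((MvPolynomial.le_totalDegree hm).trans hB)
      rw [Finsupp.sum_fintype _ _ (fun _ => rfl)]
      exact Finset.single_le_sum (f := fun i => m i) (fun _ _ => Nat.zero_le _) (Finset.mem_univ i)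
    exact_mod_cast h2
  have h3 : ρ ^ ((m - Finsupp.single i 1).sum fun _ e => e) ≤ ρ ^ (m.sum fun _ e => e) := pow_le_pow_right₀ hρ (a6_sum_sub i m)
  calc ‖B.coeff m‖ * (m i : ℝ) * ρ ^ ((m - Finsupp.single i 1).sum fun _ e => e)
      ≤ ‖B.coeff m‖ * n * ρ ^ (m.sum fun _ e => e) :=
        mul_le_mul (mul_le_mul_of_nonneg_left h1 (norm_nonneg _)) h3 (pow_nonneg hρ0 _) (by positivity)
    _ = _ := by ring

/-- A6a. PROOF. `nm_mul, nm_X`: the first term is `≤ ρ nm B`; `pderiv i B` has the coefficients `(m_i + 1) b_(m + e_i)`, so `nm ρ (pderiv i B) ≤ (n/ρ) nm ρ B ≤ n nm ρ B` (`m_i ≤ n` for `m ∈ B.support`). -/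
theorem nm_bb (q : Fin d → Fin d → ℂ) (a : ℝ) (hq : ∀ i j, ‖q i j‖ ≤ a) (j : Fin d) (B : MvPolynomial (Fin d) ℂ) (n : ℕ)
    (hB : B.totalDegree ≤ n) (ρ : ℝ) (hρ : 1 ≤ ρ) : nm ρ (bb q j B) ≤ (ρ + d * a * n) * nm ρ B := by
  have hρ0 : 0 ≤ ρ := zero_le_one.trans hρ
  unfold bb
  refine (nm_add ρ hρ0 _ _).trans ?_
  have h1 : nm ρ (MvPolynomial.X j * B) ≤ ρ * nm ρ B := by
    refine (nm_mul ρ hρ0 _ _).trans ?_
    rw [nm_X]
  have h2 : nm ρ (∑ i, MvPolynomial.C (q i j) * MvPolynomial.pderiv i B) ≤ ∑ _i : Fin d, a * (n * nm ρ B) := by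
    refine (nm_sum ρ hρ0 _ _).trans (Finset.sum_le_sum fun i _ => ?_)
    refine (nm_mul ρ hρ0 _ _).trans ?_
    rw [nm_C]
    exact mul_le_mul (hq i j) (a6_nm_pderiv i B n hB ρ hρ) (nm_nonneg ρ hρ0 _) ((norm_nonneg _).trans (hq i j))
  rw [Finset.sum_const, Finset.card_univ, Fintype.card_fin, nsmul_eq_mul] at h2
  calc _ ≤ ρ * nm ρ B + d * (a * (n * nm ρ B)) := add_le_add h1 h2
    _ = _ := by ring

theorem a6_deg_bb (q : Fin d → Fin d → ℂ) (j : Fin d) (B : MvPolynomial (Fin d) ℂ) (n : ℕ) (hB : B.totalDegree ≤ n) :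
    (bb q j B).totalDegree ≤ n + 1 := by
  unfold bb
  refine (MvPolynomial.totalDegree_add _ _).trans (max_le ?_ ?_)
  · refine (MvPolynomial.totalDegree_mul _ _).trans ?_
    rw [MvPolynomial.totalDegree_X]
    omega
  · refine MvPolynomial.totalDegree_finsetSum_le fun i _ => ?_
    refine (MvPolynomial.totalDegree_mul _ _).trans ?_
    rw [MvPolynomial.totalDegree_C]
    have := a6_deg_pderiv i B n hB
    omega

/-- A6b. PROOF. `Rp_ind` with `Rel _ B m := B.totalDegree ≤ m ∧ (m ≤ n → nm ρ B ≤ (ρ + d a n)^m)`, and `ρ + d a n ≥ 1`. -/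
theorem nm_Bp (q : Fin d → Fin d → ℂ) (a : ℝ) (ha : 0 ≤ a) (hq : ∀ i j, ‖q i j‖ ≤ a) (κ : Fin d → ℕ) (n : ℕ) (hn : ∑ j, κ j ≤ n) (ρ : ℝ) (hρ : 1 ≤ ρ) :
    nm ρ (Bp q κ) ≤ (ρ + d * a * n) ^ n := by
  have hρ0 : 0 ≤ ρ := zero_le_one.trans hρ
  have h1 : 1 ≤ ρ + d * a * n := by
    have : 0 ≤ (d : ℝ) * a * n := by positivity
    linarith
  have h := Rp_ind q (fun _ B m => B.totalDegree ≤ m ∧ (m ≤ n → nm ρ B ≤ (ρ + d * a * n) ^ m)) ?_ ?_ κ
  · exact (h.2 hn).trans (pow_le_pow_right₀ h1 hn)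
  · refine ⟨?_, fun _ => ?_⟩
    · rw [MvPolynomial.totalDegree_one]
    · have h2 := nm_C (σ := Fin d) ρ 1
      rw [map_one, norm_one] at h2
      rw [h2, pow_zero]
  · rintro j _ B m ⟨hB, hB'⟩
    refine ⟨a6_deg_bb q j B m hB, fun hm => ?_⟩
    refine (nm_bb q a hq j B m hB ρ hρ).trans ?_
    rw [pow_succ, mul_comm]
    refine mul_le_mul (hB' (by omega)) ?_ ?_ (pow_nonneg (zero_le_one.trans h1) _)
    · have h3 : (m : ℝ) ≤ n := by exact_mod_cast (by omega : m ≤ n)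
      have h4 : (d : ℝ) * a * m ≤ d * a * n := mul_le_mul_of_nonneg_left h3 (by positivity)
      linarith
    · positivity

end Pool.Agent.MSR
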