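import Pool.Agent.Lib.MP_f58a57_nt.R.Defs
import Pool.Agent.Lib.MP_f58a57_nt.R.A5_Nm
import Pool.Agent.Lib.MP_f58a57_nt.P.T1_Prod

/-! # R/B7_Bound: a bound for `TH` -/

open Complex Filter Topology IntermediateField

noncomputable section

namespace Pool.Agent.MSR

open MSD MSP MSK

variable {d : ℕ}

/-- B7a. PROOF. Cauchy's estimate (`Complex.norm_iteratedDeriv_le_of_forall_mem_sphere_norm_le`, radius `1`): `‖iteratedDeriv k (th τ) (h_l + t_l)‖ ≤ k! A`. For `m ∈ q.support` `∑ m_l ≤ n`, so `∏ m_l! ≤ ∏ n^(m_l) = n^(∑ m_l)`. -/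
theorem TH_bound (D : Dt d) (t : Fin (d + 1) → ℂ) (q : MvPolynomial (Fin (d + 1)) ℂ) (n : ℕ) (hn : 1 ≤ n) (hq : q.totalDegree ≤ n) (A : ℝ) (hA : 1 ≤ A)
    (h : ∀ l, ∀ u : ℂ, ‖u - (D.h l + t l)‖ ≤ 1 → ‖th D.τ u‖ ≤ A) : ‖TH D t q‖ ≤ A ^ (d + 1) * nm n q := by
  have hcau : ∀ l : Fin (d + 1), ∀ k : ℕ, ‖iteratedDeriv k (th D.τ) (D.h l + t l)‖ ≤ k.factorial * A := by
    intro l k
    have h1 := Complex.norm_iteratedDeriv_le_of_forall_mem_sphere_norm_le (c := D.h l + t l) (R := 1)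
      (C := A) (f := th D.τ) k one_pos ((th_differentiable D.τ D.im).diffContOnCl)
      (fun z hz => h l z (by rw [mem_sphere_iff_norm] at hz; exact hz.le))
    simpa using h1
  unfold TH nm
  rw [Finset.mul_sum]
  refine (norm_sum_le _ _).trans (Finset.sum_le_sum fun m hm => ?_)
  rw [norm_mul, norm_prod]
  have hdeg : ∑ l, m l ≤ n := by
    have h1 := MvPolynomial.le_totalDegree hm
    have h2 : (m.sum fun _ e => e) = ∑ l, m l := Finsupp.sum_fintype _ _ (fun _ => rfl)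
    rw [h2] at h1
    exact h1.trans hq
  have hsum : (m.sum fun _ e => e) = ∑ l, m l := Finsupp.sum_fintype _ _ (fun _ => rfl)
  have hprod : ∏ l, ‖iteratedDeriv (m l) (th D.τ) (D.h l + t l)‖ ≤ A ^ (d + 1) * (n : ℝ) ^ (m.sum fun _ e => e) := by
    have h1 : ∏ l, ‖iteratedDeriv (m l) (th D.τ) (D.h l + t l)‖ ≤ ∏ l : Fin (d + 1), (A * (n : ℝ) ^ (m l)) := by
      apply Finset.prod_le_prod (fun _ _ => norm_nonneg _)
      intro l _
      refine (hcau l (m l)).trans ?_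
      rw [mul_comm]
      apply mul_le_mul_of_nonneg_left _ (by linarith)
      have h2 : m l ≤ n := (Finset.single_le_sum (f := fun l => m l) (fun _ _ => Nat.zero_le _) (Finset.mem_univ l)).trans hdeg
      have h3 : (m l).factorial ≤ n ^ (m l) := (Nat.factorial_le_pow (m l)).trans (Nat.pow_le_pow_left h2 _)
      exact_mod_cast h3
    rw [Finset.prod_mul_distrib, Finset.prod_const, Finset.card_univ, Fintype.card_fin, Finset.prod_pow_eq_pow_sum] at h1
    rw [hsum]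
    exact h1
  calc ‖q.coeff m‖ * ∏ l, ‖iteratedDeriv (m l) (th D.τ) (D.h l + t l)‖
      ≤ ‖q.coeff m‖ * (A ^ (d + 1) * (n : ℝ) ^ (m.sum fun _ e => e)) := mul_le_mul_of_nonneg_left hprod (norm_nonneg _)
    _ = A ^ (d + 1) * (‖q.coeff m‖ * (n : ℝ) ^ (m.sum fun _ e => e)) := by ring

private theorem b7_nm_neg {σ : Type} (ρ : ℝ) (B : MvPolynomial σ ℂ) : nm ρ (-B) = nm ρ B := by
  unfold nm
  rw [MvPolynomial.support_neg]
  refine Finset.sum_congr rfl fun m _ => ?_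
  rw [MvPolynomial.coeff_neg, norm_neg]

/-- B7b. PROOF. `nm_add, nm_mul, nm_C, nm_X`. -/
theorem lin_nm (P : Par d) (D : Dt d) (W : Fin d → ℂ) (j : Fin d) (ρ : ℝ) (hρ : 0 ≤ ρ) :
    nm ρ (lin P D W j) ≤ ‖W j + lam P D j‖ + ρ * (1 / ‖D.om‖ * ∑ l, ‖rhv P l j‖) := by
  unfold lin
  rw [sub_eq_add_neg]
  refine (nm_add ρ hρ _ _).trans ?_
  rw [nm_C, b7_nm_neg]
  have h1 : nm ρ (∑ l, MvPolynomial.C (rhv P l j) * MvPolynomial.X l : MvPolynomial (Fin (d + 1)) ℂ) ≤ ∑ l, ‖rhv P l j‖ * ρ := by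
    refine (nm_sum ρ hρ _ _).trans (Finset.sum_le_sum fun l _ => ?_)
    refine (nm_mul ρ hρ _ _).trans ?_
    rw [nm_C, nm_X]
  have h2 : nm ρ (MvPolynomial.C (1 / D.om) * ∑ l, MvPolynomial.C (rhv P l j) * MvPolynomial.X l : MvPolynomial (Fin (d + 1)) ℂ) ≤
      ρ * (1 / ‖D.om‖ * ∑ l, ‖rhv P l j‖) := by
    refine (nm_mul ρ hρ _ _).trans ?_
    rw [nm_C, norm_div, norm_one]
    refine (mul_le_mul_of_nonneg_left h1 (by positivity)).trans (le_of_eq ?_)
    rw [← Finset.sum_mul]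
    ring
  linarith

/-- B7c. the total degree does not increase -/
theorem lin_deg (P : Par d) (D : Dt d) (W : Fin d → ℂ) (B : MvPolynomial (Fin d) ℂ) :
    (MvPolynomial.aeval (lin P D W) B).totalDegree ≤ B.totalDegree := by
  have hlin : ∀ j, (lin P D W j).totalDegree ≤ 1 := by
    intro j
    unfold lin
    refine (MvPolynomial.totalDegree_sub _ _).trans (max_le ?_ ?_)
    · rw [MvPolynomial.totalDegree_C]; omega
    · refine (MvPolynomial.totalDegree_mul _ _).trans ?_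
      rw [MvPolynomial.totalDegree_C, zero_add]
      refine MvPolynomial.totalDegree_finsetSum_le fun l _ => ?_
      refine (MvPolynomial.totalDegree_mul _ _).trans ?_
      rw [MvPolynomial.totalDegree_C, zero_add, MvPolynomial.totalDegree_X]
  rw [MvPolynomial.aeval_def, MvPolynomial.eval₂_eq]
  refine MvPolynomial.totalDegree_finsetSum_le fun m hm => ?_
  refine (MvPolynomial.totalDegree_mul _ _).trans ?_
  have h1 : (algebraMap ℂ (MvPolynomial (Fin (d + 1)) ℂ) (MvPolynomial.coeff m B)).totalDegree = 0 :=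
    MvPolynomial.totalDegree_C _
  rw [h1, zero_add]
  refine (MvPolynomial.totalDegree_finsetProd _ _).trans ?_
  refine le_trans (Finset.sum_le_sum fun j _ => ?_) (MvPolynomial.le_totalDegree hm)
  refine (MvPolynomial.totalDegree_pow _ _).trans ?_
  calc m j * (lin P D W j).totalDegree ≤ m j * 1 := Nat.mul_le_mul_left _ (hlin j)
    _ = m j := mul_one _

end Pool.Agent.MSR
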