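import Pool.Agent.Lib.MP_f58a57_nt.R.Defs
import Pool.Agent.Lib.MP_f58a57_nt.P.T1_Prod

/-! # R/B2_TH: the functional `TH` -/

open Complex Filter Topology IntermediateField

noncomputable section

namespace Pool.Agent.MSR

open MSD MSP MSK

variable {d : ℕ}

theorem b2_TH (D : Dt d) (t : Fin (d + 1) → ℂ) (q : MvPolynomial (Fin (d + 1)) ℂ) (s : Finset (Fin (d + 1) →₀ ℕ)) (h : q.support ⊆ s) :
    TH D t q = ∑ m ∈ s, q.coeff m * ∏ l, iteratedDeriv (m l) (th D.τ) (D.h l + t l) := by
  unfold TH
  refine Finset.sum_subset h fun m _ hm => ?_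
  rw [MvPolynomial.notMem_support_iff.1 hm, zero_mul]

theorem TH_add (D : Dt d) (t : Fin (d + 1) → ℂ) (p q : MvPolynomial (Fin (d + 1)) ℂ) : TH D t (p + q) = TH D t p + TH D t q := by
  classical
  rw [b2_TH D t (p + q) (p.support ∪ q.support) MvPolynomial.support_add, b2_TH D t p (p.support ∪ q.support) Finset.subset_union_left,
    b2_TH D t q (p.support ∪ q.support) Finset.subset_union_right, ← Finset.sum_add_distrib]
  refine Finset.sum_congr rfl fun m _ => ?_
  rw [MvPolynomial.coeff_add, add_mul]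

theorem TH_sum {ι : Type} (D : Dt d) (t : Fin (d + 1) → ℂ) (s : Finset ι) (p : ι → MvPolynomial (Fin (d + 1)) ℂ) :
    TH D t (∑ i ∈ s, p i) = ∑ i ∈ s, TH D t (p i) := by
  classical
  induction s using Finset.induction_on with
  | empty =>
    rw [Finset.sum_empty, Finset.sum_empty]
    unfold TH
    rw [MvPolynomial.support_zero, Finset.sum_empty]
  | insert i s hi ih => rw [Finset.sum_insert hi, Finset.sum_insert hi, TH_add, ih]

theorem TH_C_mul (D : Dt d) (t : Fin (d + 1) → ℂ) (a : ℂ) (p : MvPolynomial (Fin (d + 1)) ℂ) :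
    TH D t (MvPolynomial.C a * p) = a * TH D t p := by
  have h : (MvPolynomial.C a * p).support ⊆ p.support := by
    intro m hm
    rw [MvPolynomial.mem_support_iff, MvPolynomial.coeff_C_mul] at hm
    exact MvPolynomial.mem_support_iff.2 (right_ne_zero_of_mul hm)
  rw [b2_TH D t _ _ h, TH, Finset.mul_sum]
  refine Finset.sum_congr rfl fun m _ => ?_
  rw [MvPolynomial.coeff_C_mul, mul_assoc]

theorem TH_monomial (D : Dt d) (t : Fin (d + 1) → ℂ) (m : Fin (d + 1) →₀ ℕ) (a : ℂ) :
    TH D t (MvPolynomial.monomial m a) = a * ∏ l, iteratedDeriv (m l) (th D.τ) (D.h l + t l) := by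
  classical
  rw [b2_TH D t _ {m} MvPolynomial.support_monomial_subset, Finset.sum_singleton, MvPolynomial.coeff_monomial, if_pos rfl]

theorem TH_one (D : Dt d) (t : Fin (d + 1) → ℂ) : TH D t 1 = pp D t := by
  have h : (1 : MvPolynomial (Fin (d + 1)) ℂ) = MvPolynomial.monomial 0 1 := rfl
  rw [h, TH_monomial, one_mul]
  unfold MSK.pp N0
  refine Finset.prod_congr rfl fun l _ => ?_
  rw [Finsupp.zero_apply, iteratedDeriv_zero]

theorem b2_iter (τ : ℂ) (hτ : 0 < τ.im) (k : ℕ) (u : ℂ) : HasDerivAt (iteratedDeriv k (th τ)) (iteratedDeriv (k + 1) (th τ) u) u := by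
  have h1 : ContDiff ℂ ((k + 1 : ℕ) : WithTop ℕ∞) (th τ) := (th_differentiable τ hτ).contDiff
  have h2 : Differentiable ℂ (iteratedDeriv k (th τ)) :=
    h1.differentiable_iteratedDeriv k (by exact_mod_cast Nat.lt_succ_self k)
  rw [iteratedDeriv_succ]
  exact (h2 u).hasDerivAt

/-- B2. PROOF. By linearity for `q = monomial m a`: the derivative of `∏_l th^(m_l)(h_l + t_l + s η_l)` is `∑_l η_l th^(m_l + 1)(..) ∏_{l' ≠ l} ..` (`HasDerivAt.finset_prod`; `iteratedDeriv k (th τ)` is entire and its derivative is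
`iteratedDeriv (k+1) (th τ)`, `iteratedDeriv_succ`, `th_differentiable`), and `X l * monomial m a = monomial (m + single l 1) a`. -/
theorem TH_line (D : Dt d) (t η : Fin (d + 1) → ℂ) (q : MvPolynomial (Fin (d + 1)) ℂ) (s₀ : ℂ) :
    HasDerivAt (fun s : ℂ => TH D (fun l => t l + s * η l) q)
      (TH D (fun l => t l + s₀ * η l) ((∑ l, MvPolynomial.C (η l) * MvPolynomial.X l) * q)) s₀ := by
  classical
  induction q using MvPolynomial.induction_on' with
  | monomial m a =>
    have e1 : (fun s : ℂ => TH D (fun l => t l + s * η l) (MvPolynomial.monomial m a)) =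
        fun s : ℂ => a * ∏ l, iteratedDeriv (m l) (th D.τ) (D.h l + (t l + s * η l)) := by
      funext s
      rw [TH_monomial]
    have e2 : TH D (fun l => t l + s₀ * η l) ((∑ l, MvPolynomial.C (η l) * MvPolynomial.X l) * MvPolynomial.monomial m a) =
        a * ∑ l, (∏ l' ∈ Finset.univ.erase l, iteratedDeriv (m l') (th D.τ) (D.h l' + (t l' + s₀ * η l'))) •
          (iteratedDeriv (m l + 1) (th D.τ) (D.h l + (t l + s₀ * η l)) * η l) := by
      rw [Finset.sum_mul, TH_sum, Finset.mul_sum]
      refine Finset.sum_congr rfl fun l _ => ?_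
      have e3 : MvPolynomial.C (η l) * MvPolynomial.X l * MvPolynomial.monomial m a =
          MvPolynomial.C (η l) * MvPolynomial.monomial (Finsupp.single l 1 + m) a := by
        rw [mul_assoc]
        congr 1
        rw [MvPolynomial.X, MvPolynomial.monomial_mul, one_mul]
      rw [e3, TH_C_mul, TH_monomial, ← Finset.mul_prod_erase Finset.univ _ (Finset.mem_univ l)]
      have e4 : ∏ l' ∈ Finset.univ.erase l, iteratedDeriv ((Finsupp.single l 1 + m : Fin (d + 1) →₀ ℕ) l') (th D.τ) (D.h l' + (t l' + s₀ * η l')) =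
          ∏ l' ∈ Finset.univ.erase l, iteratedDeriv (m l') (th D.τ) (D.h l' + (t l' + s₀ * η l')) := by
        refine Finset.prod_congr rfl fun l' hl' => ?_
        rw [Finsupp.add_apply, Finsupp.single_apply, if_neg (Finset.ne_of_mem_erase hl').symm, zero_add]
      rw [e4, Finsupp.add_apply, Finsupp.single_apply, if_pos rfl, smul_eq_mul, add_comm 1 (m l)]
      ring
    rw [e1, e2]
    refine HasDerivAt.const_mul a ?_
    refine HasDerivAt.fun_finsetProd fun l _ => ?_
    have h1 : HasDerivAt (fun s : ℂ => D.h l + (t l + s * η l)) (η l) s₀ := by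
      simpa using (((hasDerivAt_id s₀).mul_const (η l)).const_add (t l)).const_add (D.h l)
    exact (b2_iter D.τ D.im (m l) _).comp s₀ h1
  | add p q hp hq =>
    have e1 : (fun s : ℂ => TH D (fun l => t l + s * η l) (p + q)) =
        fun s : ℂ => TH D (fun l => t l + s * η l) p + TH D (fun l => t l + s * η l) q := by
      funext s
      rw [TH_add]
    rw [e1, mul_add, TH_add]
    exact hp.add hq

end Pool.Agent.MSR
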