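import Pool.Agent.Lib.MP_f58a57_nt.R.Defs
import Pool.Agent.Lib.MP_f58a57_nt.R.B2_TH
import Pool.Agent.Lib.MP_f58a57_nt.P.T4_Shift

/-! # R/B8_Shift: quasi periodicity of `TH` -/

open Complex Filter Topology IntermediateField

noncomputable section

namespace Pool.Agent.MSR

open MSD MSP MSK

variable {d : ℕ}

/-- the derivative of the automorphy factor along a line -/
theorem b8_au (D : Dt d) (t η : Fin (d + 1) → ℂ) (m n : Fin (d + 1) → ℤ) :
    HasDerivAt (fun s : ℂ => ∏ l, au D.τ (m l) (n l) (D.h l + (t l + s * η l)))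
      (-(∑ l, 2 * Real.pi * I * n l * η l) * ∏ l, au D.τ (m l) (n l) (D.h l + t l)) 0 := by
  have h1 : ∀ l : Fin (d + 1), HasDerivAt (fun s : ℂ => au D.τ (m l) (n l) (D.h l + (t l + s * η l)))
      (-(2 * Real.pi * I * n l) * au D.τ (m l) (n l) (D.h l + t l) * η l) 0 := by
    intro l
    have h2 : HasDerivAt (fun s : ℂ => D.h l + (t l + s * η l)) (η l) 0 := by
      have := (((hasDerivAt_id' (0 : ℂ)).mul_const (η l)).const_add (t l)).const_add (D.h l)
      simpa using this
    have h3 := T4_au_deriv D.τ (m l) (n l) (D.h l + (t l + 0 * η l))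
    have h4 := HasDerivAt.comp (0 : ℂ) h3 h2
    simpa [Function.comp_def] using h4
  have h5 := HasDerivAt.fun_finsetProd (u := Finset.univ) (fun l _ => h1 l)
  refine h5.congr_deriv ?_
  rw [← Finset.sum_neg_distrib, Finset.sum_mul]
  refine Finset.sum_congr rfl fun l _ => ?_
  simp only [smul_eq_mul, zero_mul, add_zero]
  rw [← Finset.mul_prod_erase Finset.univ (fun l => au D.τ (m l) (n l) (D.h l + t l)) (Finset.mem_univ l)]
  ring

/-- B8. PROOF. Let `λ_l = m_l + n_l τ`, `α(t) = ∏_l au τ (m_l) (n_l) (h_l + t_l)`. Induction on `q` (`MvPolynomial.induction_on`; the statement for all `t`): `q = C a`: `TH` is `a ∏ th(h_l + t_l)` and `N0_shift`. For `q X_l`: differentiate the identity for `q` in the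
direction `t_l` (`TH_line` with `η = single l 1`): left side `TH (t+λ) (X_l q)`; right side: `∂_l α = -2πi n_l α` (`au` is `cexp(.. - 2πi n t)`) so it is `α (TH t (X_l q^) - 2πi n_l TH t q^)`, `q^ = aeval (X - 2πi n) q`, which is
`α TH t (aeval (X - 2πi n) (q X_l))`. -/
theorem TH_shift (D : Dt d) (t : Fin (d + 1) → ℂ) (m n : Fin (d + 1) → ℤ) (q : MvPolynomial (Fin (d + 1)) ℂ) :
    TH D (fun l => t l + (m l + n l * D.τ)) q = (∏ l, au D.τ (m l) (n l) (D.h l + t l)) *
      TH D t (MvPolynomial.aeval (fun l => MvPolynomial.X l - MvPolynomial.C (2 * Real.pi * I * n l)) q) := by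
  induction q using MvPolynomial.induction_on generalizing t with
  | C a =>
    have e1 : ∀ t' : Fin (d + 1) → ℂ, TH D t' (MvPolynomial.C a) = a * MSK.pp D t' := by
      intro t'
      have := TH_C_mul D t' a 1
      rw [mul_one, TH_one] at this
      exact this
    rw [MvPolynomial.algHom_C, MvPolynomial.algebraMap_eq, e1, e1]
    unfold MSK.pp
    have e2 : ∏ l, N0 D.τ (D.h l + (t l + (m l + n l * D.τ))) =
        (∏ l, au D.τ (m l) (n l) (D.h l + t l)) * ∏ l, N0 D.τ (D.h l + t l) := by
      rw [← Finset.prod_mul_distrib]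
      refine Finset.prod_congr rfl fun l _ => ?_
      rw [← N0_shift D.τ D.im (m l) (n l) (D.h l + t l)]
      congr 1
      ring
    rw [e2]
    ring
  | add p q hp hq =>
    rw [TH_add, hp, hq, map_add, TH_add]
    ring
  | mul_X p i hp =>
    set η : Fin (d + 1) → ℂ := Pi.single i 1 with hη
    have hs : (∑ l, MvPolynomial.C (η l) * MvPolynomial.X l : MvPolynomial (Fin (d + 1)) ℂ) = MvPolynomial.X i := by
      rw [Finset.sum_eq_single i]
      · simp [hη]
      · intro l _ hl
        simp [hη, Pi.single_eq_of_ne hl]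
      · intro h
        exact absurd (Finset.mem_univ i) h
    set F : MvPolynomial (Fin (d + 1)) ℂ →ₐ[ℂ] MvPolynomial (Fin (d + 1)) ℂ :=
      MvPolynomial.aeval (fun l => MvPolynomial.X l - MvPolynomial.C (2 * Real.pi * I * n l)) with hF
    -- left side
    have hL := TH_line D (fun l => t l + (m l + n l * D.τ)) η p 0
    rw [hs] at hL
    have hR := (b8_au D t η m n).mul (TH_line D t η (F p) 0)
    rw [hs] at hR
    have hfun : (fun s : ℂ => TH D (fun l => t l + (m l + n l * D.τ) + s * η l) p) =
        fun s : ℂ => (∏ l, au D.τ (m l) (n l) (D.h l + (t l + s * η l))) * TH D (fun l => t l + s * η l) (F p) := by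
      funext s
      have h1 := hp (fun l => t l + s * η l)
      rw [← h1]
      congr 1
      funext l
      ring
    rw [hfun] at hL
    have hu := hL.unique hR
    simp only [zero_mul, add_zero] at hu
    have hsum : ∑ l, 2 * Real.pi * I * n l * η l = 2 * Real.pi * I * n i := by
      rw [Finset.sum_eq_single i]
      · simp [hη]
      · intro l _ hl
        simp [hη, Pi.single_eq_of_ne hl]
      · intro h
        exact absurd (Finset.mem_univ i) h
    rw [hsum] at hu
    have hFX : F (p * MvPolynomial.X i) = MvPolynomial.X i * F p - MvPolynomial.C (2 * Real.pi * I * n i) * F p := by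
      rw [map_mul, hF, MvPolynomial.aeval_X]
      ring
    have hsub : TH D t (MvPolynomial.X i * F p - MvPolynomial.C (2 * Real.pi * I * n i) * F p) =
        TH D t (MvPolynomial.X i * F p) - 2 * Real.pi * I * n i * TH D t (F p) := by
      have e3 : MvPolynomial.X i * F p - MvPolynomial.C (2 * Real.pi * I * n i) * F p =
          MvPolynomial.X i * F p + MvPolynomial.C (-(2 * Real.pi * I * n i)) * F p := by
        rw [MvPolynomial.C_neg]
        ring
      rw [e3, TH_add, TH_C_mul]
      ring
    rw [hFX, hsub, mul_comm p]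
    rw [hu]
    ring

end Pool.Agent.MSR
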