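import Pool.Agent.Lib.MP_f58a57_nt.R.Defs
import Pool.Agent.Lib.MP_f58a57_nt.R.B8_Shift
import Pool.Agent.Lib.MP_f58a57_nt.K.C4_Shift
import Pool.Agent.Lib.MP_f58a57_nt.K.C2_Geo

/-! # R/B9_NnShift: invariance under the lattice -/

open Complex Filter Topology IntermediateField

noncomputable section

namespace Pool.Agent.MSR

open MSD MSP MSK

variable {d : ℕ}

theorem b9_WV (P : Par d) (D : Dt d) (hs : D.s = 0) (w : Fin d → ℂ) (j : Fin d) : WV P D w j = D.om * w j := by
  unfold WV As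
  rw [hs, zero_mul, add_zero]
  simp only [tt, Fin.cons_succ]

theorem b9_rhv (P : Par d) (N : Fin (d + 1) → ℂ) (j : Fin d) :
    ∑ l, rhv P l j * N l = rh * (N j.castSucc + P.b j.succ * N (Fin.last d) - P.z * N j.succ) := by
  have e : ∀ l, rhv P l j * N l = rh * ((if l = j.castSucc then N l else 0) + (if l = Fin.last d then P.b j.succ * N l else 0)
      - (if l = j.succ then P.z * N l else 0)) := by
    intro l
    unfold rhv
    split_ifs <;> ring
  rw [Finset.sum_congr rfl fun l _ => e l, ← Finset.mul_sum, Finset.sum_sub_distrib, Finset.sum_add_distrib]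
  simp

/-- the shift of the linear polynomials -/
theorem b9_lin (P : Par d) (D : Dt d) (hom : D.om ^ 2 = Real.pi) (W W' : Fin d → ℂ) (N : Fin (d + 1) → ℤ) (j : Fin d)
    (hW : W' j = W j + D.om * (-(N j.castSucc + P.b j.succ * N (Fin.last d)) + N j.succ * P.z)) :
    MvPolynomial.aeval (fun l => MvPolynomial.X l - MvPolynomial.C (2 * Real.pi * I * N l) : Fin (d + 1) → MvPolynomial (Fin (d + 1)) ℂ)
      (lin P D W' j) = lin P D W j := by
  have hne := D.ne
  have hpi : (Real.pi : ℂ) / D.om = D.om := by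
    rw [← hom]
    field_simp
  have hI : (I : ℂ) * I = -1 := Complex.I_mul_I
  have e1 : rh / D.om * (2 * Real.pi * I) = D.om := by
    unfold rh
    have : -I / 2 / D.om * (2 * (Real.pi : ℂ) * I) = -(I * I) * (Real.pi / D.om) := by
      field_simp
    rw [this, hI, hpi]
    ring
  have hsum : 1 / D.om * ∑ l, rhv P l j * (2 * Real.pi * I * N l) =
      D.om * (N j.castSucc + P.b j.succ * N (Fin.last d) - P.z * N j.succ) := by
    rw [b9_rhv P (fun l => 2 * Real.pi * I * N l) j]
    have e2 : 1 / D.om * (rh * (2 * Real.pi * I * N j.castSucc + P.b j.succ * (2 * Real.pi * I * N (Fin.last d)) -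
        P.z * (2 * Real.pi * I * N j.succ))) = rh / D.om * (2 * Real.pi * I) *
        (N j.castSucc + P.b j.succ * N (Fin.last d) - P.z * N j.succ) := by
      ring
    rw [e2, e1]
  unfold MSR.lin
  obtain ⟨K, hK⟩ : ∃ K : Fin (d + 1) → ℂ, ∀ l, 2 * Real.pi * I * N l = K l := ⟨_, fun _ => rfl⟩
  simp only [hK] at hsum ⊢
  simp only [map_sub, map_mul, map_sum, MvPolynomial.algHom_C, MvPolynomial.algebraMap_eq, MvPolynomial.aeval_X]
  have e3 : ∑ l, MvPolynomial.C (rhv P l j) * (MvPolynomial.X l - MvPolynomial.C (K l)) =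
      (∑ l, MvPolynomial.C (rhv P l j) * MvPolynomial.X l : MvPolynomial (Fin (d + 1)) ℂ) -
      MvPolynomial.C (∑ l, rhv P l j * K l) := by
    rw [map_sum, ← Finset.sum_sub_distrib]
    refine Finset.sum_congr rfl fun l _ => ?_
    rw [mul_sub, ← MvPolynomial.C_mul]
  rw [e3]
  have e4 : (MvPolynomial.C (W' j + lam P D j) : MvPolynomial (Fin (d + 1)) ℂ) = MvPolynomial.C (W j + lam P D j) -
      MvPolynomial.C (1 / D.om) * MvPolynomial.C (∑ l, rhv P l j * K l) := by
    rw [← MvPolynomial.C_mul, ← MvPolynomial.C_sub, hsum, hW]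
    congr 1
    ring
  rw [e4]
  ring

/-- B9. PROOF. As `Nn_shift` in K/C4_Shift (same notation there). `D.τ = z`, `D.s = 0` (`kap = sE/om²`), so `WV P D v j = om v_j` (`As P 0 v j = tt v j.succ = v_j`), `om² = π`. Let `N_l = q n_l ∈ ℤ`, `m_l = mm P.b N l ∈ ℤ` (`hq`), `γ = gam P N`,
`tt z (v + γ) l = tt z v l + m_l + N_l z` (`tt_gam`). By `TH_shift`: `GA (v + γ) = α TH t (aeval (X - 2πi N) (aeval (lin (W + om γ)) B))`, `t = tt z (v - p0)`, and `aeval (X - 2πi N) (lin (W + om γ) j) = lin W j` because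
`om γ_j + (2πi/om) ∑_l rhv_lj N_l = om (m_j + N_j z) + (π/om)(N_{j-1} + b_j N_d - z N_j) = 0` (`2πi rh = π`, `π/om = om`, `m_j = -N_{j-1} - b_j N_d`; indices `j.castSucc, Fin.last d, j.succ`). So `GA(v + γ) = α GA(v)`,
`α = ∏ au z m_l N_l (tt z v l)` (`hP_add`, `D.h = hP z`) and `‖α‖ = exp(Qf(v+γ) - Qf(v))` as in C4c (`norm_au`, `ro_add, ro_gam`). -/
theorem NnR_shift (P : Par d) (hd : 2 ≤ d) (D : Dt d) (hD : IsOrig P D) (q : ℕ) (hq : ∀ l, ∃ m : ℤ, (q : ℚ) * P.b l = m) {E : ℕ} (c : Ir d E → ℂ)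
    (n : Fin (d + 1) → ℤ) (v : Fin d → ℂ) :
    Nn P 1 (GA P D c) (v + gam P (fun l => (q : ℝ) * n l)) = Nn P 1 (GA P D c) v := by
  choose β hβ using hq
  have hβR : ∀ l, (P.b l : ℝ) * q = β l := by
    intro l
    have h := congrArg (fun x : ℚ => (x : ℝ)) (hβ l)
    push_cast at h
    linarith
  -- the integer vectors
  obtain ⟨N, hN⟩ : ∃ N : Fin (d + 1) → ℤ, N = fun l => (q : ℤ) * n l := ⟨_, rfl⟩
  obtain ⟨m, hm⟩ : ∃ m : Fin (d + 1) → ℤ, ∀ l, mm P.b (fun l => (q : ℝ) * n l) l = (m l : ℝ) := by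
    refine ⟨Fin.cons (-β 0 * n (Fin.last d)) (fun j => -(q * n j.castSucc) - β j.succ * n (Fin.last d)), fun l => ?_⟩
    refine Fin.cases ?_ (fun j => ?_) l
    · simp only [mm, Fin.cons_zero]
      push_cast
      rw [← hβR 0]
      ring
    · simp only [mm, Fin.cons_succ]
      push_cast
      rw [← hβR j.succ]
      ring
  obtain ⟨g, hg⟩ : ∃ g : Fin d → ℂ, g = gam P (fun l => (q : ℝ) * n l) := ⟨_, rfl⟩
  have htg : ∀ l, tt P.z g l = m l + N l * P.z := by
    intro l
    rw [hg, tt_gam, hm l, hN]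
    push_cast
    ring
  rw [← hg]
  obtain ⟨t, ht⟩ : ∃ t : Fin (d + 1) → ℂ, t = tt P.z v := ⟨_, rfl⟩
  have ht' : ∀ l, tt P.z (v + g) l = t l + m l + N l * P.z := by
    intro l
    rw [c4_tt_add, htg, ht]
    ring
  have hz : 0 < P.z.im := P.im
  have hd1 : 1 ≤ d := by omega
  have harg : ∀ (u : Fin d → ℂ) (l : Fin (d + 1)), D.h l + tt P.z (fun j => u j - p0 P.z j) l = tt P.z u l := by
    intro u l
    rw [hD.h]
    exact hP_add P.z hd1 u l
  have hs : D.s = 0 := by
    unfold Dt.s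
    rw [hD.kap, hD.om, hD.τ, sub_self, mul_zero]
  have hw : ∀ j : Fin d, (v + g) j - p0 P.z j = (v j - p0 P.z j) +
      (-(N j.castSucc + P.b j.succ * N (Fin.last d)) + N j.succ * P.z) := by
    intro j
    have h1 : g j = m j.succ + N j.succ * P.z := by
      have h2 := htg j.succ
      simp only [tt, Fin.cons_succ] at h2
      exact h2
    have h3 : ((m j.succ : ℤ) : ℂ) = -(N j.castSucc + P.b j.succ * N (Fin.last d)) := by
      have h4 := hm j.succ
      simp only [mm, Fin.cons_succ] at h4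
      have h5 := congrArg (fun x : ℝ => (x : ℂ)) h4
      push_cast at h5
      rw [← h5, hN]
      push_cast
      ring
    simp only [Pi.add_apply]
    rw [h1, h3]
    ring
  have hG : GA P D c (v + g) = (∏ l, au P.z (m l) (N l) (t l)) * GA P D c v := by
    unfold GA GR
    have h1 : tt P.z (fun j => (v + g) j - p0 P.z j) =
        fun l => tt P.z (fun j => v j - p0 P.z j) l + (m l + N l * D.τ) := by
      funext l
      rw [hD.τ]
      have e1 := harg (v + g) l
      have e2 := harg v l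
      have e3 := ht' l
      rw [ht] at e3
      linear_combination e1 - e2 + e3
    rw [h1, TH_shift]
    have h2 : ∏ l, au D.τ (m l) (N l) (D.h l + tt P.z (fun j => v j - p0 P.z j) l) = ∏ l, au P.z (m l) (N l) (t l) := by
      refine Finset.prod_congr rfl fun l _ => ?_
      rw [harg, hD.τ, ← ht]
    rw [h2]
    congr 2
    have h3 : ∀ B : MvPolynomial (Fin d) ℂ, MvPolynomial.aeval (fun l => MvPolynomial.X l - MvPolynomial.C (2 * Real.pi * I * N l) :
        Fin (d + 1) → MvPolynomial (Fin (d + 1)) ℂ) (MvPolynomial.aeval (MSR.lin P D (WV P D fun j => (v + g) j - p0 P.z j)) B) =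
        MvPolynomial.aeval (MSR.lin P D (WV P D fun j => v j - p0 P.z j)) B := by
      intro B
      rw [MvPolynomial.comp_aeval_apply]
      congr 2
      funext j
      refine b9_lin P D hD.om _ _ N j ?_
      rw [b9_WV P D hs, b9_WV P D hs, hw j]
      ring
    exact h3 _
  -- the exponents
  have hnorm : ‖∏ l, au P.z (m l) (N l) (t l)‖ = Real.exp (∑ l, (Real.pi * (N l : ℝ) ^ 2 * P.z.im + 2 * Real.pi * N l * (t l).im)) := by
    rw [norm_prod, Real.exp_sum]
    exact Finset.prod_congr rfl fun l _ => norm_au P.z (m l) (N l) (t l)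
  have hP2 : P2 P (v + g) = P2 P v := by
    unfold P2
    refine Finset.sum_congr rfl fun l _ => ?_
    rw [ro_add, hg, ro_gam, add_zero]
  have hQ : Qf P (v + g) = Qf P v + ∑ l, (Real.pi * (N l : ℝ) ^ 2 * P.z.im + 2 * Real.pi * N l * (t l).im) := by
    unfold Qf
    rw [hP2]
    have h1 : ∑ l, (tt P.z (v + g) l).im ^ 2 / P.z.im = ∑ l, (tt P.z v l).im ^ 2 / P.z.im +
        ∑ l, ((N l : ℝ) ^ 2 * P.z.im + 2 * N l * (t l).im) := by
      rw [← Finset.sum_add_distrib]
      refine Finset.sum_congr rfl fun l _ => ?_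
      have h2 : (tt P.z (v + g) l).im = (t l).im + N l * P.z.im := by
        rw [ht' l]
        simp [Complex.add_im, Complex.mul_im]
      rw [h2, ← ht]
      field_simp
      ring
    rw [h1]
    have h3 : ∑ l, (Real.pi * (N l : ℝ) ^ 2 * P.z.im + 2 * Real.pi * N l * (t l).im) =
        Real.pi * ∑ l, ((N l : ℝ) ^ 2 * P.z.im + 2 * N l * (t l).im) := by
      rw [Finset.mul_sum]
      refine Finset.sum_congr rfl fun l _ => ?_
      ring
    rw [h3]
    ring
  unfold Nn
  rw [hG, norm_mul, hnorm, hQ]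
  have e : ∀ A B C : ℝ, Real.exp A * C * Real.exp (-((1 : ℕ) * (B + A))) = C * Real.exp (-((1 : ℕ) * B)) := by
    intro A B C
    have : Real.exp (-((1 : ℕ) * B)) = Real.exp A * Real.exp (-((1 : ℕ) * (B + A))) := by
      rw [← Real.exp_add]
      congr 1
      push_cast
      ring
    rw [this]
    ring
  exact e _ _ _

end Pool.Agent.MSR
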