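import Pool.Agent.Lib.MP_f58a57_nt.R.Defs
import Pool.Agent.Lib.MP_f58a57_nt.K.A1_Deriv

/-! # R/B1_Psi: the covariant derivative as a derivative along a line -/

open Complex Filter Topology IntermediateField

noncomputable section

namespace Pool.Agent.MSR

open MSD MSP MSK

variable {d : ℕ}

theorem b1_shift (a r om : ℂ) : HasDerivAt (fun s : ℂ => a - s / om * r) (-(r / om)) 0 := by
  have h := (((hasDerivAt_id (0 : ℂ)).div_const om).mul_const r).const_sub a
  have e : -(1 / om * r) = -(r / om) := by ring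
  rw [e] at h
  exact h

theorem b1_add_shift (h a r om : ℂ) : HasDerivAt (fun s : ℂ => h + (a - s / om * r)) (-(r / om)) 0 :=
  (b1_shift a r om).const_add h

theorem b1_at (h a r om : ℂ) : h + (a - 0 / om * r) = h + a := by
  rw [zero_div, zero_mul, sub_zero]

theorem b1_X (D : Dt d) (l : Fin (d + 1)) (a r : ℂ) (h : th D.τ (D.h l + a) ≠ 0) :
    HasDerivAt (fun s : ℂ => D.X l (a - s / D.om * r)) (-(r * D.Y l a)) 0 := by
  have h0 := D.ne
  have h1 := b1_add_shift (D.h l) a r D.om
  have h2 := (wp_analyticAt D.τ (sE D.τ) D.im _ h).differentiableAt.hasDerivAt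
  rw [← b1_at (D.h l) a r D.om] at h2
  have h3 := (h2.comp (0 : ℂ) h1).div_const (D.om ^ 2)
  have e : -(r * D.Y l a) = deriv (wp D.τ (sE D.τ)) (D.h l + (a - 0 / D.om * r)) * (-(r / D.om)) / D.om ^ 2 := by
    rw [b1_at]
    unfold Dt.Y
    field_simp
  rw [e]
  exact h3

theorem b1_Y (D : Dt d) (l : Fin (d + 1)) (a r : ℂ) (h : th D.τ (D.h l + a) ≠ 0) :
    HasDerivAt (fun s : ℂ => D.Y l (a - s / D.om * r))
      (-(r * (6 * D.X l a ^ 2 - 2 / 3 * Real.pi ^ 4 * e4 D.τ / D.om ^ 4))) 0 := by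
  have h0 := D.ne
  have h1 := b1_add_shift (D.h l) a r D.om
  have h2 := wp_ode2 D.τ D.im _ h
  have h2' : HasDerivAt (deriv (wp D.τ (sE D.τ)))
      (6 * wp D.τ (sE D.τ) (D.h l + a) ^ 2 - 2 / 3 * Real.pi ^ 4 * MSD.e4 D.τ) (D.h l + (a - 0 / D.om * r)) := by
    rw [b1_at]
    exact h2
  have h3 := (h2'.comp (0 : ℂ) h1).div_const (D.om ^ 3)
  have e : -(r * (6 * D.X l a ^ 2 - 2 / 3 * Real.pi ^ 4 * e4 D.τ / D.om ^ 4)) =
      (6 * wp D.τ (sE D.τ) (D.h l + a) ^ 2 - 2 / 3 * Real.pi ^ 4 * MSD.e4 D.τ) * (-(r / D.om)) / D.om ^ 3 := by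
    unfold Dt.X
    field_simp
  rw [e]
  exact h3

theorem b1_ps (D : Dt d) (l : Fin (d + 1)) (a r : ℂ) (h : th D.τ (D.h l + a) ≠ 0) :
    HasDerivAt (fun s : ℂ => D.ps l (a - s / D.om * r)) ((D.om ^ 2 * D.X l a + sE D.τ) * (r / D.om)) 0 := by
  have h0 := D.ne
  have h1 := b1_add_shift (D.h l) a r D.om
  have h2 := hasDerivAt_ph D.τ (sE D.τ) D.im _ h
  have h2' : HasDerivAt (ph D.τ) (-(wp D.τ (sE D.τ) (D.h l + a) + sE D.τ)) (D.h l + (a - 0 / D.om * r)) := by
    rw [b1_at]
    exact h2
  have h3 := (h2'.comp (0 : ℂ) h1).sub_const (ph D.τ (D.h l))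
  have e1 : D.om ^ 2 * D.X l a = wp D.τ (sE D.τ) (D.h l + a) := by
    unfold Dt.X
    field_simp
  have e : (D.om ^ 2 * D.X l a + sE D.τ) * (r / D.om) =
      -(wp D.τ (sE D.τ) (D.h l + a) + sE D.τ) * (-(r / D.om)) := by
    rw [e1]
    ring
  rw [e]
  exact h3

theorem b1_pp (D : Dt d) (r t : Fin (d + 1) → ℂ) (h : ∀ l, th D.τ (D.h l + t l) ≠ 0) :
    HasDerivAt (fun s : ℂ => pp D (fun l => t l - s / D.om * r l))
      (-(1 / D.om * ∑ l, r l * ph D.τ (D.h l + t l)) * pp D t) 0 := by
  have h1 : ∀ l, HasDerivAt (fun s : ℂ => N0 D.τ (D.h l + (t l - s / D.om * r l)))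
      (-(r l / D.om * N1 D.τ (D.h l + t l))) 0 := by
    intro l
    have h2 := b1_add_shift (D.h l) (t l) (r l) D.om
    have h3 : HasDerivAt (th D.τ) (deriv (th D.τ) (D.h l + t l)) (D.h l + (t l - 0 / D.om * r l)) := by
      rw [b1_at]
      exact (th_differentiable D.τ D.im _).hasDerivAt
    have h4 := h3.comp (0 : ℂ) h2
    have e : -(r l / D.om * N1 D.τ (D.h l + t l)) = deriv (th D.τ) (D.h l + t l) * (-(r l / D.om)) := by
      unfold N1
      ring
    rw [e]
    exact h4
  have h2 := HasDerivAt.fun_finsetProd (u := Finset.univ) (fun l _ => h1 l)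
  have e : -(1 / D.om * ∑ l, r l * ph D.τ (D.h l + t l)) * pp D t =
      ∑ l, (∏ m ∈ Finset.univ.erase l, N0 D.τ (D.h m + (t m - 0 / D.om * r m))) •
        (-(r l / D.om * N1 D.τ (D.h l + t l))) := by
    rw [Finset.mul_sum, ← Finset.sum_neg_distrib, Finset.sum_mul]
    refine Finset.sum_congr rfl fun l _ => ?_
    have h3 : pp D t = N0 D.τ (D.h l + t l) * ∏ m ∈ Finset.univ.erase l, N0 D.τ (D.h m + t m) := by
      unfold MSK.pp
      rw [Finset.mul_prod_erase _ (fun m => N0 D.τ (D.h m + t m)) (Finset.mem_univ l)]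
    have h4 : ∏ m ∈ Finset.univ.erase l, N0 D.τ (D.h m + (t m - 0 / D.om * r m)) =
        ∏ m ∈ Finset.univ.erase l, N0 D.τ (D.h m + t m) :=
      Finset.prod_congr rfl fun m _ => by rw [b1_at]
    have h5 : ph D.τ (D.h l + t l) * N0 D.τ (D.h l + t l) = N1 D.τ (D.h l + t l) := by
      unfold ph
      exact div_mul_cancel₀ _ (h l)
    rw [h3, h4, smul_eq_mul, ← h5]
    ring
  rw [e]
  exact h2

theorem b1_rhp (P : Par d) (D : Dt d) (W : Fin d → ℂ) (t : Fin (d + 1) → ℂ) (l : Fin (d + 1)) (j : Fin d) :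
    MvPolynomial.aeval (evW P D W t) (rhp l j) = rhv P l j := by
  unfold rhp rhv
  rw [map_mul, map_sub, map_add, MvPolynomial.aeval_X]
  have e1 : MvPolynomial.aeval (evW P D W t) (if l = j.castSucc then 1 else 0 : MvPolynomial (Vr d) ℤ) =
      if l = j.castSucc then 1 else 0 := by
    split_ifs
    · exact map_one _
    · exact map_zero _
  have e2 : MvPolynomial.aeval (evW P D W t)
      (if l = Fin.last d then MvPolynomial.X (Vr.b j.succ) else 0 : MvPolynomial (Vr d) ℤ) =
      if l = Fin.last d then (P.b j.succ : ℂ) else 0 := by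
    split_ifs
    · exact MvPolynomial.aeval_X _ _
    · exact map_zero _
  have e3 : MvPolynomial.aeval (evW P D W t) (if l = j.succ then MvPolynomial.X Vr.z else 0 : MvPolynomial (Vr d) ℤ) =
      if l = j.succ then P.z else 0 := by
    split_ifs
    · exact MvPolynomial.aeval_X _ _
    · exact map_zero _
  rw [e1, e2, e3]
  rfl

/-- the derivative of the values of the polynomials along the line -/
theorem b1_ev (P : Par d) (D : Dt d) (j : Fin d) (W : Fin d → ℂ) (t : Fin (d + 1) → ℂ)
    (h : ∀ l, th D.τ (D.h l + t l) ≠ 0) (R : MvPolynomial (Vr d) ℤ) :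
    HasDerivAt (fun s : ℂ => MvPolynomial.aeval (evW P D (fun i => W i + s * qq P D i j)
      (fun l => t l - s / D.om * rhv P l j)) R) (MvPolynomial.aeval (evW P D W t) (dlt j R)) 0 := by
  have h0 := D.ne
  have e0 : evW P D (fun i => W i + 0 * qq P D i j) (fun l => t l - 0 / D.om * rhv P l j) = evW P D W t := by
    congr 1
    · funext i
      rw [zero_mul, add_zero]
    · funext l
      rw [zero_div, zero_mul, sub_zero]
  have key := a1_main (fun s : ℂ => evW P D (fun i => W i + s * qq P D i j) (fun l => t l - s / D.om * rhv P l j))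
    (dlv j) 1 0 (fun v => ?_) R
  · rw [e0, one_mul] at key
    exact key
  · rw [e0, one_mul]
    cases v with
    | X l =>
      have e : MvPolynomial.aeval (evW P D W t) (dlv j (Vr.X l)) = -(rhv P l j * D.Y l (t l)) := by
        simp only [dlv, map_neg, map_mul, b1_rhp, MvPolynomial.aeval_X]
        rfl
      rw [e]
      exact b1_X D l (t l) (rhv P l j) (h l)
    | Y l =>
      have e : MvPolynomial.aeval (evW P D W t) (dlv j (Vr.Y l)) =
          -(rhv P l j * (6 * D.X l (t l) ^ 2 - 2 / 3 * Real.pi ^ 4 * e4 D.τ / D.om ^ 4)) := by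
        simp only [dlv, map_neg, map_mul, map_sub, map_pow, b1_rhp, MvPolynomial.aeval_X, map_ofNat]
        rfl
      rw [e]
      exact b1_Y D l (t l) (rhv P l j) (h l)
    | Q i =>
      have e : MvPolynomial.aeval (evW P D W t) (dlv j (Vr.Q i)) =
          -∑ l, rhv P l i * rhv P l j * D.X l (t l) := by
        simp only [dlv, map_neg, map_sum, map_mul, b1_rhp, MvPolynomial.aeval_X]
        rfl
      rw [e]
      have h1 : HasDerivAt (fun s : ℂ => W i + s * qq P D i j) (qq P D i j) 0 := by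
        simpa using ((hasDerivAt_id (0 : ℂ)).mul_const (qq P D i j)).const_add (W i)
      have h2 : HasDerivAt (fun s : ℂ => ∑ l, rhv P l i * D.ps l (t l - s / D.om * rhv P l j))
          (∑ l, rhv P l i * ((D.om ^ 2 * D.X l (t l) + sE D.τ) * (rhv P l j / D.om))) 0 :=
        HasDerivAt.fun_sum fun l _ => (b1_ps D l (t l) (rhv P l j) (h l)).const_mul (rhv P l i)
      have h3 := h1.fun_sub (h2.const_mul (1 / D.om))
      have e2 : -∑ l, rhv P l i * rhv P l j * D.X l (t l) = qq P D i j -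
          1 / D.om * ∑ l, rhv P l i * ((D.om ^ 2 * D.X l (t l) + sE D.τ) * (rhv P l j / D.om)) := by
        unfold qq
        rw [Finset.mul_sum, Finset.mul_sum, ← Finset.sum_sub_distrib, ← Finset.sum_neg_distrib]
        refine Finset.sum_congr rfl fun l _ => ?_
        field_simp
        ring
      rw [e2]
      exact h3
    | b l =>
      simp only [dlv, map_zero]
      exact hasDerivAt_const _ _
    | g =>
      simp only [dlv, map_zero]
      exact hasDerivAt_const _ _
    | k =>
      simp only [dlv, map_zero]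
      exact hasDerivAt_const _ _
    | z =>
      simp only [dlv, map_zero]
      exact hasDerivAt_const _ _
    | r =>
      simp only [dlv, map_zero]
      exact hasDerivAt_const _ _

/-- B1. The covariant derivative as a derivative along a line. -/
theorem psi_line (P : Par d) (D : Dt d) (j : Fin d) (W : Fin d → ℂ) (t : Fin (d + 1) → ℂ) (h : ∀ l, th D.τ (D.h l + t l) ≠ 0)
    (R : MvPolynomial (Vr d) ℤ) :
    HasDerivAt (fun s : ℂ => MvPolynomial.aeval (evW P D (fun i => W i + s * qq P D i j) (fun l => t l - s / D.om * rhv P l j)) R *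
        pp D (fun l => t l - s / D.om * rhv P l j))
      (MvPolynomial.aeval (evW P D W t) (nab j R) * pp D t - (W j + lam P D j) * (MvPolynomial.aeval (evW P D W t) R * pp D t)) 0 := by
  have h1 := b1_ev P D j W t h R
  have h2 := b1_pp D (fun l => rhv P l j) t h
  have h3 := h1.fun_mul h2
  have e0 : evW P D (fun i => W i + 0 * qq P D i j) (fun l => t l - 0 / D.om * rhv P l j) = evW P D W t := by
    congr 1
    · funext i
      rw [zero_mul, add_zero]
    · funext l
      rw [zero_div, zero_mul, sub_zero]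
  have e1 : (fun l => t l - 0 / D.om * rhv P l j) = t := by
    funext l
    rw [zero_div, zero_mul, sub_zero]
  rw [e0, e1] at h3
  have e2 : MvPolynomial.aeval (evW P D W t) (nab j R) = MvPolynomial.aeval (evW P D W t) (dlt j R) +
      (W j - 1 / D.om * ∑ l, rhv P l j * ph D.τ (D.h l + t l) + lam P D j) * MvPolynomial.aeval (evW P D W t) R := by
    unfold nab
    rw [map_add, map_mul, MvPolynomial.aeval_X]
    congr 2
    change W j - 1 / D.om * ∑ l, rhv P l j * D.ps l (t l) = _
    unfold lam Dt.ps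
    simp only [mul_sub, Finset.sum_sub_distrib]
    ring
  rw [e2]
  have e3 : (MvPolynomial.aeval (evW P D W t) (dlt j R) +
      (W j - 1 / D.om * ∑ l, rhv P l j * ph D.τ (D.h l + t l) + lam P D j) * MvPolynomial.aeval (evW P D W t) R) * pp D t -
      (W j + lam P D j) * (MvPolynomial.aeval (evW P D W t) R * pp D t) =
      MvPolynomial.aeval (evW P D W t) (dlt j R) * pp D t +
      MvPolynomial.aeval (evW P D W t) R * (-(1 / D.om * ∑ l, rhv P l j * ph D.τ (D.h l + t l)) * pp D t) := by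
    ring
  rw [e3]
  exact h3

end Pool.Agent.MSR
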