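import Pool.Agent.Lib.MP_f58a57_nt.R.Defs
import Pool.Agent.Lib.MP_f58a57_nt.R.B2_TH

/-! # R/B3_THLine: the operators `bb` as derivatives along a line -/

open Complex Filter Topology IntermediateField

noncomputable section

namespace Pool.Agent.MSR

open MSD MSP MSK

variable {d : ℕ}

/-- the linear form of the direction -/
def b3_N (P : Par d) (D : Dt d) (j : Fin d) : MvPolynomial (Fin (d + 1)) ℂ :=
  ∑ l, MvPolynomial.C (-(1 / D.om * rhv P l j)) * MvPolynomial.X l

theorem b3_lin (P : Par d) (D : Dt d) (W : Fin d → ℂ) (j : Fin d) :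
    lin P D W j = MvPolynomial.C (W j + lam P D j) + b3_N P D j := by
  unfold lin b3_N
  rw [sub_eq_add_neg, Finset.mul_sum, ← Finset.sum_neg_distrib]
  congr 1
  refine Finset.sum_congr rfl fun l _ => ?_
  rw [map_neg, map_mul]
  ring

theorem b3_TH_neg (D : Dt d) (t : Fin (d + 1) → ℂ) (p : MvPolynomial (Fin (d + 1)) ℂ) : TH D t (-p) = -TH D t p := by
  have h : -p = MvPolynomial.C (-1) * p := by
    rw [map_neg, MvPolynomial.C_1, neg_one_mul]
  rw [h, TH_C_mul, neg_one_mul]

theorem b3_gen (P : Par d) (D : Dt d) (j : Fin d) (W : Fin d → ℂ) (t : Fin (d + 1) → ℂ) (B : MvPolynomial (Fin d) ℂ) :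
    ∀ q₀ : MvPolynomial (Fin (d + 1)) ℂ, HasDerivAt (fun s : ℂ => TH D (fun l => t l + s * -(1 / D.om * rhv P l j))
        (q₀ * MvPolynomial.aeval (lin P D (fun i => W i + s * qq P D i j)) B))
      (TH D t (b3_N P D j * (q₀ * MvPolynomial.aeval (lin P D W) B)) +
        TH D t (q₀ * MvPolynomial.aeval (lin P D W) (∑ i, MvPolynomial.C (qq P D i j) * MvPolynomial.pderiv i B))) 0 := by
  classical
  have hW0 : (fun i => W i + (0 : ℂ) * qq P D i j) = W := by
    funext i
    rw [zero_mul, add_zero]
  have ht0 : (fun l => t l + (0 : ℂ) * -(1 / D.om * rhv P l j)) = t := by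
    funext l
    rw [zero_mul, add_zero]
  induction B using MvPolynomial.induction_on with
  | C a =>
    intro q₀
    have h1 := TH_line D t (fun l => -(1 / D.om * rhv P l j)) (q₀ * MvPolynomial.aeval (lin P D W) (MvPolynomial.C a)) 0
    have e1 : ∀ s : ℂ, MvPolynomial.aeval (lin P D (fun i => W i + s * qq P D i j)) (MvPolynomial.C a : MvPolynomial (Fin d) ℂ) =
        MvPolynomial.aeval (lin P D W) (MvPolynomial.C a) := by
      intro s
      rw [MvPolynomial.aeval_C, MvPolynomial.aeval_C]
    have e2 : (∑ i, MvPolynomial.C (qq P D i j) * MvPolynomial.pderiv i (MvPolynomial.C a : MvPolynomial (Fin d) ℂ)) = 0 := by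
      refine Finset.sum_eq_zero fun i _ => ?_
      rw [MvPolynomial.pderiv_C, mul_zero]
    have e3 : TH D t (0 : MvPolynomial (Fin (d + 1)) ℂ) = 0 := by
      unfold TH
      rw [MvPolynomial.support_zero, Finset.sum_empty]
    rw [e2, map_zero, mul_zero, e3, add_zero]
    simp only [e1]
    rw [ht0] at h1
    exact h1
  | add p q hp hq =>
    intro q₀
    have h1 := (hp q₀).fun_add (hq q₀)
    have e1 : (fun s : ℂ => TH D (fun l => t l + s * -(1 / D.om * rhv P l j))
        (q₀ * MvPolynomial.aeval (lin P D (fun i => W i + s * qq P D i j)) (p + q))) =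
        fun s : ℂ => TH D (fun l => t l + s * -(1 / D.om * rhv P l j))
          (q₀ * MvPolynomial.aeval (lin P D (fun i => W i + s * qq P D i j)) p) +
          TH D (fun l => t l + s * -(1 / D.om * rhv P l j)) (q₀ * MvPolynomial.aeval (lin P D (fun i => W i + s * qq P D i j)) q) := by
      funext s
      rw [map_add, mul_add, TH_add]
    have e2 : (∑ i, MvPolynomial.C (qq P D i j) * MvPolynomial.pderiv i (p + q)) =
        (∑ i, MvPolynomial.C (qq P D i j) * MvPolynomial.pderiv i p) + ∑ i, MvPolynomial.C (qq P D i j) * MvPolynomial.pderiv i q := by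
      rw [← Finset.sum_add_distrib]
      refine Finset.sum_congr rfl fun i _ => ?_
      rw [map_add, mul_add]
    rw [e1, e2, map_add, map_add, mul_add, mul_add, mul_add, TH_add, TH_add]
    have e3 : ∀ x y z w : ℂ, x + y + (z + w) = x + z + (y + w) := fun x y z w => by ring
    rw [e3]
    exact h1
  | mul_X p i hp =>
    intro q₀
    have h1 := hp q₀
    have h2 := hp (q₀ * b3_N P D i)
    have h3 : HasDerivAt (fun s : ℂ => W i + s * qq P D i j + lam P D i) (qq P D i j) 0 := by
      simpa using (((hasDerivAt_id (0 : ℂ)).mul_const (qq P D i j)).const_add (W i)).add_const (lam P D i)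
    have h4 := (h3.fun_mul h1).fun_add h2
    have e1 : (fun s : ℂ => TH D (fun l => t l + s * -(1 / D.om * rhv P l j))
        (q₀ * MvPolynomial.aeval (lin P D (fun i => W i + s * qq P D i j)) (p * MvPolynomial.X i))) =
        fun s : ℂ => (W i + s * qq P D i j + lam P D i) * TH D (fun l => t l + s * -(1 / D.om * rhv P l j))
          (q₀ * MvPolynomial.aeval (lin P D (fun i => W i + s * qq P D i j)) p) +
          TH D (fun l => t l + s * -(1 / D.om * rhv P l j)) (q₀ * b3_N P D i * MvPolynomial.aeval (lin P D (fun i => W i + s * qq P D i j)) p) := by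
      funext s
      rw [map_mul, MvPolynomial.aeval_X, b3_lin, ← TH_C_mul, ← TH_add]
      congr 1
      ring
    have e2 : (∑ k, MvPolynomial.C (qq P D k j) * MvPolynomial.pderiv k (p * MvPolynomial.X i)) =
        (∑ k, MvPolynomial.C (qq P D k j) * MvPolynomial.pderiv k p) * MvPolynomial.X i + MvPolynomial.C (qq P D i j) * p := by
      rw [Finset.sum_mul]
      have e3 : ∀ k : Fin d, MvPolynomial.C (qq P D k j) * MvPolynomial.pderiv k (p * MvPolynomial.X i) =
          MvPolynomial.C (qq P D k j) * MvPolynomial.pderiv k p * MvPolynomial.X i +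
            if k = i then MvPolynomial.C (qq P D k j) * p else 0 := by
        intro k
        rw [Derivation.leibniz, smul_eq_mul, smul_eq_mul, MvPolynomial.pderiv_X]
        by_cases hk : k = i
        · rw [if_pos hk, hk, Pi.single_eq_same]
          ring
        · rw [if_neg hk, Pi.single_eq_of_ne (Ne.symm hk)]
          ring
      rw [Finset.sum_congr rfl fun k _ => e3 k, Finset.sum_add_distrib, Finset.sum_ite_eq' Finset.univ i, if_pos (Finset.mem_univ i)]
    rw [e1]
    have e5 : TH D t (b3_N P D j * (q₀ * MvPolynomial.aeval (lin P D W) (p * MvPolynomial.X i))) +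
        TH D t (q₀ * MvPolynomial.aeval (lin P D W) (∑ k, MvPolynomial.C (qq P D k j) * MvPolynomial.pderiv k (p * MvPolynomial.X i))) =
        qq P D i j * TH D (fun l => t l + (0 : ℂ) * -(1 / D.om * rhv P l j))
            (q₀ * MvPolynomial.aeval (lin P D (fun i => W i + (0 : ℂ) * qq P D i j)) p) +
          (W i + 0 * qq P D i j + lam P D i) * (TH D t (b3_N P D j * (q₀ * MvPolynomial.aeval (lin P D W) p)) +
            TH D t (q₀ * MvPolynomial.aeval (lin P D W) (∑ i, MvPolynomial.C (qq P D i j) * MvPolynomial.pderiv i p))) +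
          (TH D t (b3_N P D j * (q₀ * b3_N P D i * MvPolynomial.aeval (lin P D W) p)) +
            TH D t (q₀ * b3_N P D i * MvPolynomial.aeval (lin P D W) (∑ i, MvPolynomial.C (qq P D i j) * MvPolynomial.pderiv i p))) := by
      rw [hW0, ht0, e2, zero_mul, add_zero, mul_add, ← TH_C_mul, ← TH_C_mul, ← TH_C_mul, ← TH_add, ← TH_add, ← TH_add, ← TH_add, ← TH_add]
      congr 1
      rw [map_mul, map_add, map_mul, map_mul, MvPolynomial.aeval_X, MvPolynomial.aeval_C, b3_lin]
      have e6 : (algebraMap ℂ (MvPolynomial (Fin (d + 1)) ℂ)) (qq P D i j) = MvPolynomial.C (qq P D i j) := rfl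
      rw [e6]
      ring
    rw [e5]
    exact h4

/-- B3. PROOF. Put `T(s)_l = t_l - (s/om) rhv_lj`, `W(s)_i = W_i + s q_ij`, `η_l = -(1/om) rhv P l j`, `N = ∑ C(η_l) X_l`. More generally for every polynomial `q₀` the function `s ↦ TH (T s) (q₀ * aeval (lin (W s)) B)` has at `0` the derivative
`TH t (N q₀ aeval (lin W) B) + TH t (q₀ aeval (lin W) (∑_i C(q_ij) pderiv i B))`. Induction on `B` (`MvPolynomial.induction_on`): for `B = C a` it is `TH_line`; sums are clear; for `B X_i`: `lin (W s) i = C(W_i + lam_i + s q_ij) + M_i`, `M_i` independent of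
`s`, so `q₀ aeval(B X_i) = C(W_i + lam_i + s q_ij) (q₀ aeval B) + (q₀ M_i) aeval B`: use the product rule for the first term (`TH_C_mul`), the induction hypothesis for `q₀ M_i` for the second, and `pderiv (B X_i)` by the Leibniz rule.
With `q₀ = 1`: `bb q j B = X j * B + ∑ C(q_ij) pderiv i B`, and `aeval (lin W) (X j * B) = (C(W_j + lam_j) + N) aeval B` because `lin W j = C(W_j + lam_j) + N`. -/
theorem th_line (P : Par d) (D : Dt d) (j : Fin d) (W : Fin d → ℂ) (t : Fin (d + 1) → ℂ) (B : MvPolynomial (Fin d) ℂ) :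
    HasDerivAt (fun s : ℂ => TH D (fun l => t l - s / D.om * rhv P l j)
        (MvPolynomial.aeval (lin P D (fun i => W i + s * qq P D i j)) B))
      (TH D t (MvPolynomial.aeval (lin P D W) (bb (qq P D) j B)) -
        (W j + lam P D j) * TH D t (MvPolynomial.aeval (lin P D W) B)) 0 := by
  have h1 := b3_gen P D j W t B 1
  have e1 : (fun s : ℂ => TH D (fun l => t l - s / D.om * rhv P l j)
        (MvPolynomial.aeval (lin P D (fun i => W i + s * qq P D i j)) B)) =
      fun s : ℂ => TH D (fun l => t l + s * -(1 / D.om * rhv P l j))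
        (1 * MvPolynomial.aeval (lin P D (fun i => W i + s * qq P D i j)) B) := by
    funext s
    rw [one_mul]
    congr 1
    funext l
    ring
  have e2 : TH D t (MvPolynomial.aeval (lin P D W) (bb (qq P D) j B)) - (W j + lam P D j) * TH D t (MvPolynomial.aeval (lin P D W) B) =
      TH D t (b3_N P D j * (1 * MvPolynomial.aeval (lin P D W) B)) +
        TH D t (1 * MvPolynomial.aeval (lin P D W) (∑ i, MvPolynomial.C (qq P D i j) * MvPolynomial.pderiv i B)) := by
    rw [sub_eq_iff_eq_add, ← TH_C_mul, ← TH_add, ← TH_add]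
    congr 1
    unfold bb
    rw [map_add, map_mul, MvPolynomial.aeval_X, b3_lin]
    ring
  rw [e1, e2]
  exact h1

end Pool.Agent.MSR
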