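import Pool.Agent.Lib.MP_f58a57_nt.R.Defs
import Pool.Agent.Lib.MP_f58a57_nt.R.B1_Psi
import Pool.Agent.Lib.MP_f58a57_nt.R.B3_THLine
import Pool.Agent.Lib.MP_f58a57_nt.R.A2_RpBd

/-! # R/B4_Rep: representation of the functions by derivatives of theta functions -/

open Complex Filter Topology IntermediateField

noncomputable section

namespace Pool.Agent.MSR

open MSD MSP MSK

variable {d : ℕ}

/-- one step of the induction -/
theorem b4_step (P : Par d) (D : Dt d) (j : Fin d) (R : MvPolynomial (Vr d) ℤ) (B : MvPolynomial (Fin d) ℂ)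
    (hR : ∀ (W : Fin d → ℂ) (t : Fin (d + 1) → ℂ), (∀ l, th D.τ (D.h l + t l) ≠ 0) →
      MvPolynomial.aeval (evW P D W t) R * pp D t = TH D t (MvPolynomial.aeval (lin P D W) B))
    (W : Fin d → ℂ) (t : Fin (d + 1) → ℂ) (h : ∀ l, th D.τ (D.h l + t l) ≠ 0) :
    MvPolynomial.aeval (evW P D W t) (nab j R) * pp D t =
      TH D t (MvPolynomial.aeval (lin P D W) (bb (qq P D) j B)) := by
  have h1 := psi_line P D j W t h R
  have h2 := th_line P D j W t B
  have hev : ∀ᶠ s : ℂ in 𝓝 0, ∀ l, th D.τ (D.h l + (t l - s / D.om * rhv P l j)) ≠ 0 := by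
    rw [eventually_all]
    intro l
    have hc : Continuous (fun s : ℂ => th D.τ (D.h l + (t l - s / D.om * rhv P l j))) :=
      (th_differentiable D.τ D.im).continuous.comp (by fun_prop)
    refine hc.continuousAt.eventually_ne ?_
    rw [zero_div, zero_mul, sub_zero]
    exact h l
  have h3 : (fun s : ℂ => MvPolynomial.aeval (evW P D (fun i => W i + s * qq P D i j)
        (fun l => t l - s / D.om * rhv P l j)) R * pp D (fun l => t l - s / D.om * rhv P l j)) =ᶠ[𝓝 0]
      (fun s : ℂ => TH D (fun l => t l - s / D.om * rhv P l j)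
        (MvPolynomial.aeval (lin P D (fun i => W i + s * qq P D i j)) B)) := by
    filter_upwards [hev] with s hs
    exact hR _ _ hs
  have h4 := h1.unique (h2.congr_of_eventuallyEq h3)
  rw [hR W t h] at h4
  exact sub_left_injective h4

/-- B4. PROOF. `Rp_ind` with `Rel R B _ := ∀ W t, (∀ l, th(h_l + t_l) ≠ 0) → aeval (evW W t) R * pp t = TH t (aeval (lin W) B)`. `Rel 1 1`: `TH_one`. Step: the two functions of `s` in `psi_line` (for `R`) and `th_line` (for `B`) agree for `s`
near `0` (the condition `th ≠ 0` is open, `th_differentiable`), so their derivatives at `0` agree (`HasDerivAt.unique` and `HasDerivAt.congr_of_eventuallyEq`), and the terms `(W_j + lam_j) ..` agree by the hypothesis at `s = 0`. -/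
theorem rep (P : Par d) (D : Dt d) (κ : Fin d → ℕ) (W : Fin d → ℂ) (t : Fin (d + 1) → ℂ) (h : ∀ l, th D.τ (D.h l + t l) ≠ 0) :
    MvPolynomial.aeval (evW P D W t) (Rp κ) * pp D t = TH D t (MvPolynomial.aeval (lin P D W) (Bp (qq P D) κ)) := by
  refine Rp_ind (qq P D) (fun R B _ => ∀ (W : Fin d → ℂ) (t : Fin (d + 1) → ℂ), (∀ l, th D.τ (D.h l + t l) ≠ 0) →
      MvPolynomial.aeval (evW P D W t) R * pp D t = TH D t (MvPolynomial.aeval (lin P D W) B)) ?_ ?_ κ W t h
  · intro W t _
    rw [map_one, map_one, one_mul, TH_one]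
  · intro j R B n hR W t h
    exact b4_step P D j R B hR W t h

end Pool.Agent.MSR
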