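import Pool.Agent.Lib.MP_f58a57_nt.R.Defs
import Pool.Agent.Lib.MP_f58a57_nt.R.B2_TH

/-! # R/B6_Diff: the functions are entire -/

open Complex Filter Topology IntermediateField

noncomputable section

namespace Pool.Agent.MSR

open MSD MSP MSK

variable {d : ℕ}

/-- the coordinates of `tt z v` are differentiable in `v` -/
theorem b6_tt (z : ℂ) (l : Fin (d + 1)) : Differentiable ℂ (fun v : Fin d → ℂ => tt z v l) := by
  refine Fin.cases ?_ (fun j => ?_) l
  · simp only [tt, Fin.cons_zero]
    fun_prop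
  · simp only [tt, Fin.cons_succ]
    fun_prop

theorem b6_prod {ι : Type} (s : Finset ι) (f : ι → (Fin d → ℂ) → ℂ) (h : ∀ i, Differentiable ℂ (f i)) :
    Differentiable ℂ (fun v => ∏ i ∈ s, f i v) := by
  classical
  induction s using Finset.induction_on with
  | empty => simp only [Finset.prod_empty]; exact differentiable_const _
  | insert a s ha ih =>
    simp only [Finset.prod_insert ha]
    exact (h a).mul ih

theorem b6_fix (z : ℂ) (D : Dt d) (q : MvPolynomial (Fin (d + 1)) ℂ) :
    Differentiable ℂ (fun v : Fin d → ℂ => TH D (tt z v) q) := by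
  have h0 : ContDiff ℂ ⊤ (th D.τ) := (th_differentiable D.τ D.im).contDiff
  have h1 : ∀ m : ℕ, Differentiable ℂ (iteratedDeriv m (th D.τ)) := fun m =>
    h0.differentiable_iteratedDeriv m (by exact_mod_cast WithTop.coe_lt_top _)
  unfold TH
  refine Differentiable.fun_sum fun m _ => ?_
  refine Differentiable.const_mul ?_ _
  exact b6_prod Finset.univ (fun l (v : Fin d → ℂ) => iteratedDeriv (m l) (th D.τ) (D.h l + tt z v l))
    fun l => (h1 (m l)).comp ((differentiable_const _).add (b6_tt z l))

theorem b6_mul (z : ℂ) (D : Dt d) (a : Fin d → (Fin d → ℂ) → ℂ) (ha : ∀ k, Differentiable ℂ (a k))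
    (M : Fin d → MvPolynomial (Fin (d + 1)) ℂ) (B : MvPolynomial (Fin d) ℂ) :
    ∀ q₀ : MvPolynomial (Fin (d + 1)) ℂ, Differentiable ℂ (fun v : Fin d → ℂ =>
      TH D (tt z v) (q₀ * MvPolynomial.aeval (fun k => MvPolynomial.C (a k v) + M k) B)) := by
  induction B using MvPolynomial.induction_on with
  | C b =>
    intro q₀
    simp only [MvPolynomial.aeval_C, MvPolynomial.algebraMap_eq]
    exact b6_fix z D _
  | add p q hp hq =>
    intro q₀
    simp only [map_add, mul_add, TH_add]
    exact (hp q₀).add (hq q₀)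
  | mul_X p k hp =>
    intro q₀
    have h : ∀ v : Fin d → ℂ, TH D (tt z v) (q₀ * MvPolynomial.aeval (fun k => MvPolynomial.C (a k v) + M k) (p * MvPolynomial.X k)) =
        a k v * TH D (tt z v) (q₀ * MvPolynomial.aeval (fun k => MvPolynomial.C (a k v) + M k) p) +
          TH D (tt z v) ((q₀ * M k) * MvPolynomial.aeval (fun k => MvPolynomial.C (a k v) + M k) p) := by
      intro v
      rw [← TH_C_mul, ← TH_add]
      congr 1
      rw [map_mul, MvPolynomial.aeval_X]
      ring
    simp only [h]
    exact ((ha k).mul (hp q₀)).add (hp (q₀ * M k))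

/-- B6a. PROOF. For every polynomial `q₀` the function `v ↦ TH (tt v) (q₀ * aeval (fun k => C (a k v) + M k) B)` is entire. Induction on `B` (all `q₀`): for `B = C b` it is a linear combination of products of functions `iteratedDeriv m (th τ) (h_l + tt z v l)`
(entire, `tt` is linear); for `B X_k`: `q₀ aeval(B X_k) = C(a k v) (q₀ aeval B) + (q₀ M_k) aeval B` (`TH_C_mul`, `TH_add`). -/
theorem TH_diff (z : ℂ) (D : Dt d) (a : Fin d → (Fin d → ℂ) → ℂ) (ha : ∀ k, Differentiable ℂ (a k)) (M : Fin d → MvPolynomial (Fin (d + 1)) ℂ)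
    (B : MvPolynomial (Fin d) ℂ) :
    Differentiable ℂ (fun v : Fin d → ℂ => TH D (tt z v) (MvPolynomial.aeval (fun k => MvPolynomial.C (a k v) + M k) B)) := by
  have h := b6_mul z D a ha M B 1
  simpa only [one_mul] using h

theorem b6_lin (P : Par d) (D : Dt d) (W : Fin d → ℂ) : lin P D W = fun k => MvPolynomial.C (W k + lam P D k) +
    -(MvPolynomial.C (1 / D.om) * ∑ l, MvPolynomial.C (rhv P l k) * MvPolynomial.X l) := by
  funext k
  unfold lin
  rw [sub_eq_add_neg]

theorem b6_lin' (P : Par d) (r s w : Fin d → ℂ) : lin' P r s w = fun k => MvPolynomial.C (r k * w k) +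
    -(MvPolynomial.C (1 / s k) * ∑ j : Fin (d + 1), MvPolynomial.C (P.rt k.succ ^ j.val) * MvPolynomial.X j) := by
  funext k
  unfold lin'
  rw [sub_eq_add_neg]

/-- B6b. PROOF. B6a: `WV P D v j` is an affine (linear) function of `v`. -/
theorem GR_diff (P : Par d) (D : Dt d) {E : ℕ} (c : Ir d E → ℂ) : Differentiable ℂ (GR P D c) := by
  have ha : ∀ k : Fin d, Differentiable ℂ (fun v : Fin d → ℂ => WV P D v k + lam P D k) := by
    intro k
    refine Differentiable.add ?_ (differentiable_const _)
    unfold WV As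
    have h1 := b6_tt P.z k.succ
    have h2 := b6_tt P.z k.castSucc
    have h3 := b6_tt P.z (Fin.last d)
    refine Differentiable.const_mul ?_ _
    exact h1.add (((h2.add (h3.const_mul _)).sub (h1.const_mul _)).const_mul _)
  have h := TH_diff P.z D (fun k v => WV P D v k + lam P D k) ha
    (fun k => -(MvPolynomial.C (1 / D.om) * ∑ l, MvPolynomial.C (rhv P l k) * MvPolynomial.X l)) (Cs P D c)
  have he : (GR P D c) = (fun v : Fin d → ℂ => TH D (tt P.z v) (MvPolynomial.aeval (fun k => MvPolynomial.C (WV P D v k + lam P D k) +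
      -(MvPolynomial.C (1 / D.om) * ∑ l, MvPolynomial.C (rhv P l k) * MvPolynomial.X l)) (Cs P D c))) := by
    funext v
    unfold GR
    rw [b6_lin]
  rw [he]
  exact h

/-- B6c. -/
theorem lin'_diff (P : Par d) (D : Dt d) (r s : Fin d → ℂ) (B : MvPolynomial (Fin d) ℂ) :
    Differentiable ℂ (fun v : Fin d → ℂ => TH D (tt P.z v) (MvPolynomial.aeval (lin' P r s (eg P (tt P.z v))) B)) := by
  have ha : ∀ k : Fin d, Differentiable ℂ (fun v : Fin d → ℂ => r k * eg P (tt P.z v) k) := by
    intro k
    refine Differentiable.const_mul ?_ _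
    unfold eg
    refine Differentiable.fun_sum fun j _ => ?_
    exact (b6_tt P.z j).const_mul _
  have h := TH_diff P.z D (fun k v => r k * eg P (tt P.z v) k) ha
    (fun k => -(MvPolynomial.C (1 / s k) * ∑ j : Fin (d + 1), MvPolynomial.C (P.rt k.succ ^ j.val) * MvPolynomial.X j)) B
  have he : (fun v : Fin d → ℂ => TH D (tt P.z v) (MvPolynomial.aeval (lin' P r s (eg P (tt P.z v))) B)) =
      (fun v : Fin d → ℂ => TH D (tt P.z v) (MvPolynomial.aeval (fun k => MvPolynomial.C (r k * eg P (tt P.z v) k) +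
      -(MvPolynomial.C (1 / s k) * ∑ j : Fin (d + 1), MvPolynomial.C (P.rt k.succ ^ j.val) * MvPolynomial.X j)) B)) := by
    funext v
    rw [b6_lin']
  rw [he]
  exact h

end Pool.Agent.MSR
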