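import Pool.Agent.Lib.MP_f58a57_nt.R.Defs
import Pool.Agent.Lib.MP_f58a57_nt.K.A1_Deriv
import Pool.Agent.Lib.MP_f58a57_nt.K.A1b_Iter

/-! # R/C1_Iter: derivatives of the auxiliary function at the base point -/

open Complex Filter Topology IntermediateField

noncomputable section

namespace Pool.Agent.MSR

open MSD MSP MSK

variable {d : ℕ}

/-- C1a. PROOF. As `iteratedDeriv_FF` in K/A1b_Iter: `hasDerivAt_ev` (K/A1_Deriv) holds for `ζ` near `0` (`D.hh`, continuity), so by induction on `k` the `k`-th derivative of `ζ ↦ aeval (ev ζ) p` is `om^k aeval (ev ζ) (der^[k] p)` for `ζ` near `0`; at `0` use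
`ev_zero`. -/
theorem iter_gen (P : Par d) (D : Dt d) (a : Fin d → ℤ) (p : MvPolynomial (Vr d) ℤ) (k : ℕ) :
    iteratedDeriv k (fun ζ : ℂ => MvPolynomial.aeval (ev P D a ζ) p) 0 = D.om ^ k * MvPolynomial.aeval (vals P D) ((der a)^[k] p) ∧
      AnalyticAt ℂ (fun ζ : ℂ => MvPolynomial.aeval (ev P D a ζ) p) 0 := by
  have hnear := a1b_near P D a
  have hiter : ∀ k : ℕ, iteratedDeriv k (fun ζ : ℂ => MvPolynomial.aeval (ev P D a ζ) p) =ᶠ[nhds 0]
      fun ζ => D.om ^ k * MvPolynomial.aeval (ev P D a ζ) ((der a)^[k] p) := by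
    intro k
    induction k with
    | zero =>
      refine Filter.Eventually.of_forall (fun ζ => ?_)
      simp only [iteratedDeriv_zero, pow_zero, one_mul, Function.iterate_zero, id]
    | succ k ih =>
      rw [iteratedDeriv_succ]
      refine ih.deriv.trans ?_
      filter_upwards [hnear] with ζ hζ
      have h1 := (hasDerivAt_ev P D a ζ hζ ((der a)^[k] p)).const_mul (D.om ^ k)
      rw [h1.deriv]
      simp only [Function.iterate_succ_apply']
      ring
  constructor
  · have h := (hiter k).self_of_nhds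
    rw [h]
    show D.om ^ k * MvPolynomial.aeval (ev P D a 0) ((der a)^[k] p) = _
    rw [ev_zero]
  · rw [Complex.analyticAt_iff_eventually_differentiableAt]
    filter_upwards [hnear] with ζ hζ
    exact (hasDerivAt_ev P D a ζ hζ p).differentiableAt

/-- C1b. PROOF. The only difference is the variable `Q j`: `Xi` is `om As_j - (rh/om)(ps_{j.castSucc} + b_{j.succ} ps_last - z ps_{j.succ})` and `rhv P l j = rh ([l = j.castSucc] + b_{j.succ} [l = last] - z [l = j.succ])`. (`tt_smul`.) -/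
theorem evW_ev (P : Par d) (D : Dt d) (a : Fin d → ℤ) (ζ : ℂ) :
    evW P D (WV P D (fun j => ζ * (a j : ℂ))) (tt P.z (fun j => ζ * (a j : ℂ))) = ev P D a ζ := by
  have ht : tt P.z (fun j => ζ * (a j : ℂ)) = fun l => ζ * tt P.z (fun i => (a i : ℂ)) l := by
    funext l
    exact tt_smul P.z ζ (fun j => (a j : ℂ)) l
  funext x
  cases x with
  | X l => simp only [evW, MSK.ev, ht]
  | Y l => simp only [evW, MSK.ev, ht]
  | Q j =>
    simp only [evW, MSK.ev, ht, WV, Xi]
    have h1 : ∀ f : Fin (d + 1) → ℂ, ∑ l, rhv P l j * f l =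
        rh * (f j.castSucc + P.b j.succ * f (Fin.last d) - P.z * f j.succ) := by
      intro f
      have h2 : ∀ l, rhv P l j * f l = rh * ((if l = j.castSucc then f l else 0) +
          P.b j.succ * (if l = Fin.last d then f l else 0) - P.z * (if l = j.succ then f l else 0)) := by
        intro l
        unfold rhv
        split_ifs <;> ring
      rw [Finset.sum_congr rfl fun l _ => h2 l, ← Finset.mul_sum, Finset.sum_sub_distrib, Finset.sum_add_distrib,
        ← Finset.mul_sum, ← Finset.mul_sum]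
      simp only [Finset.sum_ite_eq', Finset.mem_univ, if_true]
    rw [h1 (fun l => D.ps l (ζ * tt P.z (fun i => (a i : ℂ)) l))]
    ring
  | b l => rfl
  | g => rfl
  | k => rfl
  | z => rfl
  | r => rfl

/-- C1c. PROOF. C1a, C1b and linearity. -/
theorem iteratedDeriv_FR (P : Par d) (D : Dt d) {E : ℕ} (c : Ir d E → ℂ) (a : Fin d → ℤ) (k : ℕ) :
    iteratedDeriv k (fun ζ : ℂ => FR P D c (fun j => ζ * a j)) 0 =
      D.om ^ k * ∑ κ, c κ * MvPolynomial.aeval (vals P D) ((der a)^[k] (Rp (fun j => (κ j).val))) := by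
  have h1 : (fun ζ : ℂ => FR P D c (fun j => ζ * a j)) =
      fun ζ : ℂ => ∑ κ, c κ * MvPolynomial.aeval (ev P D a ζ) (Rp (fun j => (κ j).val)) := by
    funext ζ
    simp only [FR, evW_ev]
  have hs : ∀ κ ∈ (Finset.univ : Finset (Ir d E)), ContDiffAt ℂ (k : ℕ∞)
      (fun ζ : ℂ => c κ * MvPolynomial.aeval (ev P D a ζ) (Rp (fun j => (κ j).val))) 0 := fun κ _ =>
    (analyticAt_const.mul (iter_gen P D a _ k).2).contDiffAt
  rw [h1, iteratedDeriv_fun_sum hs, Finset.mul_sum]
  refine Finset.sum_congr rfl fun κ _ => ?_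
  rw [iteratedDeriv_const_mul_field, (iter_gen P D a _ k).1]
  ring

theorem FR_line_analytic (P : Par d) (D : Dt d) {E : ℕ} (c : Ir d E → ℂ) (a : Fin d → ℤ) :
    AnalyticAt ℂ (fun ζ : ℂ => FR P D c (fun j => ζ * a j)) 0 := by
  have h1 : (fun ζ : ℂ => FR P D c (fun j => ζ * a j)) =
      fun ζ : ℂ => ∑ κ, c κ * MvPolynomial.aeval (ev P D a ζ) (Rp (fun j => (κ j).val)) := by
    funext ζ
    simp only [FR, evW_ev]
  rw [h1]
  exact Finset.analyticAt_fun_sum _ fun κ _ => analyticAt_const.mul (iter_gen P D a _ 0).2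

end Pool.Agent.MSR
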