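import Pool.Agent.Lib.MP_f58a57_nt.R.Defs
import Pool.Agent.Lib.MP_f58a57_nt.R.B4_Rep
import Pool.Agent.Lib.MP_f58a57_nt.R.B6_Diff
import Pool.Agent.Lib.MP_f58a57_nt.R.C1_Iter
import Pool.Agent.Lib.MP_f58a57_nt.K.A4_Gmon

/-! # R/B5_FG: `FR * pp = GR` -/

open Complex Filter Topology IntermediateField

noncomputable section

namespace Pool.Agent.MSR

open MSD MSP MSK

variable {d : ℕ}

theorem b5_vanish (f h : ℂ → ℂ) (hf : AnalyticAt ℂ f 0) (hh : AnalyticAt ℂ h 0) (T : ℕ)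
    (h0 : ∀ k < T, iteratedDeriv k f 0 = 0) : ∀ k < T, iteratedDeriv k (fun ζ => f ζ * h ζ) 0 = 0 := by
  have h1 : (T : ℕ∞) ≤ analyticOrderAt f 0 := (natCast_le_analyticOrderAt_iff_iteratedDeriv_eq_zero hf).mpr h0
  have h2 : (T : ℕ∞) ≤ analyticOrderAt (fun ζ => f ζ * h ζ) 0 := by
    have e : analyticOrderAt (f * h) 0 = analyticOrderAt f 0 + analyticOrderAt h 0 := analyticOrderAt_mul hf hh
    change (T : ℕ∞) ≤ analyticOrderAt (f * h) 0
    rw [e]
    exact h1.trans le_self_add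
  exact (natCast_le_analyticOrderAt_iff_iteratedDeriv_eq_zero (hf.fun_mul hh)).mp h2

theorem b5_line_diff (a : Fin d → ℕ) : Differentiable ℂ (fun ζ : ℂ => (fun j : Fin d => ζ * (a j : ℂ))) := by
  rw [differentiable_pi]
  intro j
  fun_prop

/-- B5a. PROOF. `rep` for every `κ` and linearity (`TH_sum`, `TH_C_mul`). `pp ≠ 0` means that all factors `N0 = th` are `≠ 0`. -/
theorem FR_GR (P : Par d) (D : Dt d) {E : ℕ} (c : Ir d E → ℂ) (v : Fin d → ℂ) (h : pp D (tt P.z v) ≠ 0) :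
    FR P D c v * pp D (tt P.z v) = GR P D c v := by
  have h0 : ∀ l, th D.τ (D.h l + tt P.z v l) ≠ 0 := fun l =>
    (Finset.prod_ne_zero_iff.mp h) l (Finset.mem_univ l)
  unfold FR GR Cs
  rw [Finset.sum_mul, map_sum, TH_sum]
  refine Finset.sum_congr rfl (fun κ _ => ?_)
  rw [map_mul, MvPolynomial.aeval_C, MvPolynomial.algebraMap_eq, TH_C_mul, mul_assoc,
    rep P D (fun j => (κ j).val) (WV P D v) (tt P.z v) h0]

/-- B5b. PROOF. Along the line, near `ζ = 0`, `GR = FR · pp` (`FR_GR`, `pp_zero_ne`, continuity) with `FR` analytic at `0` (`FR_line_analytic`) and `pp` analytic (`pp_differentiable`). As all the derivatives of `FR` of order `< T` vanish at `0` the same holds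
for the product (Leibniz formula `iteratedDeriv_mul`, or orders of vanishing). -/
theorem GR_vanish (P : Par d) (D : Dt d) {E : ℕ} (c : Ir d E → ℂ) (a : Fin d → ℕ) (T : ℕ)
    (h : ∀ k < T, iteratedDeriv k (fun ζ : ℂ => FR P D c (fun j => ζ * a j)) 0 = 0) :
    ∀ k < T, iteratedDeriv k (fun ζ : ℂ => GR P D c (fun j => ζ * a j)) 0 = 0 := by
  have hpd : Differentiable ℂ (fun ζ : ℂ => pp D (tt P.z (fun j => ζ * (a j : ℂ)))) :=
    (pp_differentiable P D).comp (b5_line_diff a)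
  have hfa : AnalyticAt ℂ (fun ζ : ℂ => FR P D c (fun j => ζ * (a j : ℂ))) 0 := by
    have := FR_line_analytic P D c (fun j => (a j : ℤ))
    simpa only [Int.cast_natCast] using this
  have hv := b5_vanish _ _ hfa (hpd.analyticAt 0) T h
  have htt : tt P.z (fun j => (0 : ℂ) * (a j : ℂ)) = 0 := by
    funext l
    refine Fin.cases ?_ (fun j => ?_) l
    · simp [tt]
    · simp [tt]
  have hne : ∀ᶠ ζ in 𝓝 (0 : ℂ), pp D (tt P.z (fun j => ζ * (a j : ℂ))) ≠ 0 := by
    have hc := hpd.continuous.continuousAt (x := (0 : ℂ))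
    refine hc.eventually_ne ?_
    show pp D (tt P.z (fun j => (0 : ℂ) * (a j : ℂ))) ≠ 0
    rw [htt]
    exact pp_zero_ne D
  have heq : (fun ζ : ℂ => GR P D c (fun j => ζ * (a j : ℂ))) =ᶠ[𝓝 0]
      (fun ζ : ℂ => FR P D c (fun j => ζ * (a j : ℂ)) * pp D (tt P.z (fun j => ζ * (a j : ℂ)))) := by
    filter_upwards [hne] with ζ hζ
    exact (FR_GR P D c _ hζ).symm
  intro k hk
  rw [heq.iteratedDeriv_eq k]
  exact hv k hk

end Pool.Agent.MSR
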