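import Pool.Agent.Lib.MP_f58a57_nt.R.Defs
import Pool.Agent.Lib.MP_f58a57_nt.R.B5_FG
import Pool.Agent.Lib.MP_f58a57_nt.R.B6_Diff
import Pool.Agent.Lib.MP_f58a57_nt.K.C4c_Deriv
import Pool.Agent.Lib.MP_f58a57_nt.K.C2c_Qf

/-! # R/C2_SmallDer: small values of the derivatives -/

open Complex Filter Topology IntermediateField

noncomputable section

namespace Pool.Agent.MSR

open MSD MSP MSK

variable {d : ℕ}

theorem c2_FR (P : Par d) (D : Dt d) {E : ℕ} (c : Ir d E → ℂ) (v : Fin d → ℂ) (h : pp D (tt P.z v) ≠ 0) :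
    FR P D c v = GA P D c (fun j => p0 P.z j + v j) / pp D (tt P.z v) := by
  rw [eq_div_iff h, FR_GR P D c v h]
  unfold GA
  congr 1
  funext j
  ring

/-- C2. PROOF. As `small_deriv` in K/C4c_Deriv with `M = 1`: `FR v = GA(p0 + v)/pp(tt v)` where `pp ≠ 0` (`FR_GR`). For `‖v‖ ≤ r₀`: `‖pp(tt v)‖ ≥ c > 0` (`pp_zero_ne`, continuity), `‖GA(p0 + v)‖ ≤ η e^{Qf} ≤ C η` (`Qf_le`), so `‖FR‖ ≤ C η` there. Along the line
`ζ ↦ ζ a`, `a_j ≤ T`, Cauchy's estimate on `‖ζ‖ = r₀/T`: `‖iteratedDeriv k‖ ≤ k! (T/r₀)^k C η ≤ (C T²)^T C η`. -/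
theorem small_derivR (P : Par d) (hd : 2 ≤ d) (D : Dt d) (hD : IsOrig P D) : ∃ C : ℝ, 1 ≤ C ∧ ∀ (E : ℕ) (c : Ir d E → ℂ) (η : ℝ), 0 ≤ η →
    (∀ v, Nn P 1 (GA P D c) v ≤ η) → ∀ T : ℕ, 1 ≤ T → ∀ a : Fin d → ℕ, (∀ j, a j ≤ T) → ∀ k ≤ T,
      ‖iteratedDeriv k (fun ζ : ℂ => FR P D c (fun j => ζ * a j)) 0‖ ≤ (C * T ^ 2) ^ T * C * η := by
  obtain ⟨r₀, c₀, hr0, hr1, hc0, hc1, hlow⟩ := c4c_low P D
  obtain ⟨C₁, hC1, hQ⟩ := Qf_le P
  set Q₀ : ℝ := C₁ * (‖p0 P.z (d := d)‖ + 1) ^ 2 with hQ0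
  have hQ0' : 0 ≤ Q₀ := by positivity
  set C₂ : ℝ := Real.exp Q₀ / c₀ with hC2
  have hC2' : 1 ≤ C₂ := by
    rw [hC2, one_le_div (by positivity)]
    have h2 : (1 : ℝ) ≤ Real.exp Q₀ := Real.one_le_exp (by positivity)
    linarith
  refine ⟨max (1 / r₀) C₂, le_max_of_le_right hC2', ?_⟩
  intro E c η hη hN T hT a ha k hk
  set C := max (1 / r₀) C₂ with hC
  have hTpos : (0 : ℝ) < T := by exact_mod_cast hT
  have hT1 : (1 : ℝ) ≤ T := by exact_mod_cast hT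
  -- the bound on the ball
  have hball : ∀ v : Fin d → ℂ, ‖v‖ ≤ r₀ → ‖FR P D c v‖ ≤ C₂ * η := by
    intro v hv
    have hl := hlow v hv
    have hne : pp D (tt P.z v) ≠ 0 := norm_pos_iff.1 (hc0.trans_le hl)
    rw [c2_FR P D c v hne, norm_div]
    have h1 := hN (fun j => p0 P.z j + v j)
    unfold Nn at h1
    rw [Real.exp_neg, ← div_eq_mul_inv, div_le_iff₀ (Real.exp_pos _)] at h1
    have h2 : Qf P (fun j => p0 P.z j + v j) ≤ Q₀ := by
      refine (hQ _).trans ?_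
      rw [hQ0]
      have h3 : ‖(fun j => p0 P.z j + v j)‖ ≤ ‖p0 P.z (d := d)‖ + 1 := by
        have h4 : (fun j => p0 P.z j + v j) = p0 P.z + v := rfl
        rw [h4]
        exact (norm_add_le _ _).trans (by linarith)
      have h5 : ‖(fun j => p0 P.z j + v j)‖ ^ 2 ≤ (‖p0 P.z (d := d)‖ + 1) ^ 2 :=
        pow_le_pow_left₀ (norm_nonneg _) h3 2
      exact mul_le_mul_of_nonneg_left h5 (by linarith)
    have h6 : Real.exp ((1 : ℕ) * Qf P (fun j => p0 P.z j + v j)) ≤ Real.exp Q₀ := by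
      refine Real.exp_le_exp.2 ?_
      push_cast
      linarith
    have h8 : ‖GA P D c (fun j => p0 P.z j + v j)‖ ≤ η * Real.exp Q₀ :=
      h1.trans (mul_le_mul_of_nonneg_left h6 hη)
    calc ‖GA P D c (fun j => p0 P.z j + v j)‖ / ‖pp D (tt P.z v)‖
        ≤ (η * Real.exp Q₀) / c₀ := div_le_div₀ (by positivity) h8 hc0 hl
      _ = C₂ * η := by
          rw [hC2]
          ring
  -- Cauchy
  set f : ℂ → ℂ := fun ζ : ℂ => FR P D c (fun j => ζ * a j) with hf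
  set R : ℝ := r₀ / T with hR
  have hRpos : 0 < R := by positivity
  have hin : ∀ ζ : ℂ, ‖ζ‖ ≤ R → ‖(fun j => ζ * a j : Fin d → ℂ)‖ ≤ r₀ := by
    intro ζ hζ
    rw [pi_norm_le_iff_of_nonneg hr0.le]
    intro j
    rw [norm_mul, Complex.norm_natCast]
    have h1 : (a j : ℝ) ≤ T := by exact_mod_cast ha j
    calc ‖ζ‖ * (a j : ℝ) ≤ R * T := mul_le_mul hζ h1 (Nat.cast_nonneg _) hRpos.le
      _ = r₀ := by rw [hR]; field_simp
  have hline : Differentiable ℂ (fun ζ : ℂ => (fun j => ζ * a j : Fin d → ℂ)) := by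
    rw [differentiable_pi]
    intro j
    fun_prop
  have hdiff : DifferentiableOn ℂ f (Metric.closedBall 0 R) := by
    have h1 : DifferentiableOn ℂ (fun ζ : ℂ => GR P D c (fun j => ζ * a j : Fin d → ℂ) /
        pp D (tt P.z (fun j => ζ * a j))) (Metric.closedBall 0 R) := by
      refine DifferentiableOn.fun_div ?_ ?_ ?_
      · exact ((GR_diff P D c).comp hline).differentiableOn
      · exact ((pp_differentiable P D).comp hline).differentiableOn
      · intro ζ hζ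
        have hζ' : ‖ζ‖ ≤ R := by simpa using hζ
        exact norm_pos_iff.1 (hc0.trans_le (hlow _ (hin ζ hζ')))
    refine h1.congr fun ζ hζ => ?_
    have hζ' : ‖ζ‖ ≤ R := by simpa using hζ
    have hne := norm_pos_iff.1 (hc0.trans_le (hlow _ (hin ζ hζ')))
    exact (eq_div_iff hne).2 (FR_GR P D c _ hne)
  have hcl : DiffContOnCl ℂ f (Metric.ball 0 R) :=
    (hdiff.mono Metric.closure_ball_subset_closedBall).diffContOnCl
  have hcauchy := Complex.norm_iteratedDeriv_le_of_forall_mem_sphere_norm_le k hRpos hcl (C := C₂ * η) (by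
    intro ζ hζ
    have hζ' : ‖ζ‖ ≤ R := by
      have : ‖ζ‖ = R := by simpa using hζ
      exact this.le
    exact hball _ (hin ζ hζ'))
  refine hcauchy.trans ?_
  have hCr : 1 / r₀ ≤ C := le_max_left _ _
  have hCC : C₂ ≤ C := le_max_right _ _
  have hC1' : 1 ≤ C := hC2'.trans hCC
  have e1 : (k.factorial : ℝ) ≤ (T : ℝ) ^ k := by
    have h1 : k.factorial ≤ k ^ k := Nat.factorial_le_pow k
    have h2 : k ^ k ≤ T ^ k := Nat.pow_le_pow_left hk k
    exact_mod_cast h1.trans h2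
  have e2 : (k.factorial : ℝ) / R ^ k ≤ (C * T ^ 2) ^ T := by
    have h1 : (k.factorial : ℝ) / R ^ k = k.factorial * (T * (1 / r₀)) ^ k := by
      rw [hR]
      have : (T : ℝ) * (1 / r₀) = (r₀ / T)⁻¹ := by
        rw [inv_div]
        ring
      rw [this, inv_pow, div_eq_mul_inv]
    rw [h1]
    have h2 : (T * (1 / r₀)) ^ k ≤ ((T : ℝ) * C) ^ k :=
      pow_le_pow_left₀ (by positivity) (mul_le_mul_of_nonneg_left hCr hTpos.le) k
    calc (k.factorial : ℝ) * (T * (1 / r₀)) ^ k ≤ (T : ℝ) ^ k * ((T : ℝ) * C) ^ k :=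
          mul_le_mul e1 h2 (by positivity) (by positivity)
      _ = (C * T ^ 2) ^ k := by rw [← mul_pow]; ring
      _ ≤ (C * T ^ 2) ^ T := pow_le_pow_right₀ (by nlinarith [mul_le_mul hC1' (one_le_pow₀ hT1 (n := 2)) zero_le_one (by linarith)]) hk
  calc (k.factorial : ℝ) * (C₂ * η) / R ^ k = ((k.factorial : ℝ) / R ^ k) * (C₂ * η) := by ring
    _ ≤ (C * T ^ 2) ^ T * (C * η) :=
      mul_le_mul e2 (mul_le_mul_of_nonneg_right hCC hη) (by positivity) (by positivity)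
    _ = (C * T ^ 2) ^ T * C * η := by ring

end Pool.Agent.MSR
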