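import Pool.Agent.Lib.MP_f58a57_nt.R.Defs
import Pool.Agent.Lib.MP_f58a57_nt.R.B2_TH
import Pool.Agent.Lib.MP_f58a57_nt.R.B6_Diff
import Pool.Agent.Lib.MP_f58a57_nt.R.B9_NnShift
import Pool.Agent.Lib.MP_f58a57_nt.R.B10_NnBound
import Pool.Agent.Lib.MP_f58a57_nt.K.C3_Small
import Pool.Agent.Lib.MP_f58a57_nt.K.G1_Pig
import Pool.Agent.Lib.MP_f58a57_nt.K.G2_Aux

/-! # R/C3_Aux: the auxiliary function -/

open Complex Filter Topology IntermediateField

noncomputable section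

namespace Pool.Agent.MSR

open MSD MSP MSK

variable {d : ℕ}

theorem c3_Cs (P : Par d) (D : Dt d) {E : ℕ} (c : Ir d E → ℂ) :
    Cs P D c = ∑ κ, MvPolynomial.C (c κ) * Cs P D (Pi.single κ 1) := by
  conv_lhs => unfold Cs
  refine Finset.sum_congr rfl fun κ _ => ?_
  congr 1
  unfold Cs
  rw [Finset.sum_eq_single κ]
  · rw [Pi.single_eq_same, MvPolynomial.C_1, one_mul]
  · intro μ _ hμ
    rw [Pi.single_eq_of_ne hμ, MvPolynomial.C_0, zero_mul]
  · intro h
    exact absurd (Finset.mem_univ κ) h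

theorem c3_GA (P : Par d) (D : Dt d) {E : ℕ} (c : Ir d E → ℂ) (v : Fin d → ℂ) :
    GA P D c v = ∑ κ, c κ * GA P D (Pi.single κ 1) v := by
  unfold GA GR
  rw [c3_Cs, map_sum, TH_sum]
  refine Finset.sum_congr rfl fun κ _ => ?_
  rw [map_mul, MvPolynomial.aeval_C, MvPolynomial.algebraMap_eq, TH_C_mul]

theorem c3_diff (P : Par d) (D : Dt d) {E : ℕ} (c : Ir d E → ℂ) : Differentiable ℂ (GA P D c) := by
  unfold GA
  have h0 : Differentiable ℂ (fun v : Fin d → ℂ => fun j => v j - p0 P.z j) := by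
    rw [differentiable_pi]
    intro j
    exact (differentiable_apply j).sub_const _
  exact (GR_diff P D c).comp h0

/-- the polynomials -/
def c3p {E T : ℕ} (x : Ir d E × Fin T → ℤ) (κ : Ir d E) : Polynomial ℤ :=
  ∑ i : Fin T, Polynomial.C (x (κ, i)) * Polynomial.X ^ i.val

theorem c3p_coeff {E T : ℕ} (x : Ir d E × Fin T → ℤ) (κ : Ir d E) (j : ℕ) :
    (c3p x κ).coeff j = if h : j < T then x (κ, ⟨j, h⟩) else 0 := by
  unfold c3p
  rw [Polynomial.finsetSum_coeff]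
  simp_rw [Polynomial.coeff_C_mul_X_pow]
  split_ifs with h
  · rw [Finset.sum_eq_single ⟨j, h⟩]
    · simp
    · intro i _ hi
      rw [if_neg]
      intro hj
      exact hi (Fin.ext hj.symm)
    · intro h'
      exact absurd (Finset.mem_univ _) h'
  · refine Finset.sum_eq_zero fun i _ => ?_
    rw [if_neg]
    intro hj
    exact h (hj ▸ i.isLt)

theorem c3p_deg {E T : ℕ} (x : Ir d E × Fin T → ℤ) (κ : Ir d E) : (c3p x κ).natDegree ≤ T := by
  rw [Polynomial.natDegree_le_iff_coeff_eq_zero]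
  intro j hj
  rw [c3p_coeff, dif_neg (not_lt.2 hj.le)]

theorem c3p_aeval {E T : ℕ} (x : Ir d E × Fin T → ℤ) (κ : Ir d E) (θ : ℂ) :
    Polynomial.aeval θ (c3p x κ) = ∑ i : Fin T, (x (κ, i) : ℂ) * θ ^ i.val := by
  unfold c3p
  rw [map_sum]
  refine Finset.sum_congr rfl fun i _ => ?_
  rw [map_mul, map_pow, Polynomial.aeval_X, Polynomial.aeval_C]
  simp

theorem c3_card (E T : ℕ) : (Fintype.card (Ir d E × Fin T) : ℝ) = (E : ℝ) ^ d * T := by
  rw [Fintype.card_prod, Fintype.card_fin, Fintype.card_fun, Fintype.card_fin, Fintype.card_fin]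
  push_cast
  ring

theorem c3_coef {E T : ℕ} (x : Ir d E × Fin T → ℤ) (θ : ℂ) (B : ℕ) (hx : ∀ i, |x i| ≤ B) (κ : Ir d E) :
    ‖(Polynomial.aeval θ (c3p x κ) : ℂ)‖ ≤ T * B * (max 1 ‖θ‖) ^ T := by
  rw [c3p_aeval]
  refine (norm_sum_le _ _).trans ?_
  have h : ∀ i ∈ (Finset.univ : Finset (Fin T)), ‖(x (κ, i) : ℂ) * θ ^ i.val‖ ≤ B * (max 1 ‖θ‖) ^ T := by
    intro i _
    rw [norm_mul, norm_pow]
    have h1 : ‖(x (κ, i) : ℂ)‖ ≤ B := by
      rw [Complex.norm_intCast]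
      exact_mod_cast hx (κ, i)
    have h2 : ‖θ‖ ^ i.val ≤ (max 1 ‖θ‖) ^ T :=
      (pow_le_pow_left₀ (norm_nonneg _) (le_max_right _ _) _).trans
        (pow_le_pow_right₀ (le_max_left _ _) i.isLt.le)
    exact mul_le_mul h1 h2 (by positivity) (by positivity)
  refine (Finset.sum_le_sum h).trans (le_of_eq ?_)
  rw [Finset.sum_const, Finset.card_univ, Fintype.card_fin, nsmul_eq_mul]
  ring

/-- the inequalities between the parameters -/
theorem c3_num (d E T : ℕ) (a n s b R g C α : ℝ) (c : ℕ) (hE : 1 ≤ E) (hET : E ≤ T) (ha : 0 ≤ a) (hn : 0 ≤ n)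
    (hs : 0 ≤ s) (hb : b = T * Real.log T) (hlog : 1 ≤ Real.log T) (hR : 1 ≤ R) (hg : 0 ≤ g)
    (hC : C = 2 * Real.exp s * (2 * d + 10 + a + (d + 1) * n + s))
    (hα : α = Real.exp (T * a) * ((Real.exp n * E) ^ (d * E) * Real.exp n))
    (hc : (c : ℝ) ≤ Real.exp s * R ^ (d - 1))
    (h1 : C * (b + g) ≤ R ^ 2)
    (h2 : C * R ^ (d - 1) * (b + g) < (E : ℝ) ^ d * T * b) :
    (4 * (((E : ℝ) ^ d * T) * α * Real.exp b) / Real.exp (-g - (s + 1)) + 2) ^ (2 * c) <
        Real.exp (b * ((E : ℝ) ^ d * T)) ∧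
      Real.exp s * (Real.exp (-g - (s + 1)) + (((E : ℝ) ^ d * T) * α * Real.exp b) * Real.exp (-R ^ 2))
        ≤ Real.exp (-g) := by
  have hE1 : (1 : ℝ) ≤ E := by exact_mod_cast hE
  have hET' : (E : ℝ) ≤ T := by exact_mod_cast hET
  have hT1 : (1 : ℝ) ≤ T := hE1.trans hET'
  have hd0 : (0 : ℝ) ≤ d := Nat.cast_nonneg d
  have hs1 : (1 : ℝ) ≤ Real.exp s := Real.one_le_exp hs
  have hT0 : (0 : ℝ) ≤ T := by linarith
  have hTb : (T : ℝ) ≤ b := by rw [hb]; exact le_mul_of_one_le_right hT0 hlog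
  have hb1 : 1 ≤ b := hT1.trans hTb
  have hdn0 : 0 ≤ ((d : ℝ) + 1) * n := mul_nonneg (by linarith) hn
  obtain ⟨K, hK⟩ : ∃ K : ℝ, K = 2 * d + 10 + a + (d + 1) * n + s := ⟨_, rfl⟩
  have hK10 : 10 ≤ K := by
    rw [hK]; linarith
  rw [← hK] at hC
  have hCK : K ≤ C := by
    rw [hC]
    exact le_mul_of_one_le_left (by linarith) (by linarith)
  obtain ⟨W, hW⟩ : ∃ W : ℝ, W = (2 * d + 2 + a + (d + 1) * n) * b := ⟨_, rfl⟩
  have hW0 : 0 ≤ W := by
    rw [hW]
    exact mul_nonneg (by linarith) (by linarith)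
  have hKW : K * (b + g) = W + 8 * b + s * b + K * g := by
    rw [hW, hK]; ring
  have hsb : s ≤ s * b := le_mul_of_one_le_right hs hb1
  have hgK : g ≤ K * g := le_mul_of_one_le_left hg (by linarith)
  -- the size of the number of unknowns
  have hTe : Real.exp (Real.log T) = T := Real.exp_log (by linarith)
  have hlogb : Real.log T ≤ b := by rw [hb]; exact le_mul_of_one_le_left (by linarith) hT1
  have hN : (E : ℝ) ^ d * T ≤ Real.exp ((d + 1) * b) := by
    have h3 : (E : ℝ) ^ d * T ≤ (T : ℝ) ^ (d + 1) := by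
      rw [pow_succ]
      exact mul_le_mul_of_nonneg_right (pow_le_pow_left₀ (by linarith) hET' _) (by linarith)
    refine h3.trans ?_
    have h4 : (T : ℝ) ^ (d + 1) = Real.exp ((d + 1) * Real.log T) := by
      have h5 : ((d : ℝ) + 1) * Real.log T = ((d + 1 : ℕ) : ℝ) * Real.log T := by push_cast; ring
      rw [h5, Real.exp_nat_mul, hTe]
    rw [h4]
    exact Real.exp_le_exp.2 (mul_le_mul_of_nonneg_left hlogb (by positivity))
  have hαle : α ≤ Real.exp ((a + d * n + d + n) * b) := by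
    rw [hα]
    have h3 : Real.exp n * E ≤ Real.exp (n + Real.log T) := by
      rw [Real.exp_add, hTe]
      exact mul_le_mul_of_nonneg_left hET' (Real.exp_pos _).le
    have h4 : (Real.exp n * (E : ℝ)) ^ (d * E) ≤ Real.exp ((d * E : ℕ) * (n + Real.log T)) := by
      rw [Real.exp_nat_mul]
      exact pow_le_pow_left₀ (by positivity) h3 _
    have h5 : Real.exp (T * a) * ((Real.exp n * (E : ℝ)) ^ (d * E) * Real.exp n) ≤
        Real.exp (T * a) * (Real.exp ((d * E : ℕ) * (n + Real.log T)) * Real.exp n) :=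
      mul_le_mul_of_nonneg_left (mul_le_mul_of_nonneg_right h4 (Real.exp_pos _).le) (Real.exp_pos _).le
    refine h5.trans ?_
    rw [← Real.exp_add, ← Real.exp_add]
    apply Real.exp_le_exp.2
    push_cast
    have h6 : (d : ℝ) * E * n ≤ d * n * b := by
      have h7 : (E : ℝ) ≤ b := hET'.trans hTb
      have h8 : (0 : ℝ) ≤ d * n := mul_nonneg hd0 hn
      calc (d : ℝ) * E * n = d * n * E := by ring
        _ ≤ d * n * b := mul_le_mul_of_nonneg_left h7 h8
    have h9 : (d : ℝ) * E * Real.log T ≤ d * b := by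
      have h10 : (E : ℝ) * Real.log T ≤ b := by
        rw [hb]; exact mul_le_mul_of_nonneg_right hET' (by linarith)
      rw [mul_assoc]
      exact mul_le_mul_of_nonneg_left h10 hd0
    have h11 : (T : ℝ) * a ≤ a * b := by
      rw [mul_comm]; exact mul_le_mul_of_nonneg_left hTb ha
    have h12 : n ≤ n * b := le_mul_of_one_le_right hn hb1
    calc (T : ℝ) * a + ((d : ℝ) * E * (n + Real.log T) + n)
        = T * a + (d * E * n + (d * E * Real.log T + n)) := by ring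
      _ ≤ a * b + (d * n * b + (d * b + n * b)) := by linarith
      _ = (a + d * n + d + n) * b := by ring
  have hNα : ((E : ℝ) ^ d * T) * α * Real.exp b ≤ Real.exp W := by
    have h3 : ((E : ℝ) ^ d * T) * α ≤ Real.exp ((d + 1) * b) * Real.exp ((a + d * n + d + n) * b) :=
      mul_le_mul hN hαle (by rw [hα]; positivity) (Real.exp_pos _).le
    refine (mul_le_mul_of_nonneg_right h3 (Real.exp_pos _).le).trans (le_of_eq ?_)
    rw [← Real.exp_add, ← Real.exp_add, hW]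
    congr 1
    ring
  have hα0 : 0 ≤ α := by rw [hα]; positivity
  have hNα0 : 0 ≤ ((E : ℝ) ^ d * T) * α * Real.exp b := by positivity
  constructor
  · -- the pigeonhole inequality
    have h3 : 4 * (((E : ℝ) ^ d * T) * α * Real.exp b) / Real.exp (-g - (s + 1)) + 2 ≤ Real.exp (K * (b + g)) := by
      have h4 : ((E : ℝ) ^ d * T) * α * Real.exp b / Real.exp (-g - (s + 1)) ≤ Real.exp (W + (g + (s + 1))) := by
        rw [div_le_iff₀ (Real.exp_pos _), ← Real.exp_add]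
        refine hNα.trans (Real.exp_le_exp.2 (le_of_eq ?_))
        ring
      have hV0 : 0 ≤ W + (g + (s + 1)) := by positivity
      have hV1 : 1 ≤ Real.exp (W + (g + (s + 1))) := Real.one_le_exp hV0
      have h6 : (6 : ℝ) ≤ Real.exp 6 := by
        have := Real.add_one_le_exp (6 : ℝ)
        linarith
      have h5 : 4 * (((E : ℝ) ^ d * T) * α * Real.exp b) / Real.exp (-g - (s + 1)) + 2 ≤
          Real.exp 6 * Real.exp (W + (g + (s + 1))) := by
        rw [mul_div_assoc]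
        refine le_trans ?_ (mul_le_mul_of_nonneg_right h6 (by linarith))
        linarith
      refine h5.trans ?_
      rw [← Real.exp_add]
      apply Real.exp_le_exp.2
      rw [hKW]
      linarith
    have h30 : 0 ≤ 4 * (((E : ℝ) ^ d * T) * α * Real.exp b) / Real.exp (-g - (s + 1)) + 2 := by positivity
    have h4 : (4 * (((E : ℝ) ^ d * T) * α * Real.exp b) / Real.exp (-g - (s + 1)) + 2) ^ (2 * c) ≤
        Real.exp (2 * c * (K * (b + g))) := by
      refine (pow_le_pow_left₀ h30 h3 _).trans (le_of_eq ?_)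
      rw [← Real.exp_nat_mul]
      push_cast
      ring_nf
    refine h4.trans_lt (Real.exp_lt_exp.2 ?_)
    have hbg : 0 ≤ K * (b + g) := by positivity
    calc 2 * (c : ℝ) * (K * (b + g)) ≤ 2 * (Real.exp s * R ^ (d - 1)) * (K * (b + g)) :=
          mul_le_mul_of_nonneg_right (by linarith) hbg
      _ = C * R ^ (d - 1) * (b + g) := by rw [hC]; ring
      _ < (E : ℝ) ^ d * T * b := h2
      _ = b * ((E : ℝ) ^ d * T) := by ring
  · have h2e : 2 * Real.exp (-g - 1) ≤ Real.exp (-g) := by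
      have h3 : Real.exp (-g) = Real.exp 1 * Real.exp (-g - 1) := by
        rw [← Real.exp_add]
        congr 1
        ring
      have h4 := Real.add_one_le_exp (1 : ℝ)
      rw [h3]
      exact mul_le_mul_of_nonneg_right (by linarith) (Real.exp_pos _).le
    have h3 : Real.exp s * Real.exp (-g - (s + 1)) = Real.exp (-g - 1) := by
      rw [← Real.exp_add]
      congr 1
      ring
    have h4 : Real.exp s * ((((E : ℝ) ^ d * T) * α * Real.exp b) * Real.exp (-R ^ 2)) ≤ Real.exp (-g - 1) := by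
      calc Real.exp s * ((((E : ℝ) ^ d * T) * α * Real.exp b) * Real.exp (-R ^ 2))
          ≤ Real.exp s * (Real.exp W * Real.exp (-R ^ 2)) :=
            mul_le_mul_of_nonneg_left (mul_le_mul_of_nonneg_right hNα (Real.exp_pos _).le) (Real.exp_pos _).le
        _ ≤ Real.exp (-g - 1) := by
            rw [← Real.exp_add, ← Real.exp_add]
            apply Real.exp_le_exp.2
            have h5 : K * (b + g) ≤ R ^ 2 := by
              refine le_trans ?_ h1
              exact mul_le_mul_of_nonneg_right hCK (by linarith)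
            rw [hKW] at h5
            linarith
    calc Real.exp s * (Real.exp (-g - (s + 1)) + (((E : ℝ) ^ d * T) * α * Real.exp b) * Real.exp (-R ^ 2))
        = Real.exp s * Real.exp (-g - (s + 1)) +
          Real.exp s * ((((E : ℝ) ^ d * T) * α * Real.exp b) * Real.exp (-R ^ 2)) := by ring
      _ ≤ 2 * Real.exp (-g - 1) := by rw [h3]; linarith
      _ ≤ Real.exp (-g) := h2e

/-- C3. PROOF. Compare `aux_exists` in K/G2_Aux. `q ≥ 1` with `q b_l ∈ ℤ`, `Sp` from `small_all P hd q hq` for `M = 1` and `R`, `card Sp ≤ C' R^(d-1)`. Unknowns `x_{κ,i}`, `κ ∈ Ir d E`, `i < T`, `p κ = ∑_i x_{κ,i} X^i`, `B = T^T`; forms: for `v ∈ Sp`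
`exp(-Qf v) GA(c)(v) = ∑ x_{κ,i} θ^i exp(-Qf v) GA(single κ 1)(v)` with coefficients `≤ α = max(1,‖θ‖)^T (C E)^(dE) C ≤ exp(C'' T log T)` (`NnR_bound`, `E ≤ T`, `T ≥ 3` so `log T ≥ 1`; `GA` is linear in `c`: `TH_sum`, `TH_C_mul`).
`ε = e^{-g - Λ}` with `Λ = C'''` a constant such that `C^1 e^{-Λ} ≤ 1/2`. `pigeon`: `4 (E^d T α B)/ε + 2 ≤ exp(C (T log T + g))` and `(B+1)^(E^d T) ≥ exp(E^d T · T log T)`, so hypothesis `h2` with a large `C` suffices. So all `Nn ≤ ε` on `Sp`; by `NnR_bound`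
`Nn ≤ B₁ e^{-P2}` everywhere, `B₁ = E^d T α B`; `GA` is entire (`GR_diff`), periodic by `NnR_shift`, so by `small_all`: `Nn ≤ C'(e^{-g-Λ} + B₁ e^{-R²}) ≤ e^{-g}` by `h1`. `p ≠ 0` since `x ≠ 0`. -/
theorem aux_existsR (P : Par d) (hd : 2 ≤ d) (D : Dt d) (hD : IsOrig P D) (θ : ℂ) : ∃ C : ℝ, 1 ≤ C ∧
    ∀ (E T : ℕ) (R g : ℝ), 1 ≤ E → E ≤ T → 3 ≤ T → 1 ≤ R → 0 ≤ g →
      (h1 : C * (T * Real.log T + g) ≤ R ^ 2) →
      (h2 : C * R ^ (d - 1) * (T * Real.log T + g) < (E : ℝ) ^ d * T * (T * Real.log T)) →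
      ∃ p : Ir d E → Polynomial ℤ, p ≠ 0 ∧ (∀ κ, (p κ).natDegree ≤ T) ∧ (∀ κ i, |((p κ).coeff i : ℝ)| ≤ (T : ℝ) ^ T) ∧
        ∀ v, Nn P 1 (GA P D (fun κ => Polynomial.aeval θ (p κ))) v ≤ Real.exp (-g) := by
  obtain ⟨q, hq, hqb⟩ := g2_den P
  obtain ⟨Cs', hCs, hsmall⟩ := small_all P hd q hq
  obtain ⟨Cn, hCn, hbd⟩ := NnR_bound P hd D hD
  obtain ⟨a, ha, hA'⟩ : ∃ a : ℝ, 0 ≤ a ∧ Real.exp a = max 1 ‖θ‖ :=
    ⟨Real.log (max 1 ‖θ‖), Real.log_nonneg (le_max_left _ _), Real.exp_log (lt_of_lt_of_le one_pos (le_max_left _ _))⟩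
  obtain ⟨n, hn, hCn'⟩ : ∃ n : ℝ, 0 ≤ n ∧ Real.exp n = Cn :=
    ⟨Real.log Cn, Real.log_nonneg hCn, Real.exp_log (lt_of_lt_of_le one_pos hCn)⟩
  obtain ⟨s, hs, hCs'⟩ : ∃ s : ℝ, 0 ≤ s ∧ Real.exp s = Cs' :=
    ⟨Real.log Cs', Real.log_nonneg hCs, Real.exp_log (lt_of_lt_of_le one_pos hCs)⟩
  refine ⟨2 * Real.exp s * (2 * d + 10 + a + (d + 1) * n + s), ?_, ?_⟩
  · have h1 : 0 ≤ ((d : ℝ) + 1) * n := by positivity
    have h2 : 1 ≤ Real.exp s := Real.one_le_exp hs
    have h3 : (0 : ℝ) ≤ d := Nat.cast_nonneg d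
    have h4 : 1 ≤ 2 * (d : ℝ) + 10 + a + (d + 1) * n + s := by linarith
    exact one_le_mul_of_one_le_of_one_le (by linarith) h4
  intro E T R g hE hET hT hR hg h1 h2
  have hT3 : (3 : ℝ) ≤ T := by exact_mod_cast hT
  have hlog : 1 ≤ Real.log T := by
    rw [Real.le_log_iff_exp_le (by linarith)]
    have := Real.exp_one_lt_d9
    linarith
  obtain ⟨b, hb⟩ : ∃ b : ℝ, b = T * Real.log T := ⟨_, rfl⟩
  rw [← hb] at h1 h2
  have hb0 : 0 ≤ b := by rw [hb]; exact mul_nonneg (by linarith) (by linarith)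
  have hB' : Real.exp b = (T : ℝ) ^ T := by
    rw [hb, Real.exp_nat_mul, Real.exp_log (by linarith)]
  obtain ⟨Sp, hSp, hsm⟩ := hsmall 1 R le_rfl hR
  set α : ℝ := (max 1 ‖θ‖) ^ T * ((Cn * E) ^ (d * E) * Cn) with hα
  have hα' : α = Real.exp (T * a) * ((Real.exp n * E) ^ (d * E) * Real.exp n) := by
    rw [hα, Real.exp_nat_mul, hA', hCn']
  have hα0 : 0 ≤ α := by rw [hα']; positivity
  obtain ⟨n1, n2⟩ := c3_num d E T a n s b R g _ α Sp.card hE hET ha hn hs hb hlog hR hg rfl hα'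
    (by rw [hCs']; simpa using hSp) h1 h2
  have hne : Nonempty (Ir d E × Fin T) := by
    have h3 : Nonempty (Fin E) := ⟨⟨0, hE⟩⟩
    have h4 : Nonempty (Fin T) := ⟨⟨0, by omega⟩⟩
    infer_instance
  have hBc : (((T ^ T : ℕ)) : ℝ) = (T : ℝ) ^ T := by push_cast; ring
  obtain ⟨x, hx0, hxB, hxε⟩ := pigeon (κ := Sp) (ι := Ir d E × Fin T)
    (fun v i => θ ^ i.2.val * (GA P D (Pi.single i.1 1) v * (Real.exp (-(((1 : ℕ) : ℝ) * Qf P v)) : ℝ)))
    α (Real.exp (-g - (s + 1))) (T ^ T) hα0 (Real.exp_pos _) (by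
      intro k i
      rw [norm_mul, norm_pow, norm_mul, Complex.norm_real, Real.norm_of_nonneg (Real.exp_pos _).le, hα]
      have h3 : ‖θ‖ ^ i.2.val ≤ (max 1 ‖θ‖) ^ T :=
        (pow_le_pow_left₀ (norm_nonneg _) (le_max_right _ _) _).trans
          (pow_le_pow_right₀ (le_max_left _ _) i.2.isLt.le)
      have h4 := hbd E hE i.1 (k : Fin d → ℂ)
      have h5 : (Cn * E) ^ (d * E) * Cn * Real.exp (-(((1 : ℕ) : ℝ) * P2 P (k : Fin d → ℂ))) ≤ (Cn * E) ^ (d * E) * Cn := by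
        refine mul_le_of_le_one_right (by positivity) (Real.exp_le_one_iff.2 ?_)
        have := g2_P2 P (k : Fin d → ℂ)
        rw [neg_nonpos]
        positivity
      exact mul_le_mul h3 (h4.trans h5) (by positivity) (by positivity))
    (by
      rw [Fintype.card_coe]
      refine (lt_of_eq_of_lt ?_ n1).trans_le ?_
      · rw [c3_card, hB', hBc]
      · have h3 : Real.exp (b * ((E : ℝ) ^ d * T)) = ((T ^ T : ℕ) : ℝ) ^ Fintype.card (Ir d E × Fin T) := by
          rw [hBc, ← hB', ← Real.exp_nat_mul, c3_card]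
          congr 1
          ring
        rw [h3]
        exact pow_le_pow_left₀ (by positivity) (by linarith) _)
  have hxB' : ∀ i, |x i| ≤ ((T ^ T : ℕ) : ℤ) := hxB
  refine ⟨c3p x, ?_, c3p_deg x, ?_, ?_⟩
  · intro h0
    apply hx0
    funext i
    have h3 := congrArg (fun f => Polynomial.coeff (f i.1) i.2.val) h0
    simp only [c3p_coeff, Pi.zero_apply, Polynomial.coeff_zero, i.2.isLt, dif_pos] at h3
    exact h3
  · intro κ j
    rw [c3p_coeff]
    split_ifs with h3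
    · rw [← hBc]
      exact_mod_cast hxB (κ, ⟨j, h3⟩)
    · rw [Int.cast_zero, abs_zero]
      positivity
  intro v
  have hmain := hsm (GA P D (fun κ => (Polynomial.aeval θ (c3p x κ) : ℂ))) ((E : ℝ) ^ d * T * α * Real.exp b)
    (c3_diff P D _) (fun m u => NnR_shift P hd D hD q hqb _ m u) ?_ (Real.exp (-g - (s + 1))) (Real.exp_pos _).le ?_ v
  · refine hmain.trans ?_
    rw [← hCs', pow_one]
    refine le_trans (le_of_eq ?_) n2
    push_cast
    rw [one_mul]
  · -- the growth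
    intro u
    have h3 : ‖GA P D (fun κ => (Polynomial.aeval θ (c3p x κ) : ℂ)) u‖ ≤
        ∑ κ : Ir d E, (T * Real.exp b * (max 1 ‖θ‖) ^ T) * ‖GA P D (Pi.single κ 1) u‖ := by
      rw [c3_GA]
      refine (norm_sum_le _ _).trans (Finset.sum_le_sum fun κ _ => ?_)
      rw [norm_mul]
      refine mul_le_mul_of_nonneg_right ?_ (norm_nonneg _)
      have h5 := c3_coef x θ (T ^ T) hxB' κ
      rw [hBc, ← hB'] at h5
      exact h5
    have h4 : Nn P 1 (GA P D (fun κ => (Polynomial.aeval θ (c3p x κ) : ℂ))) u ≤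
        ∑ κ : Ir d E, (T * Real.exp b * (max 1 ‖θ‖) ^ T) * Nn P 1 (GA P D (Pi.single κ 1)) u := by
      unfold Nn
      refine (mul_le_mul_of_nonneg_right h3 (Real.exp_pos _).le).trans (le_of_eq ?_)
      rw [Finset.sum_mul]
      exact Finset.sum_congr rfl fun κ _ => by ring
    have h5 : ∑ κ : Ir d E, (T * Real.exp b * (max 1 ‖θ‖) ^ T) * Nn P 1 (GA P D (Pi.single κ 1)) u ≤
        ∑ _κ : Ir d E, (T * Real.exp b * (max 1 ‖θ‖) ^ T) *
          ((Cn * E) ^ (d * E) * Cn * Real.exp (-(((1 : ℕ) : ℝ) * P2 P u))) :=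
      Finset.sum_le_sum fun κ _ => mul_le_mul_of_nonneg_left (hbd E hE κ u) (by positivity)
    refine (h4.trans h5).trans (le_of_eq ?_)
    have h6 : (Fintype.card (Ir d E) : ℝ) = (E : ℝ) ^ d := by
      rw [Fintype.card_fun, Fintype.card_fin, Fintype.card_fin]
      push_cast
      ring
    rw [Finset.sum_const, Finset.card_univ, nsmul_eq_mul, h6, hα]
    ring
  · -- the points
    intro u hu
    have h3 := hxε ⟨u, hu⟩
    refine le_trans (le_of_eq ?_) h3
    unfold Nn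
    have h4 : ‖GA P D (fun κ => (Polynomial.aeval θ (c3p x κ) : ℂ)) u‖ * Real.exp (-(((1 : ℕ) : ℝ) * Qf P u)) =
        ‖GA P D (fun κ => (Polynomial.aeval θ (c3p x κ) : ℂ)) u * (Real.exp (-(((1 : ℕ) : ℝ) * Qf P u)) : ℝ)‖ := by
      rw [norm_mul, Complex.norm_real, Real.norm_of_nonneg (Real.exp_pos _).le]
    rw [h4, c3_GA, Finset.sum_mul]
    congr 1
    refine Eq.trans ?_ (Fintype.sum_prod_type (α₁ := Ir d E) (α₂ := Fin T) _).symm
    refine Finset.sum_congr rfl fun κ _ => ?_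
    rw [c3p_aeval, Finset.sum_mul, Finset.sum_mul]
    refine Finset.sum_congr rfl fun i _ => ?_
    ring

end Pool.Agent.MSR
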