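import Pool.Agent.Lib.MP_f58a57_nt.R.Defs

/-! # R/C4_Par: parameters -/

open Complex Filter Topology IntermediateField

noncomputable section

namespace Pool.Agent.MSR

open MSD MSP MSK

variable {d : ℕ}

/-- C4. PROOF. `T = C₁ ℓ^f`, `f = 3d² + 9d + 3`, `E = ℓ^e`, `e = 3d(d+2)`, `lg = log T`, `1 ≤ lg ≤ C' ℓ` for `ℓ` large (`log ℓ ≤ ℓ`). Let `R = √(C(T lg + Λ T² lg))`, so `1 ≤ R ≤ C'' T ℓ` (`R² ≤ 2CΛ T² lg`). The second inequality: the left side is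
`≤ C R^(d-1) · 2 Λ T² lg`, the right side is `E^d T² lg`, so we need `2 C Λ R^(d-1) < E^d`, and `R^(d-1) ≤ C''' ℓ^(f(d-1)) ℓ^(d-1)`, `f(d-1) + (d-1) = 3d³ + 6d² - 5d - 4 < 3d³ + 6d² = e d`. -/
theorem paramsR (d : ℕ) (hd : 2 ≤ d) (C Λ : ℝ) (hC : 1 ≤ C) (hΛ : 1 ≤ Λ) (C₁ : ℕ) (hC₁ : 1 ≤ C₁) :
    ∀ᶠ ℓ : ℕ in atTop, ∃ R : ℝ, 1 ≤ R ∧
      C * ((C₁ * ℓ ^ (3 * d ^ 2 + 9 * d + 3) : ℕ) * Real.log (C₁ * ℓ ^ (3 * d ^ 2 + 9 * d + 3) : ℕ) +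
        Λ * (C₁ * ℓ ^ (3 * d ^ 2 + 9 * d + 3) : ℕ) ^ 2 * Real.log (C₁ * ℓ ^ (3 * d ^ 2 + 9 * d + 3) : ℕ)) ≤ R ^ 2 ∧
      C * R ^ (d - 1) * ((C₁ * ℓ ^ (3 * d ^ 2 + 9 * d + 3) : ℕ) * Real.log (C₁ * ℓ ^ (3 * d ^ 2 + 9 * d + 3) : ℕ) +
        Λ * (C₁ * ℓ ^ (3 * d ^ 2 + 9 * d + 3) : ℕ) ^ 2 * Real.log (C₁ * ℓ ^ (3 * d ^ 2 + 9 * d + 3) : ℕ)) <
        ((ℓ ^ (3 * d * (d + 2)) : ℕ) : ℝ) ^ d * (C₁ * ℓ ^ (3 * d ^ 2 + 9 * d + 3) : ℕ) *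
          ((C₁ * ℓ ^ (3 * d ^ 2 + 9 * d + 3) : ℕ) * Real.log (C₁ * ℓ ^ (3 * d ^ 2 + 9 * d + 3) : ℕ)) := by
  set f : ℕ := 3 * d ^ 2 + 9 * d + 3 with hf
  have hf3 : 3 ≤ f := by omega
  set K : ℝ := Real.log C₁ + f with hK
  have hlogC : 0 ≤ Real.log C₁ := Real.log_natCast_nonneg C₁
  have hf3' : (3 : ℝ) ≤ f := by exact_mod_cast hf3
  have hK1 : 1 ≤ K := by linarith
  have hCL : 1 ≤ C * Λ := one_le_mul_of_one_le_of_one_le hC hΛ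
  have hC1' : (1 : ℝ) ≤ C₁ := by exact_mod_cast hC₁
  have hCLK : 1 ≤ C * Λ * K := one_le_mul_of_one_le_of_one_le hCL hK1
  have hB1 : 1 ≤ 2 * C * Λ * K := by
    have e : 2 * C * Λ * K = C * Λ * K + C * Λ * K := by ring
    rw [e]
    linarith
  set A : ℝ := 2 * C * Λ * (2 * C * Λ * K * C₁) ^ (d - 1) with hA
  filter_upwards [eventually_ge_atTop (⌈A⌉₊ + 3)] with ℓ hℓ
  have hl3 : (3 : ℝ) ≤ ℓ := by
    have : 3 ≤ ℓ := by omega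
    exact_mod_cast this
  have hAl : A < ℓ := by
    have h1 : A ≤ (⌈A⌉₊ : ℝ) := Nat.le_ceil A
    have h2 : ((⌈A⌉₊ + 3 : ℕ) : ℝ) ≤ ℓ := by exact_mod_cast hℓ
    push_cast at h2
    linarith
  have hl0 : (0 : ℝ) < ℓ := by linarith
  have hl1 : (1 : ℝ) ≤ ℓ := by linarith
  have hTval : ((C₁ * ℓ ^ f : ℕ) : ℝ) = C₁ * (ℓ : ℝ) ^ f := by push_cast; ring
  set T : ℝ := ((C₁ * ℓ ^ f : ℕ) : ℝ) with hT
  have hlf : (ℓ : ℝ) ≤ (ℓ : ℝ) ^ f := le_self_pow₀ hl1 (by omega)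
  have hTl : (ℓ : ℝ) ≤ T := by
    rw [hTval]
    exact hlf.trans (le_mul_of_one_le_left (hl0.le.trans hlf) hC1')
  have hT3 : 3 ≤ T := hl3.trans hTl
  have hT0 : 0 < T := by linarith
  have hlg1 : 1 ≤ Real.log T := by
    rw [Real.le_log_iff_exp_le hT0]
    have := Real.exp_one_lt_d9
    linarith
  have hlgK : Real.log T ≤ K * ℓ := by
    rw [hTval, Real.log_mul (by positivity) (by positivity), Real.log_pow]
    have h1 : Real.log ℓ ≤ ℓ := (Real.log_le_sub_one_of_pos hl0).trans (by linarith)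
    have h2 : (f : ℝ) * Real.log ℓ ≤ f * ℓ := mul_le_mul_of_nonneg_left h1 (by linarith)
    have h3 : Real.log C₁ ≤ Real.log C₁ * ℓ := le_mul_of_one_le_right hlogC hl1
    rw [hK]
    linarith
  set lg : ℝ := Real.log T with hlg
  have hlg0 : 0 < lg := by linarith
  have hT1 : 1 ≤ T := by linarith
  have hTlg1 : 1 ≤ T * lg := one_le_mul_of_one_le_of_one_le hT1 hlg1
  have hT2 : T ≤ Λ * T ^ 2 :=
    (le_self_pow₀ hT1 two_ne_zero).trans (le_mul_of_one_le_left (sq_nonneg T) hΛ)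
  have hTT : T * lg ≤ Λ * T ^ 2 * lg := mul_le_mul_of_nonneg_right hT2 hlg0.le
  have hsum0 : 0 ≤ Λ * T ^ 2 * lg := by positivity
  have hX0 : 0 ≤ C * (T * lg + Λ * T ^ 2 * lg) := by positivity
  have hX1 : 1 ≤ C * (T * lg + Λ * T ^ 2 * lg) :=
    one_le_mul_of_one_le_of_one_le hC (by linarith)
  refine ⟨Real.sqrt (C * (T * lg + Λ * T ^ 2 * lg)), ?_, ?_, ?_⟩
  · rw [Real.one_le_sqrt]
    exact hX1
  · rw [Real.sq_sqrt hX0]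
  · set R : ℝ := Real.sqrt (C * (T * lg + Λ * T ^ 2 * lg)) with hR
    have hR0 : 0 ≤ R := Real.sqrt_nonneg _
    have hRle : R ≤ 2 * C * Λ * K * T * ℓ := by
      rw [hR]
      apply Real.sqrt_le_iff.2
      refine ⟨by positivity, ?_⟩
      have h1 : C * (T * lg + Λ * T ^ 2 * lg) ≤ C * (2 * (Λ * T ^ 2 * lg)) :=
        mul_le_mul_of_nonneg_left (by linarith) (by linarith)
      have h2 : Λ * T ^ 2 * lg ≤ Λ * T ^ 2 * (K * ℓ) :=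
        mul_le_mul_of_nonneg_left hlgK (by positivity)
      have h3 : C * (2 * (Λ * T ^ 2 * lg)) ≤ C * (2 * (Λ * T ^ 2 * (K * ℓ))) :=
        mul_le_mul_of_nonneg_left (by linarith) (by linarith)
      have h4 : C * (2 * (Λ * T ^ 2 * (K * ℓ))) = (2 * C * Λ * K) * (T ^ 2 * ℓ) := by ring
      have h5 : (2 * C * Λ * K) * (T ^ 2 * ℓ) ≤ (2 * C * Λ * K) ^ 2 * (T ^ 2 * ℓ ^ 2) := by
        apply mul_le_mul
        · exact le_self_pow₀ hB1 two_ne_zero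
        · apply mul_le_mul_of_nonneg_left _ (by positivity)
          exact le_self_pow₀ hl1 two_ne_zero
        · positivity
        · positivity
      calc C * (T * lg + Λ * T ^ 2 * lg) ≤ (2 * C * Λ * K) ^ 2 * (T ^ 2 * ℓ ^ 2) := by linarith
        _ = (2 * C * Λ * K * T * ℓ) ^ 2 := by ring
    have hRpow : R ^ (d - 1) ≤ (2 * C * Λ * K * C₁) ^ (d - 1) * (ℓ : ℝ) ^ ((f + 1) * (d - 1)) := by
      calc R ^ (d - 1) ≤ (2 * C * Λ * K * T * ℓ) ^ (d - 1) := pow_le_pow_left₀ hR0 hRle _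
        _ = (2 * C * Λ * K * C₁ * (ℓ : ℝ) ^ (f + 1)) ^ (d - 1) := by
            rw [hTval]
            ring
        _ = (2 * C * Λ * K * C₁) ^ (d - 1) * (ℓ : ℝ) ^ ((f + 1) * (d - 1)) := by
            rw [mul_pow, pow_mul (ℓ : ℝ)]
    have hexp : (f + 1) * (d - 1) + 1 ≤ 3 * d * (d + 2) * d := by
      obtain ⟨n, rfl⟩ : ∃ n, d = n + 2 := ⟨d - 2, by omega⟩
      have e1 : n + 2 - 1 = n + 1 := by omega
      rw [hf, e1]
      have e2 : 3 * (n + 2) * (n + 2 + 2) * (n + 2) =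
          (3 * (n + 2) ^ 2 + 9 * (n + 2) + 3 + 1) * (n + 1) + 1 + (5 * n + 13) := by ring
      rw [e2]
      exact Nat.le_add_right _ _
    have hkey : 2 * C * Λ * R ^ (d - 1) < ((ℓ ^ (3 * d * (d + 2)) : ℕ) : ℝ) ^ d := by
      have h1 : 2 * C * Λ * R ^ (d - 1) ≤ A * (ℓ : ℝ) ^ ((f + 1) * (d - 1)) := by
        rw [hA, mul_assoc (2 * C * Λ)]
        exact mul_le_mul_of_nonneg_left hRpow (by positivity)
      have h2 : A * (ℓ : ℝ) ^ ((f + 1) * (d - 1)) < ℓ * (ℓ : ℝ) ^ ((f + 1) * (d - 1)) :=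
        mul_lt_mul_of_pos_right hAl (by positivity)
      have h3 : ℓ * (ℓ : ℝ) ^ ((f + 1) * (d - 1)) = (ℓ : ℝ) ^ ((f + 1) * (d - 1) + 1) := by ring
      have h4 : (ℓ : ℝ) ^ ((f + 1) * (d - 1) + 1) ≤ (ℓ : ℝ) ^ (3 * d * (d + 2) * d) :=
        pow_le_pow_right₀ hl1 hexp
      have h5 : ((ℓ ^ (3 * d * (d + 2)) : ℕ) : ℝ) ^ d = (ℓ : ℝ) ^ (3 * d * (d + 2) * d) := by
        push_cast
        rw [← pow_mul]
      rw [h5]
      linarith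
    set Ed : ℝ := ((ℓ ^ (3 * d * (d + 2)) : ℕ) : ℝ) ^ d with hEd
    have hRp0 : 0 ≤ R ^ (d - 1) := by positivity
    have h1 : C * R ^ (d - 1) * (T * lg + Λ * T ^ 2 * lg) ≤
        C * R ^ (d - 1) * (2 * (Λ * T ^ 2 * lg)) :=
      mul_le_mul_of_nonneg_left (by linarith) (by positivity)
    have h2 : C * R ^ (d - 1) * (2 * (Λ * T ^ 2 * lg)) =
        (2 * C * Λ * R ^ (d - 1)) * (T ^ 2 * lg) := by ring
    have h3 : (2 * C * Λ * R ^ (d - 1)) * (T ^ 2 * lg) < Ed * (T ^ 2 * lg) :=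
      mul_lt_mul_of_pos_right hkey (by positivity)
    have h4 : Ed * (T ^ 2 * lg) = Ed * T * (T * lg) := by ring
    linarith

end Pool.Agent.MSR
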