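import Pool.Agent.Lib.MP_f58a57_nt.R.Defs
import Pool.Agent.Lib.MP_f58a57_nt.R.A5_Nm

/-! # R/D8_Eval: evaluation of the linear polynomials; Taylor shifts -/

open Complex Filter Topology IntermediateField

noncomputable section

namespace Pool.Agent.MSR

open MSD MSP MSK

variable {d : ℕ}

theorem d8_eval_aeval {σ τ : Type} (x : τ → ℂ) (f : σ → MvPolynomial τ ℂ) (B : MvPolynomial σ ℂ) :
    MvPolynomial.eval x (MvPolynomial.aeval f B) = MvPolynomial.eval (fun k => MvPolynomial.eval x (f k)) B := by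
  induction B using MvPolynomial.induction_on with
  | C a => simp
  | add p q hp hq => rw [map_add, map_add, map_add, hp, hq]
  | mul_X p i hp => rw [map_mul, map_mul, map_mul, MvPolynomial.aeval_X, MvPolynomial.eval_X, hp]

theorem d8_aeval_aeval {σ τ υ : Type} (g : τ → MvPolynomial υ ℂ) (f : σ → MvPolynomial τ ℂ) (B : MvPolynomial σ ℂ) :
    MvPolynomial.aeval g (MvPolynomial.aeval f B) = MvPolynomial.aeval (fun k => MvPolynomial.aeval g (f k)) B := by
  induction B using MvPolynomial.induction_on with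
  | C a => simp [MvPolynomial.algebraMap_eq]
  | add p q hp hq => rw [map_add, map_add, map_add, hp, hq]
  | mul_X p i hp => rw [map_mul, map_mul, map_mul, MvPolynomial.aeval_X, MvPolynomial.aeval_X, hp]

/-- D8a. PROOF. `eval` of `lin' k` at `X_j = 2πi(n_j + 1/2)` is `r_k w_k - (2πi/s_k) ∑ z_k^j (n_j + 1/2) = r_k w_k - sg_k`. -/
theorem eval_lin' (P : Par d) (r s w : Fin d → ℂ) (n : Fin (d + 1) → ℤ) (B : MvPolynomial (Fin d) ℂ) :
    MvPolynomial.eval (fun l => 2 * Real.pi * I * ((n l : ℂ) + 1 / 2)) (MvPolynomial.aeval (lin' P r s w) B) =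
      MvPolynomial.eval (fun k => r k * w k) (sh (fun k => -sg P s n k) B) := by
  unfold sh
  rw [d8_eval_aeval, d8_eval_aeval]
  congr 2
  funext k
  simp only [lin', sg, map_sub, map_mul, map_add, map_sum, MvPolynomial.eval_C, MvPolynomial.eval_X]
  rw [sub_eq_add_neg]
  congr 2
  rw [Finset.mul_sum, Finset.mul_sum]
  refine Finset.sum_congr rfl fun j _ => ?_
  ring

/-- D8b. -/
theorem sh_sh (σ σ' : Fin d → ℂ) (B : MvPolynomial (Fin d) ℂ) : sh σ (sh σ' B) = sh (fun j => σ j + σ' j) B := by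
  unfold sh
  rw [d8_aeval_aeval]
  congr 2
  funext k
  simp only [map_add, MvPolynomial.aeval_X, MvPolynomial.aeval_C, MvPolynomial.algebraMap_eq]
  ring

theorem sh_zero (B : MvPolynomial (Fin d) ℂ) : sh 0 B = B := by
  unfold sh
  simp

theorem d8_deg_X (σ : Fin d → ℂ) (j : Fin d) :
    (MvPolynomial.X j + MvPolynomial.C (σ j) : MvPolynomial (Fin d) ℂ).totalDegree ≤ 1 := by
  refine (MvPolynomial.totalDegree_add _ _).trans ?_
  rw [MvPolynomial.totalDegree_C, MvPolynomial.totalDegree_X]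
  simp

theorem d8_sh_eq (σ : Fin d → ℂ) (B : MvPolynomial (Fin d) ℂ) :
    sh σ B = ∑ m ∈ B.support, MvPolynomial.C (B.coeff m) * ∏ j, (MvPolynomial.X j + MvPolynomial.C (σ j)) ^ m j := by
  unfold sh
  rw [MvPolynomial.aeval_def, MvPolynomial.eval₂_eq']
  rfl

theorem sh_deg (σ : Fin d → ℂ) (B : MvPolynomial (Fin d) ℂ) : (sh σ B).totalDegree ≤ B.totalDegree := by
  rw [d8_sh_eq]
  refine (MvPolynomial.totalDegree_finsetSum _ _).trans (Finset.sup_le fun m hm => ?_)
  refine (MvPolynomial.totalDegree_mul _ _).trans ?_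
  rw [MvPolynomial.totalDegree_C, zero_add]
  refine (MvPolynomial.totalDegree_finsetProd _ _).trans ?_
  have h1 : ∑ j : Fin d, ((MvPolynomial.X j + MvPolynomial.C (σ j) : MvPolynomial (Fin d) ℂ) ^ m j).totalDegree ≤ ∑ j : Fin d, m j := by
    refine Finset.sum_le_sum fun j _ => (MvPolynomial.totalDegree_pow _ _).trans ?_
    calc m j * (MvPolynomial.X j + MvPolynomial.C (σ j) : MvPolynomial (Fin d) ℂ).totalDegree ≤ m j * 1 :=
          Nat.mul_le_mul_left _ (d8_deg_X σ j)
      _ = m j := mul_one _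
  refine h1.trans ?_
  have h2 : ∑ j : Fin d, m j = m.sum fun _ e => e := by
    rw [Finsupp.sum_fintype]
    intro i
    rfl
  rw [h2]
  exact MvPolynomial.le_totalDegree hm

theorem d8_sh_nm (n : ℕ) (A : ℝ) (hA : 0 ≤ A) (σ : Fin d → ℂ) (hσ : ∀ j, ‖σ j‖ ≤ A) (B : MvPolynomial (Fin d) ℂ) (hB : B.totalDegree ≤ n) :
    nm 1 (sh σ B) ≤ (1 + A) ^ n * nm 1 B := by
  refine le_trans ?_ (nm_le_pow (1 + A) (by linarith) n B hB)
  refine nm_aeval 1 (1 + A) zero_le_one _ (fun j => ?_) B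
  refine (nm_add 1 zero_le_one _ _).trans ?_
  rw [nm_X, nm_C]
  linarith [hσ j]

/-- D8c. PROOF. `nm_aeval`: `nm 1 (X_j + C(σ_j)) ≤ 1 + A`, and `nm_le_pow`. The second: `B = sh (-σ) (sh σ B)`. -/
theorem sh_nm (n : ℕ) (A : ℝ) (hA : 0 ≤ A) (σ : Fin d → ℂ) (hσ : ∀ j, ‖σ j‖ ≤ A) (B : MvPolynomial (Fin d) ℂ) (hB : B.totalDegree ≤ n) :
    nm 1 (sh σ B) ≤ (1 + A) ^ n * nm 1 B ∧ nm 1 B ≤ (1 + A) ^ n * nm 1 (sh σ B) := by
  refine ⟨d8_sh_nm n A hA σ hσ B hB, ?_⟩
  have h := d8_sh_nm n A hA (fun j => -σ j) (fun j => by rw [norm_neg]; exact hσ j) (sh σ B) ((sh_deg σ B).trans hB)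
  rw [sh_sh] at h
  have h0 : (fun j => -σ j + σ j) = (0 : Fin d → ℂ) := by
    funext j
    simp
  rwa [h0, sh_zero] at h

open MvPolynomial in
theorem d8_sh_homog (i : Fin d) (σ : Fin d → ℂ) (hi : σ i = 0) (m : Fin d →₀ ℕ) :
    IsWeightedHomogeneous (Pi.single i 1 : Fin d → ℕ) (∏ j, (MvPolynomial.X j + MvPolynomial.C (σ j) : MvPolynomial (Fin d) ℂ) ^ m j) (m i) := by
  have h : ∀ j ∈ Finset.univ, IsWeightedHomogeneous (Pi.single i 1 : Fin d → ℕ)
      ((MvPolynomial.X j + MvPolynomial.C (σ j) : MvPolynomial (Fin d) ℂ) ^ m j) (m j • (Pi.single i 1 : Fin d → ℕ) j) := by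
    intro j _
    refine IsWeightedHomogeneous.pow ?_ _
    by_cases hj : j = i
    · subst hj
      rw [hi, MvPolynomial.C_0, add_zero]
      exact isWeightedHomogeneous_X ℂ _ j
    · have h0 : (Pi.single i 1 : Fin d → ℕ) j = 0 := by simp [hj]
      rw [h0]
      refine IsWeightedHomogeneous.add ?_ (isWeightedHomogeneous_C _ _)
      have := isWeightedHomogeneous_X ℂ (Pi.single i 1 : Fin d → ℕ) j
      rwa [h0] at this
  have h1 := IsWeightedHomogeneous.prod Finset.univ _ _ h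
  have h2 : ∑ j : Fin d, m j • (Pi.single i 1 : Fin d → ℕ) j = m i := by
    rw [Finset.sum_eq_single i]
    · simp
    · intro j _ hj
      simp [hj]
    · intro h
      exact absurd (Finset.mem_univ i) h
  rwa [h2] at h1

open MvPolynomial in
theorem d8_sh_comp (i : Fin d) (σ : Fin d → ℂ) (hi : σ i = 0) (e : ℕ) (B : MvPolynomial (Fin d) ℂ) :
    sh σ (weightedHomogeneousComponent (Pi.single i 1 : Fin d → ℕ) e B) =
      weightedHomogeneousComponent (Pi.single i 1 : Fin d → ℕ) e (sh σ B) := by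
  induction B using MvPolynomial.induction_on' with
  | monomial m a =>
    have h1 : sh σ (monomial m a) = C a * ∏ j, (MvPolynomial.X j + MvPolynomial.C (σ j) : MvPolynomial (Fin d) ℂ) ^ m j := by
      unfold sh
      rw [MvPolynomial.aeval_monomial, MvPolynomial.algebraMap_eq, Finsupp.prod_fintype _ _ (fun i => pow_zero _)]
    have h2 : IsWeightedHomogeneous (Pi.single i 1 : Fin d → ℕ) (sh σ (monomial m a)) (m i) := by
      rw [h1]
      have := (isWeightedHomogeneous_C (Pi.single i 1 : Fin d → ℕ) a).mul (d8_sh_homog i σ hi m)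
      rwa [zero_add] at this
    have h3 : IsWeightedHomogeneous (Pi.single i 1 : Fin d → ℕ) (monomial m a) (m i) := by
      refine isWeightedHomogeneous_monomial _ _ _ ?_
      rw [Finsupp.weight_single_one_apply]
    by_cases hm : m i = e
    · subst hm
      rw [h3.weightedHomogeneousComponent_same, h2.weightedHomogeneousComponent_same]
    · rw [h3.weightedHomogeneousComponent_ne _ (fun h => hm h.symm), h2.weightedHomogeneousComponent_ne _ (fun h => hm h.symm)]
      unfold sh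
      rw [map_zero]
  | add p q hp hq =>
    have h1 : sh σ (p + q) = sh σ p + sh σ q := by
      unfold sh
      rw [map_add]
    have h2 : sh σ (weightedHomogeneousComponent (Pi.single i 1 : Fin d → ℕ) e p + weightedHomogeneousComponent (Pi.single i 1 : Fin d → ℕ) e q) =
        sh σ (weightedHomogeneousComponent (Pi.single i 1 : Fin d → ℕ) e p) + sh σ (weightedHomogeneousComponent (Pi.single i 1 : Fin d → ℕ) e q) := by
      unfold sh
      rw [map_add]
    rw [map_add, h1, map_add, h2, hp, hq]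

/-- D8d. the same for the part of degree `e` in the variable `i`, when `σ i = 0`. PROOF. Let `B_e` be the sum of the monomials `m` of `B` with `m i = e`; `sh σ (B_e) = (sh σ B)_e`, apply D8c to `B_e`, and `exists_coeff_nm`: `‖B.coeff m‖ ≤ nm 1 (B_e) ≤ (1+A)^n nm 1 ((sh σ B)_e)`. -/
theorem sh_part (n : ℕ) (A : ℝ) (hA : 0 ≤ A) (i : Fin d) (σ : Fin d → ℂ) (hσ : ∀ j, ‖σ j‖ ≤ A) (hi : σ i = 0) (B : MvPolynomial (Fin d) ℂ)
    (hB : B.totalDegree ≤ n) (m : Fin d →₀ ℕ) : ∃ m' : Fin d →₀ ℕ, m' i = m i ∧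
      ‖B.coeff m‖ ≤ (1 + A) ^ n * (n + 1) ^ d * ‖(sh σ B).coeff m'‖ := by
  classical
  have hco : ∀ (C : MvPolynomial (Fin d) ℂ) (m' : Fin d →₀ ℕ),
      (MvPolynomial.weightedHomogeneousComponent (Pi.single i 1 : Fin d → ℕ) (m i) C).coeff m' = if m' i = m i then C.coeff m' else 0 := by
    intro C m'
    rw [MvPolynomial.coeff_weightedHomogeneousComponent, Finsupp.weight_single_one_apply]
  have hdeg : (MvPolynomial.weightedHomogeneousComponent (Pi.single i 1 : Fin d → ℕ) (m i) B).totalDegree ≤ n := by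
    refine (Finset.sup_le fun m' hm' => ?_)
    rw [MvPolynomial.mem_support_iff, hco] at hm'
    by_cases h : m' i = m i
    · rw [if_pos h] at hm'
      exact (MvPolynomial.le_totalDegree (MvPolynomial.mem_support_iff.mpr hm')).trans hB
    · rw [if_neg h] at hm'
      exact absurd rfl hm'
  obtain ⟨m', _, hm'⟩ := exists_coeff_nm n (sh σ (MvPolynomial.weightedHomogeneousComponent (Pi.single i 1 : Fin d → ℕ) (m i) B))
    ((sh_deg _ _).trans hdeg)
  have h1 : ‖B.coeff m‖ ≤ nm 1 (MvPolynomial.weightedHomogeneousComponent (Pi.single i 1 : Fin d → ℕ) (m i) B) := by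
    have := coeff_le_nm (MvPolynomial.weightedHomogeneousComponent (Pi.single i 1 : Fin d → ℕ) (m i) B) m
    rwa [hco, if_pos rfl] at this
  have h2 := (sh_nm n A hA σ hσ _ hdeg).2
  have hA' : 0 ≤ (1 + A) ^ n := by positivity
  have h3 : ‖B.coeff m‖ ≤ (1 + A) ^ n * (n + 1) ^ d *
      ‖(sh σ (MvPolynomial.weightedHomogeneousComponent (Pi.single i 1 : Fin d → ℕ) (m i) B)).coeff m'‖ := by
    calc ‖B.coeff m‖ ≤ _ := h1.trans h2
      _ ≤ (1 + A) ^ n * ((n + 1) ^ d * _) := mul_le_mul_of_nonneg_left hm' hA'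
      _ = _ := (mul_assoc _ _ _).symm
  rw [d8_sh_comp i σ hi, hco] at h3
  by_cases h : m' i = m i
  · rw [if_pos h] at h3
    exact ⟨m', h, h3⟩
  · rw [if_neg h, norm_zero, mul_zero] at h3
    exact ⟨m, rfl, h3.trans (by positivity)⟩

end Pool.Agent.MSR
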