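import Pool.Agent.Lib.MP_f58a57_nt.R.Defs
import Pool.Agent.Lib.MP_f58a57_nt.R.A5_Nm
import Pool.Agent.Lib.MP_f58a57_nt.R.D8_Eval

/-! # R/D11_Cpt: quantitative version of nonvanishing -/

open Complex Filter Topology IntermediateField

noncomputable section

namespace Pool.Agent.MSR

open MSD MSP MSK

variable {d : ℕ}

/-- the index set of the exponents of total degree `≤ N` -/
abbrev d11J (d N : ℕ) : Type := {x : Fin d → Fin (N + 1) // ∑ j, (x j).val ≤ N}

/-- the exponent with index `x` -/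
def d11e {N : ℕ} (x : d11J d N) : Fin d →₀ ℕ := Finsupp.equivFunOnFinite.symm (fun j => (x.1 j).val)

theorem d11e_apply {N : ℕ} (x : d11J d N) (j : Fin d) : d11e x j = (x.1 j).val := rfl

theorem d11e_inj {N : ℕ} : Function.Injective (d11e : d11J d N → (Fin d →₀ ℕ)) := by
  intro x y h
  apply Subtype.ext
  funext j
  apply Fin.ext
  rw [← d11e_apply, ← d11e_apply, h]

theorem d11e_sum {N : ℕ} (x : d11J d N) : ((d11e x).sum fun _ e => e) ≤ N := by
  rw [Finsupp.sum_fintype _ _ (fun _ => rfl)]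
  exact x.2

/-- the polynomial with the given coefficients -/
def d11p {N : ℕ} (v : d11J d N → ℂ) : MvPolynomial (Fin d) ℂ := ∑ x, MvPolynomial.monomial (d11e x) (v x)

theorem d11p_coeff {N : ℕ} (v : d11J d N → ℂ) (x : d11J d N) : (d11p v).coeff (d11e x) = v x := by
  classical
  rw [d11p, MvPolynomial.coeff_sum]
  rw [Finset.sum_eq_single x]
  · rw [MvPolynomial.coeff_monomial, if_pos rfl]
  · intro y _ hy
    rw [MvPolynomial.coeff_monomial, if_neg (fun h => hy (d11e_inj h))]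
  · intro h
    exact absurd (Finset.mem_univ x) h

theorem d11p_deg {N : ℕ} (v : d11J d N → ℂ) : (d11p v).totalDegree ≤ N := by
  refine (MvPolynomial.totalDegree_finsetSum _ _).trans (Finset.sup_le fun x _ => ?_)
  exact (MvPolynomial.totalDegree_monomial_le _ _).trans (d11e_sum x)

theorem d11_mem {N : ℕ} (B : MvPolynomial (Fin d) ℂ) (hB : B.totalDegree ≤ N) (m : Fin d →₀ ℕ) (hm : m ∈ B.support) :
    ∃ x : d11J d N, d11e x = m := by
  have h1 : (m.sum fun _ e => e) ≤ N := (MvPolynomial.le_totalDegree hm).trans hB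
  rw [Finsupp.sum_fintype _ _ (fun _ => rfl)] at h1
  have h2 : ∀ j, m j < N + 1 := fun j =>
    Nat.lt_succ_of_le ((Finset.single_le_sum (f := fun i => m i) (fun _ _ => Nat.zero_le _) (Finset.mem_univ j)).trans h1)
  refine ⟨⟨fun j => ⟨m j, h2 j⟩, h1⟩, ?_⟩
  ext j
  rfl

theorem d11p_self {N : ℕ} (B : MvPolynomial (Fin d) ℂ) (hB : B.totalDegree ≤ N) :
    d11p (N := N) (fun x => B.coeff (d11e x)) = B := by
  classical
  ext m
  by_cases hm : ∃ x : d11J d N, d11e x = m
  · obtain ⟨x, rfl⟩ := hm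
    rw [d11p_coeff]
  · have h1 : m ∉ B.support := fun h => hm (d11_mem B hB m h)
    rw [MvPolynomial.notMem_support_iff.1 h1, d11p, MvPolynomial.coeff_sum]
    refine Finset.sum_eq_zero fun x _ => ?_
    rw [MvPolynomial.coeff_monomial, if_neg (fun h => hm ⟨x, h⟩)]

theorem d11_nm {N : ℕ} (B : MvPolynomial (Fin d) ℂ) (hB : B.totalDegree ≤ N) :
    nm 1 B = ∑ x : d11J d N, ‖B.coeff (d11e x)‖ := by
  classical
  rw [nm_eq 1 B (Finset.univ.image (d11e : d11J d N → (Fin d →₀ ℕ)))]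
  · rw [Finset.sum_image (fun x _ y _ h => d11e_inj h)]
    exact Finset.sum_congr rfl fun x _ => by rw [one_pow, mul_one]
  · intro m hm
    obtain ⟨x, hx⟩ := d11_mem B hB m hm
    exact Finset.mem_image.2 ⟨x, Finset.mem_univ _, hx⟩

/-- D11. PROOF. The space of polynomials with `totalDegree ≤ N` is finite dimensional (`MvPolynomial.restrictTotalDegree`, or identify it with the functions on the finite set of exponents `m` with all `m_j ≤ N`, `|m| ≤ N`), and `B ↦ (coeff m (sh x B))_{(x,m) ∈ F}` is a linear map to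
`F → ℂ` which is injective by hypothesis, so it is bounded below (`LinearMap.injective_iff_antilipschitz`, `LinearMap.exists_antilipschitzWith`; or compactness of the unit sphere). `nm 1` is a norm on this space. (Compare `ep_inj` in K/E4_Inj.) -/
theorem cpt (N : ℕ) (F : Finset ((Fin d → ℂ) × (Fin d →₀ ℕ)))
    (h : ∀ B : MvPolynomial (Fin d) ℂ, B.totalDegree ≤ N → B ≠ 0 → ∃ f ∈ F, (sh f.1 B).coeff f.2 ≠ 0) :
    ∃ c : ℝ, 0 < c ∧ ∀ B : MvPolynomial (Fin d) ℂ, B.totalDegree ≤ N → ∃ f ∈ F, c * nm 1 B ≤ ‖(sh f.1 B).coeff f.2‖ := by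
  classical
  have hF : F.Nonempty := by
    obtain ⟨f, hf, -⟩ := h 1 (by simp) one_ne_zero
    exact ⟨f, hf⟩
  let L : (d11J d N → ℂ) →ₗ[ℂ] (F → ℂ) :=
    { toFun := fun v f => (sh f.1.1 (d11p v)).coeff f.1.2
      map_add' := by
        intro v w
        funext f
        have h1 : d11p (v + w) = d11p v + d11p w := by
          simp only [d11p, Pi.add_apply, map_add, Finset.sum_add_distrib]
        rw [Pi.add_apply, h1, sh, map_add, MvPolynomial.coeff_add]
        rfl
      map_smul' := by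
        intro r v
        funext f
        have h1 : d11p (r • v) = r • d11p v := by
          simp only [d11p, Pi.smul_apply, Finset.smul_sum, MvPolynomial.smul_monomial]
        rw [Pi.smul_apply, h1, sh, map_smul, MvPolynomial.coeff_smul]
        rfl }
  have hL : ∀ v f, L v f = (sh f.1.1 (d11p v)).coeff f.1.2 := fun v f => rfl
  have hker : LinearMap.ker L = ⊥ := by
    rw [LinearMap.ker_eq_bot']
    intro v hv
    by_contra hne
    have h1 : d11p v ≠ 0 := by
      intro h2
      apply hne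
      funext x
      rw [← d11p_coeff v x, h2, MvPolynomial.coeff_zero, Pi.zero_apply]
    obtain ⟨f, hf, hne'⟩ := h (d11p v) (d11p_deg v) h1
    apply hne'
    have h3 := congrFun hv ⟨f, hf⟩
    rw [hL] at h3
    exact h3
  obtain ⟨K, hK, hanti⟩ := L.exists_antilipschitzWith hker
  have hK' : (0 : ℝ) < K := by exact_mod_cast hK
  set M : ℝ := (Fintype.card (d11J d N) : ℝ) + 1 with hM
  have hM0 : 0 < M := by positivity
  refine ⟨(K * M)⁻¹, inv_pos.2 (mul_pos hK' hM0), fun B hB => ?_⟩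
  set v : d11J d N → ℂ := fun x => B.coeff (d11e x) with hv
  have h1 : ‖v‖ ≤ K * ‖L v‖ := by
    have := hanti.le_mul_dist v 0
    rwa [map_zero, dist_zero_right, dist_zero_right] at this
  obtain ⟨f, hf, hmax⟩ := F.exists_max_image (fun f => ‖(sh f.1 B).coeff f.2‖) hF
  refine ⟨f, hf, ?_⟩
  have h2 : ‖L v‖ ≤ ‖(sh f.1 B).coeff f.2‖ := by
    rw [pi_norm_le_iff_of_nonneg (norm_nonneg _)]
    intro g
    rw [hL, hv, d11p_self B hB]
    exact hmax g.1 g.2
  have h3 : nm 1 B ≤ M * ‖v‖ := by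
    rw [d11_nm B hB]
    calc ∑ x : d11J d N, ‖B.coeff (d11e x)‖ ≤ ∑ _x : d11J d N, ‖v‖ :=
          Finset.sum_le_sum fun x _ => norm_le_pi_norm v x
      _ = (Fintype.card (d11J d N) : ℝ) * ‖v‖ := by rw [Finset.sum_const, Finset.card_univ, nsmul_eq_mul]
      _ ≤ M * ‖v‖ := mul_le_mul_of_nonneg_right (by rw [hM]; linarith) (norm_nonneg _)
  rw [inv_mul_le_iff₀ (mul_pos hK' hM0)]
  calc nm 1 B ≤ M * ‖v‖ := h3
    _ ≤ M * (K * ‖L v‖) := mul_le_mul_of_nonneg_left h1 hM0.le
    _ ≤ M * (K * ‖(sh f.1 B).coeff f.2‖) := mul_le_mul_of_nonneg_left (mul_le_mul_of_nonneg_left h2 hK'.le) hM0.le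
    _ = K * M * ‖(sh f.1 B).coeff f.2‖ := by ring

end Pool.Agent.MSR
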