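import Pool.Agent.Lib.MP_f58a57_nt.R.Defs
import Pool.Agent.Lib.MP_f58a57_nt.K.D1_As

/-! # R/D4_Eig: eigencoordinates -/

open Complex Filter Topology IntermediateField

noncomputable section

namespace Pool.Agent.MSR

open MSD MSP MSK

variable {d : ℕ}

/-- D4a. PROOF. `tt z u` has the components `-∑ z^(j+1) u_j` and `u_j`. -/
theorem eg_tt (P : Par d) (u : Fin d → ℂ) (k : Fin d) :
    eg P (tt P.z u) k = ∑ j : Fin d, (P.rt k.succ ^ (j.val + 1) - P.z ^ (j.val + 1)) * u j := by
  rw [eg, Fin.sum_univ_succ]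
  simp only [tt, Fin.cons_zero, Fin.cons_succ, Fin.val_zero, pow_zero, one_mul, Fin.val_succ]
  rw [neg_add_eq_sub, ← Finset.sum_sub_distrib]
  exact Finset.sum_congr rfl fun j _ => by ring

/-- D4b. PROOF. `As_eig` (K/D1_As). -/
theorem eg_As (P : Par d) (s : ℂ) (w : Fin d → ℂ) (k : Fin d) :
    eg P (tt P.z (As P s w)) k = (1 + s * (P.rt k.succ - P.z)) * eg P (tt P.z w) k :=
  As_eig P s w k.succ

lemma d4_cast (l : Fin (d + 1)) (y : ℂ) :
    ∑ j : Fin d, y ^ (j.val + 1) * (if l = j.castSucc then (1 : ℂ) else 0) =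
      if l = Fin.last d then 0 else y ^ (l.val + 1) := by
  refine Fin.lastCases ?_ (fun i => ?_) l
  · rw [if_pos rfl]
    refine Finset.sum_eq_zero fun j _ => ?_
    rw [if_neg (Fin.castSucc_lt_last j).ne', mul_zero]
  · rw [if_neg (Fin.castSucc_lt_last i).ne, Finset.sum_eq_single i]
    · simp
    · intro j _ hj
      rw [if_neg, mul_zero]
      intro h
      exact hj (Fin.castSucc_injective d h).symm
    · intro h
      exact absurd (Finset.mem_univ i) h

lemma d4_succ (l : Fin (d + 1)) (y z : ℂ) :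
    ∑ j : Fin d, y ^ (j.val + 1) * (if l = j.succ then z else 0) =
      if l = 0 then 0 else z * y ^ l.val := by
  refine Fin.cases ?_ (fun i => ?_) l
  · rw [if_pos rfl]
    refine Finset.sum_eq_zero fun j _ => ?_
    rw [if_neg (Fin.succ_ne_zero j).symm, mul_zero]
  · rw [if_neg (Fin.succ_ne_zero i), Finset.sum_eq_single i]
    · simp [mul_comm]
    · intro j _ hj
      rw [if_neg, mul_zero]
      intro h
      exact hj (Fin.succ_injective d h).symm
    · intro h
      exact absurd (Finset.mem_univ i) h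

lemma d4_last (b : Fin (d + 1) → ℚ) (l : Fin (d + 1)) (y : ℂ)
    (hy : y ^ (d + 1) = ∑ l : Fin (d + 1), (b l : ℂ) * y ^ l.val) :
    ∑ j : Fin d, y ^ (j.val + 1) * (if l = Fin.last d then (b j.succ : ℂ) else 0) =
      if l = Fin.last d then y ^ (d + 1) - b 0 else 0 := by
  by_cases h : l = Fin.last d
  · simp only [if_pos h]
    rw [hy, Fin.sum_univ_succ]
    simp only [Fin.val_zero, pow_zero, mul_one, Fin.val_succ]
    rw [add_sub_cancel_left]
    exact Finset.sum_congr rfl fun j _ => by ring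
  · simp only [if_neg h, mul_zero, Finset.sum_const_zero]

lemma d4_S (P : Par d) (l : Fin (d + 1)) (y : ℂ)
    (hy : y ^ (d + 1) = ∑ l : Fin (d + 1), (P.b l : ℂ) * y ^ l.val) :
    ∑ j : Fin d, y ^ (j.val + 1) * ((if l = j.castSucc then (1 : ℂ) else 0) +
      (if l = Fin.last d then (P.b j.succ : ℂ) else 0) - (if l = j.succ then P.z else 0)) =
      y ^ (l.val + 1) - P.z * y ^ l.val - (if l = Fin.last d then (P.b 0 : ℂ) else 0) + (if l = 0 then P.z else 0) := by
  have h1 : ∑ j : Fin d, y ^ (j.val + 1) * ((if l = j.castSucc then (1 : ℂ) else 0) +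
      (if l = Fin.last d then (P.b j.succ : ℂ) else 0) - (if l = j.succ then P.z else 0)) =
      ∑ j : Fin d, y ^ (j.val + 1) * (if l = j.castSucc then (1 : ℂ) else 0) +
      ∑ j : Fin d, y ^ (j.val + 1) * (if l = Fin.last d then (P.b j.succ : ℂ) else 0) -
      ∑ j : Fin d, y ^ (j.val + 1) * (if l = j.succ then P.z else 0) := by
    rw [← Finset.sum_add_distrib, ← Finset.sum_sub_distrib]
    exact Finset.sum_congr rfl fun j _ => by ring
  rw [h1, d4_cast, d4_last P.b l y hy, d4_succ]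
  have h2 : (if l = Fin.last d then (0 : ℂ) else y ^ (l.val + 1)) +
      (if l = Fin.last d then y ^ (d + 1) - (P.b 0 : ℂ) else 0) =
      y ^ (l.val + 1) - (if l = Fin.last d then (P.b 0 : ℂ) else 0) := by
    by_cases h : l = Fin.last d
    · simp only [if_pos h]
      rw [h, Fin.val_last]
      ring
    · simp only [if_neg h]
      ring
  have h3 : (if l = 0 then (0 : ℂ) else P.z * y ^ l.val) = P.z * y ^ l.val - (if l = 0 then P.z else 0) := by
    by_cases h : l = 0
    · simp only [if_pos h]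
      rw [h]
      simp
    · simp only [if_neg h]
      ring
  rw [h2, h3]
  ring

/-- D4c. PROOF. Let `S(y) = ∑_{j : Fin d} y^(j+1) ([l = j] + [l = d] b_{j+1} - z [l = j+1])` (indices as natural numbers) `= y^(l+1) [l < d] + [l = d] ∑_{j ≥ 1} b_j y^j - z y^l [l ≥ 1]`. For `y = z_k` and `y = z`, with `y^(d+1) = ∑ b_l y^l`, it is
`y^(l+1) - [l = d] b_0 - z y^l + z [l = 0]`, so `S(z_k) - S(z) = z_k^l (z_k - z)`. -/
theorem eg_rho (P : Par d) (k : Fin d) (l : Fin (d + 1)) :
    ∑ j : Fin d, (P.rt k.succ ^ (j.val + 1) - P.z ^ (j.val + 1)) * rhv P l j = rh * (P.rt k.succ - P.z) * P.rt k.succ ^ l.val := by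
  have h1 := d4_S P l (P.rt k.succ) (P.rel k.succ)
  have h2 := d4_S P l P.z (P.rel 0)
  have h3 : ∑ j : Fin d, (P.rt k.succ ^ (j.val + 1) - P.z ^ (j.val + 1)) * rhv P l j =
      rh * (∑ j : Fin d, P.rt k.succ ^ (j.val + 1) * ((if l = j.castSucc then (1 : ℂ) else 0) +
      (if l = Fin.last d then (P.b j.succ : ℂ) else 0) - (if l = j.succ then P.z else 0)) -
      ∑ j : Fin d, P.z ^ (j.val + 1) * ((if l = j.castSucc then (1 : ℂ) else 0) +
      (if l = Fin.last d then (P.b j.succ : ℂ) else 0) - (if l = j.succ then P.z else 0))) := by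
    rw [← Finset.sum_sub_distrib, Finset.mul_sum]
    refine Finset.sum_congr rfl fun j _ => ?_
    rw [rhv]
    ring
  rw [h3, h1, h2]
  ring

/-- D4d. PROOF. The matrix `(z_k^(j+1) - z^(j+1))_{k,j}` is invertible: if `∑_j (z_k^(j+1) - z^(j+1)) u_j = 0` for all `k` then the polynomial `∑_j u_j X^(j+1) - ∑ u_j z^(j+1)` of degree `≤ d` has the `d + 1` different roots `z, z_1, ..., z_d`
(`P.inj`, or Vandermonde: `Matrix.det_vandermonde_ne_zero_iff`), so `u = 0`. Take the inverse matrix. -/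
theorem eg_inv (P : Par d) : ∃ M : Fin d → Fin d → ℂ,
    (∀ j i, ∑ k : Fin d, M j k * (P.rt k.succ ^ (i.val + 1) - P.z ^ (i.val + 1)) = if j = i then 1 else 0) ∧
    ∀ k k', ∑ j : Fin d, (P.rt k.succ ^ (j.val + 1) - P.z ^ (j.val + 1)) * M j k' = if k = k' then 1 else 0 := by
  classical
  let N : Matrix (Fin d) (Fin d) ℂ := fun k j => P.rt k.succ ^ (j.val + 1) - P.z ^ (j.val + 1)
  have hdet : N.det ≠ 0 := by
    intro h0
    obtain ⟨v, hv, hv0⟩ := Matrix.exists_mulVec_eq_zero_iff.2 h0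
    apply hv
    have hV : IsUnit (Matrix.vandermonde P.rt).det :=
      isUnit_iff_ne_zero.2 (Matrix.det_vandermonde_ne_zero_iff.2 P.inj)
    have h1 : (Matrix.vandermonde P.rt).mulVec (tt P.z v) = 0 := by
      funext i
      have h2 : (Matrix.vandermonde P.rt).mulVec (tt P.z v) i = ∑ l : Fin (d + 1), P.rt i ^ l.val * tt P.z v l := by
        simp [Matrix.mulVec, dotProduct, Matrix.vandermonde_apply]
      rw [h2]
      refine Fin.cases ?_ (fun k => ?_) i
      · exact tt_rel P.z v
      · have h3 := eg_tt P v k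
        rw [eg] at h3
        rw [h3]
        have h4 := congrFun hv0 k
        simpa [N, Matrix.mulVec, dotProduct] using h4
    have h2 : tt P.z v = 0 := by
      have h3 := congrArg (fun u => (Matrix.vandermonde P.rt)⁻¹.mulVec u) h1
      simpa [Matrix.mulVec_mulVec, Matrix.nonsing_inv_mul _ hV] using h3
    funext j
    have h3 := congrFun h2 j.succ
    simpa [tt] using h3
  have hu : IsUnit N.det := isUnit_iff_ne_zero.2 hdet
  refine ⟨fun j k => N⁻¹ j k, fun j i => ?_, fun k k' => ?_⟩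
  · have h1 := congrFun (congrFun (Matrix.nonsing_inv_mul N hu) j) i
    rw [Matrix.mul_apply, Matrix.one_apply] at h1
    exact h1
  · have h1 := congrFun (congrFun (Matrix.mul_nonsing_inv N hu) k) k'
    rw [Matrix.mul_apply, Matrix.one_apply] at h1
    exact h1

open Polynomial in
lemma d4_coeff (x : Fin (d + 1) → ℚ) (l : Fin (d + 1)) :
    (∑ m : Fin (d + 1), C (x m) * X ^ m.val : ℚ[X]).coeff l.val = x l := by
  rw [finsetSum_coeff, Finset.sum_eq_single l]
  · simp
  · intro m _ hm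
    rw [coeff_C_mul, coeff_X_pow, if_neg, mul_zero]
    intro h
    exact hm (Fin.ext h.symm)
  · intro h
    exact absurd (Finset.mem_univ l) h

open Polynomial in
lemma d4_deg (x : Fin (d + 1) → ℚ) :
    (∑ m : Fin (d + 1), C (x m) * X ^ m.val : ℚ[X]).degree < ((d + 1 : ℕ) : WithBot ℕ) := by
  refine (degree_sum_le _ _).trans_lt ?_
  rw [Finset.sup_lt_iff (WithBot.bot_lt_coe _)]
  intro m _
  exact (degree_C_mul_X_pow_le _ _).trans_lt (by exact_mod_cast m.2)

open Polynomial in
lemma d4_aeval (x : Fin (d + 1) → ℚ) (y : ℂ) :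
    aeval y (∑ m : Fin (d + 1), C (x m) * X ^ m.val : ℚ[X]) = ∑ m : Fin (d + 1), (x m : ℂ) * y ^ m.val := by
  rw [map_sum]
  refine Finset.sum_congr rfl fun m _ => ?_
  simp

/-- D4e. linear independence for the conjugates. PROOF. If `x ≠ 0` the polynomial `p = ∑ x_l X^l ∈ ℚ[X]` of degree `≤ d` vanishes at `rt i`. `f = X^(d+1) - ∑ b_l X^l` is the minimal polynomial of `z = rt 0` (`P.rel 0`, `P.li`: no nonzero rational polynomial of degree `≤ d`
vanishes at `z`), so it is irreducible and coprime to `p`: `a f + b p = 1`, which is absurd at `rt i`. -/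
theorem li_conj (P : Par d) (i : Fin (d + 1)) (x : Fin (d + 1) → ℚ) (h : ∑ l : Fin (d + 1), (x l : ℂ) * P.rt i ^ l.val = 0) : x = 0 := by
  classical
  open Polynomial in
  set q : ℚ[X] := X ^ (d + 1) - ∑ m : Fin (d + 1), C (P.b m) * X ^ m.val with hq
  have hqm : q.Monic := Polynomial.monic_X_pow_sub (d4_deg P.b)
  have hq0 : q ≠ 0 := hqm.ne_zero
  have hqd : q.degree = ((d + 1 : ℕ) : WithBot ℕ) := by
    rw [hq]
    rw [Polynomial.degree_sub_eq_left_of_degree_lt]
    · exact Polynomial.degree_X_pow _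
    · rw [Polynomial.degree_X_pow]
      exact d4_deg P.b
  have hqr : ∀ j, Polynomial.aeval (P.rt j) q = 0 := by
    intro j
    rw [hq, map_sub, d4_aeval, map_pow, Polynomial.aeval_X, P.rel j, sub_self]
  have hint : IsIntegral ℚ (P.rt 0) := ⟨q, hqm, hqr 0⟩
  have hmin : minpoly ℚ (P.rt 0) = q := by
    have hdvd : minpoly ℚ (P.rt 0) ∣ q := minpoly.dvd ℚ _ (hqr 0)
    refine (Polynomial.eq_of_monic_of_dvd_of_natDegree_le (minpoly.monic hint) hqm hdvd ?_).symm
    by_contra hlt
    push Not at hlt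
    have hqn : q.natDegree = d + 1 := Polynomial.natDegree_eq_of_degree_eq_some hqd
    rw [hqn] at hlt
    set m := minpoly ℚ (P.rt 0) with hm
    have hx : (fun l : Fin (d + 1) => m.coeff l.val) = 0 := by
      apply P.li
      have h1 : Polynomial.aeval (P.rt 0) m = 0 := minpoly.aeval ℚ (P.rt 0)
      rw [Polynomial.aeval_eq_sum_range' hlt] at h1
      rw [← h1, ← Fin.sum_univ_eq_sum_range (fun l => m.coeff l • P.rt 0 ^ l)]
      refine Finset.sum_congr rfl fun l _ => ?_
      rw [Algebra.smul_def]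
      rfl
    have hm0 : m ≠ 0 := minpoly.ne_zero hint
    apply hm0
    ext n
    by_cases hn : n < d + 1
    · have := congrFun hx ⟨n, hn⟩
      simpa using this
    · rw [Polynomial.coeff_eq_zero_of_natDegree_lt (lt_of_lt_of_le hlt (not_lt.1 hn))]
      simp
  have hirr : Irreducible q := hmin ▸ minpoly.irreducible hint
  have hmini : q = minpoly ℚ (P.rt i) := minpoly.eq_of_irreducible_of_monic hirr (hqr i) hqm
  have hp : Polynomial.aeval (P.rt i) (∑ m : Fin (d + 1), Polynomial.C (x m) * Polynomial.X ^ m.val : Polynomial ℚ) = 0 := by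
    rw [d4_aeval]
    exact h
  have hdvd := minpoly.dvd ℚ (P.rt i) hp
  rw [← hmini] at hdvd
  have hp0 := Polynomial.eq_zero_of_dvd_of_degree_lt hdvd (by rw [hqd]; exact d4_deg x)
  funext l
  have h1 := d4_coeff x l
  rw [hp0] at h1
  simpa using h1.symm

end Pool.Agent.MSR
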