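import Pool.Agent.Lib.MP_f58a57_nt.R.Defs
import Pool.Agent.Lib.MP_f58a57_nt.R.D8_Eval

/-! # R/D9_Z1a: zeros of a polynomial in one of its variables -/

open Complex Filter Topology IntermediateField

noncomputable section

namespace Pool.Agent.MSR

open MSD MSP MSK

variable {d : ℕ}

/-- the variable `i` as a polynomial variable in the coefficients -/
def d9_f (i : Fin d) : MvPolynomial (Fin d) ℂ →ₐ[ℂ] MvPolynomial (Fin d) (Polynomial ℂ) :=
  MvPolynomial.aeval fun j => if j = i then MvPolynomial.C Polynomial.X else MvPolynomial.X j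

theorem d9_monomial (i : Fin d) (m : Fin d →₀ ℕ) (c : ℂ) :
    d9_f i (MvPolynomial.monomial m c) = MvPolynomial.monomial (m.erase i) (Polynomial.C c * Polynomial.X ^ m i) := by
  unfold d9_f
  rw [MvPolynomial.aeval_monomial]
  have h1 : m = m.erase i + Finsupp.single i (m i) := (Finsupp.erase_add_single i m).symm
  have h2 : (m.prod fun j e => (if j = i then MvPolynomial.C Polynomial.X else MvPolynomial.X j : MvPolynomial (Fin d) (Polynomial ℂ)) ^ e) =
      MvPolynomial.monomial (m.erase i) 1 * MvPolynomial.C (Polynomial.X ^ m i) := by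
    conv_lhs => rw [h1]
    rw [Finsupp.prod_add_index' (by simp) (by intros; rw [pow_add])]
    congr 1
    · rw [MvPolynomial.monomial_eq, MvPolynomial.C_1, one_mul]
      refine Finsupp.prod_congr fun j hj => ?_
      have hji : j ≠ i := by
        rintro rfl
        simp at hj
      rw [if_neg hji]
    · rw [Finsupp.prod_single_index (by simp), if_pos rfl, map_pow]
  rw [h2]
  rw [show (algebraMap ℂ (MvPolynomial (Fin d) (Polynomial ℂ))) c = MvPolynomial.C (Polynomial.C c) from rfl]
  rw [← mul_assoc, MvPolynomial.C_mul_monomial, mul_comm, MvPolynomial.C_mul_monomial, mul_one]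
  congr 1
  rw [mul_comm]

theorem d9_coeff (i : Fin d) (n : Fin d →₀ ℕ) (hn : n i = 0) (e : ℕ) (B : MvPolynomial (Fin d) ℂ) :
    ((d9_f i B).coeff n).coeff e = B.coeff (n + Finsupp.single i e) := by
  induction B using MvPolynomial.induction_on' with
  | add p q hp hq => rw [map_add, MvPolynomial.coeff_add, Polynomial.coeff_add, hp, hq, MvPolynomial.coeff_add]
  | monomial m c =>
    rw [d9_monomial, MvPolynomial.coeff_monomial, MvPolynomial.coeff_monomial]
    have h1 : (m.erase i = n ∧ m i = e) ↔ m = n + Finsupp.single i e := by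
      constructor
      · rintro ⟨rfl, rfl⟩
        exact (Finsupp.erase_add_single i m).symm
      · rintro rfl
        constructor
        · ext j
          by_cases hj : j = i
          · subst hj
            rw [Finsupp.erase_same, hn]
          · rw [Finsupp.erase_ne hj, Finsupp.add_apply, Finsupp.single_eq_of_ne hj, add_zero]
        · rw [Finsupp.add_apply, hn, Finsupp.single_eq_same, zero_add]
    by_cases h2 : m.erase i = n
    · rw [if_pos h2, Polynomial.coeff_C_mul, Polynomial.coeff_X_pow]
      by_cases h3 : m i = e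
      · rw [if_pos h3.symm, if_pos (h1.1 ⟨h2, h3⟩), mul_one]
      · rw [if_neg (fun h => h3 h.symm), if_neg (fun h => h3 (h1.2 h).2), mul_zero]
    · rw [if_neg h2, if_neg (fun h => h2 (h1.2 h).1), Polynomial.coeff_zero]

theorem d9_sh (i : Fin d) (x : ℂ) (B : MvPolynomial (Fin d) ℂ) :
    d9_f i (sh (Pi.single i x) B) = MvPolynomial.map (Polynomial.taylorAlgHom x).toRingHom (d9_f i B) := by
  have h : ((d9_f i).comp (MvPolynomial.aeval (fun j => MvPolynomial.X j + MvPolynomial.C ((Pi.single i x : Fin d → ℂ) j)) :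
      MvPolynomial (Fin d) ℂ →ₐ[ℂ] MvPolynomial (Fin d) ℂ)).toRingHom =
      (MvPolynomial.map (Polynomial.taylorAlgHom x).toRingHom).comp (d9_f i).toRingHom := by
    refine MvPolynomial.ringHom_ext (fun r => ?_) (fun j => ?_)
    · have h1 : (d9_f i) (MvPolynomial.C r) = MvPolynomial.C (Polynomial.C r) := by
        unfold d9_f
        rw [MvPolynomial.aeval_C]
        rfl
      simp only [AlgHom.toRingHom_eq_coe, RingHom.coe_coe, AlgHom.coe_comp, Function.comp_apply, RingHom.coe_comp]
      rw [MvPolynomial.algHom_C]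
      rw [show (algebraMap ℂ (MvPolynomial (Fin d) ℂ)) r = MvPolynomial.C r from rfl, h1, MvPolynomial.map_C]
      simp
    · simp only [AlgHom.toRingHom_eq_coe, RingHom.coe_coe, AlgHom.coe_comp, Function.comp_apply, RingHom.coe_comp]
      rw [MvPolynomial.aeval_X, map_add]
      have h1 : (d9_f i) (MvPolynomial.C ((Pi.single i x : Fin d → ℂ) j)) = MvPolynomial.C (Polynomial.C ((Pi.single i x : Fin d → ℂ) j)) := by
        unfold d9_f
        rw [MvPolynomial.aeval_C]
        rfl
      have h2 : (d9_f i) (MvPolynomial.X j) = if j = i then MvPolynomial.C Polynomial.X else MvPolynomial.X j := by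
        unfold d9_f
        rw [MvPolynomial.aeval_X]
      rw [h1, h2]
      by_cases hj : j = i
      · subst hj
        simp
      · rw [if_neg hj, MvPolynomial.map_X, Pi.single_eq_of_ne hj]
        simp
  exact congrArg (fun f => f B) h

/-- D9. PROOF. Choose an exponent `m₀` of `B` and consider the polynomial in one variable `p(U) = ∑_e b_(m₀ with m₀_i replaced by e) U^e`, which is not zero and of degree `≤ N`. For `x ∈ S` the coefficient of `sh (single i x) B` at `(m₀ with m₀_i replaced by e)` is the `e`-th Taylor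
coefficient of `p` at `x` (the other variables are not shifted). If all the Taylor coefficients of order `≤ κm` of `p` at all `x ∈ S` vanish then `∏_{x ∈ S} (U - x)^(κm+1)` divides `p` (`Finset.prod_dvd_of_coprime`), so `card S (κm + 1) ≤ N`. -/
theorem z1a (i : Fin d) (S : Finset ℂ) (κm N : ℕ) (B : MvPolynomial (Fin d) ℂ) (hB : B ≠ 0) (hN : B.totalDegree ≤ N) (hS : N < S.card * (κm + 1)) :
    ∃ x ∈ S, ∃ m : Fin d →₀ ℕ, m i ≤ κm ∧ (sh (Pi.single i x) B).coeff m ≠ 0 := by
  by_contra hcon
  push Not at hcon
  obtain ⟨m₀, hm₀⟩ := MvPolynomial.ne_zero_iff.1 hB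
  set n := m₀.erase i with hn
  have hni : n i = 0 := by rw [hn, Finsupp.erase_same]
  set p := (d9_f i B).coeff n with hp
  have hp0 : p ≠ 0 := by
    intro h0
    apply hm₀
    have h1 := d9_coeff i n hni (m₀ i) B
    rw [← hp, h0, Polynomial.coeff_zero, hn, Finsupp.erase_add_single] at h1
    exact h1.symm
  have hdeg : p.natDegree ≤ N := by
    refine Polynomial.natDegree_le_iff_coeff_eq_zero.2 fun e he => ?_
    rw [hp, d9_coeff i n hni]
    refine MvPolynomial.coeff_eq_zero_of_totalDegree_lt ?_
    refine lt_of_le_of_lt hN (lt_of_lt_of_le he ?_)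
    have h1 : (n + Finsupp.single i e) i = e := by rw [Finsupp.add_apply, hni, Finsupp.single_eq_same, zero_add]
    calc e = (n + Finsupp.single i e) i := h1.symm
      _ ≤ ∑ j ∈ (n + Finsupp.single i e).support, (n + Finsupp.single i e) j := by
        by_cases h2 : i ∈ (n + Finsupp.single i e).support
        · exact Finset.single_le_sum (f := fun j => (n + Finsupp.single i e) j) (fun _ _ => Nat.zero_le _) h2
        · rw [Finsupp.notMem_support_iff.1 h2]
          exact Nat.zero_le _
  have hdvd : ∀ x ∈ S, (Polynomial.X - Polynomial.C x) ^ (κm + 1) ∣ p := by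
    intro x hx
    have h1 : Polynomial.X ^ (κm + 1) ∣ Polynomial.taylor x p := by
      rw [Polynomial.X_pow_dvd_iff]
      intro e he
      have h2 := hcon x hx (n + Finsupp.single i e) (by
        rw [Finsupp.add_apply, hni, Finsupp.single_eq_same]
        omega)
      rw [← d9_coeff i n hni, d9_sh, MvPolynomial.coeff_map, ← hp] at h2
      exact h2
    obtain ⟨q, hq⟩ := h1
    refine ⟨Polynomial.taylor (-x) q, ?_⟩
    have h3 := congrArg (Polynomial.taylor (-x)) hq
    rw [Polynomial.taylor_taylor, neg_add_cancel, Polynomial.taylor_zero, Polynomial.taylor_mul, Polynomial.taylor_X_pow] at h3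
    rw [h3, Polynomial.C_neg, ← sub_eq_add_neg]
  have hprod : ∏ x ∈ S, (Polynomial.X - Polynomial.C x) ^ (κm + 1) ∣ p := by
    refine Finset.prod_dvd_of_coprime (fun x _ y _ hxy => ?_) hdvd
    exact (Polynomial.isCoprime_X_sub_C_of_isUnit_sub (sub_ne_zero.2 hxy).isUnit).pow
  have h4 := Polynomial.natDegree_le_of_dvd hprod hp0
  rw [Polynomial.natDegree_prod_of_monic _ _ (fun x _ => (Polynomial.monic_X_sub_C x).pow _)] at h4
  simp only [Polynomial.natDegree_pow, Polynomial.natDegree_X_sub_C, mul_one, Finset.sum_const, smul_eq_mul] at h4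
  omega

end Pool.Agent.MSR
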