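import Pool.Agent.Lib.MP_f58a57_nt.R.Defs
import Pool.Agent.Lib.MP_f58a57_nt.R.D9_Z1a
import Pool.Agent.Lib.MP_f58a57_nt.R.D11_Cpt
import Pool.Agent.Lib.MP_f58a57_nt.R.D4_Eig
import Pool.Agent.Lib.MP_f58a57_nt.R.D8_Eval
import Pool.Agent.Lib.MP_f58a57_nt.R.A5_Nm

/-! # R/D12_LowA: lower bound for the coefficients, first type -/

open Complex Filter Topology IntermediateField

noncomputable section

namespace Pool.Agent.MSR

open MSD MSP MSK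

variable {d : ℕ}

theorem d12_sg (P : Par d) (s : Fin d → ℂ) (δ R : ℝ) (hδ : 0 < δ) (n : Fin (d + 1) → ℤ) (hn : ∀ j, ‖(n j : ℂ)‖ ≤ R) (k : Fin d) (hs : δ ≤ ‖s k‖) :
    ‖sg P s n k‖ ≤ 2 * Real.pi / δ * ∑ j : Fin (d + 1), ‖P.rt k.succ‖ ^ j.val * (R + 1 / 2) := by
  rw [sg, norm_mul]
  refine mul_le_mul ?_ ?_ (norm_nonneg _) (by positivity)
  · rw [norm_div, norm_mul, norm_mul, Complex.norm_I, Complex.norm_real, Complex.norm_ofNat, mul_one, Real.norm_eq_abs,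
      abs_of_pos Real.pi_pos]
    exact div_le_div_of_nonneg_left (by positivity) hδ hs
  · refine (norm_sum_le _ _).trans (Finset.sum_le_sum fun j _ => ?_)
    rw [norm_mul, norm_pow]
    refine mul_le_mul_of_nonneg_left ?_ (by positivity)
    refine (norm_add_le _ _).trans (add_le_add (hn j) ?_)
    rw [norm_div, norm_one, Complex.norm_ofNat]

/-- the vectors `n` with `n_0 = 0` -/
def d12_n {L : ℕ} (a : Fin d → Fin L) : Fin (d + 1) → ℤ := Fin.cons 0 (fun l => ((a l).val : ℤ))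

/-- the numbers `x_n` -/
def d12_x (P : Par d) (i : Fin d) {L : ℕ} (a : Fin d → Fin L) : ℂ :=
  -(2 * Real.pi * I * ∑ j : Fin (d + 1), P.rt i.succ ^ j.val * ((d12_n a j : ℂ) + 1 / 2))

theorem d12_inj (P : Par d) (i : Fin d) {L : ℕ} : Function.Injective (d12_x P i (L := L)) := by
  intro a b hab
  have h1 : ∑ j : Fin (d + 1), P.rt i.succ ^ j.val * ((d12_n a j : ℂ) + 1 / 2) =
      ∑ j : Fin (d + 1), P.rt i.succ ^ j.val * ((d12_n b j : ℂ) + 1 / 2) := by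
    have h2 : (2 * Real.pi * I : ℂ) ≠ 0 := Complex.two_pi_I_ne_zero
    have h3 := neg_injective hab
    exact mul_left_cancel₀ h2 h3
  have h2 := li_conj P i.succ (fun j => ((d12_n a j : ℤ) : ℚ) - ((d12_n b j : ℤ) : ℚ)) (by
    have h3 : ∑ l : Fin (d + 1), ((((d12_n a l : ℤ) : ℚ) - ((d12_n b l : ℤ) : ℚ) : ℚ) : ℂ) * P.rt i.succ ^ l.val =
        ∑ j : Fin (d + 1), P.rt i.succ ^ j.val * ((d12_n a j : ℂ) + 1 / 2) -
        ∑ j : Fin (d + 1), P.rt i.succ ^ j.val * ((d12_n b j : ℂ) + 1 / 2) := by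
      rw [← Finset.sum_sub_distrib]
      refine Finset.sum_congr rfl fun j _ => ?_
      push_cast
      ring
    rw [h3, h1, sub_self])
  funext l
  have h3 := congrFun h2 l.succ
  simp only [d12_n, Fin.cons_succ, Pi.zero_apply] at h3
  have h4 : ((((a l).val : ℤ) : ℚ)) = (((b l).val : ℤ) : ℚ) := sub_eq_zero.1 h3
  have h5 : ((a l).val : ℤ) = ((b l).val : ℤ) := by exact_mod_cast h4
  exact Fin.ext (by exact_mod_cast h5)

theorem d12_one (P : Par d) (δ : ℝ) (hδ : 0 < δ) (ℓ : ℕ) (hℓ : 1 ≤ ℓ) (i : Fin d) : ∃ c : ℝ, 0 < c ∧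
    ∀ (s : Fin d → ℂ), s i = 1 → (∀ k, k ≠ i → δ ≤ ‖s k‖) →
    ∀ B : MvPolynomial (Fin d) ℂ, B.totalDegree ≤ d * ℓ ^ (3 * d * (d + 2)) →
    ∃ n : Fin (d + 1) → ℤ, (∀ l, 0 ≤ n l ∧ n l ≤ (ℓ : ℤ) ^ (3 * d)) ∧ ∃ m : Fin d →₀ ℕ, m i ≤ d * ℓ ^ (6 * d) ∧
      c * nm 1 B ≤ ‖(sh (fun k => -sg P s n k) B).coeff m‖ := by
  classical
  set N : ℕ := d * ℓ ^ (3 * d * (d + 2)) with hN
  set L : ℕ := ℓ ^ (3 * d) + 1 with hL
  set S : Finset ℂ := Finset.univ.image (d12_x P i (L := L)) with hS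
  have hScard : S.card = L ^ d := by
    rw [hS, Finset.card_image_of_injective _ (d12_inj P i), Finset.card_univ, Fintype.card_fun, Fintype.card_fin, Fintype.card_fin]
  have hNS : N < S.card * (d * ℓ ^ (6 * d) + 1) := by
    rw [hScard, hN, hL]
    have h1 : (ℓ ^ (3 * d)) ^ d ≤ (ℓ ^ (3 * d) + 1) ^ d := Nat.pow_le_pow_left (Nat.le_succ _) _
    have h2 : 0 < (ℓ ^ (3 * d)) ^ d := Nat.pow_pos (Nat.pow_pos hℓ)
    calc d * ℓ ^ (3 * d * (d + 2)) = (ℓ ^ (3 * d)) ^ d * (d * ℓ ^ (6 * d)) := by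
          rw [← pow_mul]
          have : 3 * d * (d + 2) = 3 * d * d + 6 * d := by ring
          rw [this, pow_add]
          ring
      _ < (ℓ ^ (3 * d)) ^ d * (d * ℓ ^ (6 * d) + 1) := Nat.mul_lt_mul_of_pos_left (Nat.lt_succ_self _) h2
      _ ≤ (ℓ ^ (3 * d) + 1) ^ d * (d * ℓ ^ (6 * d) + 1) := Nat.mul_le_mul_right _ h1
  set E : Finset (Fin d →₀ ℕ) := (Finset.Icc 0 (Finsupp.equivFunOnFinite.symm fun _ => N)).filter (fun m => m i ≤ d * ℓ ^ (6 * d)) with hE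
  obtain ⟨c₀, hc₀, hcpt⟩ := cpt N ((S.image (Pi.single i)) ×ˢ E) (by
    intro B hB hB0
    obtain ⟨x, hx, m, hm, hne⟩ := z1a i S (d * ℓ ^ (6 * d)) N B hB0 hB hNS
    refine ⟨(Pi.single i x, m), ?_, hne⟩
    rw [Finset.mem_product]
    refine ⟨Finset.mem_image_of_mem _ hx, ?_⟩
    rw [hE, Finset.mem_filter, Finset.mem_Icc]
    refine ⟨⟨zero_le, ?_⟩, hm⟩
    intro j
    rw [Finsupp.equivFunOnFinite_symm_apply_apply]
    have h1 := (MvPolynomial.le_totalDegree (MvPolynomial.mem_support_iff.2 hne)).trans ((sh_deg _ B).trans hB)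
    rw [Finsupp.sum_fintype _ _ (fun _ => rfl)] at h1
    exact (Finset.single_le_sum (f := fun l => m l) (fun _ _ => Nat.zero_le _) (Finset.mem_univ j)).trans h1)
  set A : ℝ := ∑ k : Fin d, 2 * Real.pi / δ * ∑ j : Fin (d + 1), ‖P.rt k.succ‖ ^ j.val * ((ℓ : ℝ) ^ (3 * d) + 1 / 2) with hA
  have hA0 : 0 ≤ A := Finset.sum_nonneg fun k _ => by positivity
  have hQ : 0 < (1 + A) ^ N * ((N : ℝ) + 1) ^ d := by positivity
  refine ⟨((1 + A) ^ N * ((N : ℝ) + 1) ^ d)⁻¹ * c₀, mul_pos (inv_pos.2 hQ) hc₀, fun s hsi hs B hB => ?_⟩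
  obtain ⟨f, hf, hfc⟩ := hcpt B hB
  rw [Finset.mem_product] at hf
  obtain ⟨x, hx, hfx⟩ := Finset.mem_image.1 hf.1
  obtain ⟨a, -, hax⟩ := Finset.mem_image.1 hx
  have hfm : f.2 i ≤ d * ℓ ^ (6 * d) := (Finset.mem_filter.1 hf.2).2
  have hn : ∀ l, 0 ≤ d12_n a l ∧ d12_n a l ≤ (ℓ : ℤ) ^ (3 * d) := by
    intro l
    refine Fin.cases ?_ (fun l => ?_) l
    · simp [d12_n]
    · simp only [d12_n, Fin.cons_succ]
      refine ⟨by positivity, ?_⟩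
      have h1 : (a l).val ≤ ℓ ^ (3 * d) := Nat.le_of_lt_succ (a l).isLt
      exact_mod_cast h1
  refine ⟨d12_n a, hn, ?_⟩
  set σ' : Fin d → ℂ := fun k => -sg P s (d12_n a) k - (Pi.single i x : Fin d → ℂ) k with hσ'
  have hnn : ∀ j, ‖(d12_n a j : ℂ)‖ ≤ (ℓ : ℝ) ^ (3 * d) := by
    intro j
    rw [Complex.norm_intCast, abs_of_nonneg (by exact_mod_cast (hn j).1)]
    exact_mod_cast (hn j).2
  have hσi : σ' i = 0 := by
    rw [hσ']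
    simp only [Pi.single_eq_same]
    rw [← hax, d12_x, sg, hsi, div_one]
    ring
  have hσA : ∀ k, ‖σ' k‖ ≤ A := by
    intro k
    by_cases hk : k = i
    · rw [hk, hσi, norm_zero]
      exact hA0
    · rw [hσ']
      simp only [Pi.single_eq_of_ne hk, sub_zero, norm_neg]
      refine (d12_sg P s δ ((ℓ : ℝ) ^ (3 * d)) hδ _ hnn k (hs k hk)).trans ?_
      exact Finset.single_le_sum (f := fun k : Fin d => 2 * Real.pi / δ * ∑ j : Fin (d + 1), ‖P.rt k.succ‖ ^ j.val * ((ℓ : ℝ) ^ (3 * d) + 1 / 2))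
        (fun k _ => by positivity) (Finset.mem_univ k)
  obtain ⟨m', hm', hm'2⟩ := sh_part N A hA0 i σ' hσA hσi (sh f.1 B) ((sh_deg _ B).trans hB) f.2
  refine ⟨m', hm' ▸ hfm, ?_⟩
  have hsh : sh σ' (sh f.1 B) = sh (fun k => -sg P s (d12_n a) k) B := by
    rw [sh_sh]
    congr 1
    funext k
    rw [← hfx, hσ']
    ring
  rw [hsh] at hm'2
  rw [mul_assoc, inv_mul_le_iff₀ hQ]
  exact hfc.trans hm'2

/-- D12a. no small eigenvalue. PROOF. `sh_nm` and `exists_coeff_nm`: `‖sg P s 0 k‖ ≤ 2π (d+1) max‖z_k‖^j/(2δ)` is bounded. -/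
theorem lowG (P : Par d) (δ : ℝ) (hδ : 0 < δ) (N : ℕ) : ∃ c : ℝ, 0 < c ∧ ∀ s : Fin d → ℂ, (∀ k, δ ≤ ‖s k‖) → ∀ B : MvPolynomial (Fin d) ℂ,
    B.totalDegree ≤ N → ∃ m : Fin d →₀ ℕ, (m.sum fun _ e => e) ≤ N ∧ c * nm 1 B ≤ ‖(sh (fun k => -sg P s 0 k) B).coeff m‖ := by
  set A : ℝ := ∑ k : Fin d, 2 * Real.pi / δ * ∑ j : Fin (d + 1), ‖P.rt k.succ‖ ^ j.val * (0 + 1 / 2) with hA
  have hA0 : 0 ≤ A := Finset.sum_nonneg fun k _ => by positivity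
  have hQ : 0 < (1 + A) ^ N * ((N : ℝ) + 1) ^ d := by positivity
  refine ⟨((1 + A) ^ N * ((N : ℝ) + 1) ^ d)⁻¹, inv_pos.2 hQ, fun s hs B hB => ?_⟩
  have hσ : ∀ k, ‖(fun k => -sg P s 0 k) k‖ ≤ A := by
    intro k
    rw [norm_neg]
    refine (d12_sg P s δ 0 hδ 0 (fun j => by simp) k (hs k)).trans ?_
    exact Finset.single_le_sum (f := fun k : Fin d => 2 * Real.pi / δ * ∑ j : Fin (d + 1), ‖P.rt k.succ‖ ^ j.val * (0 + 1 / 2))
      (fun k _ => by positivity) (Finset.mem_univ k)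
  obtain ⟨m, hm, hm2⟩ := exists_coeff_nm N (sh (fun k => -sg P s 0 k) B) ((sh_deg _ B).trans hB)
  refine ⟨m, hm, ?_⟩
  have h1 := (sh_nm N A hA0 (fun k => -sg P s 0 k) hσ B hB).2
  rw [inv_mul_le_iff₀ hQ]
  calc nm 1 B ≤ (1 + A) ^ N * nm 1 (sh (fun k => -sg P s 0 k) B) := h1
    _ ≤ (1 + A) ^ N * (((N : ℝ) + 1) ^ d * ‖(sh (fun k => -sg P s 0 k) B).coeff m‖) :=
        mul_le_mul_of_nonneg_left hm2 (by positivity)
    _ = (1 + A) ^ N * ((N : ℝ) + 1) ^ d * ‖(sh (fun k => -sg P s 0 k) B).coeff m‖ := by ring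

/-- D12b. PROOF. Fix `i`. The set `Λ` of the `n` with `n_0 = 0`, `0 ≤ n_l ≤ ℓ^(3d)` has `(ℓ^(3d)+1)^d` elements, and the numbers `x_n = -2πi ∑_j z_i^j (n_j + 1/2)` (`z_i = rt i.succ`) are different (`li_conj`). With `κm = d ℓ^(6d)`: `card · (κm+1) ≥ ℓ^(3d²)(dℓ^(6d) + 1) > N`. So `z1a` and `cpt`
(with `F` the set of all `(single i x_n, m)`, `m_i ≤ κm`, `|m| ≤ N`) give `c₀`: for every `B` there are `n ∈ Λ`, `m` with `c₀ nm 1 B ≤ ‖coeff m B'‖`, `B' = sh (single i x_n) B`. As `s i = 1`, `-sg P s n i = x_n`, so `sh (-sg) B = sh σ' B'` (`sh_sh`) with `σ'_i = 0`, `‖σ'_k‖ ≤ A`,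
`A` depends on `ℓ, δ, P`. `sh_part`. -/
theorem lowA (P : Par d) (δ : ℝ) (hδ : 0 < δ) (ℓ : ℕ) (hℓ : 1 ≤ ℓ) : ∃ c : ℝ, 0 < c ∧ ∀ (i : Fin d) (s : Fin d → ℂ), s i = 1 → (∀ k, k ≠ i → δ ≤ ‖s k‖) →
    ∀ B : MvPolynomial (Fin d) ℂ, B.totalDegree ≤ d * ℓ ^ (3 * d * (d + 2)) →
    ∃ n : Fin (d + 1) → ℤ, (∀ l, 0 ≤ n l ∧ n l ≤ (ℓ : ℤ) ^ (3 * d)) ∧ ∃ m : Fin d →₀ ℕ, m i ≤ d * ℓ ^ (6 * d) ∧
      c * nm 1 B ≤ ‖(sh (fun k => -sg P s n k) B).coeff m‖ := by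
  choose c hc h using d12_one P δ hδ ℓ hℓ
  have hS0 : ∀ i ∈ (Finset.univ : Finset (Fin d)), 0 ≤ (c i)⁻¹ := fun i _ => (inv_pos.2 (hc i)).le
  have hS : 0 < ∑ i, (c i)⁻¹ + 1 := by
    have := Finset.sum_nonneg hS0
    linarith
  refine ⟨(∑ i, (c i)⁻¹ + 1)⁻¹, inv_pos.2 hS, fun i s hsi hs B hB => ?_⟩
  obtain ⟨n, hn, m, hm, hle⟩ := h i s hsi hs B hB
  refine ⟨n, hn, m, hm, le_trans ?_ hle⟩
  refine mul_le_mul_of_nonneg_right ?_ (nm_nonneg 1 zero_le_one B)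
  rw [inv_le_comm₀ hS (hc i)]
  have := Finset.single_le_sum hS0 (Finset.mem_univ i)
  linarith

end Pool.Agent.MSR
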