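import Pool.Agent.Lib.MP_f58a57_nt.R.Defs
import Pool.Agent.Lib.MP_f58a57_nt.R.D8_Eval

/-! # R/D10_Z1b: zeros of a polynomial on a product grid -/

open Complex Filter Topology IntermediateField

noncomputable section

namespace Pool.Agent.MSR

open MSD MSP MSK

variable {d : ℕ}

theorem z1b_hom (d : ℕ) (x₀ : ℂ) (x' : Fin d → ℂ) (B : MvPolynomial (Fin (d + 1)) ℂ) :
    MvPolynomial.finSuccEquiv ℂ d (sh (Fin.cons x₀ x') B) =
      ((MvPolynomial.finSuccEquiv ℂ d B).map
        (MvPolynomial.aeval (R := ℂ) (fun j => MvPolynomial.X j + MvPolynomial.C (x' j)) :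
          MvPolynomial (Fin d) ℂ →ₐ[ℂ] MvPolynomial (Fin d) ℂ).toRingHom).comp (Polynomial.X + Polynomial.C (MvPolynomial.C x₀)) := by
  have h : ((MvPolynomial.finSuccEquiv ℂ d : MvPolynomial (Fin (d + 1)) ℂ →ₐ[ℂ] Polynomial (MvPolynomial (Fin d) ℂ)).comp
        (MvPolynomial.aeval (R := ℂ) (fun j => MvPolynomial.X j + MvPolynomial.C ((Fin.cons x₀ x' : Fin (d + 1) → ℂ) j)) :
          MvPolynomial (Fin (d + 1)) ℂ →ₐ[ℂ] MvPolynomial (Fin (d + 1)) ℂ)).toRingHom =
      (Polynomial.compRingHom (Polynomial.X + Polynomial.C (MvPolynomial.C x₀ : MvPolynomial (Fin d) ℂ))).comp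
        ((Polynomial.mapRingHom (MvPolynomial.aeval (R := ℂ) (fun j => MvPolynomial.X j + MvPolynomial.C (x' j)) :
          MvPolynomial (Fin d) ℂ →ₐ[ℂ] MvPolynomial (Fin d) ℂ).toRingHom).comp
          (MvPolynomial.finSuccEquiv ℂ d : MvPolynomial (Fin (d + 1)) ℂ →ₐ[ℂ] Polynomial (MvPolynomial (Fin d) ℂ)).toRingHom) := by
    refine MvPolynomial.ringHom_ext (fun a => ?_) (fun i => ?_)
    · simp [MvPolynomial.finSuccEquiv_apply]
    · refine Fin.cases ?_ (fun j => ?_) i
      · simp [MvPolynomial.finSuccEquiv_apply]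
      · simp [MvPolynomial.finSuccEquiv_apply]
  exact congrArg (fun f : MvPolynomial (Fin (d + 1)) ℂ →+* Polynomial (MvPolynomial (Fin d) ℂ) => f B) h

/-- one variable: a polynomial of degree `J` has a Taylor coefficient of small order which is not `0` at one of `W + 1` points -/
theorem z1b_one (S : Finset ℂ) (W J : ℕ) (hS : W + 1 ≤ S.card) (p : Polynomial ℂ) (hp : p ≠ 0) (hJ : p.natDegree ≤ J) :
    ∃ x ∈ S, ∃ e : ℕ, e * (W + 1) ≤ J ∧ (Polynomial.taylor x p).coeff e ≠ 0 := by
  by_contra hcon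
  push Not at hcon
  have hdiv : ∀ x ∈ S, (Polynomial.X - Polynomial.C x) ^ (J / (W + 1) + 1) ∣ p := by
    intro x hx
    have h1 : Polynomial.X ^ (J / (W + 1) + 1) ∣ Polynomial.taylor x p := by
      rw [Polynomial.X_pow_dvd_iff]
      intro e he
      refine hcon x hx e ?_
      have h2 : e ≤ J / (W + 1) := Nat.lt_succ_iff.1 he
      exact (Nat.mul_le_mul_right _ h2).trans (Nat.div_mul_le_self _ _)
    obtain ⟨q, hq⟩ := h1
    refine ⟨Polynomial.taylor (-x) q, ?_⟩
    have h3 : Polynomial.taylor (-x) (Polynomial.taylor x p) = p := by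
      rw [Polynomial.taylor_taylor, neg_add_cancel, Polynomial.taylor_zero]
    rw [← h3, hq, Polynomial.taylor_mul, Polynomial.taylor_pow, Polynomial.taylor_X]
    simp [sub_eq_add_neg]
  have hprod : ∏ x ∈ S, (Polynomial.X - Polynomial.C x) ^ (J / (W + 1) + 1) ∣ p := by
    refine Finset.prod_dvd_of_coprime ?_ hdiv
    intro x _ y _ hxy
    exact (Polynomial.isCoprime_X_sub_C_of_isUnit_sub (sub_ne_zero.2 hxy).isUnit).pow
  have hdeg := Polynomial.natDegree_le_of_dvd hprod hp
  rw [Polynomial.natDegree_prod _ _ (fun x _ => pow_ne_zero _ (Polynomial.X_sub_C_ne_zero x))] at hdeg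
  have h4 : ∀ x ∈ S, ((Polynomial.X - Polynomial.C x) ^ (J / (W + 1) + 1) : Polynomial ℂ).natDegree = J / (W + 1) + 1 := by
    intro x _
    rw [Polynomial.natDegree_pow, Polynomial.natDegree_X_sub_C, mul_one]
  rw [Finset.sum_congr rfl h4, Finset.sum_const, smul_eq_mul] at hdeg
  have h5 : J < (W + 1) * (J / (W + 1) + 1) := Nat.lt_mul_div_succ J (Nat.succ_pos W)
  have h6 : (W + 1) * (J / (W + 1) + 1) ≤ S.card * (J / (W + 1) + 1) := Nat.mul_le_mul_right _ hS
  omega

/-- D10. PROOF. Induction on `d` (the statement for all `N`). `d = 0`: `B` is a nonzero constant, `m = 0`. Step `d + 1`: write `B = ∑_{j ≤ J} B_j(X_1, ..., X_d) X_0^j` (`MvPolynomial.finSuccEquiv`), `B_J ≠ 0`, `B_J.totalDegree ≤ N - J`. By induction there are `x' ∈ ∏ S_j` and `m'`, `|m'|(W+1) ≤ N - J`,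
with `coeff m' (sh x' B_J) ≠ 0`. Then the polynomial in one variable `p = ∑_j coeff m' (sh x' B_j) U^j` has degree exactly `J`; it has at some `x_0 ∈ S_0` a nonzero Taylor coefficient of an order `e` with `e (W+1) ≤ J` (otherwise with `e₀ = ⌊J/(W+1)⌋` the polynomial
`∏_{x ∈ S_0} (U - x)^(e₀+1)`, of degree `≥ (W+1)(e₀+1) > J`, divides `p`). The coefficient of `sh (x_0, x') B` at `(e, m')` is this Taylor coefficient, and `(e + |m'|)(W+1) ≤ N`. -/
theorem z1b (d : ℕ) (S : Fin d → Finset ℂ) (W N : ℕ) (hS : ∀ j, W + 1 ≤ (S j).card) (B : MvPolynomial (Fin d) ℂ) (hB : B ≠ 0) (hN : B.totalDegree ≤ N) :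
    ∃ x : Fin d → ℂ, (∀ j, x j ∈ S j) ∧ ∃ m : Fin d →₀ ℕ, (m.sum fun _ e => e) * (W + 1) ≤ N ∧ (sh x B).coeff m ≠ 0 := by
  induction d generalizing N with
  | zero =>
    refine ⟨fun j => j.elim0, fun j => j.elim0, 0, by simp, ?_⟩
    intro h
    apply hB
    rw [MvPolynomial.eq_C_of_isEmpty B] at h ⊢
    have h1 : sh (fun j : Fin 0 => (j.elim0 : ℂ)) (MvPolynomial.C (MvPolynomial.coeff 0 B)) = MvPolynomial.C (MvPolynomial.coeff 0 B) := by
      unfold sh
      rw [MvPolynomial.aeval_C]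
      rfl
    rw [h1, MvPolynomial.coeff_C, if_pos rfl] at h
    rw [h, MvPolynomial.C_0]
  | succ d ih =>
    set F := MvPolynomial.finSuccEquiv ℂ d B with hF
    have hF0 : F ≠ 0 := by
      rw [hF]
      intro h
      exact hB ((map_eq_zero_iff _ (MvPolynomial.finSuccEquiv ℂ d).injective).1 h)
    have hlead : F.coeff F.natDegree ≠ 0 := by
      rw [Polynomial.coeff_natDegree]
      exact Polynomial.leadingCoeff_ne_zero.2 hF0
    have hdeg : (F.coeff F.natDegree).totalDegree + F.natDegree ≤ B.totalDegree :=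
      MvPolynomial.totalDegree_coeff_finSuccEquiv_add_le B F.natDegree hlead
    obtain ⟨x', hx', m', hm', hc'⟩ := ih (fun j => S j.succ) (N - F.natDegree) (fun j => hS j.succ) (F.coeff F.natDegree) hlead (by omega)
    set f : MvPolynomial (Fin d) ℂ →ₐ[ℂ] MvPolynomial (Fin d) ℂ :=
      MvPolynomial.aeval (R := ℂ) (fun j => MvPolynomial.X j + MvPolynomial.C (x' j)) with hf
    have hsh : ∀ Q : MvPolynomial (Fin d) ℂ, sh x' Q = f Q := fun Q => rfl
    set p : Polynomial ℂ := ∑ j ∈ Finset.range (F.natDegree + 1), Polynomial.monomial j ((sh x' (F.coeff j)).coeff m') with hp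
    have hpc : ∀ j, j ≤ F.natDegree → p.coeff j = (sh x' (F.coeff j)).coeff m' := by
      intro j hj
      rw [hp, Polynomial.finsetSum_coeff, Finset.sum_eq_single j]
      · rw [Polynomial.coeff_monomial, if_pos rfl]
      · intro i _ hi
        rw [Polynomial.coeff_monomial, if_neg hi]
      · intro h
        exact absurd (Finset.mem_range.2 (Nat.lt_succ_of_le hj)) h
    have hp0 : p ≠ 0 := by
      intro h
      apply hc'
      rw [← hpc _ le_rfl, h, Polynomial.coeff_zero]
    have hpd : p.natDegree ≤ F.natDegree := by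
      rw [hp]
      refine Polynomial.natDegree_sum_le_of_forall_le _ _ (fun j hj => ?_)
      exact (Polynomial.natDegree_monomial_le _).trans (Nat.lt_succ_iff.1 (Finset.mem_range.1 hj))
    obtain ⟨x₀, hx₀, e, he, hce⟩ := z1b_one (S 0) W F.natDegree (hS 0) p hp0 hpd
    refine ⟨Fin.cons x₀ x', ?_, Finsupp.cons e m', ?_, ?_⟩
    · intro j
      refine Fin.cases ?_ (fun i => ?_) j
      · rw [Fin.cons_zero]
        exact hx₀
      · rw [Fin.cons_succ]
        exact hx' i
    · have h1 : ((Finsupp.cons e m').sum fun _ e => e) = e + m'.sum fun _ e => e := by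
        rw [Finsupp.sum_fintype _ _ (fun _ => rfl), Finsupp.sum_fintype _ _ (fun _ => rfl), Fin.sum_univ_succ]
        simp
      rw [h1, add_mul]
      omega
    · rw [← MvPolynomial.finSuccEquiv_coeff_coeff, z1b_hom, ← hF]
      have h2 : ∀ G : Polynomial (MvPolynomial (Fin d) ℂ), (G.comp (Polynomial.X + Polynomial.C (MvPolynomial.C x₀))).coeff e =
          ∑ j ∈ Finset.range (G.natDegree + 1), G.coeff j * MvPolynomial.C (x₀ ^ (j - e) * (j.choose e : ℂ)) := by
        intro G
        rw [Polynomial.comp, Polynomial.eval₂_eq_sum_range, Polynomial.finsetSum_coeff]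
        refine Finset.sum_congr rfl fun j _ => ?_
        rw [Polynomial.coeff_C_mul, Polynomial.coeff_X_add_C_pow]
        simp
      have h3 : (Polynomial.taylor x₀ p).coeff e = ∑ j ∈ Finset.range (F.natDegree + 1), p.coeff j * (x₀ ^ (j - e) * (j.choose e : ℂ)) := by
        rw [Polynomial.taylor_apply, Polynomial.comp, Polynomial.eval₂_eq_sum_range' _ (Nat.lt_succ_of_le hpd), Polynomial.finsetSum_coeff]
        refine Finset.sum_congr rfl fun j _ => ?_
        rw [Polynomial.coeff_C_mul, Polynomial.coeff_X_add_C_pow]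
      have h4 : ((F.map f.toRingHom).comp (Polynomial.X + Polynomial.C (MvPolynomial.C x₀))).coeff e =
          ∑ j ∈ Finset.range (F.natDegree + 1), (F.map f.toRingHom).coeff j * MvPolynomial.C (x₀ ^ (j - e) * (j.choose e : ℂ)) := by
        rw [Polynomial.comp, Polynomial.eval₂_eq_sum_range' _ (Nat.lt_succ_of_le Polynomial.natDegree_map_le), Polynomial.finsetSum_coeff]
        refine Finset.sum_congr rfl fun j _ => ?_
        rw [Polynomial.coeff_C_mul, Polynomial.coeff_X_add_C_pow]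
        simp
      rw [h4, MvPolynomial.coeff_sum]
      have h5 : ∑ j ∈ Finset.range (F.natDegree + 1), MvPolynomial.coeff m' ((F.map f.toRingHom).coeff j * MvPolynomial.C (x₀ ^ (j - e) * (j.choose e : ℂ))) =
          (Polynomial.taylor x₀ p).coeff e := by
        rw [h3]
        refine Finset.sum_congr rfl fun j hj => ?_
        rw [mul_comm, MvPolynomial.coeff_C_mul, mul_comm, Polynomial.coeff_map, hpc j (Nat.lt_succ_iff.1 (Finset.mem_range.1 hj)), hsh]
        rfl
      rw [h5]
      exact hce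

end Pool.Agent.MSR
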