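import Pool.Agent.Lib.MP_f58a57_nt.R.Defs
import Pool.Agent.Lib.MP_f58a57_nt.R.D10_Z1b
import Pool.Agent.Lib.MP_f58a57_nt.R.D11_Cpt
import Pool.Agent.Lib.MP_f58a57_nt.R.D4_Eig
import Pool.Agent.Lib.MP_f58a57_nt.R.D8_Eval
import Pool.Agent.Lib.MP_f58a57_nt.R.A5_Nm

/-! # R/D13_LowB: lower bound for the coefficients, second type -/

open Complex Filter Topology IntermediateField

noncomputable section

namespace Pool.Agent.MSR

open MSD MSP MSK

variable {d : ℕ}

/-- the conjugates are not zero -/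
theorem d13_ne (P : Par d) (k : Fin d) : P.rt k.succ ≠ 0 := by
  intro h0
  have hd : 0 < d := k.pos
  have := li_conj P k.succ (Pi.single (Fin.last d) 1) (by
    rw [Finset.sum_eq_single (Fin.last d)]
    · rw [h0, Fin.val_last, zero_pow hd.ne']; simp
    · intro l _ hl
      rw [Pi.single_eq_of_ne hl]; simp
    · intro h; exact absurd (Finset.mem_univ _) h)
  have h1 := congrFun this (Fin.last d)
  rw [Pi.single_eq_same] at h1
  exact one_ne_zero h1

/-- the matrix of the linear forms -/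
def d13_A (P : Par d) : Matrix (Fin d) (Fin d) ℂ := fun k j => P.rt k.succ ^ (j.val + 1)

theorem d13_det (P : Par d) : (d13_A P).det ≠ 0 := by
  have h : d13_A P = Matrix.diagonal (fun k => P.rt k.succ) * Matrix.vandermonde (fun k => P.rt k.succ) := by
    ext k j
    rw [Matrix.diagonal_mul, Matrix.vandermonde_apply]
    show P.rt k.succ ^ (j.val + 1) = _
    rw [pow_succ']
  rw [h, Matrix.det_mul, Matrix.det_diagonal]
  refine mul_ne_zero (Finset.prod_ne_zero_iff.mpr fun k _ => d13_ne P k) ?_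
  rw [Matrix.det_vandermonde_ne_zero_iff]
  intro a b hab
  exact Fin.succ_injective _ (P.inj hab)

/-- the linear substitution of a matrix -/
def d13_L (A : Matrix (Fin d) (Fin d) ℂ) : MvPolynomial (Fin d) ℂ →ₐ[ℂ] MvPolynomial (Fin d) ℂ :=
  MvPolynomial.aeval fun k => ∑ j, MvPolynomial.C (A k j) * MvPolynomial.X j

theorem d13_L_comp (A B : Matrix (Fin d) (Fin d) ℂ) (p : MvPolynomial (Fin d) ℂ) : d13_L B (d13_L A p) = d13_L (A * B) p := by
  have : (d13_L B).comp (d13_L A) = d13_L (A * B) := by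
    apply MvPolynomial.algHom_ext
    intro k
    rw [AlgHom.comp_apply]
    unfold d13_L
    simp only [MvPolynomial.aeval_X, map_sum, map_mul]
    simp only [Matrix.mul_apply, map_sum, Finset.sum_mul, MvPolynomial.algHom_C, MvPolynomial.algebraMap_eq, Finset.mul_sum, map_mul]
    rw [Finset.sum_comm]
    simp only [mul_assoc]
  rw [← this]; rfl

theorem d13_L_one (p : MvPolynomial (Fin d) ℂ) : d13_L (1 : Matrix (Fin d) (Fin d) ℂ) p = p := by
  have : d13_L (1 : Matrix (Fin d) (Fin d) ℂ) = AlgHom.id ℂ _ := by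
    apply MvPolynomial.algHom_ext
    intro k
    unfold d13_L
    rw [MvPolynomial.aeval_X, Finset.sum_eq_single k]
    · simp
    · intro j _ hj
      rw [Matrix.one_apply_ne (Ne.symm hj)]; simp
    · intro h; exact absurd (Finset.mem_univ _) h
  rw [this]; rfl

theorem d13_L_ne (A : Matrix (Fin d) (Fin d) ℂ) (hA : A.det ≠ 0) (p : MvPolynomial (Fin d) ℂ) (hp : p ≠ 0) : d13_L A p ≠ 0 := by
  intro h
  apply hp
  have h1 := d13_L_comp A A⁻¹ p
  rw [h, map_zero, Matrix.mul_nonsing_inv A (Ne.isUnit hA), d13_L_one] at h1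
  exact h1.symm

/-- a nonzero coefficient of the linear substitution comes from a nonzero coefficient of the same degree -/
theorem d13_L_coeff (A : Matrix (Fin d) (Fin d) ℂ) (p : MvPolynomial (Fin d) ℂ) (m : Fin d →₀ ℕ) (h : (d13_L A p).coeff m ≠ 0) :
    ∃ m' : Fin d →₀ ℕ, (m'.sum fun _ e => e) = (m.sum fun _ e => e) ∧ p.coeff m' ≠ 0 := by
  by_contra hc
  push Not at hc
  apply h
  have h1 : d13_L A p = ∑ m' ∈ p.support, MvPolynomial.C (p.coeff m') * ∏ k, (∑ j, MvPolynomial.C (A k j) * MvPolynomial.X j) ^ m' k := by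
    unfold d13_L
    rw [MvPolynomial.aeval_def, MvPolynomial.eval₂_eq']
    rfl
  rw [h1, MvPolynomial.coeff_sum]
  apply Finset.sum_eq_zero
  intro m' hm'
  rw [MvPolynomial.coeff_C_mul]
  have hne : (m'.sum fun _ e => e) ≠ (m.sum fun _ e => e) := by
    intro he
    exact (MvPolynomial.mem_support_iff.mp hm') (hc m' he)
  have hlin : ∀ k : Fin d, (∑ j, MvPolynomial.C (A k j) * MvPolynomial.X j : MvPolynomial (Fin d) ℂ).IsHomogeneous 1 := by
    intro k
    apply MvPolynomial.IsHomogeneous.sum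
    intro j _
    have := (MvPolynomial.isHomogeneous_C (Fin d) (A k j)).mul (MvPolynomial.isHomogeneous_X ℂ j)
    rwa [zero_add] at this
  have hhom : (∏ k, (∑ j, MvPolynomial.C (A k j) * MvPolynomial.X j) ^ m' k : MvPolynomial (Fin d) ℂ).IsHomogeneous (∑ k, 1 * m' k) := by
    apply MvPolynomial.IsHomogeneous.prod
    intro k _
    exact (hlin k).pow (m' k)
  rw [hhom.coeff_eq_zero, mul_zero]
  intro he
  apply hne
  rw [Finsupp.sum_fintype _ _ (fun _ => rfl), Finsupp.sum_fintype _ _ (fun _ => rfl)]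
  rw [Finsupp.degree_eq_sum] at he
  rw [he]
  simp

/-- shift after a linear substitution -/
theorem d13_sh_L (A : Matrix (Fin d) (Fin d) ℂ) (x y : Fin d → ℂ) (p : MvPolynomial (Fin d) ℂ) :
    sh x (d13_L A (sh y p)) = d13_L A (sh (fun k => y k + ∑ j, A k j * x j) p) := by
  have : ((MvPolynomial.aeval (fun j => MvPolynomial.X j + MvPolynomial.C (x j)) : MvPolynomial (Fin d) ℂ →ₐ[ℂ] MvPolynomial (Fin d) ℂ).comp
      (d13_L A)).comp (MvPolynomial.aeval (fun j => MvPolynomial.X j + MvPolynomial.C (y j))) =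
      (d13_L A).comp (MvPolynomial.aeval (fun k => MvPolynomial.X k + MvPolynomial.C (y k + ∑ j, A k j * x j))) := by
    apply MvPolynomial.algHom_ext
    intro k
    simp only [AlgHom.comp_apply, MvPolynomial.aeval_X, map_add, MvPolynomial.algHom_C, MvPolynomial.algebraMap_eq, map_sum, map_mul]
    unfold d13_L
    simp only [MvPolynomial.aeval_X, map_sum, map_mul, MvPolynomial.algHom_C, MvPolynomial.algebraMap_eq, mul_add, Finset.sum_add_distrib]
    ring
  exact congrArg (fun f : MvPolynomial (Fin d) ℂ →ₐ[ℂ] MvPolynomial (Fin d) ℂ => f p) this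

theorem d13_sh_ne (x : Fin d → ℂ) (p : MvPolynomial (Fin d) ℂ) (hp : p ≠ 0) : sh x p ≠ 0 := by
  intro h
  apply hp
  have h1 := sh_sh (-x) x p
  rw [h] at h1
  have h2 : (fun j => (-x) j + x j) = (0 : Fin d → ℂ) := by
    funext j; simp
  rw [h2, sh_zero] at h1
  rw [← h1]
  unfold sh
  exact map_zero _

/-- the nonvanishing statement -/
theorem d13_key (P : Par d) (W N : ℕ) (B : MvPolynomial (Fin d) ℂ) (hB : B ≠ 0) (hN : B.totalDegree ≤ N) :
    ∃ n : Fin (d + 1) → ℤ, (∀ l, 0 ≤ n l ∧ n l ≤ (W : ℤ)) ∧ ∃ m : Fin d →₀ ℕ, (m.sum fun _ e => e) * (W + 1) ≤ N ∧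
      (sh (fun k => -sg P 1 n k) B).coeff m ≠ 0 := by
  classical
  have hπ : (2 * (Real.pi : ℂ) * I) ≠ 0 := by
    simp [Real.pi_ne_zero, I_ne_zero]
  set g : ℕ → ℂ := fun n => -(2 * Real.pi * I) * ((n : ℂ) + 1 / 2) with hg
  have hginj : Function.Injective g := by
    intro a b hab
    have h1 : -(2 * (Real.pi : ℂ) * I) * ((a : ℂ) + 1 / 2) = -(2 * Real.pi * I) * ((b : ℂ) + 1 / 2) := hab
    have h2 := mul_left_cancel₀ (neg_ne_zero.mpr hπ) h1
    have h3 : (a : ℂ) = b := by linear_combination h2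
    exact_mod_cast h3
  set S : Fin d → Finset ℂ := fun _ => (Finset.range (W + 1)).image g with hS
  have hcard : ∀ j, W + 1 ≤ (S j).card := by
    intro j
    rw [hS]
    simp only
    rw [Finset.card_image_of_injective _ hginj, Finset.card_range]
  set B' : MvPolynomial (Fin d) ℂ := d13_L (d13_A P) (sh (fun _ => -(Real.pi * I)) B) with hB'
  have hB'ne : B' ≠ 0 := d13_L_ne _ (d13_det P) _ (d13_sh_ne _ _ hB)
  have hB'deg : B'.totalDegree ≤ N := by
    refine le_trans ?_ (le_trans (sh_deg (fun _ => -(Real.pi * I)) B) hN)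
    rw [hB']
    unfold d13_L
    rw [MvPolynomial.aeval_def, MvPolynomial.eval₂_eq']
    refine MvPolynomial.totalDegree_finsetSum_le ?_
    intro m hm
    refine le_trans (MvPolynomial.totalDegree_mul _ _) ?_
    have e1 : (algebraMap ℂ (MvPolynomial (Fin d) ℂ) (MvPolynomial.coeff m (sh (fun _ => -(Real.pi * I)) B))).totalDegree = 0 := by
      rw [MvPolynomial.algebraMap_eq]; exact MvPolynomial.totalDegree_C _
    rw [e1, zero_add]
    refine le_trans (MvPolynomial.totalDegree_finsetProd _ _) ?_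
    refine le_trans ?_ (MvPolynomial.le_totalDegree hm)
    rw [Finsupp.sum_fintype _ _ (fun _ => rfl)]
    apply Finset.sum_le_sum
    intro k _
    refine le_trans (MvPolynomial.totalDegree_pow _ _) ?_
    have e2 : (∑ j, MvPolynomial.C (d13_A P k j) * MvPolynomial.X j : MvPolynomial (Fin d) ℂ).totalDegree ≤ 1 := by
      refine MvPolynomial.totalDegree_finsetSum_le ?_
      intro j _
      refine le_trans (MvPolynomial.totalDegree_mul _ _) ?_
      rw [MvPolynomial.totalDegree_C, MvPolynomial.totalDegree_X]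
    calc m k * _ ≤ m k * 1 := Nat.mul_le_mul_left _ e2
      _ = m k := mul_one _
  obtain ⟨x, hx, m, hm, hcoef⟩ := z1b d S W N hcard B' hB'ne hB'deg
  have hx' : ∀ j, ∃ n : ℕ, n ≤ W ∧ g n = x j := by
    intro j
    have := hx j
    rw [hS] at this
    simp only [Finset.mem_image, Finset.mem_range] at this
    obtain ⟨n, hn, hn2⟩ := this
    exact ⟨n, by omega, hn2⟩
  choose ν hν1 hν2 using hx'
  refine ⟨Fin.cons 0 (fun j => (ν j : ℤ)), ?_, ?_⟩
  · intro l
    refine Fin.cases ?_ ?_ l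
    · simp
    · intro j
      simp only [Fin.cons_succ]
      exact ⟨by positivity, by exact_mod_cast hν1 j⟩
  · rw [hB', d13_sh_L] at hcoef
    obtain ⟨m', hm', hc'⟩ := d13_L_coeff _ _ _ hcoef
    refine ⟨m', by rw [hm']; exact hm, ?_⟩
    have hfun : (fun k => -sg P 1 (Fin.cons 0 (fun j => (ν j : ℤ))) k) = (fun k => -(Real.pi * I) + ∑ j, d13_A P k j * x j) := by
      funext k
      unfold sg
      rw [Fin.sum_univ_succ]
      simp only [Pi.one_apply, div_one, Fin.val_zero, pow_zero, one_mul, Fin.cons_zero, Int.cast_zero, zero_add, Fin.cons_succ, Int.cast_natCast,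
        Fin.val_succ]
      rw [mul_add, Finset.mul_sum, neg_add, ← Finset.sum_neg_distrib]
      congr 1
      · ring
      · apply Finset.sum_congr rfl
        intro j _
        rw [← hν2 j, hg]
        simp only [d13_A]
        ring
    rw [hfun]
    exact hc'

/-- D13. PROOF. `W = ℓ^(d(d+2))`, `n = (0, n_1, ..., n_d)`, `0 ≤ n_j ≤ W`, `-sg P 1 n k = -2πi ∑_{j≥0} z_k^j (n_j + 1/2) = -πi + ∑_{j=1}^d z_k^j T_j`, `T_j = -2πi (n_j + 1/2)`. The matrix `(z_k^j)_{k,j=1..d}` is invertible (`z_k ≠ 0` and different: Vandermonde times a diagonal matrix; `z_k ≠ 0` by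
`li_conj`). For `B ≠ 0` let `B^(T) = B(-πi + ∑_j z_k^j T_j)`, not zero, `totalDegree ≤ N = dℓ^(3d(d+2))`. `z1b` with `S_j = {-2πi(n + 1/2) : 0 ≤ n ≤ W}` gives `T` in the grid and `m`, `|m|(W+1) ≤ N`, with `coeff m (sh T B^) ≠ 0`. `sh T B^ = (sh (-sg) B) ∘ L`, `L_k = ∑_j z_k^j X_j`; so the
homogeneous part of degree `|m|` of `sh (-sg) B` is not zero: there is `m'`, `|m'| = |m|`, with `coeff m' (sh (-sg) B) ≠ 0`, and `|m'| ≤ N/(W+1) ≤ d ℓ^(2d(d+2))`. Then `cpt` with `F` the set of all these `(-sg P 1 n, m')`. -/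
theorem lowB (P : Par d) (ℓ : ℕ) (hℓ : 1 ≤ ℓ) : ∃ c : ℝ, 0 < c ∧ ∀ B : MvPolynomial (Fin d) ℂ, B.totalDegree ≤ d * ℓ ^ (3 * d * (d + 2)) →
    ∃ n : Fin (d + 1) → ℤ, (∀ l, 0 ≤ n l ∧ n l ≤ (ℓ : ℤ) ^ (d * (d + 2))) ∧ ∃ m : Fin d →₀ ℕ, (m.sum fun _ e => e) ≤ d * ℓ ^ (2 * d * (d + 2)) ∧
      c * nm 1 B ≤ ‖(sh (fun k => -sg P 1 n k) B).coeff m‖ := by
  classical
  set W : ℕ := ℓ ^ (d * (d + 2)) with hW
  have hW1 : 1 ≤ W := Nat.one_le_pow _ _ hℓ
  have hW2 : ℓ ^ (2 * d * (d + 2)) = W ^ 2 := by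
    rw [hW, ← pow_mul]; congr 1; ring
  have hW3 : ℓ ^ (3 * d * (d + 2)) = W ^ 3 := by
    rw [hW, ← pow_mul]; congr 1; ring
  have hWZ : (ℓ : ℤ) ^ (d * (d + 2)) = (W : ℤ) := by
    rw [hW]; push_cast; rfl
  rw [hW2, hW3, hWZ]
  set M : ℕ := d * W ^ 2 with hM
  set F : Finset ((Fin d → ℂ) × (Fin d →₀ ℕ)) :=
    ((Fintype.piFinset fun _ : Fin (d + 1) => Finset.Icc (0 : ℤ) W) ×ˢ
      ((Finset.Iic (Finsupp.equivFunOnFinite.symm fun _ : Fin d => M)).filter fun m => (m.sum fun _ e => e) ≤ M)).image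
      (fun q => ((fun k => -sg P 1 q.1 k), q.2)) with hF
  have hmem : ∀ f ∈ F, ∃ n : Fin (d + 1) → ℤ, (∀ l, 0 ≤ n l ∧ n l ≤ (W : ℤ)) ∧ (f.2.sum fun _ e => e) ≤ M ∧ f.1 = fun k => -sg P 1 n k := by
    intro f hf
    rw [hF, Finset.mem_image] at hf
    obtain ⟨q, hq, hqf⟩ := hf
    rw [Finset.mem_product, Finset.mem_filter, Fintype.mem_piFinset] at hq
    refine ⟨q.1, fun l => Finset.mem_Icc.mp (hq.1 l), ?_, ?_⟩
    · rw [← hqf]; exact hq.2.2
    · rw [← hqf]
  obtain ⟨c, hc, hcpt⟩ := cpt (d := d) (d * W ^ 3) F (by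
    intro B hB hB0
    obtain ⟨n, hn, m, hm, hco⟩ := d13_key P W (d * W ^ 3) B hB0 hB
    have hmM : (m.sum fun _ e => e) ≤ M := by
      have h1 : (m.sum fun _ e => e) * W ≤ M * W := by
        calc (m.sum fun _ e => e) * W ≤ (m.sum fun _ e => e) * (W + 1) := Nat.mul_le_mul_left _ (Nat.le_succ _)
          _ ≤ d * W ^ 3 := hm
          _ = M * W := by rw [hM]; ring
      exact Nat.le_of_mul_le_mul_right h1 hW1
    refine ⟨((fun k => -sg P 1 n k), m), ?_, hco⟩
    rw [hF, Finset.mem_image]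
    refine ⟨(n, m), ?_, rfl⟩
    rw [Finset.mem_product, Finset.mem_filter, Fintype.mem_piFinset]
    refine ⟨fun l => Finset.mem_Icc.mpr (hn l), ?_, hmM⟩
    rw [Finset.mem_Iic]
    intro k
    show m k ≤ M
    refine le_trans ?_ hmM
    rw [Finsupp.sum_fintype _ _ (fun _ => rfl)]
    exact Finset.single_le_sum (f := fun i => m i) (fun i _ => Nat.zero_le _) (Finset.mem_univ k))
  refine ⟨c, hc, ?_⟩
  intro B hB
  obtain ⟨f, hf, hfc⟩ := hcpt B hB
  obtain ⟨n, hn, hm, hf1⟩ := hmem f hf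
  refine ⟨n, hn, f.2, hm, ?_⟩
  rw [← hf1]
  exact hfc

end Pool.Agent.MSR
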