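import Pool.Agent.Lib.MP_f58a57_nt.R.Defs
import Pool.Agent.Lib.MP_f58a57_nt.K.E2d_Exp
import Pool.Agent.Lib.MP_f58a57_nt.K.E3_Dual
import Pool.Agent.Lib.MP_f58a57_nt.K.E3b_Herm
import Pool.Agent.Lib.MP_f58a57_nt.K.E3c_Span
import Pool.Agent.Lib.MP_f58a57_nt.K.E3d_Der
import Pool.Agent.Lib.MP_f58a57_nt.K.E4_Inj

/-! # R/D14_EpInj: injectivity for exponential polynomials, general parameters -/

open Complex Filter Topology IntermediateField

noncomputable section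

namespace Pool.Agent.MSR

open MSD MSP MSK

variable {d : ℕ}

/-- D14. PROOF. As `ep_zero, ep_inj` in K/E4_Inj, with general parameters: `T₀ = C W X₀` (`expsum`, `dual_basis`), `hermite` needs all `Q` with `totalDegree ≤ T₀ (dK+1) + dK ≤ T - 1`; `span_lin` with `T - 1`, `EP_deriv`; so all the derivatives vanish only for `H = 0`, and the linear map is
bounded below. -/
theorem ep_inj_gen (P : Par d) (hd : 1 ≤ d) : ∃ C : ℕ, 1 ≤ C ∧ ∀ K W X₀ T : ℕ, 1 ≤ W → 1 ≤ X₀ → 2 * W + 1 ≤ (X₀ + 1) ^ d →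
    C * W * X₀ * (d * K + 1) + d * K + 1 ≤ T → ∃ c₀ : ℝ, 0 < c₀ ∧ ∀ (H : Jx d K W → ℂ) (η : ℝ),
    (∀ a : Fin d → ℕ, (∀ j, a j ≤ T) → ∀ k < T,
      ‖iteratedDeriv k (fun ζ : ℂ => EP H (fun j => ζ * a j) (tt P.z (fun j => ζ * a j))) 0‖ ≤ η) → ∀ x, c₀ * ‖H x‖ ≤ η := by
  obtain ⟨C, hC, hexp⟩ := expsum P
  refine ⟨C, hC, fun K W X₀ T hW hX₀ hWX hT => ?_⟩
  have hz : ∀ H : Jx d K W → ℂ, (∀ a : Fin d → ℕ, (∀ j, a j ≤ T) → ∀ k < T,
      iteratedDeriv k (fun ζ : ℂ => EP H (fun j => ζ * a j) (tt P.z (fun j => ζ * a j))) 0 = 0) → H = 0 := by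
    intro H h
    refine hermite P.z (T₀ := C * W * X₀) ?_ H ?_
    · exact dual_basis P.z _ _ (hexp W X₀ hW hX₀ hWX)
    · intro Q hQ
      obtain ⟨Φ, hΦ⟩ := Ph_linear P.z H
      rw [← hΦ]
      refine span_lin Φ _ (fun a ha k hk => ?_) Q hQ
      rw [hΦ, ← EP_deriv]
      exact h a (fun j => ((ha j).trans_lt hT).le) k (hk.trans_lt hT)
  have hN1 : 0 < T := lt_of_lt_of_le (Nat.succ_pos _) hT
  let F : (Jx d K W → ℂ) →ₗ[ℂ] ((Fin d → Fin (T + 1)) × Fin T → ℂ) :=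
    { toFun := fun H p => Ph P.z H ((∑ j, MvPolynomial.C (((p.1 j).val : ℕ) : ℂ) * MvPolynomial.X j) ^ p.2.val)
      map_add' := by
        intro H H'
        funext p
        simp only [Ph, Pi.add_apply]
        rw [← Finset.sum_add_distrib]
        exact Finset.sum_congr rfl fun x _ => by ring
      map_smul' := by
        intro r H
        funext p
        simp only [Ph, Pi.smul_apply, smul_eq_mul, RingHom.id_apply]
        rw [Finset.mul_sum]
        exact Finset.sum_congr rfl fun x _ => by ring }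
  have hF : ∀ H p, F H p = iteratedDeriv p.2.val (fun ζ : ℂ => EP H (fun j => ζ * ((p.1 j).val : ℕ))
      (tt P.z (fun j => ζ * ((p.1 j).val : ℕ)))) 0 := fun H p => (EP_deriv P.z H (fun j => (p.1 j).val) p.2.val).symm
  have hker : LinearMap.ker F = ⊥ := by
    rw [LinearMap.ker_eq_bot']
    intro H hH
    refine hz H fun a ha k hk => ?_
    have h1 := congrFun hH (fun j => ⟨a j, Nat.lt_succ_of_le (ha j)⟩, ⟨k, hk⟩)
    rw [hF] at h1
    exact h1
  obtain ⟨K', hK, hanti⟩ := F.exists_antilipschitzWith hker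
  have hK' : (0 : ℝ) < K' := by exact_mod_cast hK
  refine ⟨(K' : ℝ)⁻¹, inv_pos.2 hK', fun H η hη x => ?_⟩
  have hη0 : 0 ≤ η := (norm_nonneg _).trans (hη (fun _ => 0) (fun _ => Nat.zero_le _) 0 hN1)
  have h1 : ‖F H‖ ≤ η := by
    rw [pi_norm_le_iff_of_nonneg hη0]
    intro p
    rw [hF]
    exact hη (fun j => (p.1 j).val) (fun j => Nat.le_of_lt_succ (p.1 j).isLt) p.2.val p.2.isLt
  have h2 : ‖H‖ ≤ K' * ‖F H‖ := by
    have := hanti.le_mul_dist H 0
    rwa [map_zero, dist_zero_right, dist_zero_right] at this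
  have h3 : ‖H x‖ ≤ K' * η := (norm_le_pi_norm H x).trans (h2.trans (mul_le_mul_of_nonneg_left h1 hK'.le))
  rw [inv_mul_le_iff₀ hK']
  exact h3

end Pool.Agent.MSR
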