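import Pool.Agent.Lib.MP_f58a57_nt.R.Defs
import Pool.Agent.Lib.MP_f58a57_nt.P.T4_Shift
import Pool.Agent.Lib.MP_f58a57_nt.P.T3_Zeros
import Pool.Agent.Lib.MP_f58a57_nt.P.T7_Wp

/-! # R/D6_Series: the theta series -/

open Complex Filter Topology IntermediateField

noncomputable section

namespace Pool.Agent.MSR

open MSD MSP MSK

variable {d : ℕ}

/-- the theta series, as a value of the Jacobi theta function -/
def d6_S (τ t : ℂ) : ℂ := cexp (Real.pi * I * t) * jacobiTheta₂ (t + (τ + 1) / 2) τ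

theorem d6_hasSum (τ : ℂ) (hτ : 0 < τ.im) (t : ℂ) :
    HasSum (fun n : ℤ => (-1 : ℂ) ^ n * ee (τ * (n * (n + 1) / 2) + (n + 1 / 2) * t)) (d6_S τ t) := by
  have h1 := (hasSum_jacobiTheta₂_term (t + (τ + 1) / 2) hτ).mul_left (cexp (Real.pi * I * t))
  have h2 : (fun n : ℤ => (-1 : ℂ) ^ n * ee (τ * (n * (n + 1) / 2) + (n + 1 / 2) * t)) =
      fun n : ℤ => cexp (Real.pi * I * t) * jacobiTheta₂_term n (t + (τ + 1) / 2) τ := by
    funext n
    have h3 : (-1 : ℂ) ^ n = cexp (n * (Real.pi * I)) := by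
      rw [Complex.exp_int_mul, Complex.exp_pi_mul_I]
    unfold jacobiTheta₂_term ee
    rw [h3, ← Complex.exp_add, ← Complex.exp_add]
    congr 1
    ring
  rw [h2]
  exact h1

theorem d6_diff (τ : ℂ) (hτ : 0 < τ.im) : Differentiable ℂ (d6_S τ) := by
  intro t
  unfold d6_S
  refine DifferentiableAt.mul (by fun_prop) ?_
  exact DifferentiableAt.comp t (differentiableAt_jacobiTheta₂_fst _ hτ) (by fun_prop)

theorem d6_add_one (τ t : ℂ) : d6_S τ (t + 1) = -d6_S τ t := by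
  unfold d6_S
  have e : t + 1 + (τ + 1) / 2 = (t + (τ + 1) / 2) + 1 := by ring
  rw [e, jacobiTheta₂_add_left]
  have e2 : (Real.pi : ℂ) * I * (t + 1) = Real.pi * I * t + Real.pi * I := by ring
  rw [e2, Complex.exp_add, Complex.exp_pi_mul_I]
  ring

theorem d6_add_tau (τ t : ℂ) :
    d6_S τ (t + τ) = -cexp (-(Real.pi * I * τ) - 2 * Real.pi * I * t) * d6_S τ t := by
  unfold d6_S
  have e : t + τ + (τ + 1) / 2 = (t + (τ + 1) / 2) + τ := by ring
  rw [e, jacobiTheta₂_add_left', ← mul_assoc, ← Complex.exp_add, ← mul_assoc]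
  congr 1
  have e2 : (Real.pi : ℂ) * I * (t + τ) + -Real.pi * I * (τ + 2 * (t + (τ + 1) / 2)) =
      (-(Real.pi * I * τ) - 2 * Real.pi * I * t) + Real.pi * I * t - Real.pi * I := by ring
  rw [e2, Complex.exp_sub, Complex.exp_add, Complex.exp_pi_mul_I]
  ring

theorem d6_neg (τ t : ℂ) : d6_S τ (-t) = -d6_S τ t := by
  unfold d6_S
  have e1 : -t + (τ + 1) / 2 = -(t - (τ + 1) / 2) := by ring
  rw [e1, jacobiTheta₂_neg_left]
  have e2 : t + (τ + 1) / 2 = (t - (τ + 1) / 2 + τ) + 1 := by ring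
  rw [e2, jacobiTheta₂_add_left, jacobiTheta₂_add_left', ← mul_assoc, ← Complex.exp_add]
  have e3 : (Real.pi : ℂ) * I * t + -Real.pi * I * (τ + 2 * (t - (τ + 1) / 2)) =
      Real.pi * I * (-t) + Real.pi * I := by ring
  rw [e3, Complex.exp_add, Complex.exp_pi_mul_I]
  ring

theorem d6_zero (τ : ℂ) : d6_S τ 0 = 0 := by
  have h := d6_neg τ 0
  rw [neg_zero] at h
  exact self_eq_neg.1 h

open Classical in
/-- the ratio of the two functions -/
def d6_D (τ : ℂ) (x : ℂ) : ℂ :=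
  if th τ x = 0 then deriv (d6_S τ) 0 / deriv (th τ) 0 else d6_S τ x / th τ x

theorem d6_D_scale (τ x y f : ℂ) (hf : f ≠ 0) (h1 : th τ y = f * th τ x) (h2 : d6_S τ y = f * d6_S τ x) :
    d6_D τ y = d6_D τ x := by
  unfold d6_D
  by_cases hx : th τ x = 0
  · have hy : th τ y = 0 := by rw [h1, hx, mul_zero]
    rw [if_pos hx, if_pos hy]
  · have hy : th τ y ≠ 0 := by rw [h1]; exact mul_ne_zero hf hx
    rw [if_neg hx, if_neg hy, h1, h2, mul_div_mul_left _ _ hf]

theorem d6_D_one (τ : ℂ) : Function.Periodic (d6_D τ) 1 := by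
  intro x
  refine d6_D_scale τ x (x + 1) (-1) (by norm_num) ?_ ?_
  · rw [th_add_one]; ring
  · rw [d6_add_one]; ring

theorem d6_D_tau (τ : ℂ) (hτ : 0 < τ.im) : Function.Periodic (d6_D τ) τ := by
  intro x
  exact d6_D_scale τ x (x + τ) _ (neg_ne_zero.2 (Complex.exp_ne_zero _)) (th_add_tau τ hτ x) (d6_add_tau τ x)

theorem d6_D_lat (τ : ℂ) (hτ : 0 < τ.im) (m n : ℤ) (x : ℂ) : d6_D τ (x + (m + n * τ)) = d6_D τ x := by
  have h1 := (d6_D_one τ).int_mul m
  have h2 := (d6_D_tau τ hτ).int_mul n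
  have h3 := h2 (x + m * 1)
  have h4 := h1 x
  rw [h4] at h3
  rw [← h3]
  congr 1
  ring

theorem d6_D_off (τ : ℂ) (hτ : 0 < τ.im) (x : ℂ) (hx : th τ x ≠ 0) : AnalyticAt ℂ (d6_D τ) x := by
  have h1 : AnalyticAt ℂ (fun x => d6_S τ x / th τ x) x :=
    ((d6_diff τ hτ).analyticAt x).div ((th_differentiable τ hτ).analyticAt x) hx
  refine h1.congr ?_
  have h2 : ∀ᶠ y in 𝓝 x, th τ y ≠ 0 :=
    (th_differentiable τ hτ).continuous.continuousAt.eventually_ne hx
  filter_upwards [h2] with y hy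
  unfold d6_D
  rw [if_neg hy]

theorem d6_th_zero (τ : ℂ) : th τ 0 = 0 := by
  unfold th
  simp

theorem d6_D_zero (τ : ℂ) (hτ : 0 < τ.im) : AnalyticAt ℂ (d6_D τ) 0 := by
  have hth : HasDerivAt (th τ) (deriv (th τ) 0) 0 := ((th_differentiable τ hτ) 0).hasDerivAt
  have hS : HasDerivAt (d6_S τ) (deriv (d6_S τ) 0) 0 := ((d6_diff τ hτ) 0).hasDerivAt
  have hne := deriv_th_zero_ne τ hτ
  have hth2 := hth.tendsto_slope
  have hS2 := hS.tendsto_slope
  have hlim := hS2.div hth2 hne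
  have hev : ∀ᶠ x in 𝓝[≠] (0 : ℂ), th τ x ≠ 0 := by
    have h1 := hth2.eventually_ne hne
    filter_upwards [h1] with x hx h0
    apply hx
    rw [slope_def_field, h0, d6_th_zero]
    simp
  have h0 : d6_D τ 0 = deriv (d6_S τ) 0 / deriv (th τ) 0 := by
    unfold d6_D
    rw [if_pos (d6_th_zero τ)]
  refine Complex.analyticAt_of_differentiable_on_punctured_nhds_of_continuousAt ?_ ?_
  · filter_upwards [hev] with x hx
    exact (d6_D_off τ hτ x hx).differentiableAt
  · rw [continuousAt_iff_punctured_nhds, h0]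
    refine hlim.congr' ?_
    filter_upwards [hev, self_mem_nhdsWithin] with x hx hx0
    have hx0' : x ≠ 0 := hx0
    unfold d6_D
    rw [if_neg hx, Pi.div_apply, slope_def_field, slope_def_field, d6_th_zero, d6_zero, sub_zero, sub_zero, sub_zero]
    exact div_div_div_cancel_right₀ hx0' _ _

theorem d6_D_analytic (τ : ℂ) (hτ : 0 < τ.im) (x : ℂ) : AnalyticAt ℂ (d6_D τ) x := by
  by_cases hx : th τ x = 0
  · obtain ⟨m, n, hmn⟩ := (th_eq_zero_iff τ hτ x).1 hx
    have h0 := d6_D_zero τ hτ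
    have h1 : AnalyticAt ℂ (fun y => d6_D τ (y - x)) x := by
      have h2 : AnalyticAt ℂ (d6_D τ) ((fun y : ℂ => y - x) x) := by
        simpa using h0
      exact h2.comp (f := fun y : ℂ => y - x) (by fun_prop)
    refine h1.congr (Eventually.of_forall fun y => ?_)
    have := d6_D_lat τ hτ m n (y - x)
    rw [← hmn, sub_add_cancel] at this
    exact this.symm
  · exact d6_D_off τ hτ x hx

theorem d6_const (τ : ℂ) (hτ : 0 < τ.im) (x : ℂ) : d6_D τ x = d6_D τ 0 := by
  have hd : Differentiable ℂ (d6_D τ) := fun x => (d6_D_analytic τ hτ x).differentiableAt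
  refine hd.apply_eq_apply_of_bounded (IsZLattice.isCompact_range_of_periodic (pp τ hτ).lattice _
      hd.continuous fun z w hw => ?_).isBounded x 0
  obtain ⟨m, n, h⟩ := (th_eq_zero_iff τ hτ w).1 ((mem_pp τ hτ w).1 hw)
  rw [h]
  exact d6_D_lat τ hτ m n z

theorem d6_eq (τ : ℂ) (hτ : 0 < τ.im) (x : ℂ) : d6_S τ x = d6_D τ 0 * th τ x := by
  have hhalf : th τ (1 / 2) ≠ 0 := by
    have h := th_real_ne τ hτ (1 / 2) (by
      intro m h
      have h2 : (1 : ℝ) = 2 * m := by linarith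
      have h3 : (1 : ℤ) = 2 * m := by exact_mod_cast h2
      omega)
    simpa using h
  have h1 : AnalyticOnNhd ℂ (d6_S τ) Set.univ := fun x _ => (d6_diff τ hτ).analyticAt x
  have h2 : AnalyticOnNhd ℂ (fun x => d6_D τ 0 * th τ x) Set.univ := fun x _ =>
    analyticAt_const.mul ((th_differentiable τ hτ).analyticAt x)
  have h3 : d6_S τ =ᶠ[𝓝 (1 / 2 : ℂ)] fun x => d6_D τ 0 * th τ x := by
    have h4 : ∀ᶠ y in 𝓝 (1 / 2 : ℂ), th τ y ≠ 0 :=
      (th_differentiable τ hτ).continuous.continuousAt.eventually_ne hhalf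
    filter_upwards [h4] with y hy
    have h5 := d6_const τ hτ y
    rw [← h5]
    unfold d6_D
    rw [if_neg hy, div_mul_cancel₀ _ hy]
  exact congrFun (h1.eq_of_eventuallyEq h2 h3) x

theorem d6_term_half (y : ℝ) (n : ℤ) :
    (-1 : ℂ) ^ n * ee (I * y * (n * (n + 1) / 2) + (n + 1 / 2) * (1 / 2)) =
      I * ((Real.exp (-(Real.pi * y * (n * (n + 1)))) : ℝ) : ℂ) := by
  have h3 : (-1 : ℂ) ^ n = cexp (n * (Real.pi * I)) := by
    rw [Complex.exp_int_mul, Complex.exp_pi_mul_I]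
  have hI : I = cexp (Real.pi / 2 * I) := by
    rw [Complex.exp_pi_div_two_mul_I]
  have h2 : cexp (n * (2 * Real.pi * I)) = 1 := Complex.exp_int_mul_two_pi_mul_I n
  have h4 : (n * (Real.pi * I) : ℂ) + 2 * Real.pi * I * (I * y * (n * (n + 1) / 2) + (n + 1 / 2) * (1 / 2)) =
      n * (2 * Real.pi * I) + (Real.pi / 2 * I + -(Real.pi * y * (n * (n + 1)))) := by
    have hII : (I : ℂ) * I = -1 := Complex.I_mul_I
    linear_combination (Real.pi * y * (n * (n + 1))) * hII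
  rw [h3]
  unfold ee
  rw [← Complex.exp_add, h4, Complex.exp_add, h2, one_mul, Complex.exp_add, ← hI]
  push_cast
  rfl

theorem d6_q (y : ℝ) (hy : 1 ≤ y) : Real.exp (-(2 * Real.pi * y)) ≤ 1 / 7 := by
  have h1 : (7 : ℝ) ≤ Real.exp (2 * Real.pi * y) := by
    have h2 := Real.add_one_le_exp (2 * Real.pi * y)
    have h3 := Real.pi_gt_three
    nlinarith
  rw [Real.exp_neg, ← one_div]
  exact one_div_le_one_div_of_le (by norm_num) h1

theorem d6_S_half (y : ℝ) (hy : 1 ≤ y) : 2 ≤ ‖d6_S (I * y) (1 / 2)‖ ∧ ‖d6_S (I * y) (1 / 2)‖ ≤ 3 := by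
  have hτ : 0 < (I * (y : ℂ)).im := by
    simp
    linarith
  have h1 := d6_hasSum (I * y) hτ (1 / 2)
  have h2 : (fun n : ℤ => (-1 : ℂ) ^ n * ee (I * y * (n * (n + 1) / 2) + (n + 1 / 2) * (1 / 2))) =
      fun n : ℤ => I * ((Real.exp (-(Real.pi * y * (n * (n + 1)))) : ℝ) : ℂ) := by
    funext n
    exact d6_term_half y n
  rw [h2] at h1
  have h3 := h1.mul_left (-I)
  have h4 : (fun n : ℤ => -I * (I * ((Real.exp (-(Real.pi * y * (n * (n + 1)))) : ℝ) : ℂ))) =
      fun n : ℤ => ((Real.exp (-(Real.pi * y * (n * (n + 1)))) : ℝ) : ℂ) := by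
    funext n
    rw [← mul_assoc, neg_mul, Complex.I_mul_I, neg_neg, one_mul]
  rw [h4] at h3
  set r : ℤ → ℝ := fun n => Real.exp (-(Real.pi * y * (n * (n + 1)))) with hr
  have h5 : Summable r := by
    have := h3.summable
    exact (Complex.summable_ofReal (f := r)).1 this
  have h6 : ((∑' n, r n : ℝ) : ℂ) = -I * d6_S (I * y) (1 / 2) := by
    rw [Complex.ofReal_tsum]
    exact h3.tsum_eq
  have hpos : ∀ n, 0 < r n := fun n => Real.exp_pos _
  have h7 : ‖d6_S (I * y) (1 / 2)‖ = ∑' n, r n := by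
    have h8 := congrArg norm h6
    rw [norm_mul, norm_neg, Complex.norm_I, one_mul, Complex.norm_real, Real.norm_of_nonneg
      (tsum_nonneg fun n => (hpos n).le)] at h8
    exact h8.symm
  rw [h7]
  have hpi := Real.pi_pos
  constructor
  · have h9 := h5.sum_le_tsum {0, -1} (fun n _ => (hpos n).le)
    have h10 : ∑ n ∈ ({0, -1} : Finset ℤ), r n = 2 := by
      rw [Finset.sum_pair (by norm_num)]
      simp only [hr]
      norm_num
    rw [h10] at h9
    exact h9
  · set q : ℝ := Real.exp (-(2 * Real.pi * y)) with hq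
    have hq0 : 0 < q := Real.exp_pos _
    have hq7 : q ≤ 1 / 7 := d6_q y hy
    have hpow : ∀ n : ℕ, q ^ n = Real.exp (-(2 * Real.pi * y) * n) := by
      intro n
      rw [hq, ← Real.exp_nat_mul]
      congr 1
      ring
    have hle : ∀ n : ℕ, Real.exp (-(Real.pi * y * ((n : ℝ) * (n + 1)))) ≤ q ^ n := by
      intro n
      rw [hpow]
      apply Real.exp_le_exp.2
      have hn : (n : ℝ) ≤ (n : ℝ) * n := by
        rcases Nat.eq_zero_or_pos n with h0 | h0
        · simp [h0]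
        · have : (1 : ℝ) ≤ n := by exact_mod_cast h0
          nlinarith
      have hpy : 0 < Real.pi * y := by positivity
      nlinarith
    have hgeo : HasSum (fun n : ℕ => q ^ n) (1 - q)⁻¹ := hasSum_geometric_of_lt_one hq0.le (by linarith)
    have ha : Summable fun n : ℕ => r n := h5.comp_injective Nat.cast_injective
    have hb : Summable fun n : ℕ => r (-(n + 1 : ℤ)) := by
      refine h5.comp_injective (i := fun n : ℕ => (-(n + 1 : ℤ))) ?_
      intro a b hab
      have : (a : ℤ) = b := by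
        simp only at hab
        linarith
      exact_mod_cast this
    have hsplit : ∑' n, r n = ∑' n : ℕ, r n + ∑' n : ℕ, r (-(n + 1 : ℤ)) :=
      tsum_of_nat_of_neg_add_one ha hb
    rw [hsplit]
    have h11 : ∑' n : ℕ, r n ≤ (1 - q)⁻¹ := by
      rw [← hgeo.tsum_eq]
      refine ha.tsum_le_tsum (fun n => ?_) hgeo.summable
      have := hle n
      simp only [hr]
      push_cast
      exact this
    have h12 : ∑' n : ℕ, r (-(n + 1 : ℤ)) ≤ (1 - q)⁻¹ := by
      rw [← hgeo.tsum_eq]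
      refine hb.tsum_le_tsum (fun n => ?_) hgeo.summable
      have := hle n
      simp only [hr]
      push_cast
      refine le_trans (le_of_eq ?_) this
      congr 1
      ring
    have h13 : (1 - q)⁻¹ ≤ 7 / 6 := by
      rw [inv_le_comm₀ (by linarith) (by norm_num)]
      norm_num
      linarith
    linarith

theorem d6_ee_half (y : ℝ) (n : ℕ) (e : ℂ) (he : e = 1 / 2 ∨ e = -(1 / 2)) :
    ee ((n + 1) * (I * y) + e) = -(((Real.exp (-(2 * Real.pi * y)) ^ (n + 1) : ℝ)) : ℂ) := by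
  have h1 : ee e = -1 := by
    unfold ee
    rcases he with h | h
    · rw [h]
      have : (2 * Real.pi * I * (1 / 2) : ℂ) = Real.pi * I := by ring
      rw [this, Complex.exp_pi_mul_I]
    · rw [h]
      have : (2 * Real.pi * I * (-(1 / 2)) : ℂ) = -(Real.pi * I) := by ring
      rw [this, Complex.exp_neg, Complex.exp_pi_mul_I]
      norm_num
  rw [t2_ee_add, h1, mul_neg, mul_one]
  congr 1
  rw [← Real.exp_nat_mul]
  unfold ee
  rw [Complex.ofReal_exp]
  congr 1
  push_cast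
  have hII : (I : ℂ) * I = -1 := Complex.I_mul_I
  linear_combination (2 * Real.pi * (n + 1) * y) * hII

theorem d6_th_half (y : ℝ) (hy : 1 ≤ y) : 1 ≤ ‖th (I * y) (1 / 2)‖ ∧ ‖th (I * y) (1 / 2)‖ ≤ 2 := by
  have hτ : 0 < (I * (y : ℂ)).im := by
    simp
    linarith
  set q : ℝ := Real.exp (-(2 * Real.pi * y)) with hq
  have hq0 : 0 < q := Real.exp_pos _
  have hq7 : q ≤ 1 / 7 := d6_q y hy
  have hsin : Complex.sin (Real.pi * (1 / 2)) = 1 := by
    have : (Real.pi : ℂ) * (1 / 2) = Real.pi / 2 := by ring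
    rw [this, Complex.sin_pi_div_two]
  have h1 := (thp_multipliable (I * y) hτ (1 / 2)).hasProd
  have h2 : (fun n : ℕ => (1 - ee ((n + 1) * (I * y) + 1 / 2)) * (1 - ee ((n + 1) * (I * y) - 1 / 2))) =
      fun n : ℕ => (((1 + q ^ (n + 1)) ^ 2 : ℝ) : ℂ) := by
    funext n
    rw [sub_eq_add_neg ((n + 1 : ℂ) * (I * y)) (1 / 2), d6_ee_half y n _ (Or.inl rfl),
      d6_ee_half y n _ (Or.inr rfl), ← hq]
    clear_value q
    push_cast
    ring
  have h3 : th (I * y) (1 / 2) = ∏' n : ℕ, (((1 + q ^ (n + 1)) ^ 2 : ℝ) : ℂ) := by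
    unfold th thp
    rw [hsin, one_mul, h2]
  rw [h2, ← h3] at h1
  have h4 : Tendsto (fun s : Finset ℕ => ‖∏ n ∈ s, (((1 + q ^ (n + 1)) ^ 2 : ℝ) : ℂ)‖) atTop
      (𝓝 ‖th (I * y) (1 / 2)‖) := by
    have h := h1.norm
    rw [HasProd] at h
    simpa [norm_prod] using h
  have h5 : ∀ s : Finset ℕ, ‖∏ n ∈ s, (((1 + q ^ (n + 1)) ^ 2 : ℝ) : ℂ)‖ = ∏ n ∈ s, (1 + q ^ (n + 1)) ^ 2 := by
    intro s
    rw [norm_prod]
    refine Finset.prod_congr rfl fun n _ => ?_
    rw [Complex.norm_real, Real.norm_of_nonneg (by positivity)]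
  constructor
  · refine ge_of_tendsto' h4 fun s => ?_
    rw [h5]
    have h6 : ∏ n ∈ s, (1 : ℝ) ≤ ∏ n ∈ s, (1 + q ^ (n + 1)) ^ 2 := by
      refine Finset.prod_le_prod (fun n _ => by norm_num) fun n _ => ?_
      have : 0 < q ^ (n + 1) := by positivity
      nlinarith
    rwa [Finset.prod_const_one] at h6
  · refine le_of_tendsto' h4 fun s => ?_
    rw [h5]
    have h6 : ∏ n ∈ s, (1 + q ^ (n + 1)) ^ 2 ≤ ∏ n ∈ s, Real.exp (2 * q ^ (n + 1)) := by
      refine Finset.prod_le_prod (fun n _ => by positivity) fun n _ => ?_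
      have h7 := Real.add_one_le_exp (q ^ (n + 1))
      have h8 : Real.exp (2 * q ^ (n + 1)) = Real.exp (q ^ (n + 1)) ^ 2 := by
        rw [two_mul, Real.exp_add, sq]
      rw [h8]
      have : 0 < q ^ (n + 1) := by positivity
      exact pow_le_pow_left₀ (by positivity) (by linarith) 2
    refine h6.trans ?_
    rw [← Real.exp_sum, ← Finset.mul_sum]
    have hgeo : HasSum (fun n : ℕ => q ^ n) (1 - q)⁻¹ := hasSum_geometric_of_lt_one hq0.le (by linarith)
    have hgeo2 : HasSum (fun n : ℕ => q ^ (n + 1)) (q * (1 - q)⁻¹) := by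
      have h := hgeo.mul_left q
      have h' : (fun n : ℕ => q ^ (n + 1)) = fun n : ℕ => q * q ^ n := by
        funext n
        exact pow_succ' q n
      rw [h']
      exact h
    have h9 : ∑ n ∈ s, q ^ (n + 1) ≤ q * (1 - q)⁻¹ :=
      sum_le_hasSum s (fun n _ => by positivity) hgeo2
    have h13 : (1 - q)⁻¹ ≤ 7 / 6 := by
      rw [inv_le_comm₀ (by linarith) (by norm_num)]
      norm_num
      linarith
    have h14 : q * (1 - q)⁻¹ ≤ 1 / 6 := by
      have h15 : 0 < (1 - q)⁻¹ := inv_pos.2 (by linarith)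
      nlinarith
    have h16 : Real.exp (2 * ∑ n ∈ s, q ^ (n + 1)) ≤ Real.exp (1 / 3) := Real.exp_le_exp.2 (by linarith)
    refine h16.trans ?_
    have h17 : Real.exp (1 / 3) ^ 3 = Real.exp 1 := by
      rw [← Real.exp_nat_mul]
      norm_num
    have h18 := Real.exp_one_lt_d9
    by_contra hcon
    rw [not_le] at hcon
    have h19 : (2 : ℝ) ^ 3 < Real.exp (1 / 3) ^ 3 := pow_lt_pow_left₀ hcon (by norm_num) (by norm_num)
    rw [h17] at h19
    linarith

/-- D6a. PROOF. `τ = iy`, `S(t) = ∑_n a_n(t)`, `a_n(t) = (-1)^n e(τ n(n+1)/2 + (n+1/2) t)`; `‖a_n(t)‖ = exp(-π y n(n+1) - 2π(n+1/2) Im t)`, locally uniformly summable, so `S` is entire (`differentiableOn_tsum_of_summable_norm`). `S(t+1) = -S(t)`, `S(t + τ) = -e(-τ/2 - t) S(t)`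
(index shift `n ↦ n - 1`), the same rules as for `th` (`N0_shift`; `au τ 1 0`, `au τ 0 1`), `S(0) = 0` (pair `n` and `-n-1`), so `S` vanishes on `ℤ + ℤτ`, where `th` has simple zeros (`th_eq_zero_iff`, `deriv_th_zero_ne`); so `S/th` extends to an entire function (removable
singularities) which is doubly periodic, hence constant (bounded, Liouville; compare P/T7_Wp or K/T3_Diff for the technique): `S = c th`. At `t = 1/2`: `a_n(1/2) = i q^(n(n+1)/2)`, `q = e^{-2πy}`, so `S(1/2) = i ∑ q^(n(n+1)/2)`, `2 ≤ ‖S(1/2)‖ ≤ 2 ∑_{n≥0} q^n ≤ 3`, and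
`1 ≤ ‖th(1/2)‖ = ∏ (1 + q^n)² ≤ 2`. So `c ≠ 0`, `kt y = th(1/2)/S(1/2) = 1/c`. -/
theorem th_series (y : ℝ) (hy : 1 ≤ y) : 1 / 3 ≤ ‖kt y‖ ∧ ‖kt y‖ ≤ 1 ∧ ∀ t : ℂ,
    HasSum (fun n : ℤ => kt y * ((-1) ^ n * ee (I * y * (n * (n + 1) / 2) + (n + 1 / 2) * t))) (th (I * y) t) := by
  have hτ : 0 < (I * (y : ℂ)).im := by
    simp
    linarith
  obtain ⟨hS1, hS2⟩ := d6_S_half y hy
  obtain ⟨ht1, ht2⟩ := d6_th_half y hy
  have hk : kt y = th (I * y) (1 / 2) / d6_S (I * y) (1 / 2) := by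
    unfold kt
    rw [(d6_hasSum (I * y) hτ (1 / 2)).tsum_eq]
  have hn : ‖kt y‖ = ‖th (I * y) (1 / 2)‖ / ‖d6_S (I * y) (1 / 2)‖ := by
    rw [hk, norm_div]
  refine ⟨?_, ?_, ?_⟩
  · rw [hn, div_le_div_iff₀ (by norm_num) (by linarith)]
    linarith
  · rw [hn, div_le_one (by linarith)]
    linarith
  · intro t
    have h1 := (d6_hasSum (I * y) hτ t).mul_left (kt y)
    have h2 : kt y * d6_S (I * y) t = th (I * y) t := by
      have hS0 : d6_S (I * y) (1 / 2) ≠ 0 := by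
        intro h
        rw [h, norm_zero] at hS1
        linarith
      have e1 := d6_eq (I * y) hτ (1 / 2)
      have e2 := d6_eq (I * y) hτ t
      have hth0 : th (I * y) (1 / 2) ≠ 0 := by
        intro h
        rw [h, norm_zero] at ht1
        linarith
      have hc : d6_D (I * y) 0 ≠ 0 := by
        intro h
        apply hS0
        rw [e1, h, zero_mul]
      rw [hk, e2, e1]
      field_simp
    rw [h2] at h1
    exact h1

end Pool.Agent.MSR
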