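import Pool.Agent.Lib.MP_f58a57_nt.R.Defs

/-! # R/D6b_VtBound: sizes of the coefficients -/

open Complex Filter Topology IntermediateField

noncomputable section

namespace Pool.Agent.MSR

open MSD MSP MSK

variable {d : ℕ}

theorem d6b_norm_ee (x : ℂ) : ‖ee x‖ = Real.exp (-(2 * Real.pi * x.im)) := by
  rw [ee, Complex.norm_exp]
  congr 1
  simp [Complex.mul_re, Complex.mul_im]

theorem d6b_norm (y : ℝ) (h : ℂ) (hh : h = 1 / 2 ∨ h = I * y / 2 ∨ h = (1 + I * y) / 2) (n : ℤ) :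
    ∃ T : ℝ, ‖vt (I * y) h n‖ = Real.exp (-(2 * Real.pi * T)) ∧
      (T = y * ((n : ℝ) * (n + 1)) / 2 ∨ T = y / 2 * (((n : ℝ) + 1) ^ 2 - 1 / 2)) := by
  refine ⟨(I * y * (n * (n + 1) / 2) + (n + 1 / 2) * h).im, ?_, ?_⟩
  · rw [vt, norm_mul, norm_zpow, norm_neg, norm_one, one_zpow, one_mul, d6b_norm_ee]
  · have e1 : (I * (y : ℂ) * ((n : ℂ) * (n + 1) / 2)) = I * (((y * ((n : ℝ) * (n + 1)) / 2 : ℝ)) : ℂ) := by
      push_cast
      ring
    have e2 : ((I * (y : ℂ) * ((n : ℂ) * (n + 1) / 2))).im = y * ((n : ℝ) * (n + 1)) / 2 := by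
      rw [e1, Complex.I_mul_im, Complex.ofReal_re]
    rw [Complex.add_im, e2]
    rcases hh with hh | hh | hh
    · left
      have e3 : (((n : ℂ) + 1 / 2) * h) = ((((n : ℝ) + 1 / 2) * (1 / 2) : ℝ) : ℂ) := by
        rw [hh]
        push_cast
        ring
      rw [e3, Complex.ofReal_im, add_zero]
    · right
      have e3 : (((n : ℂ) + 1 / 2) * h) = I * ((((n : ℝ) + 1 / 2) * (y / 2) : ℝ) : ℂ) := by
        rw [hh]
        push_cast
        ring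
      rw [e3, Complex.I_mul_im, Complex.ofReal_re]
      ring
    · right
      have e3 : (((n : ℂ) + 1 / 2) * h) =
          ((((n : ℝ) + 1 / 2) * (1 / 2) : ℝ) : ℂ) + I * ((((n : ℝ) + 1 / 2) * (y / 2) : ℝ) : ℂ) := by
        rw [hh]
        push_cast
        ring
      rw [e3, Complex.add_im, Complex.ofReal_im, Complex.I_mul_im, Complex.ofReal_re]
      ring

theorem d6b_nn (n : ℤ) : (0 : ℝ) ≤ (n : ℝ) * (n + 1) := by
  have h : 0 ≤ n * (n + 1) := by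
    rcases le_or_gt 0 n with h | h
    · positivity
    · nlinarith
  exact_mod_cast h

/-- D6b. PROOF. `‖ee x‖ = exp(-2π Im x)`, `Im (τ n(n+1)/2 + (n+1/2) h) = y n(n+1)/2 + (n+1/2) Im h`, `Im h ∈ {0, y/2}`: it is `y n(n+1)/2 ≥ 0` or `y ((n+1)² - 1/2)/2 ≥ -y/4`. So `‖vt‖ ≤ e^{πy/2} ≤ e^{2y}`, and for `n ≥ 0` it is `≤ y (n+1)²`, `2π ≤ 7`. -/
theorem vt_bd (y : ℝ) (hy : 0 ≤ y) (h : ℂ) (hh : h = 1 / 2 ∨ h = I * y / 2 ∨ h = (1 + I * y) / 2) (n : ℤ) :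
    ‖vt (I * y) h n‖ ≤ Real.exp (2 * y) ∧ (0 ≤ n → Real.exp (-(7 * y * ((n : ℝ) + 1) ^ 2)) ≤ ‖vt (I * y) h n‖) := by
  obtain ⟨T, hT, hc⟩ := d6b_norm y h hh n
  have hn := d6b_nn n
  have hp := Real.pi_gt_three
  have hp4 := Real.pi_lt_d2
  rw [hT, Real.exp_le_exp]
  refine ⟨?_, ?_⟩
  · have h1 : -(y / 4) ≤ T := by
      rcases hc with hc | hc
      · rw [hc]
        have := mul_nonneg hy hn
        linarith
      · rw [hc]
        have := mul_nonneg hy (sq_nonneg ((n : ℝ) + 1))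
        linarith
    have h2 : 2 * Real.pi * (-(y / 4)) ≤ 2 * Real.pi * T :=
      mul_le_mul_of_nonneg_left h1 (by linarith)
    have h3 : Real.pi * y ≤ 3.15 * y := mul_le_mul_of_nonneg_right hp4.le hy
    linarith
  · intro h0
    have h0' : (0 : ℝ) ≤ (n : ℝ) := by exact_mod_cast h0
    rw [Real.exp_le_exp]
    have h1 : T ≤ y * ((n : ℝ) + 1) ^ 2 := by
      have h2 := mul_nonneg hy (sq_nonneg ((n : ℝ) + 1))
      have h3 := mul_nonneg hy h0'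
      rcases hc with hc | hc
      · rw [hc]
        nlinarith
      · rw [hc]
        nlinarith
    have h2 : 0 ≤ y * ((n : ℝ) + 1) ^ 2 := mul_nonneg hy (sq_nonneg _)
    have h3 : 2 * Real.pi * T ≤ 2 * Real.pi * (y * ((n : ℝ) + 1) ^ 2) :=
      mul_le_mul_of_nonneg_left h1 (by linarith)
    have h4 : Real.pi * (y * ((n : ℝ) + 1) ^ 2) ≤ 3.15 * (y * ((n : ℝ) + 1) ^ 2) :=
      mul_le_mul_of_nonneg_right hp4.le h2
    linarith

/-- D6b'. PROOF. For `n ≥ W` the exponent is `≥ y n(n+1)/2 ≥ y n²/2`; for `n ≤ -W-1`, `ν = -n-1 ≥ W`: `n(n+1)/2 = ν(ν+1)/2`, `((n+1)² - 1/2)/2 = (ν² - 1/2)/2`. So with `ν = n` or `-n-1`, `ν ≥ W`: `‖vt‖ ≤ exp(-π y ν² + π y/2)`, and `π ν² ≥ π W²/2 + π ν²/2`, `y ≥ 1`. -/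
theorem vt_tail (y : ℝ) (hy : 1 ≤ y) (h : ℂ) (hh : h = 1 / 2 ∨ h = I * y / 2 ∨ h = (1 + I * y) / 2) (W : ℕ) (n : ℤ) (hn : (W : ℤ) ≤ n ∨ n < -W) :
    ‖vt (I * y) h n‖ ≤ Real.exp (-(y * ((W : ℝ) ^ 2 - 2))) * Real.exp (-(|(n : ℝ)| - 1) ^ 2) := by
  obtain ⟨T, hT, hc⟩ := d6b_norm y h hh n
  have hp := Real.pi_gt_three
  have hp4 := Real.pi_lt_d2
  rw [hT, ← Real.exp_add, Real.exp_le_exp]
  have hy0 : 0 ≤ y := by linarith
  have hW0 : (0 : ℝ) ≤ (W : ℝ) := Nat.cast_nonneg W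
  -- the key inequality
  have key : ∀ ν : ℝ, 0 ≤ ν → (W : ℝ) ≤ ν → (|(n : ℝ)| - 1) ^ 2 ≤ ν ^ 2 → y / 2 * (ν ^ 2 - 1 / 2) ≤ T →
      -(2 * Real.pi * T) ≤ -(y * ((W : ℝ) ^ 2 - 2)) + -(|(n : ℝ)| - 1) ^ 2 := by
    intro ν h0 h1 h2 h3
    have h4 : (W : ℝ) ^ 2 ≤ ν ^ 2 := by nlinarith
    have h5 : 2 * Real.pi * (y / 2 * (ν ^ 2 - 1 / 2)) ≤ 2 * Real.pi * T :=
      mul_le_mul_of_nonneg_left h3 (by linarith)
    have h6 : 3 * (y * ν ^ 2) ≤ Real.pi * (y * ν ^ 2) :=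
      mul_le_mul_of_nonneg_right hp.le (mul_nonneg hy0 (sq_nonneg _))
    have h7 : Real.pi * y ≤ 3.15 * y := mul_le_mul_of_nonneg_right hp4.le hy0
    have h8 : y * (W : ℝ) ^ 2 ≤ y * ν ^ 2 := mul_le_mul_of_nonneg_left h4 hy0
    have h9 : ν ^ 2 ≤ y * ν ^ 2 := by nlinarith [sq_nonneg ν]
    have h10 : 0 ≤ y * ν ^ 2 := mul_nonneg hy0 (sq_nonneg _)
    have e : 2 * Real.pi * (y / 2 * (ν ^ 2 - 1 / 2)) = Real.pi * (y * ν ^ 2) - Real.pi * y / 2 := by ring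
    rw [e] at h5
    nlinarith
  rcases hn with hn | hn
  · have hn' : (W : ℝ) ≤ (n : ℝ) := by exact_mod_cast hn
    have hn0 : (0 : ℝ) ≤ (n : ℝ) := le_trans hW0 hn'
    rw [abs_of_nonneg hn0]
    rw [abs_of_nonneg hn0] at key
    rcases lt_or_ge n 1 with h1 | h1
    · have hn00 : n = 0 := by
        have : (0 : ℤ) ≤ n := by exact_mod_cast hn0
        omega
      have hWW : (W : ℝ) = 0 := by
        rw [hn00] at hn'
        push_cast at hn'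
        linarith
      have hT0 : 0 ≤ T := by
        rcases hc with hc | hc
        · rw [hc, hn00]
          simp
        · rw [hc, hn00]
          push_cast
          linarith
      rw [hWW, hn00]
      have := mul_nonneg (show (0 : ℝ) ≤ 2 * Real.pi by linarith) hT0
      push_cast
      nlinarith
    · have h1' : (1 : ℝ) ≤ (n : ℝ) := by exact_mod_cast h1
      refine key n hn0 hn' ?_ ?_
      · nlinarith
      · rcases hc with hc | hc
        · rw [hc]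
          nlinarith [mul_nonneg hy0 hn0]
        · rw [hc]
          nlinarith [mul_nonneg hy0 hn0]
  · have hn1 : n ≤ -(W : ℤ) - 1 := by omega
    have hn' : (n : ℝ) ≤ -(W : ℝ) - 1 := by exact_mod_cast hn1
    have hneg : (n : ℝ) ≤ 0 := by linarith
    rw [abs_of_nonpos hneg]
    rw [abs_of_nonpos hneg] at key
    refine key (-(n : ℝ) - 1) (by linarith) (by linarith) le_rfl ?_
    rcases hc with hc | hc
    · rw [hc]
      nlinarith [mul_nonneg hy0 (show (0 : ℝ) ≤ -(n : ℝ) - 1 by linarith)]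
    · rw [hc]
      nlinarith [mul_nonneg hy0 (show (0 : ℝ) ≤ -(n : ℝ) - 1 by linarith)]

end Pool.Agent.MSR
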