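import Pool.Agent.Lib.MP_f58a57_nt.R.Defs
import Pool.Agent.Lib.MP_f58a57_nt.R.D6_Series
import Pool.Agent.Lib.MP_f58a57_nt.R.D6b_VtBound

/-! # R/D6c_Trunc: truncation of the theta series and its derivatives -/

open Complex Filter Topology IntermediateField

noncomputable section

namespace Pool.Agent.MSR

open MSD MSP MSK

variable {d : ℕ}

/-- summability of the majorant -/
theorem d6c_summable (c : ℝ) : Summable fun n : ℤ => Real.exp (-(|(n : ℝ)| - 1) ^ 2) * Real.exp (c * (|(n : ℝ)| + 1)) := by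
  have h1 : Summable fun n : ℕ => Real.exp (-(n : ℝ)) := Real.summable_exp_neg_nat
  have h2 : Summable fun n : ℤ => Real.exp (-|(n : ℝ)|) := by
    refine Summable.of_nat_of_neg ?_ ?_
    · refine h1.congr fun n => ?_
      rw [Int.cast_natCast, Nat.abs_cast]
    · refine h1.congr fun n => ?_
      rw [Int.cast_neg, Int.cast_natCast, abs_neg, Nat.abs_cast]
  refine Summable.of_nonneg_of_le (fun n => by positivity) (fun n => ?_) (h2.mul_left (Real.exp ((c + 3) ^ 2 / 4 + c)))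
  rw [← Real.exp_add, ← Real.exp_add]
  refine Real.exp_le_exp.mpr ?_
  nlinarith [sq_nonneg (|(n : ℝ)| - (c + 3) / 2)]

theorem d6c_ee_add (x y : ℂ) : ee (x + y) = ee x * ee y := by
  unfold ee
  rw [mul_add, Complex.exp_add]

theorem d6c_norm_ee (n : ℤ) (t : ℂ) (R : ℝ) (ht : ‖t‖ ≤ R) : ‖ee (((n : ℂ) + 1 / 2) * t)‖ ≤ Real.exp (2 * Real.pi * R * (|(n : ℝ)| + 1)) := by
  unfold ee
  refine (Complex.norm_exp_le_exp_norm _).trans (Real.exp_le_exp.mpr ?_)
  rw [norm_mul, norm_mul, norm_mul, norm_mul, Complex.norm_I, Complex.norm_real, Real.norm_of_nonneg Real.pi_pos.le, Complex.norm_ofNat, mul_one]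
  have h1 : ‖(n : ℂ) + 1 / 2‖ ≤ |(n : ℝ)| + 1 := by
    refine (norm_add_le _ _).trans ?_
    rw [Complex.norm_intCast]
    have : ‖(1 / 2 : ℂ)‖ ≤ 1 := by norm_num
    linarith
  have h2 : ‖(n : ℂ) + 1 / 2‖ * ‖t‖ ≤ (|(n : ℝ)| + 1) * R := mul_le_mul h1 ht (norm_nonneg _) (by positivity)
  calc 2 * Real.pi * (‖(n : ℂ) + 1 / 2‖ * ‖t‖) ≤ 2 * Real.pi * ((|(n : ℝ)| + 1) * R) :=
        mul_le_mul_of_nonneg_left h2 (by positivity)
    _ = _ := by ring

/-- the sum over `{-W..W-1}` -/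
theorem d6c_sum (W : ℕ) (F : ℤ → ℂ) : ∑ i : Fin (2 * W), F (hf i) = ∑ n ∈ Finset.Ico (-(W : ℤ)) W, F n := by
  refine Finset.sum_bij (fun i _ => hf i) ?_ ?_ ?_ ?_
  · intro i _
    have := i.isLt
    rw [Finset.mem_Ico]
    unfold hf
    omega
  · intro i _ j _ h
    unfold hf at h
    exact Fin.ext (by omega)
  · intro n hn
    rw [Finset.mem_Ico] at hn
    refine ⟨⟨(n + W).toNat, by omega⟩, Finset.mem_univ _, ?_⟩
    unfold hf
    simp only
    omega
  · intro i _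
    rfl

/-- the case of no derivative -/
theorem d6c_zero (R : ℝ) : ∃ C : ℝ, 0 ≤ C ∧ ∀ y : ℝ, 1 ≤ y → ∀ h : ℂ, (h = 1 / 2 ∨ h = I * y / 2 ∨ h = (1 + I * y) / 2) → ∀ (W : ℕ) (t : ℂ), ‖t‖ ≤ R →
    ‖th (I * y) (h + t) - kt y * ∑ i : Fin (2 * W), vt (I * y) h (hf i) *
      ee (((hf i : ℂ) + 1 / 2) * t)‖ ≤ C * Real.exp (-(y * ((W : ℝ) ^ 2 - 2))) := by
  classical
  have hs := d6c_summable (2 * Real.pi * R)
  refine ⟨∑' n : ℤ, Real.exp (-(|(n : ℝ)| - 1) ^ 2) * Real.exp (2 * Real.pi * R * (|(n : ℝ)| + 1)),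
    tsum_nonneg fun n => by positivity, ?_⟩
  intro y hy h hh W t ht
  obtain ⟨_, hk, hser⟩ := th_series y hy
  have hF : HasSum (fun n : ℤ => kt y * (vt (I * y) h n * ee (((n : ℂ) + 1 / 2) * t))) (th (I * y) (h + t)) := by
    have e : (fun n : ℤ => kt y * (vt (I * y) h n * ee (((n : ℂ) + 1 / 2) * t))) =
        fun n : ℤ => kt y * ((-1) ^ n * ee (I * y * (n * (n + 1) / 2) + (n + 1 / 2) * (h + t))) := by
      funext n
      unfold vt
      rw [mul_add ((n : ℂ) + 1 / 2) h t, ← add_assoc, d6c_ee_add _ (((n : ℂ) + 1 / 2) * t)]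
      ring
    rw [e]
    exact hser (h + t)
  set s : Finset ℤ := Finset.Ico (-(W : ℤ)) W with hsdef
  have hG : HasSum (fun n : ℤ => if n ∈ s then kt y * (vt (I * y) h n * ee (((n : ℂ) + 1 / 2) * t)) else 0)
      (kt y * ∑ i : Fin (2 * W), vt (I * y) h (hf i) * ee (((hf i : ℂ) + 1 / 2) * t)) := by
    rw [d6c_sum W (fun n => vt (I * y) h n * ee (((n : ℂ) + 1 / 2) * t)), Finset.mul_sum]
    have h1 : HasSum (fun n : ℤ => if n ∈ s then kt y * (vt (I * y) h n * ee (((n : ℂ) + 1 / 2) * t)) else 0)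
        (∑ n ∈ s, if n ∈ s then kt y * (vt (I * y) h n * ee (((n : ℂ) + 1 / 2) * t)) else 0) :=
      hasSum_sum_of_ne_finset_zero fun n hn => if_neg hn
    rwa [Finset.sum_congr rfl (fun n hn => if_pos hn)] at h1
  have hD := hF.sub hG
  refine hD.norm_le_of_bounded (hs.hasSum.mul_right _) fun n => ?_
  by_cases hn : n ∈ s
  · rw [if_pos hn, sub_self, norm_zero]
    positivity
  · rw [if_neg hn, sub_zero, norm_mul, norm_mul]
    have hn' : (W : ℤ) ≤ n ∨ n < -W := by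
      rw [hsdef, Finset.mem_Ico] at hn
      omega
    have hv := vt_tail y hy h hh W n hn'
    have he := d6c_norm_ee n t R ht
    calc ‖kt y‖ * (‖vt (I * y) h n‖ * ‖ee (((n : ℂ) + 1 / 2) * t)‖)
        ≤ 1 * ((Real.exp (-(y * ((W : ℝ) ^ 2 - 2))) * Real.exp (-(|(n : ℝ)| - 1) ^ 2)) * Real.exp (2 * Real.pi * R * (|(n : ℝ)| + 1))) :=
          mul_le_mul hk (mul_le_mul hv he (norm_nonneg _) (by positivity)) (by positivity) zero_le_one
      _ = _ := by ring

theorem d6c_iter (m : ℕ) (c t : ℂ) : iteratedDeriv m (fun x => ee (c * x)) t = (2 * Real.pi * I * c) ^ m * ee (c * t) := by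
  have e : (fun x => ee (c * x)) = fun x => cexp ((2 * Real.pi * I * c) * x) := by
    funext x
    unfold ee
    rw [mul_assoc (2 * Real.pi * I) c x]
  rw [e, iteratedDeriv_cexp_const_mul]
  unfold ee
  simp only
  rw [mul_assoc (2 * Real.pi * I) c t]

/-- D6c. PROOF. By `th_series` and termwise differentiation (`hasDerivAt_tsum_of_isPreconnected` or the theorem of Weierstrass; induction on `m`): `iteratedDeriv m (th (iy)) (h + t) = ∑_n kt y vt(h,n) (2πi(n+1/2))^m ee((n+1/2)t)`. The terms with `n ∉ {-W..W-1}` are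
`≤ ‖vt‖ (2π(|n|+1))^m e^{2πA(|n|+1)}`, and by `vt_tail` their sum is `≤ C e^{-y(W²-2)}`. For `W = 0` (no finite sum) this gives the second claim with `e^{2y}`. -/
theorem th_trunc (m : ℕ) (A : ℝ) : ∃ C : ℝ, 1 ≤ C ∧ ∀ y : ℝ, 1 ≤ y → ∀ h : ℂ, (h = 1 / 2 ∨ h = I * y / 2 ∨ h = (1 + I * y) / 2) → ∀ (W : ℕ) (t : ℂ), ‖t‖ ≤ A →
    ‖iteratedDeriv m (th (I * y)) (h + t) - kt y * ∑ i : Fin (2 * W), vt (I * y) h (hf i) * (2 * Real.pi * I * ((hf i : ℂ) + 1 / 2)) ^ m *
      ee (((hf i : ℂ) + 1 / 2) * t)‖ ≤ C * Real.exp (-(y * ((W : ℝ) ^ 2 - 2))) := by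
  obtain ⟨C, hC0, hC⟩ := d6c_zero (A + 1)
  refine ⟨max 1 (m.factorial * C), le_max_left _ _, ?_⟩
  intro y hy h hh W t ht
  have him : 0 < (I * (y : ℂ)).im := by
    simp only [Complex.mul_im, Complex.I_re, Complex.I_im, Complex.ofReal_re, Complex.ofReal_im, zero_mul, one_mul, zero_add]
    linarith
  have hdt : Differentiable ℂ fun x => th (I * y) (h + x) := (th_differentiable _ him).comp (differentiable_id.const_add h)
  have hde : ∀ n : ℤ, Differentiable ℂ fun x => ee (((n : ℂ) + 1 / 2) * x) := by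
    intro n
    unfold ee
    fun_prop
  have hds : Differentiable ℂ fun x => ∑ i : Fin (2 * W), vt (I * y) h (hf i) * ee (((hf i : ℂ) + 1 / 2) * x) :=
    Differentiable.fun_sum fun i _ => (hde _).const_mul _
  have hdd : Differentiable ℂ fun x => th (I * y) (h + x) - kt y * ∑ i : Fin (2 * W), vt (I * y) h (hf i) * ee (((hf i : ℂ) + 1 / 2) * x) :=
    hdt.sub (hds.const_mul _)
  have hcd : ∀ {f : ℂ → ℂ}, Differentiable ℂ f → ∀ (k : ℕ) (x : ℂ), ContDiffAt ℂ k f x := fun hf k x => (hf.contDiff (n := k)).contDiffAt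
  have e : iteratedDeriv m (fun x => th (I * y) (h + x) - kt y * ∑ i : Fin (2 * W), vt (I * y) h (hf i) * ee (((hf i : ℂ) + 1 / 2) * x)) t =
      iteratedDeriv m (th (I * y)) (h + t) - kt y * ∑ i : Fin (2 * W), vt (I * y) h (hf i) * (2 * Real.pi * I * ((hf i : ℂ) + 1 / 2)) ^ m *
      ee (((hf i : ℂ) + 1 / 2) * t) := by
    rw [iteratedDeriv_fun_sub (hcd hdt m t) (hcd (hds.const_mul _) m t), iteratedDeriv_comp_const_add, iteratedDeriv_const_mul_field,
      iteratedDeriv_fun_sum fun i _ => hcd ((hde _).const_mul _) m t]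
    congr 2
    refine Finset.sum_congr rfl fun i _ => ?_
    rw [iteratedDeriv_const_mul_field, d6c_iter, ← mul_assoc]
  rw [← e]
  have hfin := Complex.norm_iteratedDeriv_le_of_forall_mem_sphere_norm_le (c := t) (R := 1) (C := C * Real.exp (-(y * ((W : ℝ) ^ 2 - 2)))) m one_pos
    (f := fun x => th (I * y) (h + x) - kt y * ∑ i : Fin (2 * W), vt (I * y) h (hf i) * ee (((hf i : ℂ) + 1 / 2) * x)) hdd.diffContOnCl ?_
  · refine hfin.trans ?_
    rw [one_pow, div_one, ← mul_assoc]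
    exact mul_le_mul_of_nonneg_right (le_max_right _ _) (Real.exp_pos _).le
  · intro z hz
    refine hC y hy h hh W z ?_
    rw [mem_sphere_iff_norm] at hz
    calc ‖z‖ = ‖t + (z - t)‖ := by rw [add_sub_cancel]
      _ ≤ ‖t‖ + ‖z - t‖ := norm_add_le _ _
      _ ≤ A + 1 := by rw [hz]; linarith

end Pool.Agent.MSR
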