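import Pool.Agent.Lib.MP_f58a57_nt.R.Defs
import Pool.Agent.Lib.MP_f58a57_nt.R.B2_TH
import Pool.Agent.Lib.MP_f58a57_nt.R.D6c_Trunc
import Pool.Agent.Lib.MP_f58a57_nt.R.A5_Nm

/-! # R/D7_THTrunc: truncation of `TH` -/

open Complex Filter Topology IntermediateField

noncomputable section

namespace Pool.Agent.MSR

open MSD MSP MSK

variable {d : ℕ}

theorem d7_prod {ι : Type} [DecidableEq ι] (s : Finset ι) (a b : ι → ℂ) (K ε : ℝ) (hK : 0 ≤ K)
    (ha : ∀ i ∈ s, ‖a i‖ ≤ K) (hb : ∀ i ∈ s, ‖b i‖ ≤ K) (hab : ∀ i ∈ s, ‖a i - b i‖ ≤ K * ε) :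
    ‖∏ i ∈ s, a i - ∏ i ∈ s, b i‖ ≤ s.card * K ^ s.card * ε := by
  induction s using Finset.induction_on with
  | empty => simp
  | insert j s hj ih =>
    have ih' := ih (fun i hi => ha i (Finset.mem_insert_of_mem hi)) (fun i hi => hb i (Finset.mem_insert_of_mem hi))
      (fun i hi => hab i (Finset.mem_insert_of_mem hi))
    rw [Finset.prod_insert hj, Finset.prod_insert hj, Finset.card_insert_of_notMem hj]
    have h1 : a j * ∏ i ∈ s, a i - b j * ∏ i ∈ s, b i = (a j - b j) * ∏ i ∈ s, a i + b j * (∏ i ∈ s, a i - ∏ i ∈ s, b i) := by ring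
    have h2 : ‖∏ i ∈ s, a i‖ ≤ K ^ s.card := by
      rw [norm_prod, ← Finset.prod_const]
      exact Finset.prod_le_prod (fun i _ => norm_nonneg _) (fun i hi => ha i (Finset.mem_insert_of_mem hi))
    have h3 : ‖a j - b j‖ ≤ K * ε := hab j (Finset.mem_insert_self _ _)
    have h4 : ‖b j‖ ≤ K := hb j (Finset.mem_insert_self _ _)
    have h5 : 0 ≤ K * ε := (norm_nonneg _).trans h3
    rw [h1]
    calc ‖(a j - b j) * ∏ i ∈ s, a i + b j * (∏ i ∈ s, a i - ∏ i ∈ s, b i)‖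
        ≤ ‖a j - b j‖ * ‖∏ i ∈ s, a i‖ + ‖b j‖ * ‖∏ i ∈ s, a i - ∏ i ∈ s, b i‖ := by
          refine (norm_add_le _ _).trans ?_
          rw [norm_mul, norm_mul]
      _ ≤ (K * ε) * K ^ s.card + K * (s.card * K ^ s.card * ε) := by
          refine add_le_add (mul_le_mul h3 h2 (norm_nonneg _) h5) (mul_le_mul h4 ih' (norm_nonneg _) hK)
      _ = ((s.card + 1 : ℕ) : ℝ) * K ^ (s.card + 1) * ε := by
          push_cast
          ring

theorem d7_ee {ι : Type} (s : Finset ι) (f : ι → ℂ) : ee (∑ l ∈ s, f l) = ∏ l ∈ s, ee (f l) := by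
  simp only [ee]
  rw [Finset.mul_sum, Complex.exp_sum]

/-- D7. PROOF. By linearity for `q = monomial m a`, `∑ m_l ≤ n`: the difference of the products `∏ a_l - ∏ b_l`, `a_l = th^(m_l)(h_l + t_l)`, `b_l = kt ∑_i vt(h_l, hf i) (2πi(hf i + 1/2))^(m_l) ee(..)`; `‖a_l‖ ≤ C e^{2y}` (`th_trunc` with `W = 0`), `‖a_l - b_l‖ ≤ C e^{-y(W²-2)}` (common
`C` for all `m_l ≤ n`), so `‖b_l‖ ≤ 2C e^{2y}` and the difference is `≤ (d+1) (2C e^{2y})^d C e^{-y(W²-2)}`. `∏_l b_l = kt^(d+1) ∑_{i : Fin (d+1) → Fin (2W)} (∏ vt) ee(∑ (hf(i_l) + 1/2) t_l) ∏ (2πi(hf(i_l) + 1/2))^(m_l)` (`Finset.prod_univ_sum`/`Fintype.piFinset`). -/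
theorem TH_trunc (n : ℕ) (A : ℝ) : ∃ C : ℝ, 1 ≤ C ∧ ∀ y : ℝ, 1 ≤ y → ∀ D : Dt d, D.τ = I * y →
    (∀ l, D.h l = 1 / 2 ∨ D.h l = D.τ / 2 ∨ D.h l = (1 + D.τ) / 2) → ∀ (W : ℕ) (t : Fin (d + 1) → ℂ), (∀ l, ‖t l‖ ≤ A) →
    ∀ q : MvPolynomial (Fin (d + 1)) ℂ, q.totalDegree ≤ n →
    ‖TH D t q - kt y ^ (d + 1) * ∑ i : Fin (d + 1) → Fin (2 * W), (∏ l, vt D.τ (D.h l) (hf (i l))) * ee (∑ l, ((hf (i l) : ℂ) + 1 / 2) * t l) *
      MvPolynomial.eval (fun l => 2 * Real.pi * I * ((hf (i l) : ℂ) + 1 / 2)) q‖ ≤ C * nm 1 q * Real.exp ((2 * d + 2) * y - y * (W : ℝ) ^ 2) := by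
  choose Cf hCf hth using fun m : ℕ => th_trunc m A
  set C₀ : ℝ := ∑ m ∈ Finset.range (n + 1), Cf m with hC₀
  have hCm : ∀ m, m ≤ n → Cf m ≤ C₀ := by
    intro m hm
    exact Finset.single_le_sum (f := Cf) (fun i _ => zero_le_one.trans (hCf i)) (Finset.mem_range.2 (Nat.lt_succ_of_le hm))
  have hC₀1 : 1 ≤ C₀ := (hCf 0).trans (hCm 0 (Nat.zero_le _))
  have hC₀0 : 0 ≤ C₀ := zero_le_one.trans hC₀1
  refine ⟨(d + 1) * (2 * C₀) ^ (d + 1), ?_, ?_⟩
  · have h1 : (1 : ℝ) ≤ (2 * C₀) ^ (d + 1) := one_le_pow₀ (by linarith)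
    have h2 : (1 : ℝ) ≤ (d : ℝ) + 1 := by
      have : (0 : ℝ) ≤ d := Nat.cast_nonneg _
      linarith
    calc (1 : ℝ) = 1 * 1 := (mul_one _).symm
      _ ≤ ((d : ℝ) + 1) * (2 * C₀) ^ (d + 1) := mul_le_mul h2 h1 zero_le_one (by linarith)
  intro y hy D hτ hh W t ht q hq
  have hh' : ∀ l, D.h l = 1 / 2 ∨ D.h l = I * y / 2 ∨ D.h l = (1 + I * y) / 2 := by
    intro l
    have := hh l
    rwa [hτ] at this
  set ε : ℝ := Real.exp (-(y * (W : ℝ) ^ 2)) with hε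
  set K : ℝ := 2 * C₀ * Real.exp (2 * y) with hKdef
  have hε0 : 0 < ε := Real.exp_pos _
  have hε1 : ε ≤ 1 := by
    rw [hε]
    apply Real.exp_le_one_iff.2
    have : 0 ≤ y * (W : ℝ) ^ 2 := by positivity
    linarith
  have hK0 : 0 ≤ K := by positivity
  set bf : Fin (d + 1) → ℕ → ℂ := fun l m => kt y * ∑ i : Fin (2 * W), vt (I * y) (D.h l) (hf i) *
    (2 * Real.pi * I * ((hf i : ℂ) + 1 / 2)) ^ m * ee (((hf i : ℂ) + 1 / 2) * t l) with hbf
  have hdiff : ∀ l m, m ≤ n → ‖iteratedDeriv m (th D.τ) (D.h l + t l) - bf l m‖ ≤ C₀ * Real.exp (2 * y) * ε := by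
    intro l m hm
    have h1 := hth m y hy (D.h l) (hh' l) W (t l) (ht l)
    rw [hτ]
    refine h1.trans ?_
    have h2 : Real.exp (-(y * ((W : ℝ) ^ 2 - 2))) = Real.exp (2 * y) * ε := by
      rw [hε, ← Real.exp_add]
      congr 1
      ring
    rw [h2, mul_assoc]
    exact mul_le_mul_of_nonneg_right (hCm m hm) (by positivity)
  have ha : ∀ l m, m ≤ n → ‖iteratedDeriv m (th D.τ) (D.h l + t l)‖ ≤ C₀ * Real.exp (2 * y) := by
    intro l m hm
    have h1 := hth m y hy (D.h l) (hh' l) 0 (t l) (ht l)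
    simp only [Nat.mul_zero, Finset.univ_eq_empty, Finset.sum_empty, mul_zero, sub_zero] at h1
    rw [hτ]
    refine h1.trans ?_
    have h2 : Real.exp (-(y * (((0 : ℕ) : ℝ) ^ 2 - 2))) = Real.exp (2 * y) := by
      congr 1
      push_cast
      ring
    rw [h2]
    exact mul_le_mul_of_nonneg_right (hCm m hm) (Real.exp_pos _).le
  have hb : ∀ l m, m ≤ n → ‖bf l m‖ ≤ K := by
    intro l m hm
    have h1 := hdiff l m hm
    have h2 := ha l m hm
    have h3 : ‖bf l m‖ ≤ ‖iteratedDeriv m (th D.τ) (D.h l + t l)‖ + ‖iteratedDeriv m (th D.τ) (D.h l + t l) - bf l m‖ := by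
      have h4 := norm_sub_le (iteratedDeriv m (th D.τ) (D.h l + t l)) (iteratedDeriv m (th D.τ) (D.h l + t l) - bf l m)
      rwa [sub_sub_cancel] at h4
    have h5 : C₀ * Real.exp (2 * y) * ε ≤ C₀ * Real.exp (2 * y) * 1 := mul_le_mul_of_nonneg_left hε1 (by positivity)
    calc ‖bf l m‖ ≤ C₀ * Real.exp (2 * y) + C₀ * Real.exp (2 * y) * 1 := by linarith
      _ = K := by rw [hKdef]; ring
  have hprod : ∀ m ∈ q.support, ‖∏ l, iteratedDeriv (m l) (th D.τ) (D.h l + t l) - ∏ l, bf l (m l)‖ ≤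
      (d + 1) * K ^ (d + 1) * ε := by
    intro m hm
    have hml : ∀ l, m l ≤ n := by
      intro l
      have h1 := (MvPolynomial.le_totalDegree hm).trans hq
      rw [Finsupp.sum_fintype _ _ (fun _ => rfl)] at h1
      exact (Finset.single_le_sum (f := fun l => m l) (fun _ _ => Nat.zero_le _) (Finset.mem_univ l)).trans h1
    have h1 := d7_prod Finset.univ (fun l => iteratedDeriv (m l) (th D.τ) (D.h l + t l)) (fun l => bf l (m l)) K ε hK0
      (fun l _ => ?_) (fun l _ => hb l (m l) (hml l)) (fun l _ => ?_)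
    · rw [Finset.card_univ, Fintype.card_fin] at h1
      push_cast at h1
      exact h1
    · refine (ha l (m l) (hml l)).trans ?_
      rw [hKdef]
      have : 0 ≤ C₀ * Real.exp (2 * y) := by positivity
      linarith
    · refine (hdiff l (m l) (hml l)).trans ?_
      refine mul_le_mul_of_nonneg_right ?_ hε0.le
      rw [hKdef]
      have : 0 ≤ C₀ * Real.exp (2 * y) := by positivity
      linarith
  have hexp : ∀ m : Fin (d + 1) →₀ ℕ, ∏ l, bf l (m l) = kt y ^ (d + 1) * ∑ i : Fin (d + 1) → Fin (2 * W),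
      (∏ l, vt D.τ (D.h l) (hf (i l))) * ee (∑ l, ((hf (i l) : ℂ) + 1 / 2) * t l) *
        ∏ l, (2 * Real.pi * I * ((hf (i l) : ℂ) + 1 / 2)) ^ m l := by
    intro m
    rw [hbf]
    simp only
    rw [Finset.prod_mul_distrib, Finset.prod_const, Finset.card_univ, Fintype.card_fin, Finset.prod_univ_sum,
      Fintype.piFinset_univ]
    congr 1
    refine Finset.sum_congr rfl fun i _ => ?_
    rw [Finset.prod_mul_distrib, Finset.prod_mul_distrib, d7_ee, hτ]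
    ring
  have hmain : TH D t q - kt y ^ (d + 1) * ∑ i : Fin (d + 1) → Fin (2 * W), (∏ l, vt D.τ (D.h l) (hf (i l))) *
      ee (∑ l, ((hf (i l) : ℂ) + 1 / 2) * t l) * MvPolynomial.eval (fun l => 2 * Real.pi * I * ((hf (i l) : ℂ) + 1 / 2)) q =
      ∑ m ∈ q.support, q.coeff m * (∏ l, iteratedDeriv (m l) (th D.τ) (D.h l + t l) - ∏ l, bf l (m l)) := by
    have h1 : kt y ^ (d + 1) * ∑ i : Fin (d + 1) → Fin (2 * W), (∏ l, vt D.τ (D.h l) (hf (i l))) *
        ee (∑ l, ((hf (i l) : ℂ) + 1 / 2) * t l) * MvPolynomial.eval (fun l => 2 * Real.pi * I * ((hf (i l) : ℂ) + 1 / 2)) q =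
        ∑ m ∈ q.support, q.coeff m * ∏ l, bf l (m l) := by
      simp only [MvPolynomial.eval_eq', hexp, Finset.mul_sum]
      rw [Finset.sum_comm]
      refine Finset.sum_congr rfl fun m _ => Finset.sum_congr rfl fun i _ => ?_
      ring
    rw [h1, TH, ← Finset.sum_sub_distrib]
    exact Finset.sum_congr rfl fun m _ => by ring
  rw [hmain]
  have hK1 : K ^ (d + 1) * ε = (2 * C₀) ^ (d + 1) * Real.exp ((2 * d + 2) * y - y * (W : ℝ) ^ 2) := by
    rw [hKdef, hε, mul_pow, mul_assoc, ← Real.exp_nat_mul, ← Real.exp_add]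
    congr 2
    push_cast
    ring
  calc ‖∑ m ∈ q.support, q.coeff m * (∏ l, iteratedDeriv (m l) (th D.τ) (D.h l + t l) - ∏ l, bf l (m l))‖
      ≤ ∑ m ∈ q.support, ‖q.coeff m‖ * ((d + 1) * K ^ (d + 1) * ε) := by
        refine (norm_sum_le _ _).trans (Finset.sum_le_sum fun m hm => ?_)
        rw [norm_mul]
        exact mul_le_mul_of_nonneg_left (hprod m hm) (norm_nonneg _)
    _ = nm 1 q * ((d + 1) * K ^ (d + 1) * ε) := by
        rw [← Finset.sum_mul, nm]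
        simp
    _ = (d + 1) * (2 * C₀) ^ (d + 1) * nm 1 q * Real.exp ((2 * d + 2) * y - y * (W : ℝ) ^ 2) := by
        rw [mul_assoc ((d : ℝ) + 1) (K ^ (d + 1)) ε, hK1]
        ring

end Pool.Agent.MSR
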