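import Pool.Agent.Lib.MP_f58a57_nt.R.Defs
import Pool.Agent.Lib.MP_f58a57_nt.R.D7_THTrunc
import Pool.Agent.Lib.MP_f58a57_nt.R.D8_Eval
import Pool.Agent.Lib.MP_f58a57_nt.R.D4_Eig
import Pool.Agent.Lib.MP_f58a57_nt.R.D6b_VtBound
import Pool.Agent.Lib.MP_f58a57_nt.R.A5_Nm
import Pool.Agent.Lib.MP_f58a57_nt.R.D6_Series

/-! # R/D15_Approx: approximation by exponential polynomials -/

open Complex Filter Topology IntermediateField

noncomputable section

namespace Pool.Agent.MSR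

open MSD MSP MSK

variable {d : ℕ}

/-! ### auxiliary statements -/

theorem d15_deg {σ τ : Type} (f : σ → MvPolynomial τ ℂ) (hf : ∀ i, (f i).totalDegree ≤ 1)
    (B : MvPolynomial σ ℂ) (N : ℕ) (hB : B.totalDegree ≤ N) :
    (MvPolynomial.aeval f B).totalDegree ≤ N := by
  rw [MvPolynomial.aeval_def, MvPolynomial.eval₂_eq]
  refine MvPolynomial.totalDegree_finsetSum_le fun m hm => ?_
  refine (MvPolynomial.totalDegree_mul _ _).trans ?_
  have h1 : (algebraMap ℂ (MvPolynomial τ ℂ) (B.coeff m)).totalDegree = 0 :=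
    MvPolynomial.totalDegree_C _
  have h2 : (∏ i ∈ m.support, f i ^ m i).totalDegree ≤ ∑ i ∈ m.support, m i := by
    refine (MvPolynomial.totalDegree_finsetProd _ _).trans (Finset.sum_le_sum fun i _ => ?_)
    refine (MvPolynomial.totalDegree_pow _ _).trans ?_
    calc m i * (f i).totalDegree ≤ m i * 1 := Nat.mul_le_mul_left _ (hf i)
      _ = m i := Nat.mul_one _
  have h3 : ∑ i ∈ m.support, m i ≤ B.totalDegree := MvPolynomial.le_totalDegree hm
  omega

theorem d15_nm_neg {σ : Type} (ρ : ℝ) (B : MvPolynomial σ ℂ) : nm ρ (-B) = nm ρ B := by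
  unfold nm
  rw [MvPolynomial.support_neg]
  refine Finset.sum_congr rfl fun m _ => ?_
  rw [MvPolynomial.coeff_neg, norm_neg]

theorem d15_nm_lf {τ : Type} [Fintype τ] (ρ : ℝ) (hρ : 0 ≤ ρ) (c : τ → ℂ) :
    nm ρ (∑ j, MvPolynomial.C (c j) * MvPolynomial.X j) ≤ (∑ j, ‖c j‖) * ρ := by
  refine (nm_sum ρ hρ _ _).trans ?_
  rw [Finset.sum_mul]
  refine Finset.sum_le_sum fun j _ => ?_
  refine (nm_mul ρ hρ _ _).trans ?_
  rw [nm_C, nm_X]

theorem d15_deg_lf {τ : Type} [Fintype τ] (c : τ → ℂ) :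
    (∑ j, MvPolynomial.C (c j) * MvPolynomial.X j : MvPolynomial τ ℂ).totalDegree ≤ 1 := by
  refine MvPolynomial.totalDegree_finsetSum_le fun j _ => ?_
  refine (MvPolynomial.totalDegree_mul _ _).trans ?_
  rw [MvPolynomial.totalDegree_C, MvPolynomial.totalDegree_X]

theorem d15_hom_lf {τ : Type} [Fintype τ] (c : τ → ℂ) :
    (∑ j, MvPolynomial.C (c j) * MvPolynomial.X j : MvPolynomial τ ℂ).IsHomogeneous 1 := by
  refine MvPolynomial.IsHomogeneous.sum _ _ _ fun j _ => ?_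
  have := (MvPolynomial.isHomogeneous_C τ (c j)).mul (MvPolynomial.isHomogeneous_X ℂ j)
  simpa using this

/-- the matrix of the eigencoordinates -/
def d15_e (P : Par d) (k j : Fin d) : ℂ := P.rt k.succ ^ (j.val + 1) - P.z ^ (j.val + 1)

/-- its size -/
def d15_E (P : Par d) : ℝ := ∑ k : Fin d, ∑ j : Fin d, ‖d15_e P k j‖

theorem d15_E_nonneg (P : Par d) : 0 ≤ d15_E P :=
  Finset.sum_nonneg fun _ _ => Finset.sum_nonneg fun _ _ => norm_nonneg _

theorem d15_E_le (P : Par d) (k : Fin d) : ∑ j : Fin d, ‖d15_e P k j‖ ≤ d15_E P :=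
  Finset.single_le_sum (f := fun k : Fin d => ∑ j : Fin d, ‖d15_e P k j‖)
    (fun _ _ => Finset.sum_nonneg fun _ _ => norm_nonneg _) (Finset.mem_univ k)

/-- the polynomial in the coordinates `v` -/
def d15_Q (P : Par d) (r : Fin d → ℂ) (S : MvPolynomial (Fin d) ℂ) : MvPolynomial (Fin d) ℂ :=
  MvPolynomial.aeval (fun k => MvPolynomial.C (r k) * ∑ j, MvPolynomial.C (d15_e P k j) * MvPolynomial.X j) S

theorem d15_eval_aeval {σ τ : Type} (f : σ → MvPolynomial τ ℂ) (v : τ → ℂ) (S : MvPolynomial σ ℂ) :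
    MvPolynomial.eval v (MvPolynomial.aeval f S) = MvPolynomial.eval (fun k => MvPolynomial.eval v (f k)) S := by
  have h : (MvPolynomial.aeval v : MvPolynomial τ ℂ →ₐ[ℂ] ℂ).comp (MvPolynomial.aeval f) =
      MvPolynomial.aeval (fun k => MvPolynomial.eval v (f k)) := by
    refine MvPolynomial.algHom_ext fun k => ?_
    rw [AlgHom.comp_apply, MvPolynomial.aeval_X, MvPolynomial.aeval_X, ← MvPolynomial.coe_aeval_eq_eval]
    rfl
  have h2 := DFunLike.congr_fun h S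
  rw [AlgHom.comp_apply] at h2
  rw [← MvPolynomial.coe_aeval_eq_eval, ← MvPolynomial.coe_aeval_eq_eval]
  exact h2

theorem d15_Q_eval (P : Par d) (r : Fin d → ℂ) (S : MvPolynomial (Fin d) ℂ) (v : Fin d → ℂ) :
    MvPolynomial.eval v (d15_Q P r S) = MvPolynomial.eval (fun k => r k * eg P (tt P.z v) k) S := by
  unfold d15_Q
  rw [d15_eval_aeval]
  congr 1
  congr 1
  funext k
  rw [map_mul, MvPolynomial.eval_C, map_sum, eg_tt]
  congr 1
  refine Finset.sum_congr rfl fun j _ => ?_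
  rw [map_mul, MvPolynomial.eval_C, MvPolynomial.eval_X]
  rfl

theorem d15_Q_deg (P : Par d) (r : Fin d → ℂ) (S : MvPolynomial (Fin d) ℂ) (N : ℕ)
    (hS : S.totalDegree ≤ N) : (d15_Q P r S).totalDegree ≤ N := by
  refine d15_deg _ (fun k => ?_) S N hS
  refine (MvPolynomial.totalDegree_mul _ _).trans ?_
  rw [MvPolynomial.totalDegree_C]
  have := d15_deg_lf (fun j => d15_e P k j)
  omega

theorem d15_Q_nm (P : Par d) (r : Fin d → ℂ) (S : MvPolynomial (Fin d) ℂ) (σ : ℝ) (hσ : 0 ≤ σ)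
    (hr : ∀ k, ‖r k‖ * σ ≤ 1) : nm σ (d15_Q P r S) ≤ nm (d15_E P) S := by
  refine nm_aeval σ (d15_E P) hσ _ (fun k => ?_) S
  refine (nm_mul σ hσ _ _).trans ?_
  rw [nm_C]
  have h1 := d15_nm_lf σ hσ (fun j => d15_e P k j)
  have h2 := d15_E_le P k
  have h3 : 0 ≤ ∑ j : Fin d, ‖d15_e P k j‖ := Finset.sum_nonneg fun _ _ => norm_nonneg _
  calc ‖r k‖ * nm σ (∑ j, MvPolynomial.C (d15_e P k j) * MvPolynomial.X j)
      ≤ ‖r k‖ * ((∑ j, ‖d15_e P k j‖) * σ) := mul_le_mul_of_nonneg_left h1 (norm_nonneg _)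
    _ = (‖r k‖ * σ) * (∑ j, ‖d15_e P k j‖) := by ring
    _ ≤ 1 * (∑ j, ‖d15_e P k j‖) := mul_le_mul_of_nonneg_right (hr k) h3
    _ ≤ d15_E P := by rw [one_mul]; exact h2

/-- the size of the coefficients of large degree -/
theorem d15_tail (P : Par d) (r : Fin d → ℂ) (S : MvPolynomial (Fin d) ℂ) (K : ℕ) (ρ : ℝ) (h0 : 0 ≤ ρ)
    (h1 : ρ ≤ 1) (hr : ∀ k, ‖r k‖ ≤ ρ) :
    ∑ κ ∈ (d15_Q P r S).support.filter (fun κ => K + 1 ≤ κ.sum fun _ e => e), ‖(d15_Q P r S).coeff κ‖ ≤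
      ρ ^ (K + 1) * nm (d15_E P) S := by
  have hnn : 0 ≤ nm (d15_E P) S := nm_nonneg _ (d15_E_nonneg P) _
  rcases h0.eq_or_lt with hρ | hρ
  · subst hρ
    have hr0 : ∀ k, r k = 0 := fun k => norm_le_zero_iff.1 (hr k)
    have hQ : d15_Q P r S = MvPolynomial.C (MvPolynomial.eval 0 S) := by
      unfold d15_Q
      have : (fun k => MvPolynomial.C (r k) * ∑ j, MvPolynomial.C (d15_e P k j) * MvPolynomial.X j :
          Fin d → MvPolynomial (Fin d) ℂ) = fun k => algebraMap ℂ (MvPolynomial (Fin d) ℂ) 0 := by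
        funext k
        rw [hr0 k, map_zero, zero_mul, map_zero]
      rw [this]
      have h := MvPolynomial.aeval_algebraMap_apply (R := ℂ) (MvPolynomial (Fin d) ℂ) (fun _ : Fin d => (0 : ℂ)) S
      exact h
    have hz : ∀ κ ∈ (d15_Q P r S).support.filter (fun κ => K + 1 ≤ κ.sum fun _ e => e), ‖(d15_Q P r S).coeff κ‖ = 0 := by
      intro κ hκ
      rw [Finset.mem_filter] at hκ
      rw [hQ, MvPolynomial.coeff_C, if_neg, norm_zero]
      intro h
      rw [← h] at hκ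
      have := hκ.2
      simp at this
    rw [Finset.sum_eq_zero hz]
    positivity
  · have hσ : 0 ≤ ρ⁻¹ := (inv_pos.2 hρ).le
    have key := d15_Q_nm P r S ρ⁻¹ hσ (fun k => by
      calc ‖r k‖ * ρ⁻¹ ≤ ρ * ρ⁻¹ := mul_le_mul_of_nonneg_right (hr k) hσ
        _ = 1 := mul_inv_cancel₀ hρ.ne')
    refine le_trans ?_ (mul_le_mul_of_nonneg_left key (pow_nonneg h0 _))
    unfold nm
    rw [Finset.mul_sum]
    refine le_trans ?_ (Finset.sum_le_sum_of_subset_of_nonneg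
      (Finset.filter_subset (fun κ : Fin d →₀ ℕ => K + 1 ≤ κ.sum fun _ e => e) (d15_Q P r S).support) (fun κ _ _ => by positivity))
    refine Finset.sum_le_sum fun κ hκ => ?_
    rw [Finset.mem_filter] at hκ
    have h2 : 1 ≤ ρ ^ (K + 1) * ρ⁻¹ ^ (κ.sum fun _ e => e) := by
      have h3 : ρ⁻¹ ^ (K + 1) ≤ ρ⁻¹ ^ (κ.sum fun _ e => e) := pow_le_pow_right₀ ((one_le_inv₀ hρ).2 h1) hκ.2
      calc (1 : ℝ) = ρ ^ (K + 1) * ρ⁻¹ ^ (K + 1) := by rw [← mul_pow, mul_inv_cancel₀ hρ.ne', one_pow]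
        _ ≤ _ := mul_le_mul_of_nonneg_left h3 (pow_nonneg h0 _)
    calc ‖(d15_Q P r S).coeff κ‖ = ‖(d15_Q P r S).coeff κ‖ * 1 := (mul_one _).symm
      _ ≤ ‖(d15_Q P r S).coeff κ‖ * (ρ ^ (K + 1) * ρ⁻¹ ^ (κ.sum fun _ e => e)) := mul_le_mul_of_nonneg_left h2 (norm_nonneg _)
      _ = _ := by ring

/-- the exponent with index `κ` -/
def d15_k {K : ℕ} (κ : Fin d → Fin (K + 1)) : Fin d →₀ ℕ := Finsupp.equivFunOnFinite.symm (fun j => (κ j).val)

theorem d15_k_apply {K : ℕ} (κ : Fin d → Fin (K + 1)) (j : Fin d) : d15_k κ j = (κ j).val := rfl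

theorem d15_k_inj {K : ℕ} : Function.Injective (d15_k (d := d) (K := K)) := by
  intro κ κ' h
  funext j
  have := DFunLike.congr_fun h j
  rw [d15_k_apply, d15_k_apply] at this
  exact Fin.ext this

theorem d15_le_sum (κ : Fin d →₀ ℕ) (j : Fin d) : κ j ≤ κ.sum fun _ e => e := by
  rw [Finsupp.sum_fintype _ _ (fun _ => rfl)]
  exact Finset.single_le_sum (f := fun j => κ j) (fun _ _ => Nat.zero_le _) (Finset.mem_univ j)

theorem d15_k_surj {K : ℕ} (κ : Fin d →₀ ℕ) (h : (κ.sum fun _ e => e) ≤ K) : ∃ κ' : Fin d → Fin (K + 1), d15_k κ' = κ := by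
  refine ⟨fun j => ⟨κ j, ?_⟩, ?_⟩
  · have := d15_le_sum κ j
    omega
  · ext j
    rfl

/-- restriction of a polynomial to the box -/
theorem d15_box (K : ℕ) (v : Fin d → ℂ) (hv : ‖v‖ ≤ 1) (Q : MvPolynomial (Fin d) ℂ) :
    ‖MvPolynomial.eval v Q - ∑ κ : Fin d → Fin (K + 1), Q.coeff (d15_k κ) * ∏ j, v j ^ (κ j).val‖ ≤
      ∑ κ ∈ Q.support.filter (fun κ => K + 1 ≤ κ.sum fun _ e => e), ‖Q.coeff κ‖ := by
  classical
  set Bx : Finset (Fin d →₀ ℕ) := Finset.univ.image (d15_k (d := d) (K := K)) with hBx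
  set g : (Fin d →₀ ℕ) → ℂ := fun κ => Q.coeff κ * ∏ j, v j ^ κ j with hg
  have hv1 : ∀ j, ‖v j‖ ≤ 1 := fun j => (norm_le_pi_norm v j).trans hv
  have h1 : MvPolynomial.eval v Q = ∑ κ ∈ Q.support, g κ := MvPolynomial.eval_eq' v Q
  have h2 : ∑ κ : Fin d → Fin (K + 1), Q.coeff (d15_k κ) * ∏ j, v j ^ (κ j).val = ∑ κ ∈ Bx, g κ := by
    rw [hBx, Finset.sum_image (fun a _ b _ hab => d15_k_inj hab)]
    rfl
  have h3 : ∑ κ ∈ Bx, g κ = ∑ κ ∈ Q.support.filter (fun κ => κ ∈ Bx), g κ := by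
    rw [Finset.filter_mem_eq_inter, Finset.inter_comm]
    refine (Finset.sum_subset Finset.inter_subset_left fun κ hκ hn => ?_).symm
    have hn' : κ ∉ Q.support := fun h => hn (Finset.mem_inter.2 ⟨hκ, h⟩)
    rw [MvPolynomial.notMem_support_iff] at hn'
    rw [hg]
    simp only
    rw [hn', zero_mul]
  have h4 : ∑ κ ∈ Q.support, g κ = ∑ κ ∈ Q.support.filter (fun κ => κ ∈ Bx), g κ + ∑ κ ∈ Q.support.filter (fun κ => ¬ κ ∈ Bx), g κ :=
    (Finset.sum_filter_add_sum_filter_not _ _ _).symm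
  rw [h1, h2, h3, h4, add_sub_cancel_left]
  refine (norm_sum_le _ _).trans ?_
  refine le_trans (Finset.sum_le_sum (g := fun κ => ‖Q.coeff κ‖) fun κ _ => ?_) ?_
  · rw [hg]
    simp only
    rw [norm_mul, norm_prod]
    refine mul_le_of_le_one_right (norm_nonneg _) ?_
    refine Finset.prod_le_one (fun j _ => norm_nonneg _) fun j _ => ?_
    rw [norm_pow]
    exact pow_le_one₀ (norm_nonneg _) (hv1 j)
  · refine Finset.sum_le_sum_of_subset_of_nonneg (fun κ hκ => ?_) (fun _ _ _ => norm_nonneg _)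
    rw [Finset.mem_filter] at hκ ⊢
    refine ⟨hκ.1, ?_⟩
    by_contra hlt
    push Not at hlt
    obtain ⟨κ', hκ'⟩ := d15_k_surj (K := K) κ (by omega)
    exact hκ.2 (Finset.mem_image.2 ⟨κ', Finset.mem_univ _, hκ'⟩)

/-- linear changes of variables -/
theorem d15_coeff_le (M : Fin d → Fin d → ℂ) (Mm : ℝ) (hM : ∀ j, ∑ k, ‖M j k‖ ≤ Mm) (hM1 : 1 ≤ Mm) (Q : MvPolynomial (Fin d) ℂ) (K : ℕ)
    (m : Fin d →₀ ℕ) (hm : (m.sum fun _ e => e) ≤ K) (c : ℝ) (hc : ∀ κ : Fin d → Fin (K + 1), ‖Q.coeff (d15_k κ)‖ ≤ c) :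
    ‖(MvPolynomial.aeval (fun j => ∑ k, MvPolynomial.C (M j k) * MvPolynomial.X k) Q : MvPolynomial (Fin d) ℂ).coeff m‖ ≤
      ((K : ℝ) + 1) ^ d * Mm ^ K * c := by
  classical
  have hc0 : 0 ≤ c := (norm_nonneg _).trans (hc fun _ => 0)
  set L : Fin d → MvPolynomial (Fin d) ℂ := fun j => ∑ k, MvPolynomial.C (M j k) * MvPolynomial.X k with hL
  have hLn : ∀ j, nm 1 (L j) ≤ Mm := fun j => by
    have := d15_nm_lf 1 zero_le_one (fun k => M j k)
    rw [mul_one] at this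
    exact this.trans (hM j)
  have hcoef : ∀ κ : Fin d →₀ ℕ, ‖(∏ i, L i ^ κ i).coeff m‖ ≤ if (κ.sum fun _ e => e) = (m.sum fun _ e => e) then Mm ^ K else 0 := by
    intro κ
    have hhom : (∏ i, L i ^ κ i).IsHomogeneous (∑ i, 1 * κ i) :=
      MvPolynomial.IsHomogeneous.prod _ _ _ fun i _ => (d15_hom_lf (fun k => M i k)).pow (κ i)
    split_ifs with h
    · have e1 : (∏ i, L i ^ κ i) = MvPolynomial.aeval L (MvPolynomial.monomial κ (1 : ℂ)) := by
        rw [MvPolynomial.aeval_monomial, map_one, one_mul, Finsupp.prod_fintype _ _ (fun i => pow_zero _)]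
      refine (coeff_le_nm _ m).trans ?_
      rw [e1]
      refine (nm_aeval 1 Mm zero_le_one L hLn _).trans ?_
      rw [nm_eq Mm _ {κ} (MvPolynomial.support_monomial_subset), Finset.sum_singleton, MvPolynomial.coeff_monomial, if_pos rfl, norm_one, one_mul, h]
      exact pow_le_pow_right₀ hM1 hm
    · rw [hhom.coeff_eq_zero, norm_zero]
      intro h'
      apply h
      rw [Finsupp.degree_eq_sum] at h'
      rw [Finsupp.sum_fintype _ _ (fun _ => rfl), Finsupp.sum_fintype _ _ (fun _ => rfl), h']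
      simp
  rw [MvPolynomial.aeval_def, MvPolynomial.eval₂_eq', MvPolynomial.coeff_sum]
  refine (norm_sum_le _ _).trans ?_
  have h1 : ∀ κ ∈ Q.support, ‖(algebraMap ℂ (MvPolynomial (Fin d) ℂ) (Q.coeff κ) * ∏ i, L i ^ κ i).coeff m‖ ≤
      if κ ∈ (Finset.univ.image (d15_k (d := d) (K := K))) then Mm ^ K * c else 0 := by
    intro κ _
    rw [MvPolynomial.algebraMap_eq, MvPolynomial.coeff_C_mul, norm_mul]
    have h2 := hcoef κ
    by_cases h : (κ.sum fun _ e => e) = (m.sum fun _ e => e)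
    · rw [if_pos h] at h2
      obtain ⟨κ', hκ'⟩ := d15_k_surj (K := K) κ (by omega)
      rw [if_pos (Finset.mem_image.2 ⟨κ', Finset.mem_univ _, hκ'⟩), mul_comm]
      have h3 := hc κ'
      rw [hκ'] at h3
      exact mul_le_mul h2 h3 (norm_nonneg _) (by positivity)
    · rw [if_neg h] at h2
      have h4 : ‖(∏ i, L i ^ κ i).coeff m‖ = 0 := le_antisymm h2 (norm_nonneg _)
      rw [h4, mul_zero]
      split_ifs <;> positivity
  refine (Finset.sum_le_sum h1).trans ?_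
  rw [← Finset.sum_filter, Finset.sum_const, nsmul_eq_mul]
  have hcard : (Finset.card (Q.support.filter fun κ => κ ∈ Finset.univ.image (d15_k (d := d) (K := K))) : ℝ) ≤ ((K : ℝ) + 1) ^ d := by
    have : Finset.card (Q.support.filter fun κ => κ ∈ Finset.univ.image (d15_k (d := d) (K := K))) ≤ (K + 1) ^ d := by
      refine (Finset.card_le_card (t := Finset.univ.image (d15_k (d := d) (K := K))) fun κ hκ => (Finset.mem_filter.1 hκ).2).trans ?_
      refine Finset.card_image_le.trans ?_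
      rw [Finset.card_univ, Fintype.card_fun, Fintype.card_fin, Fintype.card_fin]
    exact_mod_cast this
  calc (Finset.card (Q.support.filter fun κ => κ ∈ Finset.univ.image (d15_k (d := d) (K := K))) : ℝ) * (Mm ^ K * c)
      ≤ ((K : ℝ) + 1) ^ d * (Mm ^ K * c) := mul_le_mul_of_nonneg_right hcard (by positivity)
    _ = _ := by ring

theorem d15_coeff_scale (r : Fin d → ℂ) (S : MvPolynomial (Fin d) ℂ) (m : Fin d →₀ ℕ) :
    (MvPolynomial.aeval (fun k => MvPolynomial.C (r k) * MvPolynomial.X k) S : MvPolynomial (Fin d) ℂ).coeff m =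
      (∏ k, r k ^ m k) * S.coeff m := by
  classical
  have hmon : ∀ κ : Fin d →₀ ℕ, (∏ k, (MvPolynomial.C (r k) * MvPolynomial.X k : MvPolynomial (Fin d) ℂ) ^ κ k) =
      MvPolynomial.monomial κ (∏ k, r k ^ κ k) := by
    intro κ
    rw [MvPolynomial.monomial_eq, Finsupp.prod_fintype _ _ (fun i => pow_zero _), map_prod, ← Finset.prod_mul_distrib]
    refine Finset.prod_congr rfl fun k _ => ?_
    rw [mul_pow, map_pow]
  rw [MvPolynomial.aeval_def, MvPolynomial.eval₂_eq', MvPolynomial.coeff_sum]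
  have h1 : ∀ κ ∈ S.support, (algebraMap ℂ (MvPolynomial (Fin d) ℂ) (S.coeff κ) *
      ∏ i, (MvPolynomial.C (r i) * MvPolynomial.X i) ^ κ i).coeff m = if κ = m then (∏ k, r k ^ m k) * S.coeff m else 0 := by
    intro κ _
    rw [MvPolynomial.algebraMap_eq, MvPolynomial.coeff_C_mul, hmon, MvPolynomial.coeff_monomial]
    by_cases h : κ = m
    · rw [if_pos h, if_pos h, h, mul_comm]
    · rw [if_neg h, if_neg h, mul_zero]
  rw [Finset.sum_congr rfl h1, Finset.sum_ite_eq' S.support m]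
  split_ifs with h
  · rfl
  · rw [MvPolynomial.notMem_support_iff.1 h, mul_zero]

theorem d15_M (P : Par d) (M : Fin d → Fin d → ℂ)
    (hM : ∀ k k', ∑ j : Fin d, (P.rt k.succ ^ (j.val + 1) - P.z ^ (j.val + 1)) * M j k' = if k = k' then 1 else 0)
    (r : Fin d → ℂ) (S : MvPolynomial (Fin d) ℂ) :
    (MvPolynomial.aeval (fun j => ∑ k, MvPolynomial.C (M j k) * MvPolynomial.X k) (d15_Q P r S) : MvPolynomial (Fin d) ℂ) =
      MvPolynomial.aeval (fun k => MvPolynomial.C (r k) * MvPolynomial.X k) S := by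
  classical
  unfold d15_Q
  have h : (MvPolynomial.aeval (fun j => ∑ k, MvPolynomial.C (M j k) * MvPolynomial.X k : Fin d → MvPolynomial (Fin d) ℂ)).comp
      (MvPolynomial.aeval (fun k => MvPolynomial.C (r k) * ∑ j, MvPolynomial.C (d15_e P k j) * MvPolynomial.X j :
        Fin d → MvPolynomial (Fin d) ℂ)) =
      MvPolynomial.aeval (R := ℂ) (fun k => MvPolynomial.C (r k) * MvPolynomial.X k : Fin d → MvPolynomial (Fin d) ℂ) := by
    refine MvPolynomial.algHom_ext fun k => ?_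
    rw [AlgHom.comp_apply, MvPolynomial.aeval_X, MvPolynomial.aeval_X, map_mul, MvPolynomial.algHom_C, map_sum]
    congr 1
    have h1 : ∀ j, MvPolynomial.aeval (R := ℂ) (fun j => ∑ k, MvPolynomial.C (M j k) * MvPolynomial.X k : Fin d → MvPolynomial (Fin d) ℂ)
        (MvPolynomial.C (d15_e P k j) * MvPolynomial.X j) =
        ∑ k', MvPolynomial.C (d15_e P k j * M j k') * MvPolynomial.X k' := by
      intro j
      rw [map_mul, MvPolynomial.algHom_C, MvPolynomial.aeval_X, Finset.mul_sum]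
      refine Finset.sum_congr rfl fun k' _ => ?_
      rw [MvPolynomial.algebraMap_eq, map_mul, mul_assoc]
    rw [Finset.sum_congr rfl fun j _ => h1 j, Finset.sum_comm]
    have h2 : ∀ k', ∑ j, MvPolynomial.C (d15_e P k j * M j k') * MvPolynomial.X k' =
        (if k = k' then MvPolynomial.X k' else 0 : MvPolynomial (Fin d) ℂ) := by
      intro k'
      rw [← Finset.sum_mul, ← map_sum]
      have : ∑ j, d15_e P k j * M j k' = if k = k' then 1 else 0 := hM k k'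
      rw [this]
      split_ifs
      · rw [map_one, one_mul]
      · rw [map_zero, zero_mul]
    rw [Finset.sum_congr rfl fun k' _ => h2 k', Finset.sum_ite_eq Finset.univ k]
    simp
  have h2 := DFunLike.congr_fun h S
  rw [AlgHom.comp_apply] at h2
  exact h2

theorem d15_ee (x : ℂ) : ‖ee x‖ ≤ Real.exp (7 * ‖x‖) := by
  unfold ee
  rw [Complex.norm_exp]
  refine Real.exp_le_exp.2 ((Complex.re_le_norm _).trans ?_)
  have h1 : ‖2 * (Real.pi : ℂ) * I * x‖ = 2 * Real.pi * ‖x‖ := by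
    rw [norm_mul, norm_mul, norm_mul, Complex.norm_I, Complex.norm_real, Real.norm_of_nonneg Real.pi_pos.le]
    simp
  rw [h1]
  have := Real.pi_lt_d2
  exact mul_le_mul_of_nonneg_right (by linarith) (norm_nonneg _)

/-- the coefficients of the exponential polynomial -/
def d15_H {K W : ℕ} (V : (Fin (d + 1) → Fin (2 * W)) → ℂ) (Q : (Fin (d + 1) → Fin (2 * W)) → MvPolynomial (Fin d) ℂ) (x : Jx d K W) : ℂ :=
  if h : ∀ l, (x.2 l).val < 2 * W then V (fun l => ⟨(x.2 l).val, h l⟩) * (Q (fun l => ⟨(x.2 l).val, h l⟩)).coeff (d15_k x.1) else 0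

theorem d15_H_cast {K W : ℕ} (V : (Fin (d + 1) → Fin (2 * W)) → ℂ) (Q : (Fin (d + 1) → Fin (2 * W)) → MvPolynomial (Fin d) ℂ)
    (κ : Fin d → Fin (K + 1)) (i : Fin (d + 1) → Fin (2 * W)) :
    d15_H V Q (κ, fun l => (i l).castSucc) = V i * (Q i).coeff (d15_k κ) := by
  unfold d15_H
  have h : ∀ l, (((κ, fun l => (i l).castSucc) : Jx d K W).2 l).val < 2 * W := fun l => (i l).isLt
  rw [dif_pos h]
  rfl

theorem d15_EP {K W : ℕ} (V : (Fin (d + 1) → Fin (2 * W)) → ℂ) (Q : (Fin (d + 1) → Fin (2 * W)) → MvPolynomial (Fin d) ℂ)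
    (v : Fin d → ℂ) (t : Fin (d + 1) → ℂ) :
    EP (d15_H (K := K) V Q) v t = ∑ i : Fin (d + 1) → Fin (2 * W), V i * ee (∑ l, (hf (i l) : ℂ) * t l) *
      ∑ κ : Fin d → Fin (K + 1), (Q i).coeff (d15_k κ) * ∏ j, v j ^ (κ j).val := by
  unfold EP
  rw [Fintype.sum_prod_type_right]
  symm
  refine Fintype.sum_of_injective (fun (i : Fin (d + 1) → Fin (2 * W)) (l : Fin (d + 1)) => (i l).castSucc) ?_ _ _ ?_ ?_
  · intro i i' h
    funext l
    exact Fin.castSucc_injective _ (congrFun h l)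
  · intro ω hω
    refine Finset.sum_eq_zero fun κ _ => ?_
    have : d15_H (K := K) V Q (κ, ω) = 0 := by
      unfold d15_H
      rw [dif_neg]
      intro h
      exact hω ⟨fun l => ⟨(ω l).val, h l⟩, rfl⟩
    rw [this, zero_mul, zero_mul]
  · intro i
    rw [Finset.mul_sum]
    refine Finset.sum_congr rfl fun κ _ => ?_
    rw [d15_H_cast]
    have : ∀ l, fr ((i l).castSucc : Fin (2 * W + 1)) = hf (i l) := fun l => rfl
    simp only [this]
    ring

theorem d15_tt (P : Par d) (v : Fin d → ℂ) (hv : ‖v‖ ≤ 1) (l : Fin (d + 1)) :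
    ‖tt P.z v l‖ ≤ 1 + ∑ j : Fin d, ‖P.z‖ ^ (j.val + 1) := by
  have hv1 : ∀ j, ‖v j‖ ≤ 1 := fun j => (norm_le_pi_norm v j).trans hv
  have h0 : 0 ≤ ∑ j : Fin d, ‖P.z‖ ^ (j.val + 1) := Finset.sum_nonneg fun _ _ => by positivity
  refine Fin.cases ?_ (fun j => ?_) l
  · unfold tt
    rw [Fin.cons_zero, norm_neg]
    refine (norm_sum_le _ _).trans ?_
    have : ∑ j : Fin d, ‖P.z ^ (j.val + 1) * v j‖ ≤ ∑ j : Fin d, ‖P.z‖ ^ (j.val + 1) := by
      refine Finset.sum_le_sum fun j _ => ?_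
      rw [norm_mul, norm_pow]
      exact mul_le_of_le_one_right (by positivity) (hv1 j)
    linarith
  · unfold tt
    rw [Fin.cons_succ]
    have := hv1 j
    linarith

theorem d15_eg (P : Par d) (v : Fin d → ℂ) (hv : ‖v‖ ≤ 1) (k : Fin d) : ‖eg P (tt P.z v) k‖ ≤ d15_E P := by
  have hv1 : ∀ j, ‖v j‖ ≤ 1 := fun j => (norm_le_pi_norm v j).trans hv
  rw [eg_tt]
  refine (norm_sum_le _ _).trans (le_trans ?_ (d15_E_le P k))
  refine Finset.sum_le_sum fun j _ => ?_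
  rw [norm_mul]
  exact mul_le_of_le_one_right (norm_nonneg _) (hv1 j)

/-- size of the powers of the conjugates -/
def d15_R (P : Par d) : ℝ := ∑ k : Fin d, ∑ j : Fin (d + 1), ‖P.rt k.succ‖ ^ j.val

theorem d15_R_nonneg (P : Par d) : 0 ≤ d15_R P :=
  Finset.sum_nonneg fun _ _ => Finset.sum_nonneg fun _ _ => by positivity

theorem d15_R_le (P : Par d) (k : Fin d) : ∑ j : Fin (d + 1), ‖P.rt k.succ‖ ^ j.val ≤ d15_R P :=
  Finset.single_le_sum (f := fun k : Fin d => ∑ j : Fin (d + 1), ‖P.rt k.succ‖ ^ j.val)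
    (fun _ _ => Finset.sum_nonneg fun _ _ => by positivity) (Finset.mem_univ k)

theorem d15_inv {δ : ℝ} (hδ : 0 < δ) {s : ℂ} (hs : δ ≤ ‖s‖) : ‖1 / s‖ ≤ 1 / δ := by
  rw [norm_div, norm_one]
  exact one_div_le_one_div_of_le hδ hs

theorem d15_lin' (P : Par d) (δ : ℝ) (hδ : 0 < δ) (r s w : Fin d → ℂ) (hr : ∀ k, ‖r k‖ ≤ 1) (hs : ∀ k, δ ≤ ‖s k‖)
    (hw : ∀ k, ‖w k‖ ≤ d15_E P) (k : Fin d) :
    nm 1 (lin' P r s w k) ≤ 1 + d15_E P + d15_R P / δ ∧ (lin' P r s w k).totalDegree ≤ 1 := by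
  have hE := d15_E_nonneg P
  constructor
  · unfold lin'
    rw [sub_eq_add_neg]
    refine (nm_add 1 zero_le_one _ _).trans ?_
    rw [d15_nm_neg, nm_C]
    have h1 : ‖r k * w k‖ ≤ d15_E P := by
      rw [norm_mul]
      calc ‖r k‖ * ‖w k‖ ≤ 1 * d15_E P := mul_le_mul (hr k) (hw k) (norm_nonneg _) zero_le_one
        _ = d15_E P := one_mul _
    have h2 : nm 1 (MvPolynomial.C (1 / s k) * ∑ j : Fin (d + 1), MvPolynomial.C (P.rt k.succ ^ j.val) * MvPolynomial.X j) ≤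
        d15_R P / δ := by
      refine (nm_mul 1 zero_le_one _ _).trans ?_
      rw [nm_C]
      have h3 := d15_nm_lf 1 zero_le_one (fun j : Fin (d + 1) => P.rt k.succ ^ j.val)
      rw [mul_one] at h3
      have h4 : ∑ j : Fin (d + 1), ‖P.rt k.succ ^ j.val‖ ≤ d15_R P := by
        refine le_trans (le_of_eq ?_) (d15_R_le P k)
        exact Finset.sum_congr rfl fun j _ => norm_pow _ _
      calc ‖1 / s k‖ * nm 1 (∑ j : Fin (d + 1), MvPolynomial.C (P.rt k.succ ^ j.val) * MvPolynomial.X j)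
          ≤ (1 / δ) * d15_R P := mul_le_mul (d15_inv hδ (hs k)) (h3.trans h4) (nm_nonneg _ zero_le_one _) (by positivity)
        _ = d15_R P / δ := by ring
    linarith
  · unfold lin'
    refine (MvPolynomial.totalDegree_sub _ _).trans (max_le ?_ ?_)
    · rw [MvPolynomial.totalDegree_C]
      exact Nat.zero_le _
    · refine (MvPolynomial.totalDegree_mul _ _).trans ?_
      rw [MvPolynomial.totalDegree_C]
      have := d15_deg_lf (fun j : Fin (d + 1) => P.rt k.succ ^ j.val)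
      omega

theorem d15_hf {W : ℕ} (i : Fin (2 * W)) : ‖(hf i : ℂ)‖ ≤ W := by
  have h1 : ((hf i : ℤ) : ℂ) = (((hf i : ℤ) : ℝ) : ℂ) := by push_cast; rfl
  rw [h1, Complex.norm_real, Real.norm_eq_abs, abs_le]
  have h2 := i.isLt
  have h3 : -(W : ℤ) ≤ hf i ∧ hf i ≤ W := by
    unfold hf
    omega
  constructor
  · exact_mod_cast h3.1
  · exact_mod_cast h3.2

theorem d15_sg (P : Par d) (δ : ℝ) (hδ : 0 < δ) (s : Fin d → ℂ) (hs : ∀ k, δ ≤ ‖s k‖) (W : ℕ) (n : Fin (d + 1) → ℤ)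
    (hn : ∀ l, ‖(n l : ℂ)‖ ≤ W) (k : Fin d) : ‖-sg P s n k‖ ≤ 7 / δ * d15_R P * (W + 1) := by
  rw [norm_neg]
  unfold sg
  rw [norm_mul]
  have h1 : ‖2 * (Real.pi : ℂ) * I / s k‖ ≤ 7 / δ := by
    rw [div_eq_mul_one_div, norm_mul]
    have h2 : ‖2 * (Real.pi : ℂ) * I‖ ≤ 7 := by
      rw [norm_mul, norm_mul, Complex.norm_I, Complex.norm_real, Real.norm_of_nonneg Real.pi_pos.le]
      have := Real.pi_lt_d2
      simp
      linarith
    calc ‖2 * (Real.pi : ℂ) * I‖ * ‖1 / s k‖ ≤ 7 * (1 / δ) := mul_le_mul h2 (d15_inv hδ (hs k)) (norm_nonneg _) (by norm_num)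
      _ = 7 / δ := by ring
  have h2 : ‖∑ j : Fin (d + 1), P.rt k.succ ^ j.val * ((n j : ℂ) + 1 / 2)‖ ≤ d15_R P * (W + 1) := by
    refine (norm_sum_le _ _).trans ?_
    calc ∑ j : Fin (d + 1), ‖P.rt k.succ ^ j.val * ((n j : ℂ) + 1 / 2)‖ ≤ ∑ j : Fin (d + 1), ‖P.rt k.succ‖ ^ j.val * ((W : ℝ) + 1) := by
          refine Finset.sum_le_sum fun j _ => ?_
          rw [norm_mul, norm_pow]
          refine mul_le_mul_of_nonneg_left ?_ (by positivity)
          refine (norm_add_le _ _).trans ?_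
          have h3 : ‖(1 / 2 : ℂ)‖ ≤ 1 := by
            rw [norm_div, norm_one, Complex.norm_ofNat]
            norm_num
          have := hn j
          linarith
      _ = (∑ j : Fin (d + 1), ‖P.rt k.succ‖ ^ j.val) * ((W : ℝ) + 1) := by rw [Finset.sum_mul]
      _ ≤ d15_R P * (W + 1) := mul_le_mul_of_nonneg_right (d15_R_le P k) (by positivity)
  calc _ ≤ 7 / δ * (d15_R P * (W + 1)) := mul_le_mul h1 h2 (norm_nonneg _) (by positivity)
    _ = _ := by ring

/-- D15. PROOF. By `TH_trunc` (with `q = aeval (lin' ..) B`, `totalDegree ≤ N`, `nm 1 q ≤ C nm 1 B` by `nm_aeval`, `nm_le_pow`) and `eval_lin'`, restriction of the polynomials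
`Q_i` to the box (`d15_box`, `d15_tail`), and `d15_M`, `d15_coeff_le` for the second part. -/
theorem approx (P : Par d) (K W N : ℕ) (hW : 1 ≤ W) (δ : ℝ) (hδ : 0 < δ) : ∃ C : ℝ, 1 ≤ C ∧ ∀ y : ℝ, 1 ≤ y → ∀ D : Dt d, D.τ = I * y →
    (∀ l, D.h l = 1 / 2 ∨ D.h l = D.τ / 2 ∨ D.h l = (1 + D.τ) / 2) → ∀ (ρ : ℝ) (r s : Fin d → ℂ), 0 ≤ ρ → ρ ≤ 1 → (∀ k, ‖r k‖ ≤ ρ) → (∀ k, δ ≤ ‖s k‖) →
    ∀ B : MvPolynomial (Fin d) ℂ, B.totalDegree ≤ N → ∃ H : Jx d K W → ℂ,
      (∀ v : Fin d → ℂ, ‖v‖ ≤ 1 → ‖TH D (tt P.z v) (MvPolynomial.aeval (lin' P r s (eg P (tt P.z v))) B) * ee (-(∑ l, tt P.z v l) / 2) -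
        kt y ^ (d + 1) * EP H v (tt P.z v)‖ ≤ C * nm 1 B * Real.exp ((2 * d + 2) * y) * (Real.exp (-(y * (W : ℝ) ^ 2)) + if N ≤ K then 0 else ρ ^ (K + 1))) ∧
      ∀ n : Fin (d + 1) → ℤ, (∀ l, -(W : ℤ) ≤ n l ∧ n l < W) → ∀ m : Fin d →₀ ℕ, (m.sum fun _ e => e) ≤ K →
        ∃ x : Jx d K W, (∏ l, ‖vt D.τ (D.h l) (n l)‖) * (∏ k, ‖r k‖ ^ (m k)) * ‖(sh (fun k => -sg P s n k) B).coeff m‖ ≤ C * ‖H x‖ := by
  classical
  obtain ⟨M, -, hM⟩ := eg_inv P
  set A : ℝ := 1 + ∑ j : Fin d, ‖P.z‖ ^ (j.val + 1) with hA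
  have hA0 : 0 ≤ A := by
    have : 0 ≤ ∑ j : Fin d, ‖P.z‖ ^ (j.val + 1) := Finset.sum_nonneg fun _ _ => by positivity
    linarith
  obtain ⟨C2, hC2, htr⟩ := TH_trunc (d := d) N A
  set E : ℝ := d15_E P with hE
  have hE0 : 0 ≤ E := d15_E_nonneg P
  have hR0 : 0 ≤ d15_R P := d15_R_nonneg P
  set C1 : ℝ := 1 + E + d15_R P / δ with hC1
  have hC1' : 1 ≤ C1 := by
    have : 0 ≤ d15_R P / δ := by positivity
    linarith
  set C3 : ℝ := Real.exp (7 * ((d + 1) * A)) with hC3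
  set S0 : ℝ := 7 / δ * d15_R P * (W + 1) with hS0
  have hS00 : 0 ≤ S0 := by positivity
  set C4 : ℝ := Real.exp (7 * ((d + 1) * (W * A))) with hC4
  set Mm : ℝ := 1 + ∑ j, ∑ k, ‖M j k‖ with hMm
  have hMm1 : 1 ≤ Mm := by
    have : 0 ≤ ∑ j, ∑ k, ‖M j k‖ := Finset.sum_nonneg fun _ _ => Finset.sum_nonneg fun _ _ => norm_nonneg _
    linarith
  have hMmj : ∀ j, ∑ k, ‖M j k‖ ≤ Mm := fun j => by
    have : ∑ k, ‖M j k‖ ≤ ∑ j, ∑ k, ‖M j k‖ :=
      Finset.single_le_sum (f := fun j => ∑ k, ‖M j k‖) (fun _ _ => Finset.sum_nonneg fun _ _ => norm_nonneg _) (Finset.mem_univ j)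
    linarith
  set Ca : ℝ := C2 * C1 ^ N * C3 with hCa
  set Cb : ℝ := ((2 * W : ℕ) : ℝ) ^ (d + 1) * C4 * ((1 + E) ^ N * (1 + S0) ^ N) with hCb
  set Cc : ℝ := ((K : ℝ) + 1) ^ d * Mm ^ K with hCc
  have hCa0 : 0 ≤ Ca := by positivity
  have hCb0 : 0 ≤ Cb := by positivity
  have hCc0 : 0 ≤ Cc := by positivity
  refine ⟨1 + Ca + Cb + Cc, by linarith, ?_⟩
  intro y hy D hτ hh ρ r s hρ0 hρ1 hr hs B hB
  have hB0 : 0 ≤ nm 1 B := nm_nonneg _ zero_le_one _
  have hvt : ∀ n : Fin (d + 1) → ℤ, ‖∏ l, vt D.τ (D.h l) (n l)‖ ≤ Real.exp ((2 * d + 2) * y) := by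
    intro n
    rw [norm_prod]
    calc ∏ l, ‖vt D.τ (D.h l) (n l)‖ ≤ ∏ _l : Fin (d + 1), Real.exp (2 * y) := by
          refine Finset.prod_le_prod (fun _ _ => norm_nonneg _) fun l _ => ?_
          have h1 := hh l
          rw [hτ] at h1 ⊢
          exact (vt_bd y (by linarith) (D.h l) h1 (n l)).1
      _ = Real.exp ((2 * d + 2) * y) := by
          rw [Finset.prod_const, Finset.card_univ, Fintype.card_fin, ← Real.exp_nat_mul]
          congr 1
          push_cast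
          ring
  set S : (Fin (d + 1) → Fin (2 * W)) → MvPolynomial (Fin d) ℂ := fun i => sh (fun k => -sg P s (fun l => hf (i l)) k) B with hS
  set Q : (Fin (d + 1) → Fin (2 * W)) → MvPolynomial (Fin d) ℂ := fun i => d15_Q P r (S i) with hQ
  set V : (Fin (d + 1) → Fin (2 * W)) → ℂ := fun i => ∏ l, vt D.τ (D.h l) (hf (i l)) with hV
  have hSdeg : ∀ i, (S i).totalDegree ≤ N := fun i => (sh_deg _ _).trans hB
  have hSnm : ∀ i, nm 1 (S i) ≤ (1 + S0) ^ N * nm 1 B := fun i =>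
    (sh_nm N S0 hS00 _ (fun k => d15_sg P δ hδ s hs W _ (fun l => d15_hf (i l)) k) B hB).1
  have hSE : ∀ i, nm E (S i) ≤ (1 + E) ^ N * (1 + S0) ^ N * nm 1 B := fun i => by
    have h1 := nm_mono E (1 + E) hE0 (by linarith) (S i)
    have h2 := nm_le_pow (1 + E) (by linarith) N (S i) (hSdeg i)
    have h3 := mul_le_mul_of_nonneg_left (hSnm i) (pow_nonneg (by linarith : (0 : ℝ) ≤ 1 + E) N)
    calc nm E (S i) ≤ _ := h1.trans (h2.trans h3)
      _ = _ := by ring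
  refine ⟨d15_H V Q, ?_, ?_⟩
  · intro v hv
    set t : Fin (d + 1) → ℂ := tt P.z v with ht
    set w : Fin d → ℂ := eg P t with hw
    have htA : ∀ l, ‖t l‖ ≤ A := fun l => d15_tt P v hv l
    have hwE : ∀ k, ‖w k‖ ≤ E := fun k => d15_eg P v hv k
    have hr1 : ∀ k, ‖r k‖ ≤ 1 := fun k => (hr k).trans hρ1
    set q : MvPolynomial (Fin (d + 1)) ℂ := MvPolynomial.aeval (lin' P r s w) B with hq
    have hqdeg : q.totalDegree ≤ N := d15_deg _ (fun k => (d15_lin' P δ hδ r s w hr1 hs hwE k).2) B N hB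
    have hqnm : nm 1 q ≤ C1 ^ N * nm 1 B :=
      (nm_aeval 1 C1 zero_le_one _ (fun k => (d15_lin' P δ hδ r s w hr1 hs hwE k).1) B).trans (nm_le_pow C1 hC1' N B hB)
    have h1 := htr y hy D hτ hh W t htA q hqdeg
    set T0 : ℂ := ∑ i : Fin (d + 1) → Fin (2 * W), (∏ l, vt D.τ (D.h l) (hf (i l))) * ee (∑ l, ((hf (i l) : ℂ) + 1 / 2) * t l) *
      MvPolynomial.eval (fun l => 2 * Real.pi * I * ((hf (i l) : ℂ) + 1 / 2)) q with hT0
    set x0 : ℂ := ee (-(∑ l, t l) / 2) with hx0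
    have hx0n : ‖x0‖ ≤ C3 := by
      refine (d15_ee _).trans (Real.exp_le_exp.2 ?_)
      have h2 : ‖-(∑ l, t l) / 2‖ ≤ (d + 1) * A := by
        rw [norm_div, norm_neg, Complex.norm_ofNat]
        have h3 : ‖∑ l, t l‖ ≤ (d + 1) * A := by
          refine (norm_sum_le _ _).trans ?_
          calc ∑ l, ‖t l‖ ≤ ∑ _l : Fin (d + 1), A := Finset.sum_le_sum fun l _ => htA l
            _ = (d + 1) * A := by rw [Finset.sum_const, Finset.card_univ, Fintype.card_fin, nsmul_eq_mul]; push_cast; ring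
        have h4 : 0 ≤ ‖∑ l, t l‖ := norm_nonneg _
        linarith
      linarith
    have hT0' : T0 * x0 = ∑ i : Fin (d + 1) → Fin (2 * W), V i * ee (∑ l, (hf (i l) : ℂ) * t l) * MvPolynomial.eval v (Q i) := by
      rw [hT0, Finset.sum_mul]
      refine Finset.sum_congr rfl fun i _ => ?_
      have e1 : MvPolynomial.eval (fun l => 2 * Real.pi * I * ((hf (i l) : ℂ) + 1 / 2)) q = MvPolynomial.eval v (Q i) := by
        rw [hq, eval_lin' P r s w (fun l => hf (i l)) B, hQ]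
        simp only
        rw [d15_Q_eval]
      have e2 : ee (∑ l, ((hf (i l) : ℂ) + 1 / 2) * t l) * x0 = ee (∑ l, (hf (i l) : ℂ) * t l) := by
        rw [hx0]
        unfold ee
        rw [← Complex.exp_add]
        congr 1
        have e3 : ∑ l, ((hf (i l) : ℂ) + 1 / 2) * t l = ∑ l, (hf (i l) : ℂ) * t l + (∑ l, t l) / 2 := by
          rw [Finset.sum_div, ← Finset.sum_add_distrib]
          exact Finset.sum_congr rfl fun l _ => by ring
        rw [e3]
        ring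
      rw [e1, ← e2]
      ring
    have hEP := d15_EP (K := K) V Q v t
    have hkt : ‖kt y ^ (d + 1)‖ ≤ 1 := by
      rw [norm_pow]
      exact pow_le_one₀ (norm_nonneg _) (th_series y hy).2.1
    set tail : ℝ := (if N ≤ K then 0 else ρ ^ (K + 1)) with htail
    have htail0 : 0 ≤ tail := by
      rw [htail]
      split_ifs
      · exact le_rfl
      · positivity
    have hbox : ∀ i, ‖MvPolynomial.eval v (Q i) - ∑ κ : Fin d → Fin (K + 1), (Q i).coeff (d15_k κ) * ∏ j, v j ^ (κ j).val‖ ≤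
        tail * ((1 + E) ^ N * (1 + S0) ^ N * nm 1 B) := by
      intro i
      refine (d15_box K v hv (Q i)).trans ?_
      rw [htail]
      split_ifs with hNK
      · rw [zero_mul]
        refine le_of_eq (Finset.sum_eq_zero fun κ hκ => ?_)
        rw [Finset.mem_filter] at hκ
        have h3 := MvPolynomial.le_totalDegree hκ.1
        have h4 := d15_Q_deg P r (S i) N (hSdeg i)
        exfalso
        have h5 : (Q i).totalDegree ≤ N := h4
        omega
      · exact (d15_tail P r (S i) K ρ hρ0 hρ1 hr).trans (mul_le_mul_of_nonneg_left (hSE i) (pow_nonneg hρ0 _))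
    have hee : ∀ i : Fin (d + 1) → Fin (2 * W), ‖ee (∑ l, (hf (i l) : ℂ) * t l)‖ ≤ C4 := by
      intro i
      refine (d15_ee _).trans (Real.exp_le_exp.2 ?_)
      have h3 : ‖∑ l, (hf (i l) : ℂ) * t l‖ ≤ (d + 1) * (W * A) := by
        refine (norm_sum_le _ _).trans ?_
        calc ∑ l, ‖(hf (i l) : ℂ) * t l‖ ≤ ∑ _l : Fin (d + 1), (W : ℝ) * A := Finset.sum_le_sum fun l _ => by
              rw [norm_mul]
              exact mul_le_mul (d15_hf _) (htA l) (norm_nonneg _) (by positivity)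
          _ = (d + 1) * (W * A) := by rw [Finset.sum_const, Finset.card_univ, Fintype.card_fin, nsmul_eq_mul]; push_cast; ring
      linarith
    have hsplit : TH D t q * x0 - kt y ^ (d + 1) * EP (d15_H (K := K) V Q) v t =
        (TH D t q - kt y ^ (d + 1) * T0) * x0 + kt y ^ (d + 1) * ∑ i : Fin (d + 1) → Fin (2 * W), V i * ee (∑ l, (hf (i l) : ℂ) * t l) *
          (MvPolynomial.eval v (Q i) - ∑ κ : Fin d → Fin (K + 1), (Q i).coeff (d15_k κ) * ∏ j, v j ^ (κ j).val) := by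
      have e1 : ∑ i : Fin (d + 1) → Fin (2 * W), V i * ee (∑ l, (hf (i l) : ℂ) * t l) *
          (MvPolynomial.eval v (Q i) - ∑ κ : Fin d → Fin (K + 1), (Q i).coeff (d15_k κ) * ∏ j, v j ^ (κ j).val) =
          T0 * x0 - EP (d15_H (K := K) V Q) v t := by
        rw [hT0', hEP, ← Finset.sum_sub_distrib]
        exact Finset.sum_congr rfl fun i _ => by ring
      rw [e1]
      ring
    have hfirst : ‖(TH D t q - kt y ^ (d + 1) * T0) * x0‖ ≤ Ca * nm 1 B * Real.exp ((2 * d + 2) * y) * Real.exp (-(y * (W : ℝ) ^ 2)) := by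
      rw [norm_mul]
      have h3 : C2 * nm 1 q * Real.exp ((2 * d + 2) * y - y * (W : ℝ) ^ 2) ≤
          C2 * (C1 ^ N * nm 1 B) * Real.exp ((2 * d + 2) * y - y * (W : ℝ) ^ 2) :=
        mul_le_mul_of_nonneg_right (mul_le_mul_of_nonneg_left hqnm (by linarith)) (Real.exp_pos _).le
      have h4 : Real.exp ((2 * d + 2) * y - y * (W : ℝ) ^ 2) = Real.exp ((2 * d + 2) * y) * Real.exp (-(y * (W : ℝ) ^ 2)) := by
        rw [← Real.exp_add]
        congr 1
      calc _ ≤ (C2 * (C1 ^ N * nm 1 B) * Real.exp ((2 * d + 2) * y - y * (W : ℝ) ^ 2)) * C3 :=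
            mul_le_mul (h1.trans h3) hx0n (norm_nonneg _) (by positivity)
        _ = _ := by rw [h4, hCa]; ring
    have hsecond : ‖kt y ^ (d + 1) * ∑ i : Fin (d + 1) → Fin (2 * W), V i * ee (∑ l, (hf (i l) : ℂ) * t l) *
          (MvPolynomial.eval v (Q i) - ∑ κ : Fin d → Fin (K + 1), (Q i).coeff (d15_k κ) * ∏ j, v j ^ (κ j).val)‖ ≤
        Cb * nm 1 B * Real.exp ((2 * d + 2) * y) * tail := by
      rw [norm_mul]
      have h3 : ‖∑ i : Fin (d + 1) → Fin (2 * W), V i * ee (∑ l, (hf (i l) : ℂ) * t l) *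
          (MvPolynomial.eval v (Q i) - ∑ κ : Fin d → Fin (K + 1), (Q i).coeff (d15_k κ) * ∏ j, v j ^ (κ j).val)‖ ≤
          ((2 * W : ℕ) : ℝ) ^ (d + 1) * (Real.exp ((2 * d + 2) * y) * C4 * (tail * ((1 + E) ^ N * (1 + S0) ^ N * nm 1 B))) := by
        refine (norm_sum_le _ _).trans ?_
        calc _ ≤ ∑ _i : Fin (d + 1) → Fin (2 * W), Real.exp ((2 * d + 2) * y) * C4 * (tail * ((1 + E) ^ N * (1 + S0) ^ N * nm 1 B)) := by
              refine Finset.sum_le_sum fun i _ => ?_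
              rw [norm_mul, norm_mul]
              refine mul_le_mul (mul_le_mul (hvt _) (hee i) (norm_nonneg _) (Real.exp_pos _).le) (hbox i) (norm_nonneg _) ?_
              positivity
          _ = _ := by
              rw [Finset.sum_const, Finset.card_univ, Fintype.card_fun, Fintype.card_fin, Fintype.card_fin, nsmul_eq_mul]
              push_cast
              ring
      calc _ ≤ 1 * _ := mul_le_mul hkt h3 (norm_nonneg _) zero_le_one
        _ = _ := by rw [hCb]; ring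
    rw [hsplit]
    refine (norm_add_le _ _).trans ((add_le_add hfirst hsecond).trans ?_)
    have hX : 0 ≤ nm 1 B * Real.exp ((2 * d + 2) * y) := by positivity
    have hY : 0 ≤ Real.exp (-(y * (W : ℝ) ^ 2)) := (Real.exp_pos _).le
    have e5 : Ca * nm 1 B * Real.exp ((2 * d + 2) * y) * Real.exp (-(y * (W : ℝ) ^ 2)) =
        Ca * (nm 1 B * Real.exp ((2 * d + 2) * y) * Real.exp (-(y * (W : ℝ) ^ 2))) := by ring
    have e6 : Cb * nm 1 B * Real.exp ((2 * d + 2) * y) * tail = Cb * (nm 1 B * Real.exp ((2 * d + 2) * y) * tail) := by ring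
    have e7 : (1 + Ca + Cb + Cc) * nm 1 B * Real.exp ((2 * d + 2) * y) * (Real.exp (-(y * (W : ℝ) ^ 2)) + tail) =
        (1 + Ca + Cb + Cc) * (nm 1 B * Real.exp ((2 * d + 2) * y) * Real.exp (-(y * (W : ℝ) ^ 2))) +
        (1 + Ca + Cb + Cc) * (nm 1 B * Real.exp ((2 * d + 2) * y) * tail) := by ring
    rw [e5, e6, e7]
    have hp : 0 ≤ nm 1 B * Real.exp ((2 * d + 2) * y) * Real.exp (-(y * (W : ℝ) ^ 2)) := mul_nonneg hX hY
    have hq' : 0 ≤ nm 1 B * Real.exp ((2 * d + 2) * y) * tail := mul_nonneg hX htail0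
    exact add_le_add (mul_le_mul_of_nonneg_right (by linarith) hp) (mul_le_mul_of_nonneg_right (by linarith) hq')
  · intro n hn m hm
    have hlt : ∀ l, (n l + W).toNat < 2 * W := fun l => by
      have := hn l
      omega
    set i : Fin (d + 1) → Fin (2 * W) := fun l => ⟨(n l + W).toNat, hlt l⟩ with hi
    have hhf : ∀ l, hf (i l) = n l := fun l => by
      have := hn l
      change (((n l + W).toNat : ℕ) : ℤ) - W = n l
      omega
    have hhf' : (fun l => hf (i l)) = n := funext hhf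
    have hSi : S i = sh (fun k => -sg P s n k) B := by
      change sh (fun k => -sg P s (fun l => hf (i l)) k) B = _
      rw [hhf']
    have hVi : V i = ∏ l, vt D.τ (D.h l) (n l) := by
      change ∏ l, vt D.τ (D.h l) (hf (i l)) = _
      exact Finset.prod_congr rfl fun l _ => by rw [hhf]
    obtain ⟨κ, -, hκ⟩ := Finset.exists_max_image (Finset.univ : Finset (Fin d → Fin (K + 1))) (fun κ => ‖(Q i).coeff (d15_k κ)‖)
      ⟨fun _ => 0, Finset.mem_univ _⟩
    refine ⟨(κ, fun l => (i l).castSucc), ?_⟩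
    rw [d15_H_cast, norm_mul]
    have h1 := d15_coeff_le M Mm hMmj hMm1 (Q i) K m hm _ (fun κ' => hκ κ' (Finset.mem_univ _))
    have h2 : (MvPolynomial.aeval (fun j => ∑ k, MvPolynomial.C (M j k) * MvPolynomial.X k) (Q i) : MvPolynomial (Fin d) ℂ) =
        MvPolynomial.aeval (fun k => MvPolynomial.C (r k) * MvPolynomial.X k) (S i) := d15_M P M hM r (S i)
    rw [h2, d15_coeff_scale, norm_mul, norm_prod, hSi] at h1
    have h3 : ∏ k, ‖r k ^ m k‖ = ∏ k, ‖r k‖ ^ m k := Finset.prod_congr rfl fun k _ => norm_pow _ _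
    rw [h3] at h1
    rw [hVi, norm_prod]
    have hVn : 0 ≤ ∏ l, ‖vt D.τ (D.h l) (n l)‖ := Finset.prod_nonneg fun _ _ => norm_nonneg _
    calc (∏ l, ‖vt D.τ (D.h l) (n l)‖) * (∏ k, ‖r k‖ ^ m k) * ‖(sh (fun k => -sg P s n k) B).coeff m‖
        = (∏ l, ‖vt D.τ (D.h l) (n l)‖) * ((∏ k, ‖r k‖ ^ m k) * ‖(sh (fun k => -sg P s n k) B).coeff m‖) := by ring
      _ ≤ (∏ l, ‖vt D.τ (D.h l) (n l)‖) * (((K : ℝ) + 1) ^ d * Mm ^ K * ‖(Q i).coeff (d15_k κ)‖) := mul_le_mul_of_nonneg_left h1 hVn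
      _ = Cc * ((∏ l, ‖vt D.τ (D.h l) (n l)‖) * ‖(Q i).coeff (d15_k κ)‖) := by rw [hCc]; ring
      _ ≤ (1 + Ca + Cb + Cc) * ((∏ l, ‖vt D.τ (D.h l) (n l)‖) * ‖(Q i).coeff (d15_k κ)‖) :=
          mul_le_mul_of_nonneg_right (by linarith) (mul_nonneg hVn (norm_nonneg _))

end Pool.Agent.MSR
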