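import Pool.Agent.Lib.MP_f58a57_nt.R.Defs
import Pool.Agent.Lib.MP_f58a57_nt.R.D14_EpInj
import Pool.Agent.Lib.MP_f58a57_nt.R.D15_Approx
import Pool.Agent.Lib.MP_f58a57_nt.R.B6_Diff
import Pool.Agent.Lib.MP_f58a57_nt.R.D6_Series
import Pool.Agent.Lib.MP_f58a57_nt.K.D5_PropZ

/-! # R/D16_Engine: the coefficients of a function with a zero of high order are small -/

open Complex Filter Topology IntermediateField

noncomputable section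

namespace Pool.Agent.MSR

open MSD MSP MSK

variable {d : ℕ}

theorem d16_line (hd : 1 ≤ d) (T : ℕ) (hT : 1 ≤ T) (a : Fin d → ℕ) (ha : ∀ j, a j ≤ T) (ζ : ℂ) (hζ : ‖ζ‖ ≤ 1 / T) :
    ‖(fun j : Fin d => ζ * (a j : ℂ))‖ ≤ 1 := by
  have h2 : (0 : ℝ) < T := by exact_mod_cast hT
  rw [pi_norm_le_iff_of_nonneg zero_le_one]
  intro j
  rw [norm_mul, Complex.norm_natCast]
  have h3 : (a j : ℝ) ≤ T := by exact_mod_cast ha j
  calc ‖ζ‖ * (a j : ℝ) ≤ 1 / T * T := mul_le_mul hζ h3 (Nat.cast_nonneg _) (by positivity)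
    _ = 1 := by field_simp

theorem d16_ee_diff (z : ℂ) (a : Fin d → ℕ) :
    Differentiable ℂ (fun ζ : ℂ => ee (-(∑ l, tt z (fun j => ζ * (a j : ℂ)) l) / 2)) := by
  unfold ee
  simp only [d5_tt_eq]
  fun_prop

/-- small derivatives of the exponential polynomial -/
theorem d16_der (P : Par d) (hd : 1 ≤ d) (K W T : ℕ) (hT : 1 ≤ T) (y : ℝ) (hy : 1 ≤ y) (D : Dt d) (r s : Fin d → ℂ)
    (B : MvPolynomial (Fin d) ℂ) (H : Jx d K W → ℂ) (η : ℝ)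
    (hH : ∀ v : Fin d → ℂ, ‖v‖ ≤ 1 → ‖TH D (tt P.z v) (MvPolynomial.aeval (lin' P r s (eg P (tt P.z v))) B) * ee (-(∑ l, tt P.z v l) / 2) -
        kt y ^ (d + 1) * EP H v (tt P.z v)‖ ≤ η) (a : Fin d → ℕ) (ha : ∀ j, a j ≤ T)
    (hv : ∀ k < T, iteratedDeriv k (fun ζ : ℂ =>
      TH D (tt P.z (fun j => ζ * a j)) (MvPolynomial.aeval (lin' P r s (eg P (tt P.z (fun j => ζ * a j)))) B)) 0 = 0) (k : ℕ) (hk : k < T) :
    ‖iteratedDeriv k (fun ζ : ℂ => EP H (fun j => ζ * a j) (tt P.z (fun j => ζ * a j))) 0‖ ≤ 3 ^ (d + 1) * (T.factorial * (T : ℝ) ^ T) * η := by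
  have hT0 : (0 : ℝ) < T := by exact_mod_cast hT
  have hT1 : (1 : ℝ) ≤ T := by exact_mod_cast hT
  have hη : 0 ≤ η := (norm_nonneg _).trans (hH 0 (by rw [norm_zero]; exact zero_le_one))
  have hr0 : (0 : ℝ) < 1 / T := by positivity
  obtain ⟨hkt, -, -⟩ := th_series y hy
  set f : ℂ → ℂ := fun ζ => TH D (tt P.z (fun j => ζ * a j)) (MvPolynomial.aeval (lin' P r s (eg P (tt P.z (fun j => ζ * a j)))) B) with hf
  have hfd : Differentiable ℂ f := (lin'_diff P D r s B).comp (d5_line_diff a)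
  set e : ℂ → ℂ := fun ζ => ee (-(∑ l, tt P.z (fun j => ζ * (a j : ℂ)) l) / 2) with he
  have hed : Differentiable ℂ e := d16_ee_diff P.z a
  set p : ℂ → ℂ := fun ζ => EP H (fun j => ζ * a j) (tt P.z (fun j => ζ * a j)) with hp
  have hpd : Differentiable ℂ p := d5_EP_diff P.z H a
  have hg0 : iteratedDeriv k (fun ζ => f ζ * e ζ) 0 = 0 := d5_vanish f e (hfd.analyticAt 0) (hed.analyticAt 0) T hv k hk
  have hgd : Differentiable ℂ (fun ζ => f ζ * e ζ) := hfd.mul hed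
  have hqd : Differentiable ℂ (fun ζ => kt y ^ (d + 1) * p ζ) := hpd.const_mul _
  have hE : ‖iteratedDeriv k (fun ζ => f ζ * e ζ - kt y ^ (d + 1) * p ζ) 0‖ ≤ k.factorial * η / (1 / (T : ℝ)) ^ k := by
    refine norm_iteratedDeriv_le_of_forall_mem_sphere_norm_le k hr0 ((hgd.sub hqd).diffContOnCl) ?_
    intro ζ hζ
    have hζ' : ‖ζ‖ ≤ 1 / T := (mem_sphere_zero_iff_norm.mp hζ).le
    exact hH (fun j => ζ * a j) (d16_line hd T hT a ha ζ hζ')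
  have hsub : iteratedDeriv k (fun ζ => f ζ * e ζ - kt y ^ (d + 1) * p ζ) 0 =
      iteratedDeriv k (fun ζ => f ζ * e ζ) 0 - iteratedDeriv k (fun ζ => kt y ^ (d + 1) * p ζ) 0 :=
    iteratedDeriv_fun_sub (hgd.contDiff.contDiffAt) (hqd.contDiff.contDiffAt)
  rw [hsub, hg0, zero_sub, norm_neg, iteratedDeriv_const_mul_field, norm_mul, norm_pow] at hE
  have h5 : (k.factorial : ℝ) ≤ T.factorial := by exact_mod_cast Nat.factorial_le hk.le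
  have h6 : k.factorial * η / (1 / (T : ℝ)) ^ k ≤ (T.factorial * (T : ℝ) ^ T) * η := by
    have h7 : k.factorial * η / (1 / (T : ℝ)) ^ k = k.factorial * (T : ℝ) ^ k * η := by
      rw [one_div, inv_pow, div_inv_eq_mul]
      ring
    rw [h7]
    refine mul_le_mul_of_nonneg_right ?_ hη
    exact mul_le_mul h5 (pow_le_pow_right₀ hT1 hk.le) (by positivity) (by positivity)
  have h8 : (1 / 3 : ℝ) ^ (d + 1) ≤ ‖kt y‖ ^ (d + 1) := pow_le_pow_left₀ (by norm_num) hkt _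
  have h9 : (1 / 3 : ℝ) ^ (d + 1) * ‖iteratedDeriv k p 0‖ ≤ (T.factorial * (T : ℝ) ^ T) * η :=
    (mul_le_mul_of_nonneg_right h8 (norm_nonneg _)).trans (hE.trans h6)
  have h10 : (3 : ℝ) ^ (d + 1) * (1 / 3) ^ (d + 1) = 1 := by
    rw [← mul_pow]
    norm_num
  calc ‖iteratedDeriv k p 0‖ = 3 ^ (d + 1) * ((1 / 3 : ℝ) ^ (d + 1) * ‖iteratedDeriv k p 0‖) := by
        rw [← mul_assoc, h10, one_mul]
    _ ≤ 3 ^ (d + 1) * ((T.factorial * (T : ℝ) ^ T) * η) := mul_le_mul_of_nonneg_left h9 (by positivity)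
    _ = 3 ^ (d + 1) * (T.factorial * (T : ℝ) ^ T) * η := by ring


/-- D16. PROOF. `H` from `approx`. Let `g(v) = TH .. * ee(-(∑ t_l)/2)`, entire (`lin'_diff`), all its derivatives of order `< T` along the lines vanish at `0` (Leibniz). Let `err(v) = g(v) - kt^(d+1) EP H v`, entire, `‖err‖ ≤ η₀` for `‖v‖ ≤ 1`. Along the line `ζ ↦ ζ a`, `a_j ≤ T`, Cauchy's estimate
on `‖ζ‖ = 1/T`: `‖iteratedDeriv k err‖ ≤ k! T^k η₀ ≤ T^(2T) η₀`, and `iteratedDeriv k (EP) = -kt^(-(d+1)) iteratedDeriv k err`, `‖kt‖ ≥ 1/3` (`th_series`). So `ep_inj_gen` gives `c₀ ‖H x‖ ≤ 3^(d+1) T^(2T) η₀` for all `x`; use (ii) of `approx`. -/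
theorem engine (P : Par d) (hd : 1 ≤ d) : ∃ C : ℕ, 1 ≤ C ∧ ∀ K W N X₀ T : ℕ, 1 ≤ W → 1 ≤ X₀ → 2 * W + 1 ≤ (X₀ + 1) ^ d →
    C * W * X₀ * (d * K + 1) + d * K + 1 ≤ T → ∀ δ : ℝ, 0 < δ → ∃ C₅ : ℝ, 1 ≤ C₅ ∧ ∀ y : ℝ, 1 ≤ y → ∀ D : Dt d, D.τ = I * y →
    (∀ l, D.h l = 1 / 2 ∨ D.h l = D.τ / 2 ∨ D.h l = (1 + D.τ) / 2) → ∀ (ρ : ℝ) (r s : Fin d → ℂ), 0 ≤ ρ → ρ ≤ 1 → (∀ k, ‖r k‖ ≤ ρ) → (∀ k, δ ≤ ‖s k‖) →
    ∀ B : MvPolynomial (Fin d) ℂ, B.totalDegree ≤ N →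
    (∀ a : Fin d → ℕ, (∀ j, a j ≤ T) → ∀ k < T, iteratedDeriv k (fun ζ : ℂ =>
      TH D (tt P.z (fun j => ζ * a j)) (MvPolynomial.aeval (lin' P r s (eg P (tt P.z (fun j => ζ * a j)))) B)) 0 = 0) →
    ∀ n : Fin (d + 1) → ℤ, (∀ l, -(W : ℤ) ≤ n l ∧ n l < W) → ∀ m : Fin d →₀ ℕ, (m.sum fun _ e => e) ≤ K →
      (∏ l, ‖vt D.τ (D.h l) (n l)‖) * (∏ k, ‖r k‖ ^ (m k)) * ‖(sh (fun k => -sg P s n k) B).coeff m‖ ≤
        C₅ * nm 1 B * Real.exp ((2 * d + 2) * y) * (Real.exp (-(y * (W : ℝ) ^ 2)) + if N ≤ K then 0 else ρ ^ (K + 1)) := by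
  obtain ⟨C, hC, hinj⟩ := ep_inj_gen P hd
  refine ⟨C, hC, fun K W N X₀ T hW hX hWX hT δ hδ => ?_⟩
  obtain ⟨c₀, hc₀, hinj⟩ := hinj K W X₀ T hW hX hWX hT
  obtain ⟨Ca, hCa, happ⟩ := approx P K W N hW δ hδ
  have hT1 : 1 ≤ T := le_trans (Nat.le_add_left _ _) hT
  have hCa0 : 0 < Ca := lt_of_lt_of_le zero_lt_one hCa
  set M : ℝ := 3 ^ (d + 1) * (T.factorial * (T : ℝ) ^ T) with hM
  have hM0 : 0 ≤ M := by positivity
  refine ⟨Ca * (M * Ca / c₀) + 1, le_add_of_nonneg_left (by positivity), ?_⟩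
  intro y hy D hDτ hDh ρ r s hρ hρ1 hr hs B hB hv n hn m hm
  obtain ⟨H, hH1, hH2⟩ := happ y hy D hDτ hDh ρ r s hρ hρ1 hr hs B hB
  obtain ⟨x, hx⟩ := hH2 n hn m hm
  set Z : ℝ := nm 1 B * Real.exp ((2 * d + 2) * y) * (Real.exp (-(y * (W : ℝ) ^ 2)) + if N ≤ K then 0 else ρ ^ (K + 1)) with hZ
  have hZ0 : 0 ≤ Z := by
    have h1 : 0 ≤ nm 1 B := nm_nonneg 1 zero_le_one B
    have h2 : (0 : ℝ) ≤ if N ≤ K then 0 else ρ ^ (K + 1) := by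
      split_ifs
      · exact le_rfl
      · exact pow_nonneg hρ _
    positivity
  have hη : ∀ v : Fin d → ℂ, ‖v‖ ≤ 1 → ‖TH D (tt P.z v) (MvPolynomial.aeval (lin' P r s (eg P (tt P.z v))) B) * ee (-(∑ l, tt P.z v l) / 2) -
        kt y ^ (d + 1) * EP H v (tt P.z v)‖ ≤ Ca * Z := by
    intro v hv'
    refine (hH1 v hv').trans (le_of_eq ?_)
    rw [hZ]
    ring
  have hHx : c₀ * ‖H x‖ ≤ M * (Ca * Z) := by
    refine hinj H (M * (Ca * Z)) (fun a ha k hk => ?_) x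
    exact d16_der P hd K W T hT1 y hy D r s B H (Ca * Z) hη a ha (hv a ha) k hk
  have hHx' : ‖H x‖ ≤ M * (Ca * Z) / c₀ := by
    rw [le_div_iff₀ hc₀, mul_comm]
    exact hHx
  refine hx.trans ?_
  calc Ca * ‖H x‖ ≤ Ca * (M * (Ca * Z) / c₀) := mul_le_mul_of_nonneg_left hHx' hCa0.le
    _ = Ca * (M * Ca / c₀) * Z := by ring
    _ ≤ (Ca * (M * Ca / c₀) + 1) * Z := mul_le_mul_of_nonneg_right (by linarith) hZ0
    _ = (Ca * (M * Ca / c₀) + 1) * nm 1 B * Real.exp ((2 * d + 2) * y) * (Real.exp (-(y * (W : ℝ) ^ 2)) + if N ≤ K then 0 else ρ ^ (K + 1)) := by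
        rw [hZ]
        ring

end Pool.Agent.MSR
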