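import Pool.Agent.Lib.MP_f58a57_nt.R.Defs

/-! # R/D17_EpsLow: lower bound for the eigenvalues -/

open Complex Filter Topology IntermediateField

noncomputable section

namespace Pool.Agent.MSR

open MSD MSP MSK

variable {d : ℕ}

/-- D17. PROOF. `eps k = om² (1 + s(z_k - z))/(rh(z_k - z))`, `‖om‖ ≥ e^{-C₀y}`, `‖1 + s(z_k-z)‖ ≥ e^{-C₀y}` (`Adm.det` for `k.succ ≠ 0`), and `‖rh (z_k - z)‖ ≤ e^C ≤ e^{Cy}`. -/
theorem eps_low (P : Par d) (C₀ : ℝ) : ∃ C₇ : ℝ, 1 ≤ C₇ ∧ ∀ y : ℝ, 1 ≤ y → ∀ D : Dt d, Adm C₀ y P D → ∀ k, Real.exp (-(C₇ * y)) ≤ ‖eps P D k‖ := by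
  set M : ℝ := 1 + ∑ k : Fin d, ‖rh * (P.rt k.succ - P.z)‖ with hM
  have hM1 : 1 ≤ M := by
    have : 0 ≤ ∑ k : Fin d, ‖rh * (P.rt k.succ - P.z)‖ := Finset.sum_nonneg fun _ _ => norm_nonneg _
    linarith
  have hM0 : 0 < M := by linarith
  have hlog : 0 ≤ Real.log M := Real.log_nonneg hM1
  have habs : 0 ≤ |C₀| := abs_nonneg _
  refine ⟨1 + 3 * |C₀| + Real.log M, by linarith, fun y hy D hD k => ?_⟩
  have hk : ‖rh * (P.rt k.succ - P.z)‖ ≤ M := by
    have := Finset.single_le_sum (f := fun k : Fin d => ‖rh * (P.rt k.succ - P.z)‖)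
      (fun _ _ => norm_nonneg _) (Finset.mem_univ k)
    linarith
  have hne : rh * (P.rt k.succ - P.z) ≠ 0 := by
    refine mul_ne_zero ?_ ?_
    · rw [rh]
      exact div_ne_zero (neg_ne_zero.2 I_ne_zero) two_ne_zero
    · rw [sub_ne_zero, Par.z]
      intro h
      exact Fin.succ_ne_zero k (P.inj h)
  have hpos : 0 < ‖rh * (P.rt k.succ - P.z)‖ := norm_pos_iff.2 hne
  have h1 : Real.exp (-(|C₀| * y)) ≤ ‖D.om‖ := by
    refine le_trans (Real.exp_le_exp.2 ?_) hD.om₂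
    have := mul_le_mul_of_nonneg_right (le_abs_self C₀) (by linarith : (0 : ℝ) ≤ y)
    linarith
  have h2 : Real.exp (-(|C₀| * y)) ≤ ‖1 + D.s * (P.rt k.succ - P.z)‖ := by
    refine le_trans (Real.exp_le_exp.2 ?_) (hD.det _ (Fin.succ_ne_zero k))
    have := mul_le_mul_of_nonneg_right (le_abs_self C₀) (by linarith : (0 : ℝ) ≤ y)
    linarith
  rw [eps, norm_div, norm_mul, norm_pow, le_div_iff₀ hpos]
  have h3 : Real.exp (-((1 + 3 * |C₀| + Real.log M) * y)) * ‖rh * (P.rt k.succ - P.z)‖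
      ≤ Real.exp (-(3 * (|C₀| * y))) := by
    have h4 : Real.exp (-((1 + 3 * |C₀| + Real.log M) * y)) * M ≤ Real.exp (-(3 * (|C₀| * y))) := by
      have h5 : M = Real.exp (Real.log M) := (Real.exp_log hM0).symm
      calc Real.exp (-((1 + 3 * |C₀| + Real.log M) * y)) * M
          = Real.exp (-((1 + 3 * |C₀| + Real.log M) * y)) * Real.exp (Real.log M) := by rw [← h5]
        _ = Real.exp (-((1 + 3 * |C₀| + Real.log M) * y) + Real.log M) := (Real.exp_add _ _).symm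
        _ ≤ Real.exp (-(3 * (|C₀| * y))) := by
            apply Real.exp_le_exp.2
            have := mul_le_mul_of_nonneg_left hy hlog
            nlinarith
    exact le_trans (mul_le_mul_of_nonneg_left hk (Real.exp_pos _).le) h4
  refine h3.trans ?_
  have h6 : Real.exp (-(3 * (|C₀| * y))) = Real.exp (-(|C₀| * y)) ^ 2 * Real.exp (-(|C₀| * y)) := by
    rw [← Real.exp_nat_mul, ← Real.exp_add]
    congr 1
    push_cast
    ring
  rw [h6]
  have h7 : Real.exp (-(|C₀| * y)) ^ 2 ≤ ‖D.om‖ ^ 2 := pow_le_pow_left₀ (Real.exp_pos _).le h1 2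
  exact mul_le_mul h7 h2 (Real.exp_pos _).le (by positivity)

end Pool.Agent.MSR
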