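import Pool.Agent.Lib.MP_f58a57_nt.R.Defs
import Pool.Agent.Lib.MP_f58a57_nt.R.D4_Eig

/-! # R/D5_Chg: change of variables -/

open Complex Filter Topology IntermediateField

noncomputable section

namespace Pool.Agent.MSR

open MSD MSP MSK

variable {d : ℕ}

theorem d5_deg {σ τ : Type} (g : σ → MvPolynomial τ ℂ) (hg : ∀ i, (g i).totalDegree ≤ 1) (B : MvPolynomial σ ℂ) :
    (MvPolynomial.aeval g B).totalDegree ≤ B.totalDegree := by
  rw [MvPolynomial.aeval_def, MvPolynomial.eval₂_eq]
  refine (MvPolynomial.totalDegree_finsetSum _ _).trans (Finset.sup_le fun m hm => ?_)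
  refine (MvPolynomial.totalDegree_mul _ _).trans ?_
  have h1 : ((algebraMap ℂ (MvPolynomial τ ℂ)) (MvPolynomial.coeff m B)).totalDegree = 0 := by
    rw [MvPolynomial.algebraMap_eq]
    exact MvPolynomial.totalDegree_C _
  rw [h1, zero_add]
  refine (MvPolynomial.totalDegree_finsetProd _ _).trans ?_
  refine le_trans (Finset.sum_le_sum fun i _ => ?_) (MvPolynomial.le_totalDegree hm)
  calc (g i ^ m i).totalDegree ≤ m i * (g i).totalDegree := MvPolynomial.totalDegree_pow _ _
    _ ≤ m i * 1 := Nat.mul_le_mul_left _ (hg i)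
    _ = m i := mul_one _

/-- D5. PROOF. Let `M` be as in `eg_inv` and `B = aeval (fun j => C (lam_j) + ∑_k C (M j k rh (z_k - z) s_k/om) X_k) C₀` (a linear change of variables: `totalDegree` does not increase). We need `lin P D (WV v) j = aeval (lin' ..) (C (lam_j) + ∑_k C(M j k rh (z_k - z) s_k/om) X_k)`,
i.e. `C(om As_j) - C(1/om) ∑_l C(rhv_lj) X_l = ∑_k C(M j k rh (z_k-z) s_k/om) (C(r_k w_k) - C(1/s_k) ∑_j' C(z_k^j') X_j')`, `w = eg (tt v)`. As `r_k s_k = eps_k = om²(1 + s(z_k-z))/(rh(z_k-z))` the right side is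
`∑_k M j k [C(om (1 + s(z_k-z)) w_k) - C(1/om) ∑_l C(rh (z_k-z) z_k^l) X_l]`, and by `eg_As, eg_tt, eg_rho` the bracket is `∑_i (z_k^(i+1) - z^(i+1)) [C(om As_i) - C(1/om) ∑_l C(rhv_li) X_l]`; use the first property of `M`.
`B ≠ 0`: the substitution has a left inverse: `X_k ↦ ∑_j C(om (z_k^(j+1) - z^(j+1))/(rh (z_k - z) s_k)) (X_j - C(lam_j))` maps `B` back to `C₀`. -/
theorem chg (P : Par d) (D : Dt d) (r s : Fin d → ℂ) (hs : ∀ k, s k ≠ 0) (hrs : ∀ k, r k * s k = eps P D k)
    (C₀ : MvPolynomial (Fin d) ℂ) (hC : C₀ ≠ 0) :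
    ∃ B : MvPolynomial (Fin d) ℂ, B ≠ 0 ∧ B.totalDegree ≤ C₀.totalDegree ∧ ∀ v : Fin d → ℂ,
      MvPolynomial.aeval (lin P D (WV P D v)) C₀ = MvPolynomial.aeval (lin' P r s (eg P (tt P.z v))) B := by
  obtain ⟨M, hM, -⟩ := eg_inv P
  have hom : D.om ≠ 0 := D.ne
  have hrh : rh ≠ 0 := by
    rw [rh]
    exact div_ne_zero (neg_ne_zero.2 I_ne_zero) two_ne_zero
  have hΔ : ∀ k : Fin d, P.rt k.succ - P.z ≠ 0 := by
    intro k h
    have h1 : P.rt k.succ = P.rt 0 := sub_eq_zero.1 h
    exact Fin.succ_ne_zero k (P.inj h1)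
  set G : Fin d → Fin d → ℂ := fun j k => M j k * rh * (P.rt k.succ - P.z) * s k / D.om with hG
  set g : Fin d → MvPolynomial (Fin d) ℂ := fun j =>
    MvPolynomial.C (lam P D j) + ∑ k, MvPolynomial.C (G j k) * MvPolynomial.X k with hg
  set f : Fin d → MvPolynomial (Fin d) ℂ := fun k =>
    ∑ j, MvPolynomial.C (D.om * (P.rt k.succ ^ (j.val + 1) - P.z ^ (j.val + 1)) / (rh * (P.rt k.succ - P.z) * s k)) *
      (MvPolynomial.X j - MvPolynomial.C (lam P D j)) with hf
  have hfg : MvPolynomial.aeval f (MvPolynomial.aeval g C₀) = C₀ := by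
    rw [MvPolynomial.comp_aeval_apply]
    have h1 : (fun i => MvPolynomial.aeval f (g i)) = MvPolynomial.X := by
      funext j
      rw [hg]
      simp only [map_add, map_sum, map_mul, MvPolynomial.aeval_X, MvPolynomial.algHom_C, MvPolynomial.algebraMap_eq]
      rw [hf]
      simp only [Finset.mul_sum]
      rw [Finset.sum_comm]
      have h2 : ∀ i : Fin d, (∑ k : Fin d, MvPolynomial.C (G j k) *
          (MvPolynomial.C (D.om * (P.rt k.succ ^ (i.val + 1) - P.z ^ (i.val + 1)) / (rh * (P.rt k.succ - P.z) * s k)) *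
            (MvPolynomial.X i - MvPolynomial.C (lam P D i)))) =
          MvPolynomial.C (if j = i then 1 else 0) * (MvPolynomial.X i - MvPolynomial.C (lam P D i)) := by
        intro i
        rw [← hM j i, map_sum, Finset.sum_mul]
        refine Finset.sum_congr rfl fun k _ => ?_
        rw [← mul_assoc, ← MvPolynomial.C_mul]
        congr 2
        rw [hG]
        have := hs k
        have := hΔ k
        field_simp
      rw [Finset.sum_congr rfl fun i _ => h2 i, Finset.sum_eq_single j]
      · simp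
      · intro i _ hi
        simp [Ne.symm hi]
      · simp
    rw [h1]
    exact MvPolynomial.aeval_X_left_apply C₀
  refine ⟨MvPolynomial.aeval g C₀, ?_, ?_, ?_⟩
  · intro h
    rw [h, map_zero] at hfg
    exact hC hfg.symm
  · refine d5_deg g (fun i => ?_) C₀
    rw [hg]
    refine (MvPolynomial.totalDegree_add _ _).trans (max_le ?_ ?_)
    · rw [MvPolynomial.totalDegree_C]
      exact Nat.zero_le _
    · refine (MvPolynomial.totalDegree_finsetSum _ _).trans (Finset.sup_le fun k _ => ?_)
      refine (MvPolynomial.totalDegree_mul _ _).trans ?_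
      rw [MvPolynomial.totalDegree_C, MvPolynomial.totalDegree_X]
  · intro v
    rw [MvPolynomial.comp_aeval_apply]
    congr 2
    funext j
    rw [hg]
    simp only [map_add, map_sum, map_mul, MvPolynomial.aeval_X, MvPolynomial.algHom_C, MvPolynomial.algebraMap_eq]
    rw [lin]
    simp only [lin']
    have hA : WV P D v j = ∑ k, G j k * (r k * eg P (tt P.z v) k) := by
      rw [WV]
      have h1 : ∀ k, G j k * (r k * eg P (tt P.z v) k) = D.om * (M j k * eg P (tt P.z (As P D.s v)) k) := by
        intro k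
        rw [eg_As, hG]
        have h2 : r k * s k = D.om ^ 2 * (1 + D.s * (P.rt k.succ - P.z)) / (rh * (P.rt k.succ - P.z)) := hrs k
        have h3 : M j k * rh * (P.rt k.succ - P.z) * s k / D.om * (r k * eg P (tt P.z v) k) =
            M j k * rh * (P.rt k.succ - P.z) * (r k * s k) / D.om * eg P (tt P.z v) k := by ring
        simp only
        rw [h3, h2]
        have := hΔ k
        field_simp
      rw [Finset.sum_congr rfl fun k _ => h1 k, ← Finset.mul_sum]
      congr 1
      have h4 : ∀ k, M j k * eg P (tt P.z (As P D.s v)) k =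
          ∑ i : Fin d, M j k * (P.rt k.succ ^ (i.val + 1) - P.z ^ (i.val + 1)) * As P D.s v i := by
        intro k
        rw [eg_tt, Finset.mul_sum]
        exact Finset.sum_congr rfl fun i _ => by ring
      rw [Finset.sum_congr rfl fun k _ => h4 k, Finset.sum_comm]
      have h5 : ∀ i : Fin d, (∑ k : Fin d, M j k * (P.rt k.succ ^ (i.val + 1) - P.z ^ (i.val + 1)) * As P D.s v i) =
          (if j = i then 1 else 0) * As P D.s v i := by
        intro i
        rw [← Finset.sum_mul, hM j i]
      rw [Finset.sum_congr rfl fun i _ => h5 i]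
      simp
    have hB : ∀ l : Fin (d + 1), 1 / D.om * rhv P l j = ∑ k, G j k * (1 / s k * P.rt k.succ ^ l.val) := by
      intro l
      have h1 : ∀ k, G j k * (1 / s k * P.rt k.succ ^ l.val) =
          ∑ i : Fin d, 1 / D.om * (M j k * (P.rt k.succ ^ (i.val + 1) - P.z ^ (i.val + 1)) * rhv P l i) := by
        intro k
        rw [← Finset.mul_sum]
        have h2 : ∑ i : Fin d, M j k * (P.rt k.succ ^ (i.val + 1) - P.z ^ (i.val + 1)) * rhv P l i =
            M j k * (rh * (P.rt k.succ - P.z) * P.rt k.succ ^ l.val) := by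
          rw [← eg_rho, Finset.mul_sum]
          exact Finset.sum_congr rfl fun i _ => by ring
        rw [h2, hG]
        have := hs k
        field_simp
      rw [Finset.sum_congr rfl fun k _ => h1 k, Finset.sum_comm]
      have h5 : ∀ i : Fin d, (∑ k : Fin d, 1 / D.om * (M j k * (P.rt k.succ ^ (i.val + 1) - P.z ^ (i.val + 1)) * rhv P l i)) =
          1 / D.om * ((if j = i then 1 else 0) * rhv P l i) := by
        intro i
        rw [← Finset.mul_sum, ← Finset.sum_mul, hM j i]
      rw [Finset.sum_congr rfl fun i _ => h5 i]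
      simp
    have hL : MvPolynomial.C (1 / D.om) * ∑ l, MvPolynomial.C (rhv P l j) * (MvPolynomial.X l : MvPolynomial (Fin (d + 1)) ℂ) =
        ∑ k, MvPolynomial.C (G j k) * (MvPolynomial.C (1 / s k) * ∑ j' : Fin (d + 1), MvPolynomial.C (P.rt k.succ ^ j'.val) * MvPolynomial.X j') := by
      simp only [Finset.mul_sum]
      rw [Finset.sum_comm]
      refine Finset.sum_congr rfl fun l _ => ?_
      rw [← mul_assoc, ← MvPolynomial.C_mul, hB l, map_sum, Finset.sum_mul]
      refine Finset.sum_congr rfl fun k _ => ?_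
      simp only [MvPolynomial.C_mul]
      ring
    rw [hL, hA]
    simp only [MvPolynomial.C_add, map_sum, MvPolynomial.C_mul, mul_sub, Finset.sum_sub_distrib]
    ring

end Pool.Agent.MSR
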