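import Pool.Agent.Lib.MP_f58a57_nt.R.Defs
import Pool.Agent.Lib.MP_f58a57_nt.R.A4_Bp
import Pool.Agent.Lib.MP_f58a57_nt.R.B5_FG
import Pool.Agent.Lib.MP_f58a57_nt.R.D5_Chg
import Pool.Agent.Lib.MP_f58a57_nt.R.D6b_VtBound
import Pool.Agent.Lib.MP_f58a57_nt.R.D12_LowA
import Pool.Agent.Lib.MP_f58a57_nt.R.D13_LowB
import Pool.Agent.Lib.MP_f58a57_nt.R.D16_Engine
import Pool.Agent.Lib.MP_f58a57_nt.R.D17_EpsLow

/-! # R/D18_PropZ: the zero estimate for the specialised curves -/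

open Complex Filter Topology IntermediateField

noncomputable section

namespace Pool.Agent.MSR

open MSD MSP MSK

variable {d : ℕ}

/-- the final comparison -/
lemma d18_fin (κ C₅ y x u w q V R N : ℝ) (hκ : 0 < κ) (hN : 0 < N) (hy : C₅ < κ * Real.exp y) (hx : x + u + y ≤ w)
    (hV : Real.exp (-x) ≤ V * R) (hR : 0 ≤ V * R) (hq : κ * N ≤ q)
    (h : V * R * q ≤ C₅ * N * Real.exp u * (Real.exp (-w) + 0)) : False := by
  have h1 : Real.exp (-x) * (κ * N) ≤ V * R * q := mul_le_mul hV hq (mul_nonneg hκ.le hN.le) hR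
  have h2 : Real.exp (-x) * κ ≤ C₅ * Real.exp u * Real.exp (-w) := by
    have h3 : (Real.exp (-x) * κ) * N ≤ (C₅ * Real.exp u * Real.exp (-w)) * N := by
      calc (Real.exp (-x) * κ) * N = Real.exp (-x) * (κ * N) := by ring
        _ ≤ V * R * q := h1
        _ ≤ C₅ * N * Real.exp u * (Real.exp (-w) + 0) := h
        _ = (C₅ * Real.exp u * Real.exp (-w)) * N := by ring
    exact le_of_mul_le_mul_right h3 hN
  have h4 : C₅ * Real.exp u * Real.exp (-w) < Real.exp (-x) * κ := by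
    have e1 : C₅ * Real.exp u * Real.exp (-w) = C₅ * Real.exp (u - w) := by
      rw [mul_assoc, ← Real.exp_add]
      congr 2
    have e2 : C₅ * Real.exp (u - w) < κ * Real.exp y * Real.exp (u - w) := mul_lt_mul_of_pos_right hy (Real.exp_pos _)
    have e3 : κ * Real.exp y * Real.exp (u - w) = κ * Real.exp (y + (u - w)) := by
      rw [mul_assoc, ← Real.exp_add]
    have e4 : κ * Real.exp (y + (u - w)) ≤ κ * Real.exp (-x) :=
      mul_le_mul_of_nonneg_left (Real.exp_le_exp.mpr (by linarith)) hκ.le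
    rw [e1]
    calc C₅ * Real.exp (u - w) < κ * Real.exp y * Real.exp (u - w) := e2
      _ = κ * Real.exp (y + (u - w)) := e3
      _ ≤ κ * Real.exp (-x) := e4
      _ = Real.exp (-x) * κ := mul_comm _ _
  exact absurd h2 (not_le.mpr h4)

lemma d18_nm_pos (B : MvPolynomial (Fin d) ℂ) (hB : B ≠ 0) : 0 < nm 1 B := by
  obtain ⟨m, hm⟩ := MvPolynomial.ne_zero_iff.mp hB
  exact (norm_pos_iff.mpr hm).trans_le (coeff_le_nm B m)

lemma d18_deg (B : MvPolynomial (Fin d) ℂ) (N : ℕ) (hB : B.totalDegree ≤ N) (m : Fin d →₀ ℕ) (hm : B.coeff m ≠ 0) :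
    (m.sum fun _ e => e) ≤ N :=
  (MvPolynomial.le_totalDegree (MvPolynomial.mem_support_iff.mpr hm)).trans hB

/-- the lower bound of the product of the coefficients of the theta series -/
lemma d18_vt (C₀ y : ℝ) (hy : 0 ≤ y) (P : Par d) (D : Dt d) (hA : Adm C₀ y P D) (n : Fin (d + 1) → ℤ) (b : ℝ)
    (hn : ∀ l, 0 ≤ n l ∧ ((n l : ℝ) + 1) ^ 2 ≤ b) :
    Real.exp (-(7 * y * b * (d + 1))) ≤ ∏ l, ‖vt D.τ (D.h l) (n l)‖ := by
  have h1 : ∀ l, Real.exp (-(7 * y * b)) ≤ ‖vt D.τ (D.h l) (n l)‖ := by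
    intro l
    have h2 := hA.h l
    rw [hA.τ] at h2
    have h3 := (vt_bd y hy (D.h l) h2 (n l)).2 (hn l).1
    rw [hA.τ]
    refine le_trans (Real.exp_le_exp.mpr ?_) h3
    have := mul_le_mul_of_nonneg_left (hn l).2 (by positivity : 0 ≤ 7 * y)
    linarith
  calc Real.exp (-(7 * y * b * (d + 1))) = ∏ _l : Fin (d + 1), Real.exp (-(7 * y * b)) := by
        rw [Finset.prod_const, Finset.card_univ, Fintype.card_fin, ← Real.exp_nat_mul]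
        congr 1
        push_cast
        ring
    _ ≤ _ := Finset.prod_le_prod (fun _ _ => (Real.exp_pos _).le) fun l _ => h1 l

/-- the parameters -/
lemma d18_par (C c₃ d C₁' ℓ : ℕ) (hℓ : 1 ≤ ℓ) (h : C * c₃ * (2 * c₃ + 1) * (d ^ 2 + 1) + d ^ 2 + 1 ≤ C₁') :
    C * (c₃ * ℓ ^ (3 * d)) * ((2 * c₃ + 1) * ℓ ^ 3) * (d * (d * ℓ ^ (3 * d * (d + 2))) + 1) + d * (d * ℓ ^ (3 * d * (d + 2))) + 1 ≤
      C₁' * ℓ ^ (3 * d ^ 2 + 9 * d + 3) := by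
  have hA : 1 ≤ ℓ ^ (3 * d) := Nat.one_le_pow _ _ hℓ
  have hB : 1 ≤ ℓ ^ 3 := Nat.one_le_pow _ _ hℓ
  have hL : 1 ≤ ℓ ^ (3 * d * (d + 2)) := Nat.one_le_pow _ _ hℓ
  have he : ℓ ^ (3 * d ^ 2 + 9 * d + 3) = ℓ ^ (3 * d) * ℓ ^ 3 * ℓ ^ (3 * d * (d + 2)) := by
    rw [← pow_add, ← pow_add]
    congr 1
    ring
  rw [he]
  set A := ℓ ^ (3 * d) with hAd
  set B := ℓ ^ 3 with hBd
  set L := ℓ ^ (3 * d * (d + 2)) with hLd
  have h1 : d * (d * L) + 1 ≤ (d ^ 2 + 1) * L := by nlinarith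
  have h2 : (d ^ 2 + 1) * L ≤ (d ^ 2 + 1) * (A * B * L) := by
    refine Nat.mul_le_mul_left _ ?_
    calc L = 1 * 1 * L := by ring
      _ ≤ A * B * L := Nat.mul_le_mul_right _ (Nat.mul_le_mul hA hB)
  calc C * (c₃ * A) * ((2 * c₃ + 1) * B) * (d * (d * L) + 1) + d * (d * L) + 1
      = C * (c₃ * A) * ((2 * c₃ + 1) * B) * (d * (d * L) + 1) + (d * (d * L) + 1) := by ring
    _ ≤ C * (c₃ * A) * ((2 * c₃ + 1) * B) * ((d ^ 2 + 1) * L) + (d ^ 2 + 1) * (A * B * L) :=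
        Nat.add_le_add (Nat.mul_le_mul_left _ h1) (h1.trans h2)
    _ = (C * c₃ * (2 * c₃ + 1) * (d ^ 2 + 1) + d ^ 2 + 1) * (A * B * L) := by ring
    _ ≤ C₁' * (A * B * L) := Nat.mul_le_mul_right _ h

lemma d18_grid (c₃ d ℓ : ℕ) (hd : 1 ≤ d) (hℓ : 1 ≤ ℓ) :
    2 * (c₃ * ℓ ^ (3 * d)) + 1 ≤ ((2 * c₃ + 1) * ℓ ^ 3 + 1) ^ d := by
  have hA : 1 ≤ ℓ ^ (3 * d) := Nat.one_le_pow _ _ hℓ
  calc 2 * (c₃ * ℓ ^ (3 * d)) + 1 ≤ (2 * c₃ + 1) * ℓ ^ (3 * d) := by nlinarith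
    _ ≤ (2 * c₃ + 1) ^ d * ℓ ^ (3 * d) := by
        refine Nat.mul_le_mul_right _ ?_
        exact Nat.le_self_pow (by omega) _
    _ = ((2 * c₃ + 1) * ℓ ^ 3) ^ d := by
        rw [mul_pow, ← pow_mul]
    _ ≤ _ := Nat.pow_le_pow_left (by omega) d

/-- D18a. first type. PROOF. `N = K = d ℓ^(3d(d+2))`, `W = c₃ ℓ^(3d)`, `X₀ = (2c₃+1) ℓ³`, `(X₀+1)^d ≥ 2W+1`, `T = C₁ℓ^f`, `f = 3d²+9d+3`: `C W X₀ (dK+1) + dK + 1 ≤ C₁ ℓ^(3d+3+3d(d+2))` for `C₁` large (`C` from `engine`). Suppose all the derivatives vanish. `GR_vanish`; `C₀ = Cs P D c ≠ 0` (`Cs_ne`),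
`totalDegree ≤ dE = N` (`Cs_deg`). Let `s_k = eps_k` if `δ ≤ ‖eps_k‖`, else `1`, and `r_k = eps_k/s_k` (`s_k ≠ 0`, `‖r_k‖ ≤ 1` as `δ ≤ 1`, `‖s_k‖ ≥ δ`). `B` from `chg`, so `GR v = TH (tt v) (aeval (lin' ..) B)` (definition of `GR`) and `nm 1 B > 0`. `engine` with `ρ = 1`.
(1) if all `‖eps_k‖ ≥ δ`: `r = 1`, `lowG` gives `m`, `|m| ≤ N`: with `n = 0` and `‖vt(.,0)‖ ≥ e^{-7y}` (`vt_bd`): `e^{-7(d+1)y} c nm 1 B ≤ C₅ nm 1 B e^{(2d+2)y - yW²}`, impossible for `y ≥ Y` if `W² ≥ 9(d+1) + 1`. (2) if `‖eps_i‖ < δ` for one `i`: `s_i = 1`, `r_i = eps_i`, the others are `≥ δ` by the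
assumption: `lowA` gives `n, m` (`n_l ≤ ℓ^(3d) < W`; `coeff ≠ 0`, so `|m| ≤ N = K`), `∏‖vt‖ ≥ e^{-28(d+1)ℓ^(6d)y}` (`(n_l+1)² ≤ 4ℓ^(6d)`), `∏‖r_k‖^(m_k) = ‖eps_i‖^(m_i) ≥ e^{-C₇dℓ^(6d)y}` (`eps_low`): `c e^{-(28(d+1) + C₇d)ℓ^(6d)y} ≤ C₅ e^{(2d+2)y - c₃²ℓ^(6d)y}`, impossible for
`c₃² ≥ 28(d+1) + C₇d + 2d + 3` and `y ≥ Y(ℓ)`. -/
theorem propA (P : Par d) (hd : 1 ≤ d) (C₀ δ : ℝ) (hδ : 0 < δ) (hδ1 : δ ≤ 1) : ∃ C₁ : ℕ, 1 ≤ C₁ ∧ ∀ C₁' : ℕ, C₁ ≤ C₁' → ∀ ℓ : ℕ, 1 ≤ ℓ → ∃ Y : ℝ, 1 ≤ Y ∧ ∀ y : ℝ, Y ≤ y →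
    ∀ D : Dt d, Adm C₀ y P D → (∀ k k' : Fin d, k ≠ k' → δ ≤ ‖eps P D k‖ ∨ δ ≤ ‖eps P D k'‖) → ∀ c : Ir d (ℓ ^ (3 * d * (d + 2))) → ℂ, c ≠ 0 →
    ∃ a : Fin d → ℕ, (∀ j, a j ≤ C₁' * ℓ ^ (3 * d ^ 2 + 9 * d + 3)) ∧ ∃ k < C₁' * ℓ ^ (3 * d ^ 2 + 9 * d + 3),
      iteratedDeriv k (fun ζ : ℂ => FR P D c (fun j => ζ * a j)) 0 ≠ 0 := by
  obtain ⟨C, hC, heng⟩ := engine P hd
  obtain ⟨C₇, hC₇, heps⟩ := eps_low P C₀
  set S : ℝ := 28 * (d + 1) + C₇ * d + 2 * d + 3 with hS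
  have hd0 : (0 : ℝ) ≤ d := Nat.cast_nonneg _
  have hC₇0 : 0 ≤ C₇ := zero_le_one.trans hC₇
  have hC₇d : 0 ≤ C₇ * d := mul_nonneg hC₇0 hd0
  set c₃ : ℕ := ⌈S⌉₊ + 2 with hc₃
  have hc₃S : S + 1 ≤ (c₃ : ℝ) := by
    have := Nat.le_ceil S
    rw [hc₃]
    push_cast
    linarith
  have hc₃2 : S ≤ (c₃ : ℝ) ^ 2 := by nlinarith
  refine ⟨C * c₃ * (2 * c₃ + 1) * (d ^ 2 + 1) + d ^ 2 + 1, by omega, ?_⟩
  intro C₁' hC₁' ℓ hℓ
  have hpar := d18_par C c₃ d C₁' ℓ hℓ hC₁'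
  have hgrid := d18_grid c₃ d ℓ hd hℓ
  have hAn : 1 ≤ ℓ ^ (3 * d) := Nat.one_le_pow _ _ hℓ
  have hBn : 1 ≤ ℓ ^ 3 := Nat.one_le_pow _ _ hℓ
  set W : ℕ := c₃ * ℓ ^ (3 * d) with hW
  set X₀ : ℕ := (2 * c₃ + 1) * ℓ ^ 3 with hX₀
  set N : ℕ := d * ℓ ^ (3 * d * (d + 2)) with hN
  set T : ℕ := C₁' * ℓ ^ (3 * d ^ 2 + 9 * d + 3) with hT
  have hW2 : 2 * ℓ ^ (3 * d) ≤ W := Nat.mul_le_mul_right _ (by omega)
  have hW1 : 1 ≤ W := by omega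
  have hX1 : 1 ≤ X₀ := Nat.mul_le_mul (by omega : 1 ≤ 2 * c₃ + 1) hBn
  obtain ⟨C₅, hC₅, heng'⟩ := heng N W N X₀ T hW1 hX1 hgrid hpar δ hδ
  obtain ⟨cG, hcG, hlowG⟩ := lowG P δ hδ N
  obtain ⟨cA, hcA, hlowA⟩ := lowA P δ hδ ℓ hℓ
  set κ : ℝ := min cG cA with hκ
  have hκ0 : 0 < κ := lt_min hcG hcA
  have hC₅0 : 0 ≤ C₅ := zero_le_one.trans hC₅
  refine ⟨1 + C₅ / κ, by have : 0 ≤ C₅ / κ := div_nonneg hC₅0 hκ0.le; linarith, ?_⟩
  intro y hy D hAdm hdich c hc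
  have hy1 : 1 ≤ y := by have : 0 ≤ C₅ / κ := div_nonneg hC₅0 hκ0.le; linarith
  have hy0 : 0 ≤ y := zero_le_one.trans hy1
  have hexp : C₅ < κ * Real.exp y := by
    have h1 : y + 1 ≤ Real.exp y := Real.add_one_le_exp y
    have h2 : C₅ / κ < Real.exp y := by linarith
    rwa [div_lt_iff₀' hκ0] at h2
  by_contra hcon
  push Not at hcon
  have hGR := fun a (ha : ∀ j, a j ≤ T) => GR_vanish P D c a T (hcon a ha)
  have hCne := Cs_ne P D c hc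
  have hCdeg : (Cs P D c).totalDegree ≤ N := Cs_deg P D c
  set s : Fin d → ℂ := fun k => if δ ≤ ‖eps P D k‖ then eps P D k else 1 with hs
  set r : Fin d → ℂ := fun k => if δ ≤ ‖eps P D k‖ then 1 else eps P D k with hr
  have hs0 : ∀ k, s k ≠ 0 := by
    intro k
    simp only [hs]
    split_ifs with h
    · exact norm_pos_iff.mp (hδ.trans_le h)
    · exact one_ne_zero
  have hrs : ∀ k, r k * s k = eps P D k := by
    intro k
    simp only [hs, hr]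
    split_ifs <;> simp
  have hr1 : ∀ k, ‖r k‖ ≤ 1 := by
    intro k
    simp only [hr]
    split_ifs with h
    · simp
    · exact (not_le.mp h).le.trans hδ1
  have hsδ : ∀ k, δ ≤ ‖s k‖ := by
    intro k
    simp only [hs]
    split_ifs with h
    · exact h
    · simpa using hδ1
  obtain ⟨B, hBne, hBdeg, hBid⟩ := chg P D r s hs0 hrs (Cs P D c) hCne
  have hBN : B.totalDegree ≤ N := hBdeg.trans hCdeg
  have hnm : 0 < nm 1 B := d18_nm_pos B hBne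
  have hvan : ∀ a : Fin d → ℕ, (∀ j, a j ≤ T) → ∀ k < T, iteratedDeriv k (fun ζ : ℂ =>
      TH D (tt P.z (fun j => ζ * a j)) (MvPolynomial.aeval (lin' P r s (eg P (tt P.z (fun j => ζ * a j)))) B)) 0 = 0 := by
    intro a ha k hk
    have h1 := hGR a ha k hk
    have h2 : (fun ζ : ℂ => GR P D c (fun j => ζ * a j)) = (fun ζ : ℂ =>
      TH D (tt P.z (fun j => ζ * a j)) (MvPolynomial.aeval (lin' P r s (eg P (tt P.z (fun j => ζ * a j)))) B)) := by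
      funext ζ
      unfold GR
      rw [hBid]
    rw [h2] at h1
    exact h1
  have hE := heng' y hy1 D hAdm.τ hAdm.h 1 r s zero_le_one le_rfl hr1 hsδ B hBN hvan
  simp only [le_refl, if_true] at hE
  have hM1 : (1 : ℝ) ≤ (ℓ : ℝ) ^ (3 * d) := by exact_mod_cast hAn
  have hWr : (W : ℝ) ^ 2 = (c₃ : ℝ) ^ 2 * ((ℓ : ℝ) ^ (3 * d)) ^ 2 := by
    rw [hW]
    push_cast
    ring
  have hMM : (1 : ℝ) ≤ ((ℓ : ℝ) ^ (3 * d)) ^ 2 := one_le_pow₀ hM1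
  have hWS : S * ((ℓ : ℝ) ^ (3 * d)) ^ 2 ≤ (W : ℝ) ^ 2 := by
    rw [hWr]
    exact mul_le_mul_of_nonneg_right hc₃2 (by positivity)
  by_cases hall : ∀ k, δ ≤ ‖eps P D k‖
  · -- no small eigenvalue
    obtain ⟨m, hm, hcoef⟩ := hlowG s hsδ B hBN
    have hr' : ∀ k, r k = 1 := by
      intro k
      simp only [hr]
      rw [if_pos (hall k)]
    have h1 := hE 0 (fun l => ⟨by simp, by simpa using (by omega : 0 < W)⟩) m hm
    have h2 : ∏ k, ‖r k‖ ^ (m k) = 1 := by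
      refine Finset.prod_eq_one fun k _ => ?_
      rw [hr' k]
      simp
    have hv := d18_vt C₀ y hy0 P D hAdm 0 1 (fun l => ⟨by simp, by simp⟩)
    refine d18_fin κ C₅ y (7 * y * 1 * (d + 1)) ((2 * d + 2) * y) (y * (W : ℝ) ^ 2) _ _ (∏ k, ‖r k‖ ^ (m k)) (nm 1 B) hκ0 hnm hexp ?_ ?_ ?_
      ((mul_le_mul_of_nonneg_right (min_le_left _ _) hnm.le).trans hcoef) h1
    · have h3 : S ≤ (W : ℝ) ^ 2 := by
        have hS0 : 0 ≤ S := by rw [hS]; linarith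
        have := mul_le_mul_of_nonneg_left hMM hS0
        linarith
      have h4 := mul_le_mul_of_nonneg_left h3 hy0
      have h5 : y * S = 28 * (d + 1) * y + C₇ * d * y + 2 * d * y + 3 * y := by
        rw [hS]
        ring
      have h6 : 0 ≤ C₇ * d * y := mul_nonneg hC₇d hy0
      have h7 : 0 ≤ (d : ℝ) * y := mul_nonneg hd0 hy0
      linarith
    · rw [h2]
      linarith [hv]
    · exact mul_nonneg (Finset.prod_nonneg fun _ _ => norm_nonneg _) (Finset.prod_nonneg fun _ _ => pow_nonneg (norm_nonneg _) _)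
  · -- one small eigenvalue
    push Not at hall
    obtain ⟨i, hi⟩ := hall
    have hoth : ∀ k, k ≠ i → δ ≤ ‖eps P D k‖ := by
      intro k hk
      rcases hdich k i hk with h | h
      · exact h
      · exact absurd h (not_le.mpr hi)
    have hsi : s i = 1 := by
      simp only [hs]
      rw [if_neg (not_le.mpr hi)]
    have hri : r i = eps P D i := by
      simp only [hr]
      rw [if_neg (not_le.mpr hi)]
    have hrk : ∀ k, k ≠ i → r k = 1 := by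
      intro k hk
      simp only [hr]
      rw [if_pos (hoth k hk)]
    obtain ⟨n, hn, m, hmi, hcoef⟩ := hlowA i s hsi (fun k _ => hsδ k) B hBN
    have hcpos : 0 < ‖(sh (fun k => -sg P s n k) B).coeff m‖ := (mul_pos hcA hnm).trans_le hcoef
    have hmN : (m.sum fun _ e => e) ≤ N :=
      d18_deg _ N ((sh_deg _ B).trans hBN) m (norm_pos_iff.mp hcpos)
    have hnW : ∀ l, -(W : ℤ) ≤ n l ∧ n l < W := by
      intro l
      have h1 := (hn l).1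
      have h2 := (hn l).2
      have h3 : (2 : ℤ) * (ℓ : ℤ) ^ (3 * d) ≤ W := by exact_mod_cast hW2
      have h4 : (1 : ℤ) ≤ (ℓ : ℤ) ^ (3 * d) := by exact_mod_cast hAn
      constructor <;> omega
    have h1 := hE n hnW m hmN
    have hb : ∀ l, 0 ≤ n l ∧ ((n l : ℝ) + 1) ^ 2 ≤ 4 * ((ℓ : ℝ) ^ (3 * d)) ^ 2 := by
      intro l
      refine ⟨(hn l).1, ?_⟩
      have h2 : (n l : ℝ) ≤ (ℓ : ℝ) ^ (3 * d) := by exact_mod_cast (hn l).2
      have h3 : (0 : ℝ) ≤ n l := by exact_mod_cast (hn l).1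
      have h4 : (n l : ℝ) + 1 ≤ 2 * (ℓ : ℝ) ^ (3 * d) := by linarith
      calc ((n l : ℝ) + 1) ^ 2 ≤ (2 * (ℓ : ℝ) ^ (3 * d)) ^ 2 := pow_le_pow_left₀ (by linarith) h4 2
        _ = _ := by ring
    have hv := d18_vt C₀ y hy0 P D hAdm n _ hb
    have h2 : ∏ k, ‖r k‖ ^ (m k) = ‖eps P D i‖ ^ (m i) := by
      rw [Finset.prod_eq_single i]
      · rw [hri]
      · intro k _ hk
        rw [hrk k hk]
        simp
      · intro h
        exact absurd (Finset.mem_univ _) h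
    have h3 : Real.exp (-(C₇ * y * (d * ((ℓ : ℝ) ^ (3 * d)) ^ 2))) ≤ ‖eps P D i‖ ^ (m i) := by
      have h4 := heps y hy1 D hAdm i
      have h5 : (m i : ℝ) ≤ d * ((ℓ : ℝ) ^ (3 * d)) ^ 2 := by
        have h6 : (m i : ℝ) ≤ ((d * ℓ ^ (6 * d) : ℕ) : ℝ) := by exact_mod_cast hmi
        have h7 : (((d * ℓ ^ (6 * d) : ℕ) : ℝ)) = d * ((ℓ : ℝ) ^ (3 * d)) ^ 2 := by
          push_cast
          rw [← pow_mul]
          congr 2
          ring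
        rwa [h7] at h6
      calc Real.exp (-(C₇ * y * (d * ((ℓ : ℝ) ^ (3 * d)) ^ 2))) ≤ Real.exp (-(C₇ * y * (m i : ℝ))) := by
            refine Real.exp_le_exp.mpr ?_
            have := mul_le_mul_of_nonneg_left h5 (mul_nonneg hC₇0 hy0)
            linarith
        _ = Real.exp (-(C₇ * y)) ^ (m i) := by
            rw [← Real.exp_nat_mul]
            congr 1
            ring
        _ ≤ _ := pow_le_pow_left₀ (Real.exp_pos _).le h4 _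
    refine d18_fin κ C₅ y (7 * y * (4 * ((ℓ : ℝ) ^ (3 * d)) ^ 2) * (d + 1) + C₇ * y * (d * ((ℓ : ℝ) ^ (3 * d)) ^ 2)) ((2 * d + 2) * y) (y * (W : ℝ) ^ 2)
      _ _ (∏ k, ‖r k‖ ^ (m k)) (nm 1 B) hκ0 hnm hexp ?_ ?_ ?_
      ((mul_le_mul_of_nonneg_right (min_le_right _ _) hnm.le).trans hcoef) h1
    · set M : ℝ := ((ℓ : ℝ) ^ (3 * d)) ^ 2 with hM
      have h4 := mul_le_mul_of_nonneg_left hWS hy0
      have h5 : y * (S * M) = 7 * y * (4 * M) * (d + 1) + C₇ * y * (d * M) + (2 * d + 3) * y * M := by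
        rw [hS]
        ring
      have h6 : (2 * d + 3) * y * 1 ≤ (2 * d + 3) * y * M := mul_le_mul_of_nonneg_left hMM (by positivity)
      linarith
    · rw [h2, neg_add, Real.exp_add]
      exact mul_le_mul hv h3 (Real.exp_pos _).le (Finset.prod_nonneg fun _ _ => norm_nonneg _)
    · exact mul_nonneg (Finset.prod_nonneg fun _ _ => norm_nonneg _) (Finset.prod_nonneg fun _ _ => pow_nonneg (norm_nonneg _) _)

end Pool.Agent.MSR
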