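import Pool.Agent.Lib.MP_f58a57_nt.R.Defs
import Pool.Agent.Lib.MP_f58a57_nt.R.A4_Bp
import Pool.Agent.Lib.MP_f58a57_nt.R.B5_FG
import Pool.Agent.Lib.MP_f58a57_nt.R.D5_Chg
import Pool.Agent.Lib.MP_f58a57_nt.R.D6b_VtBound
import Pool.Agent.Lib.MP_f58a57_nt.R.D13_LowB
import Pool.Agent.Lib.MP_f58a57_nt.R.D16_Engine
import Pool.Agent.Lib.MP_f58a57_nt.R.D17_EpsLow

/-! # R/D18b_PropZ: the zero estimate for the specialised curves, second type -/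

open Complex Filter Topology IntermediateField

noncomputable section

namespace Pool.Agent.MSR

open MSD MSP MSK

variable {d : ℕ}

theorem d18b_nm_pos (B : MvPolynomial (Fin d) ℂ) (hB : B ≠ 0) : 0 < nm 1 B := by
  obtain ⟨m, hm⟩ := MvPolynomial.ne_zero_iff.1 hB
  have h1 : m ∈ B.support := MvPolynomial.mem_support_iff.2 hm
  unfold nm
  refine Finset.sum_pos (fun m hm => ?_) ⟨m, h1⟩
  have h2 := norm_pos_iff.2 (MvPolynomial.mem_support_iff.1 hm)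
  positivity

theorem d18b_vt (y : ℝ) (hy : 0 ≤ y) (D : Dt d) (hτ : D.τ = I * y)
    (hh : ∀ l, D.h l = 1 / 2 ∨ D.h l = D.τ / 2 ∨ D.h l = (1 + D.τ) / 2) (L : ℝ)
    (n : Fin (d + 1) → ℤ) (hn0 : ∀ l, 0 ≤ n l) (hn : ∀ l, ((n l : ℝ) + 1) ^ 2 ≤ L) :
    Real.exp (-(7 * (d + 1) * L * y)) ≤ ∏ l, ‖vt D.τ (D.h l) (n l)‖ := by
  have h1 : ∏ _l : Fin (d + 1), Real.exp (-(7 * y * L)) ≤ ∏ l, ‖vt D.τ (D.h l) (n l)‖ := by
    refine Finset.prod_le_prod (fun _ _ => (Real.exp_pos _).le) fun l _ => ?_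
    have h2 := (vt_bd y hy (D.h l) (by have h3 := hh l; rw [hτ] at h3; exact h3) (n l)).2 (hn0 l)
    rw [hτ]
    refine le_trans (Real.exp_le_exp.2 ?_) h2
    have h4 : 7 * y * ((n l : ℝ) + 1) ^ 2 ≤ 7 * y * L :=
      mul_le_mul_of_nonneg_left (hn l) (mul_nonneg (by norm_num) hy)
    linarith only [h4]
  refine le_trans (le_of_eq ?_) h1
  rw [Finset.prod_const, Finset.card_univ, Fintype.card_fin, ← Real.exp_nat_mul]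
  congr 1
  push_cast
  ring

theorem d18b_eps (C₇ y : ℝ) (hC : 0 ≤ C₇) (hy : 0 ≤ y) (r : Fin d → ℂ)
    (hr : ∀ k, Real.exp (-(C₇ * y)) ≤ ‖r k‖) (m : Fin d →₀ ℕ) (M : ℝ)
    (hm : ((m.sum fun _ e => e : ℕ) : ℝ) ≤ M) :
    Real.exp (-(C₇ * M * y)) ≤ ∏ k, ‖r k‖ ^ (m k) := by
  have h1 : ∏ k : Fin d, Real.exp (-(C₇ * y)) ^ (m k) ≤ ∏ k, ‖r k‖ ^ (m k) := by
    refine Finset.prod_le_prod (fun _ _ => by positivity) fun k _ => ?_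
    exact pow_le_pow_left₀ (Real.exp_pos _).le (hr k) _
  refine le_trans ?_ h1
  rw [Finset.prod_pow_eq_pow_sum, ← Real.exp_nat_mul]
  have h2 : (m.sum fun _ e => e) = ∑ k, m k := Finsupp.sum_fintype _ _ (fun _ => rfl)
  rw [h2] at hm
  refine Real.exp_le_exp.2 ?_
  have h3 : C₇ * y * ((∑ k, m k : ℕ) : ℝ) ≤ C₇ * y * M :=
    mul_le_mul_of_nonneg_left hm (mul_nonneg hC hy)
  linarith only [h3]

theorem d18b_num (C c₃ c₄ C' ℓ : ℕ) (hℓ : 1 ≤ ℓ)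
    (hC' : C * c₃ * (2 * c₃ + 1) * (d * c₄ + 1) + d * c₄ + 1 ≤ C') :
    C * (c₃ * ℓ ^ (d * (d + 2))) * ((2 * c₃ + 1) * ℓ ^ (d + 2)) *
      (d * (c₄ * ℓ ^ (2 * d * (d + 2))) + 1) + d * (c₄ * ℓ ^ (2 * d * (d + 2))) + 1 ≤
      C' * ℓ ^ (3 * d ^ 2 + 9 * d + 3) := by
  have h1 : d * (c₄ * ℓ ^ (2 * d * (d + 2))) + 1 ≤ (d * c₄ + 1) * ℓ ^ (2 * d * (d + 2)) := by
    have h2 : 1 ≤ ℓ ^ (2 * d * (d + 2)) := Nat.one_le_pow _ _ hℓ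
    calc d * (c₄ * ℓ ^ (2 * d * (d + 2))) + 1
        ≤ d * (c₄ * ℓ ^ (2 * d * (d + 2))) + ℓ ^ (2 * d * (d + 2)) := by omega
      _ = (d * c₄ + 1) * ℓ ^ (2 * d * (d + 2)) := by ring
  have h3 : ℓ ^ (d * (d + 2)) * ℓ ^ (d + 2) * ℓ ^ (2 * d * (d + 2)) =
      ℓ ^ (3 * d ^ 2 + 7 * d + 2) := by
    rw [← pow_add, ← pow_add]
    congr 1
    ring
  have h4 : ℓ ^ (3 * d ^ 2 + 7 * d + 2) ≤ ℓ ^ (3 * d ^ 2 + 9 * d + 3) :=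
    Nat.pow_le_pow_right hℓ (by omega)
  have h5 : ℓ ^ (2 * d * (d + 2)) ≤ ℓ ^ (3 * d ^ 2 + 9 * d + 3) :=
    Nat.pow_le_pow_right hℓ (by
      rw [show 2 * d * (d + 2) = 2 * d ^ 2 + 4 * d by ring]
      omega)
  calc C * (c₃ * ℓ ^ (d * (d + 2))) * ((2 * c₃ + 1) * ℓ ^ (d + 2)) *
      (d * (c₄ * ℓ ^ (2 * d * (d + 2))) + 1) + d * (c₄ * ℓ ^ (2 * d * (d + 2))) + 1
      ≤ C * (c₃ * ℓ ^ (d * (d + 2))) * ((2 * c₃ + 1) * ℓ ^ (d + 2)) *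
        ((d * c₄ + 1) * ℓ ^ (2 * d * (d + 2))) + (d * c₄ + 1) * ℓ ^ (2 * d * (d + 2)) := by
        have h6 := Nat.mul_le_mul_left
          (C * (c₃ * ℓ ^ (d * (d + 2))) * ((2 * c₃ + 1) * ℓ ^ (d + 2))) h1
        rw [add_assoc]
        exact Nat.add_le_add h6 h1
    _ = C * c₃ * (2 * c₃ + 1) * (d * c₄ + 1) *
          (ℓ ^ (d * (d + 2)) * ℓ ^ (d + 2) * ℓ ^ (2 * d * (d + 2))) +
          (d * c₄ + 1) * ℓ ^ (2 * d * (d + 2)) := by ring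
    _ ≤ C * c₃ * (2 * c₃ + 1) * (d * c₄ + 1) * ℓ ^ (3 * d ^ 2 + 9 * d + 3) +
          (d * c₄ + 1) * ℓ ^ (3 * d ^ 2 + 9 * d + 3) := by
        rw [h3]
        exact Nat.add_le_add (Nat.mul_le_mul_left _ h4) (Nat.mul_le_mul_left _ h5)
    _ = (C * c₃ * (2 * c₃ + 1) * (d * c₄ + 1) + d * c₄ + 1) * ℓ ^ (3 * d ^ 2 + 9 * d + 3) := by
        ring
    _ ≤ C' * ℓ ^ (3 * d ^ 2 + 9 * d + 3) := Nat.mul_le_mul_right _ hC'

private lemma d18b_sq (x : ℝ) (hx : 0 ≤ x) : x ≤ (x + 2) ^ 2 := by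
  have h1 := mul_nonneg hx hx
  have h2 : (x + 2) ^ 2 = x * x + 4 * x + 4 := by ring
  rw [h2]
  linarith only [h1, hx]

private lemma d18b_sq' (n X : ℝ) (h3 : 0 ≤ n) (h2 : n ≤ X) (h4 : 1 ≤ X) :
    (n + 1) ^ 2 ≤ 4 * X ^ 2 := by
  have h5 : (2 * X) ^ 2 = 4 * X ^ 2 := by ring
  rw [← h5]
  exact pow_le_pow_left₀ (by linarith only [h3]) (by linarith only [h2, h4]) 2

/-- the final contradiction, real variables only -/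
theorem d18b_real (dd C₇ Λ L y c C₅ nb A R co E : ℝ) (hdd : 0 ≤ dd) (hΛ : Λ = 28 * (dd + 1) + C₇ * dd + 2 * dd + 3)
    (hL : 1 ≤ L) (hy : 1 ≤ y) (hc : 0 < c) (hC5 : 1 ≤ C₅) (hnb : 0 < nb)
    (hY : Real.log (2 * C₅ / c) < y)
    (hA : Real.exp (-(28 * (dd + 1) * L * y)) ≤ A) (hR : Real.exp (-(C₇ * (dd * L) * y)) ≤ R)
    (hco : c * nb ≤ co) (hE : E ≤ 2 * Real.exp (-(Λ * L * y)))
    (h : A * R * co ≤ C₅ * nb * Real.exp ((2 * dd + 2) * y) * E) : False := by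
  have h1 : Real.exp (-(28 * (dd + 1) * L * y)) * Real.exp (-(C₇ * (dd * L) * y)) * (c * nb) ≤
      A * R * co := by
    have hA0 : 0 ≤ A := (Real.exp_pos _).le.trans hA
    have hR0 : 0 ≤ R := (Real.exp_pos _).le.trans hR
    exact mul_le_mul (mul_le_mul hA hR (Real.exp_pos _).le hA0) hco (by positivity) (by positivity)
  have h2 : C₅ * nb * Real.exp ((2 * dd + 2) * y) * E ≤
      C₅ * nb * Real.exp ((2 * dd + 2) * y) * (2 * Real.exp (-(Λ * L * y))) :=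
    mul_le_mul_of_nonneg_left hE (by positivity)
  have h3 := (h1.trans h).trans h2
  have h4 : Real.exp (-(28 * (dd + 1) * L * y)) * Real.exp (-(C₇ * (dd * L) * y)) * (c * nb) =
      nb * (c * Real.exp (-(28 * (dd + 1) * L * y) + -(C₇ * (dd * L) * y))) := by
    rw [Real.exp_add]; ring
  have h5 : C₅ * nb * Real.exp ((2 * dd + 2) * y) * (2 * Real.exp (-(Λ * L * y))) =
      nb * (2 * C₅ * Real.exp ((2 * dd + 2) * y + -(Λ * L * y))) := by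
    rw [Real.exp_add]; ring
  rw [h4, h5] at h3
  have h6 := le_of_mul_le_mul_left h3 hnb
  have h7 : c ≤ 2 * C₅ * Real.exp (-y) := by
    have h8 : c * Real.exp (-(28 * (dd + 1) * L * y) + -(C₇ * (dd * L) * y)) *
        Real.exp (28 * (dd + 1) * L * y + C₇ * (dd * L) * y) = c := by
      rw [mul_assoc, ← Real.exp_add]
      rw [show -(28 * (dd + 1) * L * y) + -(C₇ * (dd * L) * y) +
        (28 * (dd + 1) * L * y + C₇ * (dd * L) * y) = 0 by ring, Real.exp_zero, mul_one]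
    rw [← h8]
    refine le_trans (mul_le_mul_of_nonneg_right h6 (Real.exp_pos _).le) ?_
    rw [mul_assoc, ← Real.exp_add]
    refine mul_le_mul_of_nonneg_left (Real.exp_le_exp.2 ?_) (by positivity)
    rw [hΛ]
    have h9 : (2 * dd + 3) * y ≤ (2 * dd + 3) * y * L := le_mul_of_one_le_right (by positivity) hL
    linarith only [h9]
  have h10 : 2 * C₅ / c < Real.exp y := by
    rw [← Real.log_lt_iff_lt_exp (by positivity)]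
    exact hY
  rw [div_lt_iff₀ hc] at h10
  have h11 : 2 * C₅ * Real.exp (-y) < c := by
    have h12 : Real.exp y * Real.exp (-y) = 1 := by
      rw [← Real.exp_add, add_neg_cancel, Real.exp_zero]
    calc 2 * C₅ * Real.exp (-y) < Real.exp y * c * Real.exp (-y) :=
          mul_lt_mul_of_pos_right h10 (Real.exp_pos _)
      _ = c * (Real.exp y * Real.exp (-y)) := by ring
      _ = c := by rw [h12, mul_one]
  exact absurd h7 (not_le.2 h11)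

/-- D18b. second type. PROOF. As `propA` (see there), with `s = 1`, `r = eps`, `ρ = e^{-ay}`, `N = d ℓ^(3d(d+2))`, `W = c₃ ℓ^(d(d+2))`, `K = c₄ ℓ^(2d(d+2))`, `X₀ = (2c₃+1)ℓ^(d+2)`: `C W X₀ (dK+1) + dK + 1 ≤ C₁ ℓ^(d(d+2) + (d+2) + 2d(d+2))` and `(d+2)(3d+1) ≤ 3d²+9d+3`. `lowB` gives `n` (`n_l ≤ ℓ^(d(d+2)) < W`),
`m`, `|m| ≤ d ℓ^(2d(d+2)) ≤ K`; `∏‖vt‖ ≥ e^{-28(d+1)ℓ^(2d(d+2))y}`, `∏‖eps_k‖^(m_k) ≥ e^{-C₇|m|y} ≥ e^{-C₇dℓ^(2d(d+2))y}`; `engine`: `c e^{-(28(d+1) + C₇d)ℓ^(2d(d+2))y} ≤ C₅ e^{(2d+2)y} (e^{-yc₃²ℓ^(2d(d+2))} + e^{-a(K+1)y})`, impossible for `y ≥ Y(ℓ)` if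
`c₃², a c₄ ≥ 28(d+1) + C₇d + 2d + 3`. -/
theorem propB (P : Par d) (hd : 1 ≤ d) (C₀ a₀ : ℝ) (ha : 0 < a₀) : ∃ C₁ : ℕ, 1 ≤ C₁ ∧ ∀ C₁' : ℕ, C₁ ≤ C₁' → ∀ ℓ : ℕ, 1 ≤ ℓ → ∃ Y : ℝ, 1 ≤ Y ∧ ∀ y : ℝ, Y ≤ y →
    ∀ D : Dt d, Adm C₀ y P D → (∀ k : Fin d, ‖eps P D k‖ ≤ Real.exp (-(a₀ * y))) → ∀ c : Ir d (ℓ ^ (3 * d * (d + 2))) → ℂ, c ≠ 0 →
    ∃ a : Fin d → ℕ, (∀ j, a j ≤ C₁' * ℓ ^ (3 * d ^ 2 + 9 * d + 3)) ∧ ∃ k < C₁' * ℓ ^ (3 * d ^ 2 + 9 * d + 3),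
      iteratedDeriv k (fun ζ : ℂ => FR P D c (fun j => ζ * a j)) 0 ≠ 0 := by
  obtain ⟨C, hC1, hC⟩ := engine P hd
  obtain ⟨C₇, hC7, hC7'⟩ := eps_low P C₀
  obtain ⟨Λ, hΛ⟩ : ∃ Λ : ℝ, Λ = 28 * ((d : ℝ) + 1) + C₇ * d + 2 * d + 3 := ⟨_, rfl⟩
  have hΛ0 : 0 ≤ Λ := by rw [hΛ]; positivity
  obtain ⟨c₃, hc3, hc3'⟩ : ∃ c₃ : ℕ, 2 ≤ c₃ ∧ Λ ≤ (c₃ : ℝ) ^ 2 := by
    refine ⟨⌈Λ⌉₊ + 2, by omega, ?_⟩
    have h1 := Nat.le_ceil Λ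
    push_cast
    exact h1.trans (d18b_sq _ (Nat.cast_nonneg _))
  obtain ⟨c₄, hc4, hc4'⟩ : ∃ c₄ : ℕ, d ≤ c₄ ∧ Λ ≤ a₀ * c₄ := by
    refine ⟨⌈Λ / a₀⌉₊ + d, by omega, ?_⟩
    have h1 := Nat.le_ceil (Λ / a₀)
    rw [div_le_iff₀ ha] at h1
    push_cast
    have h2 := mul_nonneg ha.le (Nat.cast_nonneg (α := ℝ) d)
    linarith only [h1, h2]
  refine ⟨C * c₃ * (2 * c₃ + 1) * (d * c₄ + 1) + d * c₄ + 1, by omega, fun C₁' hC1' ℓ hℓ => ?_⟩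
  have hnum := d18b_num (d := d) C c₃ c₄ C₁' ℓ hℓ hC1'
  have hW1 : 1 ≤ c₃ * ℓ ^ (d * (d + 2)) :=
    Nat.one_le_iff_ne_zero.2 (Nat.mul_ne_zero (by omega) (pow_ne_zero _ (by omega)))
  have hX1 : 1 ≤ (2 * c₃ + 1) * ℓ ^ (d + 2) :=
    Nat.one_le_iff_ne_zero.2 (Nat.mul_ne_zero (by omega) (pow_ne_zero _ (by omega)))
  have hWX : 2 * (c₃ * ℓ ^ (d * (d + 2))) + 1 ≤ ((2 * c₃ + 1) * ℓ ^ (d + 2) + 1) ^ d := by
    have h1 : ℓ ^ (d * (d + 2)) = (ℓ ^ (d + 2)) ^ d := by rw [← pow_mul, mul_comm]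
    have h2 : 2 * c₃ + 1 ≤ (2 * c₃ + 1) ^ d := Nat.le_self_pow (by omega) _
    have h3 : 1 ≤ ℓ ^ (d * (d + 2)) := Nat.one_le_pow _ _ hℓ
    calc 2 * (c₃ * ℓ ^ (d * (d + 2))) + 1 ≤ (2 * c₃ + 1) * ℓ ^ (d * (d + 2)) := by
          rw [add_mul, one_mul, mul_assoc]; omega
      _ ≤ (2 * c₃ + 1) ^ d * ℓ ^ (d * (d + 2)) := Nat.mul_le_mul_right _ h2
      _ = ((2 * c₃ + 1) * ℓ ^ (d + 2)) ^ d := by rw [mul_pow, h1]
      _ ≤ ((2 * c₃ + 1) * ℓ ^ (d + 2) + 1) ^ d := Nat.pow_le_pow_left (Nat.le_succ _) _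
  obtain ⟨C₅, hC5, hE⟩ := hC (c₄ * ℓ ^ (2 * d * (d + 2))) (c₃ * ℓ ^ (d * (d + 2)))
    (d * ℓ ^ (3 * d * (d + 2))) ((2 * c₃ + 1) * ℓ ^ (d + 2)) (C₁' * ℓ ^ (3 * d ^ 2 + 9 * d + 3))
    hW1 hX1 hWX hnum 1 one_pos
  obtain ⟨c, hc, hlow⟩ := lowB P ℓ hℓ
  refine ⟨max 1 (Real.log (2 * C₅ / c) + 1), le_max_left _ _, fun y hy D hD heps cc hcc => ?_⟩
  have hy1 : 1 ≤ y := (le_max_left _ _).trans hy
  have hy2 : Real.log (2 * C₅ / c) < y :=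
    lt_of_lt_of_le (lt_add_one _) ((le_max_right _ _).trans hy)
  by_contra hcon
  push Not at hcon
  obtain ⟨B, hB0, hBdeg, hB⟩ := chg P D (eps P D) (fun _ => 1) (fun _ => one_ne_zero)
    (fun k => mul_one _) (Cs P D cc) (Cs_ne P D cc hcc)
  have hBdeg' : B.totalDegree ≤ d * ℓ ^ (3 * d * (d + 2)) := hBdeg.trans (Cs_deg P D cc)
  obtain ⟨n, hn, m, hm, hlo⟩ := hlow B hBdeg'
  have hvan : ∀ a : Fin d → ℕ, (∀ j, a j ≤ C₁' * ℓ ^ (3 * d ^ 2 + 9 * d + 3)) →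
      ∀ k < C₁' * ℓ ^ (3 * d ^ 2 + 9 * d + 3), iteratedDeriv k (fun ζ : ℂ =>
      TH D (tt P.z (fun j => ζ * a j)) (MvPolynomial.aeval
        (lin' P (eps P D) (fun _ => 1) (eg P (tt P.z (fun j => ζ * a j)))) B)) 0 = 0 := by
    intro a ha' k hk
    have h1 := GR_vanish P D cc a _ (fun k hk => hcon a ha' k hk) k hk
    have h2 : (fun ζ : ℂ => GR P D cc (fun j => ζ * a j)) = (fun ζ : ℂ =>
      TH D (tt P.z (fun j => ζ * a j)) (MvPolynomial.aeval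
        (lin' P (eps P D) (fun _ => 1) (eg P (tt P.z (fun j => ζ * a j)))) B)) := by
      funext ζ
      unfold GR
      rw [hB]
    rw [h2] at h1
    exact h1
  have hr1 : Real.exp (-(a₀ * y)) ≤ 1 := by
    rw [Real.exp_le_one_iff]
    exact neg_nonpos.2 (mul_nonneg ha.le (zero_le_one.trans hy1))
  have hnW : ∀ l, -((c₃ * ℓ ^ (d * (d + 2)) : ℕ) : ℤ) ≤ n l ∧
      n l < ((c₃ * ℓ ^ (d * (d + 2)) : ℕ) : ℤ) := by
    intro l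
    have h1 := hn l
    have h2 : (1 : ℤ) ≤ (ℓ : ℤ) ^ (d * (d + 2)) := one_le_pow₀ (by exact_mod_cast hℓ)
    have h3 : (2 : ℤ) ≤ (c₃ : ℤ) := by exact_mod_cast hc3
    push_cast
    have h4 := mul_le_mul_of_nonneg_right h3 (zero_le_one.trans h2)
    exact ⟨by linarith only [h1.1, h2, h4], by linarith only [h1.2, h2, h4]⟩
  have hmK : (m.sum fun _ e => e) ≤ c₄ * ℓ ^ (2 * d * (d + 2)) :=
    hm.trans (Nat.mul_le_mul_right _ hc4)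
  have hfin := hE y hy1 D hD.τ hD.h (Real.exp (-(a₀ * y))) (eps P D) (fun _ => 1)
    (Real.exp_pos _).le hr1 heps (fun _ => by simp) B hBdeg' hvan n hnW m hmK
  -- real variables
  obtain ⟨L, hL⟩ : ∃ L : ℝ, L = (ℓ : ℝ) ^ (2 * d * (d + 2)) := ⟨_, rfl⟩
  have hℓ1 : (1 : ℝ) ≤ (ℓ : ℝ) := by exact_mod_cast hℓ
  have hL1 : 1 ≤ L := by rw [hL]; exact one_le_pow₀ hℓ1
  have hLsq : L = ((ℓ : ℝ) ^ (d * (d + 2))) ^ 2 := by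
    rw [hL, ← pow_mul]
    congr 1
    ring
  have hA : Real.exp (-(28 * ((d : ℝ) + 1) * L * y)) ≤ ∏ l, ‖vt D.τ (D.h l) (n l)‖ := by
    have h1 := d18b_vt y (zero_le_one.trans hy1) D hD.τ hD.h (4 * L) n (fun l => (hn l).1) (fun l => by
      have h2 : ((n l : ℤ) : ℝ) ≤ (ℓ : ℝ) ^ (d * (d + 2)) := by exact_mod_cast (hn l).2
      have h3 : (0 : ℝ) ≤ ((n l : ℤ) : ℝ) := by exact_mod_cast (hn l).1
      have h4 : (1 : ℝ) ≤ (ℓ : ℝ) ^ (d * (d + 2)) := one_le_pow₀ hℓ1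
      rw [hLsq]
      exact d18b_sq' _ _ h3 h2 h4)
    refine le_trans (le_of_eq ?_) h1
    congr 1
    ring
  have hR : Real.exp (-(C₇ * ((d : ℝ) * L) * y)) ≤ ∏ k, ‖eps P D k‖ ^ (m k) := by
    refine d18b_eps C₇ y (zero_le_one.trans hC7) (zero_le_one.trans hy1) (eps P D) (fun k => hC7' y hy1 D hD k) m _ ?_
    rw [hL]
    exact_mod_cast hm
  refine d18b_real (d : ℝ) C₇ Λ L y c C₅ (nm 1 B) _ _ _ _ (by positivity) hΛ hL1 hy1 hc hC5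
    (d18b_nm_pos B hB0) hy2 hA hR hlo ?_ hfin
  -- the error term
  have hWL : Real.exp (-(y * ((c₃ * ℓ ^ (d * (d + 2)) : ℕ) : ℝ) ^ 2)) ≤
      Real.exp (-(Λ * L * y)) := by
    refine Real.exp_le_exp.2 ?_
    push_cast
    rw [mul_pow, ← hLsq]
    have h1 : Λ * (L * y) ≤ (c₃ : ℝ) ^ 2 * (L * y) :=
      mul_le_mul_of_nonneg_right hc3' (mul_nonneg (zero_le_one.trans hL1) (zero_le_one.trans hy1))
    linarith only [h1]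
  have hρ : Real.exp (-(a₀ * y)) ^ (c₄ * ℓ ^ (2 * d * (d + 2)) + 1) ≤ Real.exp (-(Λ * L * y)) := by
    rw [← Real.exp_nat_mul]
    refine Real.exp_le_exp.2 ?_
    push_cast
    rw [← hL]
    have h1 : Λ * (L * y) ≤ a₀ * c₄ * (L * y) := mul_le_mul_of_nonneg_right hc4'
      (mul_nonneg (zero_le_one.trans hL1) (zero_le_one.trans hy1))
    have h2 : 0 ≤ a₀ * y := mul_nonneg ha.le (zero_le_one.trans hy1)
    linarith only [h1, h2]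
  split_ifs
  · have h1 := Real.exp_pos (-(Λ * L * y))
    linarith only [h1, hWL, hρ]
  · linarith only [hWL, hρ]

end Pool.Agent.MSR
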