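import Pool.Agent.Lib.MP_f58a57_nt.R.Defs
import Pool.Agent.Lib.MP_f58a57_nt.K.B2_Grow
import Pool.Agent.Lib.MP_f58a57_nt.K.B3_Cusp
import Pool.Agent.Lib.MP_f58a57_nt.K.B5_EmbPhi

/-! # R/D1_Emb: small algebraic functions are very small near the cusp -/

open Complex Filter Topology IntermediateField

noncomputable section

namespace Pool.Agent.MSR

open MSD MSP MSK

variable {d : ℕ}

/-- the coefficients with respect to the first variable -/
def d1_F (g : ℕ → Polynomial ℤ) (n j : ℕ) : Polynomial ℤ :=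
  ∑ i ∈ Finset.range (n + 1), Polynomial.C ((g i).coeff j) * Polynomial.X ^ i

theorem d1_F_coeff (g : ℕ → Polynomial ℤ) (n j i : ℕ) (hi : i ≤ n) : (d1_F g n j).coeff i = (g i).coeff j := by
  unfold d1_F
  rw [Polynomial.finsetSum_coeff, Finset.sum_eq_single i]
  · simp
  · intro k _ hk
    simp [Polynomial.coeff_X_pow, hk.symm]
  · intro h
    exact absurd (Finset.mem_range.2 (by omega)) h

theorem d1_swap (g : ℕ → Polynomial ℤ) (n M : ℕ) (hM : ∀ i ≤ n, (g i).natDegree ≤ M) (t z : ℂ) :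
    ∑ i ∈ Finset.range (n + 1), Polynomial.aeval t (g i) * z ^ i =
      ∑ j ∈ Finset.range (M + 1), t ^ j * Polynomial.aeval z (d1_F g n j) := by
  have h1 : ∀ i ∈ Finset.range (n + 1), Polynomial.aeval t (g i) * z ^ i =
      ∑ j ∈ Finset.range (M + 1), t ^ j * (((g i).coeff j : ℂ) * z ^ i) := by
    intro i hi
    have hi' := hM i (by have := Finset.mem_range.1 hi; omega)
    rw [Polynomial.aeval_eq_sum_range' (n := M + 1) (by omega), Finset.sum_mul]
    refine Finset.sum_congr rfl fun j _ => ?_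
    rw [zsmul_eq_mul]
    ring
  rw [Finset.sum_congr rfl h1, Finset.sum_comm]
  refine Finset.sum_congr rfl fun j _ => ?_
  rw [← Finset.mul_sum]
  congr 1
  unfold d1_F
  rw [map_sum]
  refine Finset.sum_congr rfl fun i _ => ?_
  simp

/-- the relation of the specialisation -/
theorem d1_rel (θ θ' : ℂ) (x : Kc θ) (e : Emb θ θ') (n : ℕ) (g : ℕ → Polynomial ℤ)
    (h : ∑ i ∈ Finset.range (n + 1), Polynomial.aeval θ (g i) * (x : ℂ) ^ i = 0) :
    ∑ i ∈ Finset.range (n + 1), Polynomial.aeval θ' (g i) * (e.σ x) ^ i = 0 := by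
  have hcoe : ∀ p : Polynomial ℤ, ((Polynomial.aeval (b5_th θ) p : Kc θ) : ℂ) = Polynomial.aeval θ p := by
    intro p
    induction p using Polynomial.induction_on' with
    | add p q hp hq => simp [map_add, hp, hq]
    | monomial n a => simp [Polynomial.aeval_monomial, b5_th_coe]
  have hσ : ∀ p : Polynomial ℤ, e.σ (Polynomial.aeval (b5_th θ) p) = Polynomial.aeval θ' p := by
    intro p
    induction p using Polynomial.induction_on' with
    | add p q hp hq => simp [map_add, hp, hq]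
    | monomial n a => simp [Polynomial.aeval_monomial, e.th (b5_th θ) (b5_th_coe θ)]
  have h3 : (∑ i ∈ Finset.range (n + 1), Polynomial.aeval (b5_th θ) (g i) * x ^ i : Kc θ) = 0 := by
    apply Subtype.ext
    rw [ZeroMemClass.coe_zero, ← h]
    push_cast
    refine Finset.sum_congr rfl fun i _ => ?_
    rw [← hcoe]
  have h4 := congrArg e.σ h3
  rw [map_zero, map_sum] at h4
  rw [← h4]
  refine Finset.sum_congr rfl fun i _ => ?_
  rw [map_mul, map_pow, hσ]

/-- a bound in the unit disc -/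
theorem d1_bd (p : Polynomial ℤ) : ∃ A : ℝ, 0 ≤ A ∧ ∀ z : ℂ, ‖z‖ ≤ 1 → ‖Polynomial.aeval z p‖ ≤ A := by
  refine ⟨∑ i ∈ Finset.range (p.natDegree + 1), ‖((p.coeff i : ℤ) : ℂ)‖, Finset.sum_nonneg fun _ _ => norm_nonneg _, fun z hz => ?_⟩
  rw [Polynomial.aeval_eq_sum_range]
  refine (norm_sum_le _ _).trans (Finset.sum_le_sum fun i hi => ?_)
  rw [zsmul_eq_mul, norm_mul, norm_pow]
  exact mul_le_of_le_one_right (norm_nonneg _) (pow_le_one₀ (norm_nonneg _) hz)

/-- a lower bound near zero -/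
theorem d1_low (p : Polynomial ℤ) (hp : p ≠ 0) : ∃ (m : ℕ) (c δ : ℝ), 0 < c ∧ 0 < δ ∧ ∀ z : ℂ, ‖z‖ < δ →
    c * ‖z‖ ^ m ≤ ‖Polynomial.aeval z p‖ := by
  obtain ⟨G, hG, hG0⟩ := Polynomial.exists_eq_pow_rootMultiplicity_mul_and_not_dvd p hp 0
  set m := p.rootMultiplicity 0
  rw [Polynomial.C_0, sub_zero] at hG hG0
  have h0 : Polynomial.aeval (0 : ℂ) G ≠ 0 := by
    intro h
    apply hG0
    rw [Polynomial.X_dvd_iff]
    rw [← Polynomial.coeff_zero_eq_aeval_zero'] at h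
    have h' : ((G.coeff 0 : ℤ) : ℂ) = 0 := by simpa using h
    exact_mod_cast h'
  have hc : Continuous fun z : ℂ => ‖Polynomial.aeval z G‖ := (Polynomial.continuous_aeval G).norm
  have h1 : ∀ᶠ z in 𝓝 (0 : ℂ), ‖Polynomial.aeval (0 : ℂ) G‖ / 2 < ‖Polynomial.aeval z G‖ :=
    hc.continuousAt.eventually_const_lt (half_lt_self (norm_pos_iff.2 h0))
  obtain ⟨δ, hδ, hδ'⟩ := Metric.eventually_nhds_iff.1 h1
  refine ⟨m, ‖Polynomial.aeval (0 : ℂ) G‖ / 2, δ, half_pos (norm_pos_iff.2 h0), hδ, fun z hz => ?_⟩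
  have h2 := (hδ' (show dist z 0 < δ by rwa [dist_zero_right])).le
  rw [hG, map_mul, map_pow, Polynomial.aeval_X, norm_mul, norm_pow, mul_comm]
  exact mul_le_mul_of_nonneg_left h2 (by positivity)

/-- D1. PROOF. If `x = 0` it is clear (`σ x = 0`). Otherwise `F` from `exists_rel` (K/B2_Grow); `F(θ, x) = 0` as an equation in `Kc θ`, apply `e.σ`: `F(θ', σx) = 0`, `θ' = jj(iy)` (compare K/B5_EmbPhi). Write `F = ∑_{j ≤ N} X_0^j F_j(X_1)` with `F_N ≠ 0` (polynomials in one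
variable; for example via `MvPolynomial.finSuccEquiv` or sums over the support). For `‖σx‖ ≤ 1`: `‖F_N(σx)‖ ≤ ∑_{j<N} ‖θ'‖^(j-N) ‖F_j(σx)‖ ≤ C/‖θ'‖` (`‖θ'‖ ≥ 1`). `F_N(X) = X^m G(X)` with `G(0) ≠ 0`, so `‖G(X)‖ ≥ c > 0` for `‖X‖ < δ ≤ 1`, and
`‖σx‖^m ≤ C/(c ‖θ'‖) ≤ C' e^{-2πy}` (`cusp_size`). If `m = 0` this is impossible for `y ≥ Y`. If `m ≥ 1`: `‖σx‖ ≤ (C' e^{-2πy})^(1/m) ≤ e^{-y/m}` for `y ≥ Y`; `a = 1/m`. -/
theorem emb_small (θ : ℂ) (h : Transcendental ℚ θ) (x : Kc θ) : ∃ δ a Y : ℝ, 0 < δ ∧ 0 < a ∧ 1 ≤ Y ∧ ∀ y : ℝ, Y ≤ y → ∀ e : Emb θ (jj (I * y)),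
    ‖e.σ x‖ < δ → ‖e.σ x‖ ≤ Real.exp (-(a * y)) := by
  obtain ⟨n, g, hn, hgn, hrel⟩ := b2_rel θ x
  have hgn0 : g n ≠ 0 := by
    intro h0
    rw [h0, map_zero] at hgn
    exact hgn rfl
  set M := (Finset.range (n + 1)).sup (fun i => (g i).natDegree) with hM
  have hMi : ∀ i ≤ n, (g i).natDegree ≤ M := fun i hi =>
    Finset.le_sup (f := fun i => (g i).natDegree) (Finset.mem_range.2 (by omega))
  -- the highest nonzero coefficient
  have hex : ∃ j ≤ M, d1_F g n j ≠ 0 := by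
    refine ⟨(g n).natDegree, hMi n le_rfl, fun h0 => ?_⟩
    have h1 := d1_F_coeff g n (g n).natDegree n le_rfl
    rw [h0, Polynomial.coeff_zero] at h1
    exact hgn0 (Polynomial.leadingCoeff_eq_zero.1 h1.symm)
  obtain ⟨N, ⟨hNM, hN⟩, hmax⟩ : ∃ N, (N ≤ M ∧ d1_F g n N ≠ 0) ∧ ∀ j, N < j → j ≤ M → d1_F g n j = 0 := by
    classical
    let S := (Finset.range (M + 1)).filter (fun j => d1_F g n j ≠ 0)
    have hS : S.Nonempty := by
      obtain ⟨j, hj, hj'⟩ := hex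
      exact ⟨j, Finset.mem_filter.2 ⟨Finset.mem_range.2 (by omega), hj'⟩⟩
    refine ⟨S.max' hS, ?_, fun j hj hjM => ?_⟩
    · have := Finset.mem_filter.1 (S.max'_mem hS)
      exact ⟨by have := Finset.mem_range.1 this.1; omega, this.2⟩
    · by_contra hne
      have := S.le_max' j (Finset.mem_filter.2 ⟨Finset.mem_range.2 (by omega), hne⟩)
      omega
  obtain ⟨m, c, δ, hc, hδ, hlow⟩ := d1_low _ hN
  choose A hA0 hA using fun j => d1_bd (d1_F g n j)
  set B : ℝ := ∑ j ∈ Finset.range N, A j with hB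
  have hB0 : 0 ≤ B := Finset.sum_nonneg fun j _ => hA0 j
  obtain ⟨Y0, hY0, hcusp⟩ := cusp_size
  set Y : ℝ := max Y0 (2 * B / c) with hY
  refine ⟨min δ 1, 1 / (m + 1), Y, lt_min hδ one_pos, by positivity, hY0.trans (le_max_left _ _), fun y hy => ?_⟩
  have hyY0 : Y0 ≤ y := (le_max_left _ _).trans hy
  have hy2 : 2 * B / c ≤ y := (le_max_right _ _).trans hy
  have hy1 : 1 ≤ y := hY0.trans hyY0
  obtain ⟨-, -, -, hj1, -⟩ := hcusp y hyY0
  set t := jj (I * y) with ht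
  intro e hx
  set z := e.σ x with hz
  have hz1 : ‖z‖ ≤ 1 := (hx.trans_le (min_le_right _ _)).le
  have hzδ : ‖z‖ < δ := hx.trans_le (min_le_left _ _)
  have hrel' := d1_rel θ t x e n g hrel
  rw [d1_swap g n M hMi] at hrel'
  have hpi : (3 : ℝ) < Real.pi := Real.pi_gt_three
  have hexp1 : y + 1 ≤ Real.exp y := Real.add_one_le_exp y
  have hbig : Real.exp y * Real.exp y ≤ Real.exp (2 * Real.pi * y) := by
    rw [← Real.exp_add]
    exact Real.exp_le_exp.2 (by nlinarith)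
  have hE1 : 1 ≤ Real.exp y := by linarith
  have ht1 : 1 ≤ ‖t‖ := by nlinarith
  -- truncate
  have h5 : ∑ j ∈ Finset.range (N + 1), t ^ j * Polynomial.aeval z (d1_F g n j) = 0 := by
    rw [← hrel']
    refine Finset.sum_subset (fun j hj => Finset.mem_range.2 (by have := Finset.mem_range.1 hj; omega)) (fun j hj hj' => ?_)
    rw [hmax j (by
      have h1 : ¬ j < N + 1 := fun h2 => hj' (Finset.mem_range.2 h2)
      omega) (by have := Finset.mem_range.1 hj; omega)]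
    simp
  rw [Finset.sum_range_succ] at h5
  have h6 : ‖t‖ ^ N * ‖Polynomial.aeval z (d1_F g n N)‖ * ‖t‖ ≤ B * ‖t‖ ^ N := by
    have h7 : t ^ N * Polynomial.aeval z (d1_F g n N) = -∑ j ∈ Finset.range N, t ^ j * Polynomial.aeval z (d1_F g n j) := by
      linear_combination h5
    rw [← norm_pow, ← norm_mul, h7, norm_neg]
    calc ‖∑ j ∈ Finset.range N, t ^ j * Polynomial.aeval z (d1_F g n j)‖ * ‖t‖
        ≤ (∑ j ∈ Finset.range N, ‖t ^ j * Polynomial.aeval z (d1_F g n j)‖) * ‖t‖ :=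
          mul_le_mul_of_nonneg_right (norm_sum_le _ _) (norm_nonneg _)
      _ = ∑ j ∈ Finset.range N, ‖t ^ j * Polynomial.aeval z (d1_F g n j)‖ * ‖t‖ := by rw [Finset.sum_mul]
      _ ≤ ∑ j ∈ Finset.range N, A j * ‖t ^ N‖ := by
          refine Finset.sum_le_sum fun j hj => ?_
          have hj' := Finset.mem_range.1 hj
          rw [norm_mul, norm_pow, norm_pow]
          have h8 : ‖t‖ ^ j * ‖t‖ ≤ ‖t‖ ^ N := by
            rw [← pow_succ]
            exact pow_le_pow_right₀ ht1 (by omega)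
          have h9 := hA j z hz1
          calc ‖t‖ ^ j * ‖Polynomial.aeval z (d1_F g n j)‖ * ‖t‖ = ‖Polynomial.aeval z (d1_F g n j)‖ * (‖t‖ ^ j * ‖t‖) := by ring
            _ ≤ A j * ‖t‖ ^ N := mul_le_mul h9 h8 (by positivity) (hA0 j)
      _ = B * ‖t ^ N‖ := by rw [← Finset.sum_mul]
  have h10 : ‖Polynomial.aeval z (d1_F g n N)‖ * ‖t‖ ≤ B := by
    have hp : 0 < ‖t‖ ^ N := by positivity
    have : ‖t‖ ^ N * (‖Polynomial.aeval z (d1_F g n N)‖ * ‖t‖) ≤ ‖t‖ ^ N * B := by linarith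
    exact le_of_mul_le_mul_left this hp
  have h11 : c * ‖z‖ ^ (m + 1) * ‖t‖ ≤ B := by
    refine le_trans (mul_le_mul_of_nonneg_right ?_ (norm_nonneg _)) h10
    refine le_trans ?_ (hlow z hzδ)
    refine mul_le_mul_of_nonneg_left ?_ hc.le
    exact pow_le_pow_of_le_one (norm_nonneg _) hz1 (by omega)
  have h12 : ‖z‖ ^ (m + 1) ≤ Real.exp (-y) := by
    rw [Real.exp_neg, ← one_div, le_div_iff₀ (Real.exp_pos _)]
    have h13 : B ≤ c * Real.exp y / 2 := by
      rw [div_le_iff₀ hc] at hy2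
      nlinarith
    have h14 : c * ‖z‖ ^ (m + 1) * (Real.exp y * Real.exp y / 2) ≤ c * Real.exp y / 2 := by
      refine le_trans (mul_le_mul_of_nonneg_left ?_ (by positivity)) (h11.trans h13)
      linarith
    have h15 : (c * Real.exp y / 2) * (‖z‖ ^ (m + 1) * Real.exp y) ≤ (c * Real.exp y / 2) * 1 := by
      nlinarith
    exact le_of_mul_le_mul_left h15 (by positivity)
  have h16 : ‖z‖ ^ (m + 1) ≤ Real.exp (-(1 / ((m : ℝ) + 1) * y)) ^ (m + 1) := by
    rw [← Real.exp_nat_mul]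
    convert h12 using 2
    push_cast
    field_simp
  exact le_of_pow_le_pow_left₀ (Nat.succ_ne_zero m) (Real.exp_pos _).le h16

end Pool.Agent.MSR
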