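import Pool.Agent.Lib.MP_f58a57_nt.R.Defs
import Pool.Agent.Lib.MP_f58a57_nt.K.B3_Cusp

/-! # R/D2_Cusp: the Eisenstein series near the cusp -/

open Complex Filter Topology IntermediateField

noncomputable section

namespace Pool.Agent.MSR

open MSD MSP MSK

variable {d : ℕ}

/-- D2. PROOF. `e2, e4, e6` are `1 + O(q)`, `q = e^{-2πy}` (`q`-expansions; for `e2` e.g. `sE_eq` in P/T6_Lim: `sE = (π²/3) e2`; for `e4, e6` the `q`-expansions used in K/B3_Cusp, F3_Cusp, Q03_Growth), and `‖e4‖ ≥ 3/4` (`cusp_size`). -/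
theorem cusp_diff : ∃ C Y : ℝ, 1 ≤ C ∧ 1 ≤ Y ∧ ∀ y : ℝ, Y ≤ y → ‖e6 (I * y) / e4 (I * y) - e2 (I * y)‖ ≤ C * Real.exp (-(2 * Real.pi * y)) := by
  obtain ⟨c2, hc2, h2⟩ := e2_q
  obtain ⟨c4, hc4, h4⟩ := e4_q
  obtain ⟨c6, hc6, h6⟩ := e6_q
  obtain ⟨C2, hC2⟩ := a5_bound hc2
  obtain ⟨C4, hC4⟩ := a5_bound hc4
  obtain ⟨C6, hC6⟩ := a5_bound hc6
  obtain ⟨Y, hY, hsz⟩ := cusp_size
  refine ⟨1 + 4 * (|C2| + |C4| + |C6|), Y, ?_, hY, fun y hy => ?_⟩
  · have h0 := abs_nonneg C2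
    have h1 := abs_nonneg C4
    have h3 := abs_nonneg C6
    linarith
  have hy1 : 1 ≤ (I * (y : ℂ)).im := by
    simp
    linarith
  obtain ⟨s2, s4, s6, -, -⟩ := hsz y hy
  have b2 := hC2 (I * y) hy1
  have b4 := hC4 (I * y) hy1
  have b6 := hC6 (I * y) hy1
  rw [a5_norm_qq, h2, Int.cast_one] at b2
  rw [a5_norm_qq, h4, Int.cast_one] at b4
  rw [a5_norm_qq, h6, Int.cast_one] at b6
  have him : (I * (y : ℂ)).im = y := by simp
  rw [him] at b2 b4 b6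
  set ε : ℝ := Real.exp (-(2 * Real.pi * y)) with hε
  have hε0 : 0 < ε := Real.exp_pos _
  set a := e2 (I * y)
  set b := e4 (I * y)
  set c := e6 (I * y)
  have b2' : ‖a - 1‖ ≤ |C2| * ε := b2.trans (mul_le_mul_of_nonneg_right (le_abs_self _) hε0.le)
  have b4' : ‖b - 1‖ ≤ |C4| * ε := b4.trans (mul_le_mul_of_nonneg_right (le_abs_self _) hε0.le)
  have b6' : ‖c - 1‖ ≤ |C6| * ε := b6.trans (mul_le_mul_of_nonneg_right (le_abs_self _) hε0.le)
  have hb34 : 3 / 4 ≤ ‖b‖ := by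
    have := norm_sub_norm_le (1 : ℂ) (1 - b)
    rw [sub_sub_cancel, norm_one, norm_sub_rev] at this
    linarith
  have hb54 : ‖b‖ ≤ 5 / 4 := by
    have := norm_add_le (b - 1) 1
    rw [sub_add_cancel, norm_one] at this
    linarith
  have hb0 : b ≠ 0 := by
    intro h
    rw [h, norm_zero] at hb34
    linarith
  have he : c / b - a = ((c - 1) - (a - 1) * b - (b - 1)) / b := by
    field_simp
    ring
  rw [he, norm_div, div_le_iff₀ (by linarith)]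
  have h1 : ‖(c - 1) - (a - 1) * b - (b - 1)‖ ≤ |C6| * ε + |C2| * ε * (5 / 4) + |C4| * ε := by
    calc ‖(c - 1) - (a - 1) * b - (b - 1)‖ ≤ ‖(c - 1) - (a - 1) * b‖ + ‖b - 1‖ := norm_sub_le _ _
      _ ≤ ‖c - 1‖ + ‖(a - 1) * b‖ + ‖b - 1‖ := by
          have := norm_sub_le (c - 1) ((a - 1) * b)
          linarith
      _ ≤ |C6| * ε + |C2| * ε * (5 / 4) + |C4| * ε := by
          rw [norm_mul]
          have h3 : ‖a - 1‖ * ‖b‖ ≤ |C2| * ε * (5 / 4) :=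
            mul_le_mul b2' hb54 (norm_nonneg _) (by positivity)
          linarith
  have k2 := mul_nonneg (abs_nonneg C2) hε0.le
  have k4 := mul_nonneg (abs_nonneg C4) hε0.le
  have k6 := mul_nonneg (abs_nonneg C6) hε0.le
  have h5 : (1 + 4 * (|C2| + |C4| + |C6|)) * ε * (3 / 4) ≤ (1 + 4 * (|C2| + |C4| + |C6|)) * ε * ‖b‖ :=
    mul_le_mul_of_nonneg_left hb34 (by positivity)
  have h6 : (1 + 4 * (|C2| + |C4| + |C6|)) * ε * (3 / 4) =
      3 / 4 * ε + 3 * (|C2| * ε) + 3 * (|C4| * ε) + 3 * (|C6| * ε) := by ring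
  linarith

end Pool.Agent.MSR
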