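import Pool.Agent.Lib.MP_f58a57_nt.R.Defs
import Pool.Agent.Lib.MP_f58a57_nt.K.B8_Spec

/-! # R/D3_OmSq: the scaling of the specialised curve -/

open Complex Filter Topology IntermediateField

noncomputable section

namespace Pool.Agent.MSR

open MSD MSP MSK

variable {d : ℕ}

/-- D3a. PROOF. Compare K/B8_Spec (`b8_Y0, b8_ode`). There are `G4, G6 ∈ Kc θ` with the values `π⁴e4(z)/om⁴` (`= (3/2) vals g`) and `π⁶e6(z)/om⁶` (`= (27/8)(4 X³ - (4/3) G4 X)`, `X = vals (X 0)`, because `Y = vals (Y 0) = 0`), both `≠ 0`. For `D'`: `vals P D' v = σ(..)`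
gives `π⁴e4(iy)/om'⁴ = σ(G4)`, `D'.Y 0 0 = σ(0) = 0`, and the equation of the curve (`b8_ode D'`) gives `π⁶e6(iy)/om'⁶ = (27/8)(4X'³ - (4/3)σ(G4)X') = σ(G6)`. Divide: `om'² = (π²e6/e4) σ(G4)/σ(G6)`, `u = G4/G6` (`e4(iy), e6(iy) ≠ 0` by `cusp_size`). -/
theorem om_sq (P : Par d) (D : Dt d) (hD : IsOrig P D) (hj : deriv jj P.z ≠ 0) (htr : Transcendental ℚ (jj P.z))
    (hal : InK (jj P.z) P D) (C₀ : ℝ) : ∃ u : Kc (jj P.z), u ≠ 0 ∧ ∃ Y : ℝ, 1 ≤ Y ∧ ∀ y : ℝ, Y ≤ y →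
    ∀ (e : Emb (jj P.z) (jj (I * y))) (D' : Dt d), Adm C₀ y P D' →
      (∀ (v : Vr d) (x : Kc (jj P.z)), (x : ℂ) = vals P D v → vals P D' v = e.σ x) →
      D'.om ^ 2 = Real.pi ^ 2 * e6 (I * y) / e4 (I * y) * e.σ u := by
  have hτ : D.τ = P.z := hD.τ
  have hj' : deriv jj D.τ ≠ 0 := by
    rw [hτ]
    exact hj
  obtain ⟨n4, n6, ndl⟩ := G2_ne D.τ D.im hj'
  have hπ : (Real.pi : ℂ) ≠ 0 := by exact_mod_cast Real.pi_ne_zero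
  have hom := D.ne
  let xv : Vr d → Kc (jj P.z) := fun v => ⟨vals P D v, mem_algebraicClosure_iff.2 (hal v)⟩
  have hxv : ∀ v, algebraMap (Kc (jj P.z)) ℂ (xv v) = vals P D v := fun v => rfl
  have hxv' : ∀ v, ((xv v : Kc (jj P.z)) : ℂ) = vals P D v := fun v => rfl
  have hY0 : ∀ l, deriv (wp D.τ (sE D.τ)) (D.h l + 0) = 0 := b8_Y0 P D hD
  have hode : ∀ l, 4 * D.X l 0 ^ 3 - 4 / 3 * (Real.pi ^ 4 * e4 D.τ / D.om ^ 4) * D.X l 0 - 8 / 27 * (Real.pi ^ 6 * e6 D.τ / D.om ^ 6) = 0 :=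
    fun l => b8_ode D l (hY0 l)
  obtain ⟨G4, hG4d⟩ : ∃ G4 : Kc (jj P.z), G4 = 3 / 2 * xv .g := ⟨_, rfl⟩
  have hG4 : algebraMap (Kc (jj P.z)) ℂ G4 = Real.pi ^ 4 * e4 D.τ / D.om ^ 4 := by
    rw [hG4d, map_mul, map_div₀, map_ofNat, map_ofNat, hxv]
    show 3 / 2 * (2 / 3 * Real.pi ^ 4 * e4 D.τ / D.om ^ 4) = _
    ring
  obtain ⟨G6, hG6d⟩ : ∃ G6 : Kc (jj P.z), G6 = 27 / 8 * (4 * xv (.X 0) ^ 3 - 4 / 3 * G4 * xv (.X 0)) := ⟨_, rfl⟩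
  have hG6 : algebraMap (Kc (jj P.z)) ℂ G6 = Real.pi ^ 6 * e6 D.τ / D.om ^ 6 := by
    rw [hG6d, map_mul, map_sub, map_mul, map_mul, map_mul, map_div₀, map_div₀, map_pow, map_ofNat, map_ofNat, map_ofNat, map_ofNat, hxv, hG4]
    show 27 / 8 * (4 * D.X 0 0 ^ 3 - 4 / 3 * (Real.pi ^ 4 * e4 D.τ / D.om ^ 4) * D.X 0 0) = _
    linear_combination 27 / 8 * hode 0
  have hG40 : G4 ≠ 0 := by
    intro h
    rw [h, map_zero] at hG4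
    exact (div_ne_zero (mul_ne_zero (pow_ne_zero 4 hπ) n4) (pow_ne_zero 4 hom)) hG4.symm
  have hG60 : G6 ≠ 0 := by
    intro h
    rw [h, map_zero] at hG6
    exact (div_ne_zero (mul_ne_zero (pow_ne_zero 6 hπ) n6) (pow_ne_zero 6 hom)) hG6.symm
  obtain ⟨Ys, hYs, hcs⟩ := cusp_size
  refine ⟨G4 / G6, div_ne_zero hG40 hG60, Ys, hYs, fun y hy e D' hadm hvals => ?_⟩
  obtain ⟨-, h4, h6, -, -⟩ := hcs y hy
  have m4 : e4 (I * y) ≠ 0 := by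
    intro h
    rw [h, zero_sub, norm_neg, norm_one] at h4
    norm_num at h4
  have m6 : e6 (I * y) ≠ 0 := by
    intro h
    rw [h, zero_sub, norm_neg, norm_one] at h6
    norm_num at h6
  have hom' := D'.ne
  have hg : 2 / 3 * Real.pi ^ 4 * e4 D'.τ / D'.om ^ 4 = e.σ (xv .g) := hvals .g (xv .g) (hxv' _)
  have hX : D'.X 0 0 = e.σ (xv (.X 0)) := hvals (.X 0) (xv (.X 0)) (hxv' _)
  have hσ4 : Real.pi ^ 4 * e4 D'.τ / D'.om ^ 4 = e.σ G4 := by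
    rw [hG4d, map_mul, map_div₀, map_ofNat, map_ofNat, ← hg]
    ring
  have hYv : (((0 : Kc (jj P.z)) : Kc (jj P.z)) : ℂ) = vals P D (.Y 0) := by
    show (0 : ℂ) = D.Y 0 0
    unfold Dt.Y
    rw [hY0 0, zero_div]
  have hY' : D'.Y 0 0 = 0 := by
    have h1 : vals P D' (.Y 0) = e.σ 0 := hvals (.Y 0) 0 hYv
    rw [map_zero] at h1
    exact h1
  have hY'' : deriv (wp D'.τ (sE D'.τ)) (D'.h 0 + 0) = 0 := by
    unfold Dt.Y at hY'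
    rcases div_eq_zero_iff.1 hY' with h1 | h1
    · exact h1
    · exact absurd h1 (pow_ne_zero 3 hom')
  have hode' := b8_ode D' 0 hY''
  have hσ6 : Real.pi ^ 6 * e6 D'.τ / D'.om ^ 6 = e.σ G6 := by
    rw [hG6d, map_mul, map_sub, map_mul, map_mul, map_mul, map_div₀, map_div₀, map_pow, map_ofNat, map_ofNat, map_ofNat, map_ofNat, ← hX, ← hσ4]
    linear_combination -(27 / 8) * hode'
  rw [hadm.τ] at hσ4 hσ6
  rw [map_div₀, ← hσ4, ← hσ6]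
  field_simp

end Pool.Agent.MSR
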