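import Pool.Agent.Lib.MP_f58a57_nt.R.Defs
import Pool.Agent.Lib.MP_f58a57_nt.R.D1_Emb
import Pool.Agent.Lib.MP_f58a57_nt.R.D2_Cusp
import Pool.Agent.Lib.MP_f58a57_nt.R.D3_OmSq
import Pool.Agent.Lib.MP_f58a57_nt.K.B3_Cusp
import Pool.Agent.Lib.MP_f58a57_nt.K.C2_Geo

/-! # R/D3b_Typ: the two types -/

open Complex Filter Topology IntermediateField

noncomputable section

namespace Pool.Agent.MSR

open MSD MSP MSK

variable {d : ℕ}

theorem d3b_min {ι : Type*} [Finite ι] (f : ι → ℝ) (h : ∀ k, 0 < f k) : ∃ m : ℝ, 0 < m ∧ ∀ k, m ≤ f k := by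
  rcases isEmpty_or_nonempty ι with h0 | h0
  · exact ⟨1, one_pos, fun k => (h0.false k).elim⟩
  · obtain ⟨k, hk⟩ := Finite.exists_min f
    exact ⟨f k, h k, hk⟩

theorem d3b_max {ι : Type*} [Finite ι] (f : ι → ℝ) : ∃ m : ℝ, 1 ≤ m ∧ ∀ k, f k ≤ m := by
  rcases isEmpty_or_nonempty ι with h0 | h0
  · exact ⟨1, le_rfl, fun k => (h0.false k).elim⟩
  · obtain ⟨k, hk⟩ := Finite.exists_max f
    exact ⟨max 1 (f k), le_max_left _ _, fun i => (hk i).trans (le_max_right _ _)⟩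

private theorem d3b_n1 : (5 : ℝ) ≤ 9 * (3 / 5) := by norm_num

private theorem d3b_n2 : (10 : ℝ) * (5 / 3) ≤ 20 := by norm_num

/-- `emb_small` for finitely many elements -/
theorem d3b_small {ι : Type*} [Finite ι] (θ : ℂ) (h : Transcendental ℚ θ) (x : ι → Kc θ) :
    ∃ δ a Y : ℝ, 0 < δ ∧ 0 < a ∧ 1 ≤ Y ∧ ∀ y : ℝ, Y ≤ y → ∀ e : Emb θ (jj (I * y)), ∀ k,
    ‖e.σ (x k)‖ < δ → ‖e.σ (x k)‖ ≤ Real.exp (-(a * y)) := by
  choose δ a Y h1 h2 h3 h4 using fun k => emb_small θ h (x k)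
  obtain ⟨δ₁, hδ₁, hδ⟩ := d3b_min δ h1
  obtain ⟨a₁, ha₁, ha⟩ := d3b_min a h2
  obtain ⟨Y₁, hY₁, hY⟩ := d3b_max Y
  refine ⟨δ₁, a₁, Y₁, hδ₁, ha₁, hY₁, fun y hy e k hk => ?_⟩
  refine (h4 k y ((hY k).trans hy) e (hk.trans_le (hδ k))).trans ?_
  refine Real.exp_le_exp.2 ?_
  have hy0 : 0 ≤ y := by linarith
  have := mul_le_mul_of_nonneg_right (ha k) hy0
  linarith

/-- an algebraic number as an element of `Kc θ` -/
theorem d3b_alg (P : Par d) (θ : ℂ) (k : Fin d) : ∃ c : Kc θ, (c : ℂ) = 1 / (rh * (P.rt k.succ - P.z)) ∧ IsAlgebraic ℚ (c : ℂ) := by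
  have hroot : ∀ i : Fin (d + 1), IsAlgebraic ℚ (P.rt i) := by
    intro i
    refine ⟨Polynomial.X ^ (d + 1) - ∑ l : Fin (d + 1), Polynomial.C (P.b l) * Polynomial.X ^ l.val, ?_, ?_⟩
    · have hm : (Polynomial.X ^ (d + 1) - ∑ l : Fin (d + 1), Polynomial.C (P.b l) * Polynomial.X ^ l.val : Polynomial ℚ).Monic := by
        refine Polynomial.monic_X_pow_sub ?_
        exact Polynomial.degree_sum_fin_lt (n := d + 1) P.b
      exact hm.ne_zero
    · rw [map_sub, map_pow, Polynomial.aeval_X, map_sum, P.rel i, sub_eq_zero]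
      refine Finset.sum_congr rfl fun l _ => ?_
      rw [map_mul, map_pow, Polynomial.aeval_X, Polynomial.aeval_C]
      rfl
  have hI : IsAlgebraic ℚ rh := by
    unfold rh
    have h1 : IsAlgebraic ℚ I := by
      refine ⟨Polynomial.X ^ 2 + 1, ?_, ?_⟩
      · intro h
        have := congrArg (Polynomial.eval 0) h
        simp at this
      · simp
    have h2 : IsAlgebraic ℚ (2 : ℂ) := by
      have := isAlgebraic_algebraMap (R := ℚ) (A := ℂ) (2 : ℚ)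
      simpa using this
    have h3 : IsAlgebraic ℚ ((2 : ℂ)⁻¹) := h2.inv
    have h4 := h1.neg.mul h3
    rwa [← div_eq_mul_inv] at h4
  have hc : IsAlgebraic ℚ (1 / (rh * (P.rt k.succ - P.z))) := by
    rw [one_div]
    exact (hI.mul ((hroot k.succ).sub (hroot 0))).inv
  exact ⟨⟨_, mem_algebraicClosure_iff.2 (hc.extendScalars (algebraMap ℚ ℚ⟮θ⟯).injective)⟩, rfl, hc⟩

/-- D3b. PROOF. Let `θ = jj z`, `k₀ ∈ Kc θ` with value `D.kap`, `c_k = 1/(rh (z_k - z))` (`z_k = rt k.succ ≠ z`), an algebraic number, so in `Kc θ` with `σ c_k = c_k` (`Emb.al`), `u` from `om_sq`. For `D'`: `kap' = σ k₀` and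
`eps_k = om'²/(rh w) + om'² s'/rh = om'²(kap' + c_k) - sE(iy)` (`w = z_k - z`, `s' = rh (kap' - sE/om'²)`, `sE = (π²/3) e2`). With `om'² = (π² e6/e4) σ u` and `x_k = 3 (k₀ + c_k) u - 1 ∈ Kc θ`:
`eps_k = (π²/3) ((e6/e4) σ(x_k) + (e6/e4 - e2))`, so `‖eps_k‖ ≤ 10 ‖σ x_k‖ + 4 C e^{-2πy}` and `‖σ x_k‖ ≤ ‖eps_k‖ + C e^{-2πy}` up to absolute factors (`cusp_size`, `cusp_diff`; `3/5 ≤ ‖e6/e4‖ ≤ 5/3`). Let `δ₁, a₁, Y₁` be common constants from `emb_small` for `u` and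
all the `x_k`. (1) If `‖σ u‖ ≥ δ₁` then `‖om'²‖ ≥ 5 δ₁`, and `eps_k - eps_k' = om'² (c_k - c_k')` is `≥ 2δ` in absolute value for `k ≠ k'` (`c_k ≠ c_k'` as `rt` is injective), so one of the two is `≥ δ`. (2) If `‖σ u‖ < δ₁`, then `‖σ u‖ ≤ e^{-a₁y}`, `‖om'²‖ ≤ 20 e^{-a₁y}`. If all
`‖eps_k‖ ≥ δ` we are in the first case of `Typ`; if `‖eps_k‖ < δ` for some `k` (`δ` small against `δ₁`, `y ≥ Y`) then `‖σ x_k‖ < δ₁`, so `‖σ x_k‖ ≤ e^{-a₁y}`, `‖eps_k‖ ≤ C' e^{-min(a₁,1) y}`, and `‖eps_k'‖ ≤ ‖eps_k‖ + C''‖om'²‖ ≤ e^{-a y}` for all `k'`,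
`a = min(a₁,1)/2`, `y ≥ Y`. -/
theorem typ (P : Par d) (D : Dt d) (hD : IsOrig P D) (hj : deriv jj P.z ≠ 0) (htr : Transcendental ℚ (jj P.z))
    (hal : InK (jj P.z) P D) (C₀ : ℝ) : ∃ δ a Y : ℝ, 0 < δ ∧ δ ≤ 1 ∧ 0 < a ∧ 1 ≤ Y ∧ ∀ y : ℝ, Y ≤ y →
    ∀ (e : Emb (jj P.z) (jj (I * y))) (D' : Dt d), Adm C₀ y P D' →
      (∀ (v : Vr d) (x : Kc (jj P.z)), (x : ℂ) = vals P D v → vals P D' v = e.σ x) → Typ δ a y P D' := by
  obtain ⟨u, hu0, Yu, hYu, hu⟩ := om_sq P D hD hj htr hal C₀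
  choose c hc hcal using fun k => d3b_alg P (jj P.z) k
  obtain ⟨k₀, hk₀⟩ : ∃ k₀ : Kc (jj P.z), (k₀ : ℂ) = D.kap := ⟨⟨D.kap, mem_algebraicClosure_iff.2 (hal Vr.k)⟩, rfl⟩
  obtain ⟨x, hx⟩ : ∃ x : Fin d → Kc (jj P.z), ∀ k, x k = 3 * (k₀ + c k) * u - 1 := ⟨fun k => _, fun k => rfl⟩
  obtain ⟨δu, au, Yu', hδu, hau, hYu', hsu⟩ := d3b_small (jj P.z) htr (fun _ : Fin 1 => u)
  obtain ⟨δx, ax, Yx, hδx, hax, hYx, hsx⟩ := d3b_small (jj P.z) htr x
  obtain ⟨Cc, Yc, hCc, hYc, hcd⟩ := cusp_diff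
  obtain ⟨Ys, hYs, hcs⟩ := cusp_size
  -- the differences of the numbers `c_k`
  have hrh : rh ≠ 0 := by
    unfold rh
    exact div_ne_zero (neg_ne_zero.2 I_ne_zero) two_ne_zero
  have hw : ∀ k : Fin d, P.rt k.succ - P.z ≠ 0 := by
    intro k h
    have h1 := P.inj (sub_eq_zero.1 h)
    exact Fin.succ_ne_zero k h1
  have hcne : ∀ p : {p : Fin d × Fin d // p.1 ≠ p.2}, 0 < ‖(c p.1.1 : ℂ) - c p.1.2‖ := by
    rintro ⟨⟨k, k'⟩, hkk⟩
    refine norm_pos_iff.2 (sub_ne_zero.2 ?_)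
    simp only at hkk ⊢
    rw [hc, hc]
    intro h
    rw [one_div, one_div, inv_inj] at h
    have h1 := mul_left_cancel₀ hrh h
    have h2 : P.rt k.succ = P.rt k'.succ := by
      have := congrArg (fun t => t + P.z) h1
      simpa using this
    exact hkk (Fin.succ_injective _ (P.inj h2))
  obtain ⟨m, hm, hmc⟩ := d3b_min _ hcne
  obtain ⟨M, hM, hMc⟩ := d3b_max (fun p : Fin d × Fin d => ‖(c p.1 : ℂ) - c p.2‖)
  obtain ⟨δ₁, hδ₁⟩ : ∃ δ₁, δ₁ = min δu δx := ⟨_, rfl⟩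
  obtain ⟨a₁, ha₁⟩ : ∃ a₁, a₁ = min (min au ax) 1 := ⟨_, rfl⟩
  have hδ₁0 : 0 < δ₁ := by rw [hδ₁]; exact lt_min hδu hδx
  have ha₁0 : 0 < a₁ := by rw [ha₁]; exact lt_min (lt_min hau hax) one_pos
  have ha₁1 : a₁ ≤ 1 := by rw [ha₁]; exact min_le_right _ _
  have ha₁u : a₁ ≤ au := by rw [ha₁]; exact (min_le_left _ _).trans (min_le_left _ _)
  have ha₁x : a₁ ≤ ax := by rw [ha₁]; exact (min_le_left _ _).trans (min_le_right _ _)
  obtain ⟨δ, hδ⟩ : ∃ δ, δ = min (min (δ₁ / 2) (5 / 2 * δ₁ * m)) 1 := ⟨_, rfl⟩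
  have hδ0 : 0 < δ := by
    rw [hδ]
    refine lt_min (lt_min (by positivity) (by positivity)) one_pos
  have hδ1 : δ ≤ 1 := by rw [hδ]; exact min_le_right _ _
  have hδ2 : δ ≤ δ₁ / 2 := by rw [hδ]; exact (min_le_left _ _).trans (min_le_left _ _)
  have hδ3 : δ ≤ 5 / 2 * δ₁ * m := by rw [hδ]; exact (min_le_left _ _).trans (min_le_right _ _)
  -- largeness of `y`
  have hA : Tendsto (fun y : ℝ => 2 * (Cc * Real.exp (-(2 * Real.pi * y)))) atTop (𝓝 0) := by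
    have h1 : Tendsto (fun y : ℝ => Real.exp (-(2 * Real.pi * y))) atTop (𝓝 0) := by
      refine Real.tendsto_exp_neg_atTop_nhds_zero.comp ?_
      exact tendsto_id.const_mul_atTop (by positivity)
    have h2 := (h1.const_mul Cc).const_mul 2
    simpa using h2
  obtain ⟨Ya, hYa⟩ := eventually_atTop.1 (hA.eventually (gt_mem_nhds (show (0 : ℝ) < δ₁ / 2 by positivity)))
  have hB : Tendsto (fun y : ℝ => Real.exp (a₁ / 2 * y)) atTop atTop :=
    Real.tendsto_exp_atTop.comp (tendsto_id.const_mul_atTop (by positivity))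
  obtain ⟨Yb, hYb⟩ := eventually_atTop.1 (hB.eventually (eventually_ge_atTop (6 + 20 * M + 4 * Cc)))
  refine ⟨δ, a₁ / 2, max 1 (max (max Yu Yu') (max (max Yx Yc) (max Ys (max Ya Yb)))), hδ0, hδ1, by positivity, le_max_left _ _, ?_⟩
  intro y hy e D' hadm hvals
  simp only [max_le_iff] at hy
  obtain ⟨hy1, ⟨hyu, hyu'⟩, ⟨hyx, hyc⟩, hys, hya, hyb⟩ := hy
  have hy0 : 0 < y := by linarith
  obtain ⟨h2, h4, h6, -, -⟩ := hcs y hys
  have hη := hcd y hyc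
  have hom := hu y hyu e D' hadm hvals
  have hkap : D'.kap = e.σ k₀ := hvals Vr.k k₀ hk₀
  have hcσ : ∀ k, e.σ (c k) = (c k : ℂ) := fun k => e.al (c k) (hcal k)
  obtain ⟨q, hq⟩ : ∃ q : ℂ, q = e6 (I * y) / e4 (I * y) := ⟨_, rfl⟩
  obtain ⟨U, hU⟩ : ∃ U : ℂ, U = e.σ u := ⟨_, rfl⟩
  have hxσ : ∀ k, e.σ (x k) = 3 * (D'.kap + c k) * U - 1 := by
    intro k
    rw [hx k, map_sub, map_mul, map_mul, map_add, map_one, ← hkap, hcσ k, hU, map_ofNat]
  rw [← hq] at hη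
  have hom' : D'.om ^ 2 = Real.pi ^ 2 * q * U := by
    rw [hom, hq, hU]
    ring
  have heps : ∀ k, eps P D' k = D'.om ^ 2 * (D'.kap + c k) - sE D'.τ := by
    intro k
    have h1 := D'.ne
    have h3 := hw k
    unfold eps Dt.s
    rw [hc k]
    field_simp
    ring
  have heps2 : ∀ k, eps P D' k = Real.pi ^ 2 / 3 * (q * e.σ (x k) + (q - e2 (I * y))) := by
    intro k
    rw [heps k, hom', hxσ k, hadm.τ]
    unfold sE
    ring
  -- numerical bounds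
  have hq1 : 3 / 5 ≤ ‖q‖ ∧ ‖q‖ ≤ 5 / 3 := by
    have n4 : 3 / 4 ≤ ‖e4 (I * y)‖ ∧ ‖e4 (I * y)‖ ≤ 5 / 4 := by
      constructor
      · have := norm_sub_norm_le (1 : ℂ) (1 - e4 (I * y))
        rw [sub_sub_cancel, norm_one, norm_sub_rev] at this
        linarith
      · have := norm_add_le (e4 (I * y) - 1) 1
        rw [sub_add_cancel, norm_one] at this
        linarith
    have n6 : 3 / 4 ≤ ‖e6 (I * y)‖ ∧ ‖e6 (I * y)‖ ≤ 5 / 4 := by
      constructor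
      · have := norm_sub_norm_le (1 : ℂ) (1 - e6 (I * y))
        rw [sub_sub_cancel, norm_one, norm_sub_rev] at this
        linarith
      · have := norm_add_le (e6 (I * y) - 1) 1
        rw [sub_add_cancel, norm_one] at this
        linarith
    have p4 : 0 < ‖e4 (I * y)‖ := by linarith [n4.1]
    rw [hq, norm_div]
    constructor
    · rw [le_div_iff₀ p4]
      linarith [n4.2, n6.1]
    · rw [div_le_iff₀ p4]
      linarith [n4.1, n6.2]
  have hpi2 : (9 : ℝ) ≤ Real.pi ^ 2 ∧ Real.pi ^ 2 ≤ 10 := b8_pi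
  have hnp : ‖(Real.pi : ℂ) ^ 2‖ = Real.pi ^ 2 := by
    rw [norm_pow, Complex.norm_real, Real.norm_of_nonneg Real.pi_pos.le]
  have hnp3 : ‖(Real.pi : ℂ) ^ 2 / 3‖ = Real.pi ^ 2 / 3 := by
    rw [norm_div, hnp]
    simp
  have hup : ∀ k, ‖eps P D' k‖ ≤ 6 * ‖e.σ (x k)‖ + 4 * (Cc * Real.exp (-(2 * Real.pi * y))) := by
    intro k
    rw [heps2 k, norm_mul, hnp3]
    have h1 : ‖q * e.σ (x k) + (q - e2 (I * y))‖ ≤ 5 / 3 * ‖e.σ (x k)‖ + Cc * Real.exp (-(2 * Real.pi * y)) := by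
      refine (norm_add_le _ _).trans (add_le_add ?_ hη)
      rw [norm_mul]
      exact mul_le_mul_of_nonneg_right hq1.2 (norm_nonneg _)
    have h3 : 0 ≤ Cc * Real.exp (-(2 * Real.pi * y)) := by positivity
    have h5 := norm_nonneg (e.σ (x k))
    calc Real.pi ^ 2 / 3 * ‖q * e.σ (x k) + (q - e2 (I * y))‖
        ≤ (10 / 3) * (5 / 3 * ‖e.σ (x k)‖ + Cc * Real.exp (-(2 * Real.pi * y))) := by
          refine mul_le_mul ?_ h1 (norm_nonneg _) (by norm_num)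
          linarith [hpi2.2]
      _ ≤ _ := by linarith
  have hlow : ∀ k, ‖e.σ (x k)‖ ≤ ‖eps P D' k‖ + 2 * (Cc * Real.exp (-(2 * Real.pi * y))) := by
    intro k
    have h1 : q * e.σ (x k) = 3 / Real.pi ^ 2 * eps P D' k - (q - e2 (I * y)) := by
      rw [heps2 k]
      have hpi : (Real.pi : ℂ) ≠ 0 := by exact_mod_cast Real.pi_ne_zero
      field_simp
      ring
    have h3 : ‖q * e.σ (x k)‖ ≤ 1 / 3 * ‖eps P D' k‖ + Cc * Real.exp (-(2 * Real.pi * y)) := by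
      rw [h1]
      refine (norm_sub_le _ _).trans (add_le_add ?_ hη)
      rw [norm_mul, norm_div, hnp]
      refine mul_le_mul_of_nonneg_right ?_ (norm_nonneg _)
      rw [div_le_div_iff₀ (by linarith [hpi2.1]) (by norm_num)]
      simp
      linarith [hpi2.1]
    rw [norm_mul] at h3
    have h5 := mul_le_mul_of_nonneg_right hq1.1 (norm_nonneg (e.σ (x k)))
    have h7 := norm_nonneg (eps P D' k)
    have h8 : 0 ≤ Cc * Real.exp (-(2 * Real.pi * y)) := by positivity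
    linarith
  have hdiff : ∀ k k', eps P D' k - eps P D' k' = D'.om ^ 2 * ((c k : ℂ) - c k') := by
    intro k k'
    rw [heps k, heps k']
    ring
  have homn : 5 * ‖U‖ ≤ ‖D'.om ^ 2‖ ∧ ‖D'.om ^ 2‖ ≤ 20 * ‖U‖ := by
    rw [hom', norm_mul, norm_mul, hnp]
    have hU0 := norm_nonneg U
    constructor
    · refine mul_le_mul_of_nonneg_right ?_ hU0
      exact (d3b_n1).trans (mul_le_mul hpi2.1 hq1.1 (by norm_num) (le_trans (by norm_num) hpi2.1))
    · refine mul_le_mul_of_nonneg_right ?_ hU0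
      exact (mul_le_mul hpi2.2 hq1.2 (norm_nonneg q) (by norm_num)).trans d3b_n2
  unfold Typ
  by_cases hU1 : δ₁ ≤ ‖U‖
  · left
    intro k k' hkk
    by_contra hcon
    push Not at hcon
    have h1 : ‖eps P D' k - eps P D' k'‖ < 2 * δ := by
      have := norm_sub_le (eps P D' k) (eps P D' k')
      linarith [hcon.1, hcon.2]
    rw [hdiff, norm_mul] at h1
    have h3 := hmc ⟨(k, k'), hkk⟩
    simp only at h3
    have h5 : 5 * δ₁ * m ≤ ‖D'.om ^ 2‖ * ‖(c k : ℂ) - c k'‖ := by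
      refine mul_le_mul ?_ h3 hm.le (norm_nonneg _)
      linarith [homn.1]
    linarith
  · push Not at hU1
    have hUs : ‖U‖ ≤ Real.exp (-(a₁ * y)) := by
      have h1 := hsu y hyu' e 0
      simp only [← hU] at h1
      have h3 := h1 (hU1.trans_le (by rw [hδ₁]; exact min_le_left _ _))
      refine h3.trans (Real.exp_le_exp.2 ?_)
      have := mul_le_mul_of_nonneg_right ha₁u hy0.le
      linarith
    by_cases hall : ∀ k, δ ≤ ‖eps P D' k‖
    · left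
      intro k k' _
      exact Or.inl (hall k)
    · right
      push Not at hall
      obtain ⟨k, hk⟩ := hall
      have h1 : ‖e.σ (x k)‖ < δ₁ := by
        have h3 := hlow k
        have h5 := hYa y hya
        linarith
      have h3 : ‖e.σ (x k)‖ ≤ Real.exp (-(a₁ * y)) := by
        refine (hsx y hyx e k (h1.trans_le (by rw [hδ₁]; exact min_le_right _ _))).trans (Real.exp_le_exp.2 ?_)
        have := mul_le_mul_of_nonneg_right ha₁x hy0.le
        linarith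
      have hexp2 : Real.exp (-(2 * Real.pi * y)) ≤ Real.exp (-(a₁ * y)) := by
        refine Real.exp_le_exp.2 ?_
        have h7 : a₁ ≤ 2 * Real.pi := by linarith [Real.pi_gt_three]
        have := mul_le_mul_of_nonneg_right h7 hy0.le
        linarith
      intro k'
      have h5 : eps P D' k' = eps P D' k + D'.om ^ 2 * ((c k' : ℂ) - c k) := by
        rw [← hdiff]
        ring
      have h7 : ‖eps P D' k'‖ ≤ (6 + 20 * M + 4 * Cc) * Real.exp (-(a₁ * y)) := by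
        rw [h5]
        refine (norm_add_le _ _).trans ?_
        have h8 := hup k
        have h9 : ‖D'.om ^ 2 * ((c k' : ℂ) - c k)‖ ≤ 20 * Real.exp (-(a₁ * y)) * M := by
          rw [norm_mul]
          refine mul_le_mul ?_ (hMc (k', k)) (norm_nonneg _) (by positivity)
          linarith [homn.2]
        have h10 : Cc * Real.exp (-(2 * Real.pi * y)) ≤ Cc * Real.exp (-(a₁ * y)) :=
          mul_le_mul_of_nonneg_left hexp2 (by linarith)
        linarith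
      refine h7.trans ?_
      have h8 := hYb y hyb
      calc (6 + 20 * M + 4 * Cc) * Real.exp (-(a₁ * y)) ≤ Real.exp (a₁ / 2 * y) * Real.exp (-(a₁ * y)) :=
            mul_le_mul_of_nonneg_right h8 (Real.exp_pos _).le
        _ = Real.exp (-(a₁ / 2 * y)) := by
            rw [← Real.exp_add]
            congr 1
            ring

end Pool.Agent.MSR
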