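import Pool.Agent.Lib.MP_f58a57_nt.R.Defs
import Pool.Agent.Lib.MP_f58a57_nt.R.C1_Iter
import Pool.Agent.Lib.MP_f58a57_nt.R.D3b_Typ
import Pool.Agent.Lib.MP_f58a57_nt.R.D18_PropZ
import Pool.Agent.Lib.MP_f58a57_nt.R.D18b_PropZ
import Pool.Agent.Lib.MP_f58a57_nt.K.D6_Zero

/-! # R/D19_Zero: the zero estimate -/

open Complex Filter Topology IntermediateField

noncomputable section

namespace Pool.Agent.MSR

open MSD MSP MSK

variable {d : ℕ}

/-- D19. PROOF. As `zero_est` in K/D6_Zero: `C₀, Y₀` from `exists_spec`, `δ, a, Y₁` from `typ` (with this `C₀`), `C₁` the maximum of the constants of `propA` and `propB`. Given `ℓ` and `p ≠ 0` choose `y` large with `θ' = jj(iy)` transcendental (`exists_trans`), `e` (`exists_emb`), `D'` from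
`exists_spec`; `typ` gives one of the two types. With `c κ = aeval θ' (p κ)` (`c ≠ 0`) `propA` or `propB` gives `a, k` with nonzero derivative; by `iteratedDeriv_FR` `∑ c κ aeval (vals P D') (der^[k] (Rp κ)) ≠ 0`, and this is `σ` of the sum in the theorem. -/
theorem zero_estR (P : Par d) (hd : 1 ≤ d) (D : Dt d) (hD : IsOrig P D) (hj : deriv jj P.z ≠ 0) (htr : Transcendental ℚ (jj P.z))
    (hal : InK (jj P.z) P D) : ∃ C₁ : ℕ, 1 ≤ C₁ ∧ ∀ ℓ : ℕ, 1 ≤ ℓ → ∀ p : Ir d (ℓ ^ (3 * d * (d + 2))) → Polynomial ℤ, p ≠ 0 →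
    ∃ a : Fin d → ℕ, (∀ j, a j ≤ C₁ * ℓ ^ (3 * d ^ 2 + 9 * d + 3)) ∧ ∃ k < C₁ * ℓ ^ (3 * d ^ 2 + 9 * d + 3),
      ∑ κ, Polynomial.aeval (jj P.z) (p κ) * MvPolynomial.aeval (vals P D) ((der (fun j => (a j : ℤ)))^[k] (Rp (fun j => (κ j).val))) ≠ 0 := by
  obtain ⟨C₀, Y₀, hC₀, hY₀, hspec⟩ := exists_spec P D hD hj htr hal
  obtain ⟨δ, a₀, Y₁, hδ, hδ1, ha₀, hY₁, htyp⟩ := typ P D hD hj htr hal C₀
  obtain ⟨CA, hCA, hpropA⟩ := propA P hd C₀ δ hδ hδ1
  obtain ⟨CB, hCB, hpropB⟩ := propB P hd C₀ a₀ ha₀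
  refine ⟨max CA CB, le_trans hCA (le_max_left _ _), ?_⟩
  intro ℓ hℓ p hp
  obtain ⟨YA, hYA, hprA⟩ := hpropA (max CA CB) (le_max_left _ _) ℓ hℓ
  obtain ⟨YB, hYB, hprB⟩ := hpropB (max CA CB) (le_max_right _ _) ℓ hℓ
  obtain ⟨y, hy, hytr⟩ := exists_trans (max (max Y₀ Y₁) (max YA YB))
  obtain ⟨e⟩ := exists_emb (jj P.z) (jj (I * y)) htr hytr
  obtain ⟨D', hadm, hvals⟩ := hspec y (((le_max_left _ _).trans (le_max_left _ _)).trans hy) e
  have hc : (fun ν => Polynomial.aeval (jj (I * y)) (p ν)) ≠ 0 := by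
    intro h0
    apply hp
    funext ν
    have h1 : Polynomial.aeval (jj (I * y)) (p ν) = 0 := congrFun h0 ν
    by_contra h2
    apply hytr
    refine ⟨(p ν).map (Int.castRingHom ℚ), ?_, ?_⟩
    · intro h3
      exact h2 ((Polynomial.map_eq_zero_iff (Int.castRingHom ℚ).injective_int).1 h3)
    · rw [← h1, Polynomial.aeval_def, Polynomial.eval₂_map, Polynomial.aeval_def]
      congr 1
  have hty := htyp y (((le_max_right _ _).trans (le_max_left _ _)).trans hy) e D' hadm hvals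
  have hex : ∃ a : Fin d → ℕ, (∀ j, a j ≤ max CA CB * ℓ ^ (3 * d ^ 2 + 9 * d + 3)) ∧ ∃ k < max CA CB * ℓ ^ (3 * d ^ 2 + 9 * d + 3),
      iteratedDeriv k (fun ζ : ℂ => FR P D' (fun ν => Polynomial.aeval (jj (I * y)) (p ν)) (fun j => ζ * a j)) 0 ≠ 0 := by
    rcases hty with h | h
    · exact hprA y (((le_max_left _ _).trans (le_max_right _ _)).trans hy) D' hadm h _ hc
    · exact hprB y (((le_max_right _ _).trans (le_max_right _ _)).trans hy) D' hadm h _ hc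
  obtain ⟨a, ha, k, hk, hne⟩ := hex
  refine ⟨a, ha, k, hk, ?_⟩
  have h1 := iteratedDeriv_FR P D' (fun ν => Polynomial.aeval (jj (I * y)) (p ν)) (fun j => (a j : ℤ)) k
  have h2 : (fun ζ : ℂ => FR P D' (fun ν => Polynomial.aeval (jj (I * y)) (p ν)) (fun j => ζ * ((a j : ℤ) : ℂ))) =
      (fun ζ : ℂ => FR P D' (fun ν => Polynomial.aeval (jj (I * y)) (p ν)) (fun j => ζ * a j)) := by
    funext ζ
    simp only [Int.cast_natCast]
  rw [h2] at h1
  rw [h1] at hne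
  have hne2 := right_ne_zero_of_mul hne
  -- the elements of `Kc θ`
  let x : Vr d → Kc (jj P.z) := fun v => ⟨vals P D v, mem_algebraicClosure_iff.2 (hal v)⟩
  let θK : Kc (jj P.z) := algebraMap ℚ⟮jj P.z⟯ (Kc (jj P.z)) (AdjoinSimple.gen ℚ (jj P.z))
  have hθK : (θK : ℂ) = jj P.z := AdjoinSimple.algebraMap_gen ℚ (jj P.z)
  have hσθ : e.σ θK = (jj (I * y)) := e.th θK hθK
  have hx : ∀ v, vals P D' v = e.σ (x v) := fun v => hvals v (x v) rfl
  have e1 : ∀ q : MvPolynomial (Vr d) ℤ, MvPolynomial.aeval (vals P D') q = e.σ (MvPolynomial.aeval x q) := by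
    intro q
    have : (MvPolynomial.aeval (vals P D') : MvPolynomial (Vr d) ℤ →ₐ[ℤ] ℂ).toRingHom =
        e.σ.comp (MvPolynomial.aeval x : MvPolynomial (Vr d) ℤ →ₐ[ℤ] Kc (jj P.z)).toRingHom := by
      refine MvPolynomial.ringHom_ext (fun n => ?_) (fun v => ?_)
      · simp
      · simp [hx]
    exact congrArg (fun f : MvPolynomial (Vr d) ℤ →+* ℂ => f q) this
  have e2 : ∀ q : MvPolynomial (Vr d) ℤ, MvPolynomial.aeval (vals P D) q = ((MvPolynomial.aeval x q : Kc (jj P.z)) : ℂ) := by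
    intro q
    have : (MvPolynomial.aeval (vals P D) : MvPolynomial (Vr d) ℤ →ₐ[ℤ] ℂ).toRingHom =
        (algebraMap (Kc (jj P.z)) ℂ).comp (MvPolynomial.aeval x : MvPolynomial (Vr d) ℤ →ₐ[ℤ] Kc (jj P.z)).toRingHom := by
      refine MvPolynomial.ringHom_ext (fun n => ?_) (fun v => ?_)
      · simp
      · simp [x]
    exact congrArg (fun f : MvPolynomial (Vr d) ℤ →+* ℂ => f q) this
  have e3 : ∀ q : Polynomial ℤ, Polynomial.aeval (jj (I * y)) q = e.σ (Polynomial.aeval θK q) := by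
    intro q
    have : (Polynomial.aeval (jj (I * y)) : Polynomial ℤ →ₐ[ℤ] ℂ).toRingHom =
        e.σ.comp (Polynomial.aeval θK : Polynomial ℤ →ₐ[ℤ] Kc (jj P.z)).toRingHom := by
      refine Polynomial.ringHom_ext (fun n => ?_) ?_
      · simp
      · simp [hσθ]
    exact congrArg (fun f : Polynomial ℤ →+* ℂ => f q) this
  have e4 : ∀ q : Polynomial ℤ, Polynomial.aeval (jj P.z) q = ((Polynomial.aeval θK q : Kc (jj P.z)) : ℂ) := by
    intro q
    have : (Polynomial.aeval (jj P.z) : Polynomial ℤ →ₐ[ℤ] ℂ).toRingHom =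
        (algebraMap (Kc (jj P.z)) ℂ).comp (Polynomial.aeval θK : Polynomial ℤ →ₐ[ℤ] Kc (jj P.z)).toRingHom := by
      refine Polynomial.ringHom_ext (fun n => ?_) ?_
      · simp
      · simp
        exact hθK.symm
    exact congrArg (fun f : Polynomial ℤ →+* ℂ => f q) this
  intro h0
  apply hne2
  have h3 : ∑ ν, Polynomial.aeval (jj P.z) (p ν) * MvPolynomial.aeval (vals P D) ((der (fun j => (a j : ℤ)))^[k] (Rp (fun j => (ν j).val))) =
      ((∑ ν, Polynomial.aeval θK (p ν) * MvPolynomial.aeval x ((der (fun j => (a j : ℤ)))^[k] (Rp (fun j => (ν j).val))) : Kc (jj P.z)) : ℂ) := by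
    push_cast
    refine Finset.sum_congr rfl fun ν _ => ?_
    rw [e4, e2]
  rw [h3] at h0
  have h4 : (∑ ν, Polynomial.aeval θK (p ν) * MvPolynomial.aeval x ((der (fun j => (a j : ℤ)))^[k] (Rp (fun j => (ν j).val))) : Kc (jj P.z)) = 0 :=
    Subtype.ext h0
  have h5 := congrArg e.σ h4
  rw [map_sum, map_zero] at h5
  rw [← h5]
  refine Finset.sum_congr rfl fun ν _ => ?_
  rw [map_mul, ← e3, ← e1]

end Pool.Agent.MSR
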