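import Pool.Agent.Lib.MP_f58a57_nt.R.Defs
import Pool.Agent.Lib.MP_f58a57_nt.R.C1_Iter
import Pool.Agent.Lib.MP_f58a57_nt.R.C2_SmallDer
import Pool.Agent.Lib.MP_f58a57_nt.R.C3_Aux
import Pool.Agent.Lib.MP_f58a57_nt.R.C4_Par
import Pool.Agent.Lib.MP_f58a57_nt.R.A2_RpBd
import Pool.Agent.Lib.MP_f58a57_nt.R.A3_DerIt
import Pool.Agent.Lib.MP_f58a57_nt.R.D19_Zero
import Pool.Agent.Lib.MP_f58a57_nt.K.A3_Norm
import Pool.Agent.Lib.MP_f58a57_nt.K.G4_Step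
import Pool.Agent.Lib.MP_f58a57_nt.P.A1_Len

/-! # R/C5_Step: small nonzero values of integer polynomials at `j(z)` -/

open Complex Filter Topology IntermediateField

noncomputable section

namespace Pool.Agent.MSR

open MSD MSP MSK

variable {d : ℕ}


private theorem c5f_k1 (x : ℝ) (hx : 0 ≤ x) : 1 ≤ 8 * (x + 1) * (5 * x + 3) := by
  linarith [mul_nonneg hx hx]

private theorem c5f_k2 (x : ℝ) (hx : 0 ≤ x) : 1 ≤ 88 * (x + 1) * (x + 1) := by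
  linarith [mul_nonneg hx hx]

private theorem c5f_mul {x y : ℝ} (hx : 1 ≤ x) (hy : 1 ≤ y) : 1 ≤ x * y :=
  one_le_mul_of_one_le_of_one_le hx hy

private theorem c5f_TT {T L : ℝ} (hT : 1 ≤ T) (hL : 1 ≤ L) : T ≤ T * L :=
  le_mul_of_one_le_right (by linarith) hL

private theorem c5f_l1 {d E T : ℝ} (hd : 0 ≤ d) (hET : E ≤ T) :
    4 * (d * E) + (d + 3) * T ≤ (5 * d + 3) * T := by
  linarith [mul_le_mul_of_nonneg_left hET hd]

private theorem c5f_l2 {d E T : ℝ} (hd : 0 ≤ d) (hET : E ≤ T) (hT : 1 ≤ T) :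
    d * E + 1 ≤ (d + 1) * T := by
  linarith [mul_le_mul_of_nonneg_left hET hd]

private theorem c5f_f1 {d e T L : ℝ} (hd : 0 ≤ d) (he : e ≤ L) (hL : 1 ≤ L) (hT : 1 ≤ T) :
    d * e ≤ d * (T * L) :=
  mul_le_mul_of_nonneg_left (he.trans (le_mul_of_one_le_left (by linarith) hT)) hd

private theorem c5f_f2 {K T L X : ℝ} (hX : X ≤ K + 2 * L) (hK : 0 ≤ K) (hL : 1 ≤ L) (hT : 1 ≤ T) :
    T * X ≤ (K + 2) * (T * L) := by
  have h1 := mul_le_mul_of_nonneg_left hX (by linarith : 0 ≤ T)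
  have h3 : K * T ≤ K * (T * L) := mul_le_mul_of_nonneg_left (c5f_TT hT hL) hK
  linarith

private theorem c5f_f3 {K T L X d E : ℝ} (hX : X ≤ K + L) (hK : 0 ≤ K) (hL : 1 ≤ L) (hT : 1 ≤ T)
    (hd : 0 ≤ d) (hE : 0 ≤ E) (hET : E ≤ T) : d * E * X ≤ (d * K + d) * (T * L) := by
  have h1 := mul_le_mul_of_nonneg_left hX (mul_nonneg hd hE)
  have h3 : d * E * (K + L) ≤ d * T * (K + L) :=
    mul_le_mul_of_nonneg_right (mul_le_mul_of_nonneg_left hET hd) (by linarith)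
  have h4 : d * K * T ≤ d * K * (T * L) :=
    mul_le_mul_of_nonneg_left (c5f_TT hT hL) (mul_nonneg hd hK)
  linarith

private theorem c5f_sum {a1 a2 a3 a4 d K K' T L : ℝ} (h1 : a1 ≤ d * (T * L))
    (h2 : a2 ≤ (K + 2) * (T * L)) (h3 : a3 ≤ (d * K' + d) * (T * L)) (h4 : a4 ≤ T)
    (h5 : T ≤ T * L) :
    a1 + (a2 + a3) + (a4 + T * L) ≤ (2 * d + 4 + K + d * K') * (T * L) := by
  linarith

private theorem c5f_s {A T L Λ X : ℝ} (hA : 0 ≤ A) (hT : 1 ≤ T) (hL : 1 ≤ L)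
    (hX : X = T * (A + 2 * L) + A + -(Λ * T ^ 2 * L)) :
    X ≤ (2 * A + 2) * (T * L) - Λ * T ^ 2 * L := by
  have h5 := mul_le_mul_of_nonneg_left (c5f_TT hT hL) hA
  have h6 : A ≤ A * (T * L) := le_mul_of_one_le_right hA (c5f_mul hT hL)
  rw [hX]
  linarith

private theorem c5f_A {T l d K : ℝ} (hT : 0 ≤ T) (hd : 0 ≤ d) (hK : 0 ≤ K)
    (hl : l ≤ (5 * d + 3) * T) : T + l ≤ (7 * d + 11 + K) * T := by
  linarith [mul_nonneg hd hT, mul_nonneg hK hT]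

private theorem c5f_B {X l T U d K : ℝ} (hX : X ≤ (2 * d + 4 + K) * U) (hl : l ≤ (5 * d + 3) * T)
    (hU : T ≤ U) (hT : 1 ≤ T) (hd : 0 ≤ d) : X + (l + 1) ≤ (7 * d + 11 + K) * U := by
  have h := mul_le_mul_of_nonneg_left hU (by linarith : 0 ≤ 5 * d + 3)
  linarith

private theorem c5f_C {X l T U d K : ℝ} (hX : X ≤ (2 * d + 4 + K) * U) (hl : l ≤ (5 * d + 3) * T)
    (hU : T ≤ U) (hT : 1 ≤ T) (hd : 0 ≤ d) : X + (l + T + 1) ≤ (7 * d + 11 + K) * U := by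
  have h := mul_le_mul_of_nonneg_left hU (by linarith : 0 ≤ 5 * d + 3)
  linarith


theorem c5_log (d T E : ℕ) (hT : 3 ≤ T) (hE : 1 ≤ E) (hET : E ≤ T) :
    Real.log ((E : ℝ) ^ d * ((8 * (d + 1) * T * ((4 * (d * E) : ℕ) + (d + 3) * T)) ^ T * (88 * (d + 1) * ((d * E : ℕ) + 1)) ^ (d * E)) *
      ((T + 1) * (T : ℝ) ^ T)) ≤
      (2 * d + 4 + Real.log (8 * (d + 1) * (5 * d + 3)) + d * Real.log (88 * (d + 1) * (d + 1))) * (T * Real.log T) := by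
  have hlg := g4_logT T hT
  have hT1 : (1 : ℝ) ≤ T := by exact_mod_cast (by omega : 1 ≤ T)
  have hE1 : (1 : ℝ) ≤ E := by exact_mod_cast hE
  have hET' : (E : ℝ) ≤ T := by exact_mod_cast hET
  have hd0 : (0 : ℝ) ≤ d := Nat.cast_nonneg d
  have hK : 0 ≤ Real.log (8 * ((d : ℝ) + 1) * (5 * d + 3)) := Real.log_nonneg (c5f_k1 d hd0)
  have hK' : 0 ≤ Real.log (88 * ((d : ℝ) + 1) * (d + 1)) := Real.log_nonneg (c5f_k2 d hd0)
  obtain ⟨K, hKdef⟩ : ∃ K, K = Real.log (8 * ((d : ℝ) + 1) * (5 * d + 3)) := ⟨_, rfl⟩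
  obtain ⟨K', hKdef'⟩ : ∃ K', K' = Real.log (88 * ((d : ℝ) + 1) * (d + 1)) := ⟨_, rfl⟩
  rw [← hKdef] at hK ⊢
  rw [← hKdef'] at hK' ⊢
  push_cast
  have hdE : (0 : ℝ) ≤ (d : ℝ) * E := by positivity
  have hpos : 0 < 8 * ((d : ℝ) + 1) * T * (4 * (d * E) + (d + 3) * T) := by positivity
  have hpos' : 0 < 88 * ((d : ℝ) + 1) * (d * E + 1) := by positivity
  rw [Real.log_mul (by positivity) (by positivity), Real.log_mul (by positivity) (by positivity),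
    Real.log_mul (by positivity) (by positivity), Real.log_mul (by positivity) (by positivity), Real.log_pow, Real.log_pow, Real.log_pow,
    Real.log_pow]
  have e1 : Real.log E ≤ Real.log T := Real.log_le_log (by linarith) hET'
  have e2 : Real.log (8 * ((d : ℝ) + 1) * T * (4 * (d * E) + (d + 3) * T)) ≤ K + 2 * Real.log T := by
    have h1 : 8 * ((d : ℝ) + 1) * T * (4 * (d * E) + (d + 3) * T) ≤ (8 * (d + 1) * (5 * d + 3)) * (T : ℝ) ^ 2 := by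
      have h2 : 4 * ((d : ℝ) * E) + (d + 3) * T ≤ (5 * d + 3) * T := c5f_l1 hd0 hET'
      calc 8 * ((d : ℝ) + 1) * T * (4 * (d * E) + (d + 3) * T) ≤ 8 * ((d : ℝ) + 1) * T * ((5 * d + 3) * T) :=
            mul_le_mul_of_nonneg_left h2 (by positivity)
        _ = (8 * (d + 1) * (5 * d + 3)) * (T : ℝ) ^ 2 := by ring
    refine (Real.log_le_log hpos h1).trans ?_
    rw [Real.log_mul (by positivity) (by positivity), Real.log_pow, hKdef]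
    push_cast
    linarith
  have e2' : Real.log (88 * ((d : ℝ) + 1) * (d * E + 1)) ≤ K' + Real.log T := by
    have h1 : 88 * ((d : ℝ) + 1) * (d * E + 1) ≤ (88 * (d + 1) * (d + 1)) * (T : ℝ) := by
      have h2 : (d : ℝ) * E + 1 ≤ (d + 1) * T := c5f_l2 hd0 hET' hT1
      calc 88 * ((d : ℝ) + 1) * (d * E + 1) ≤ 88 * ((d : ℝ) + 1) * ((d + 1) * T) := mul_le_mul_of_nonneg_left h2 (by positivity)
        _ = (88 * (d + 1) * (d + 1)) * (T : ℝ) := by ring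
    refine (Real.log_le_log hpos' h1).trans ?_
    rw [Real.log_mul (by positivity) (by positivity), hKdef']
  have e3 : Real.log ((T : ℝ) + 1) ≤ T := by
    have := Real.log_le_sub_one_of_pos (by linarith : (0 : ℝ) < (T : ℝ) + 1)
    linarith
  push_cast
  have hTT : (T : ℝ) ≤ T * Real.log T := c5f_TT hT1 hlg
  exact c5f_sum (c5f_f1 hd0 e1 hlg hT1) (c5f_f2 e2 hK hlg hT1)
    (c5f_f3 e2' hK' hlg hT1 hd0 (by linarith) hET') e3 hTT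

theorem c5_nn (T E d : ℕ) (hT : 1 ≤ T) : (1 : ℝ) ≤ (8 * (d + 1) * T * ((4 * (d * E) : ℕ) + (d + 3) * T)) ^ T *
    (88 * (d + 1) * ((d * E : ℕ) + 1)) ^ (d * E) := by
  have hT1 : (1 : ℝ) ≤ T := by exact_mod_cast hT
  have hd0 : (0 : ℝ) ≤ d := Nat.cast_nonneg d
  have hE0 : (0 : ℝ) ≤ ((4 * (d * E) : ℕ) : ℝ) := Nat.cast_nonneg _
  have hE0' : (0 : ℝ) ≤ ((d * E : ℕ) : ℝ) := Nat.cast_nonneg _
  have h1 : (1 : ℝ) ≤ 8 * (d + 1) * T := c5f_mul (by linarith) hT1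
  have h2 : (1 : ℝ) ≤ (4 * (d * E) : ℕ) + (d + 3) * T := by
    have := c5f_mul (by linarith : (1 : ℝ) ≤ (d : ℝ) + 3) hT1
    linarith
  exact c5f_mul (one_le_pow₀ (c5f_mul h1 h2))
    (one_le_pow₀ (c5f_mul (by linarith) (by linarith)))

theorem c5_Rp (d T E : ℕ) (hT : 1 ≤ T) (hE : 1 ≤ E) (a : Fin d → ℕ) (ha : ∀ j, a j ≤ T) (k : ℕ) (hk : k ≤ T) (κ : Ir d E) :
    ((der (fun j => (a j : ℤ)))^[k] (Rp (fun j => (κ j).val))).totalDegree ≤ 4 * (d * E) + (d + 3) * T ∧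
      mlen ((der (fun j => (a j : ℤ)))^[k] (Rp (fun j => (κ j).val))) ≤
        (8 * (d + 1) * T * ((4 * (d * E) : ℕ) + (d + 3) * T)) ^ T * (88 * (d + 1) * ((d * E : ℕ) + 1)) ^ (d * E) := by
  have hs : ∑ j, (κ j).val ≤ d * E := by
    calc ∑ j, (κ j).val ≤ ∑ _j : Fin d, E := Finset.sum_le_sum fun j _ => (κ j).isLt.le
      _ = d * E := by simp
  obtain ⟨h1, h2⟩ := Rp_bd (fun j => (κ j).val)
  have hd0 : (0 : ℝ) ≤ d := Nat.cast_nonneg d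
  have h3 : mlen (Rp (fun j => (κ j).val)) ≤ (88 * ((d : ℝ) + 1) * ((d * E : ℕ) + 1)) ^ (d * E) := by
    refine h2.trans ?_
    have hs' : ((∑ j, (κ j).val : ℕ) : ℝ) ≤ ((d * E : ℕ) : ℝ) := by exact_mod_cast hs
    have hs0 : (0 : ℝ) ≤ ((∑ j, (κ j).val : ℕ) : ℝ) := Nat.cast_nonneg _
    have h4 : (88 * ((d : ℝ) + 1) * (((∑ j, (κ j).val : ℕ) : ℝ) + 1)) ≤ (88 * ((d : ℝ) + 1) * ((d * E : ℕ) + 1)) :=
      mul_le_mul_of_nonneg_left (by linarith) (by positivity)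
    have h5 : 1 ≤ (88 * ((d : ℝ) + 1) * ((d * E : ℕ) + 1)) := by
      have : (0 : ℝ) ≤ ((d * E : ℕ) : ℝ) := Nat.cast_nonneg _
      exact c5f_mul (by linarith) (by linarith)
    exact (pow_le_pow_left₀ (by positivity) h4 _).trans (pow_le_pow_right₀ h5 hs)
  exact der_iter_gen (fun j => (a j : ℤ)) (T : ℝ) (by exact_mod_cast hT) (fun j => by
    rw [Int.cast_natCast, abs_of_nonneg (Nat.cast_nonneg _)]
    exact_mod_cast ha j) (Rp (fun j => (κ j).val)) (4 * (d * E)) _ (h1.trans (by omega)) h3 T k hT hk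

/-- C5. PROOF. Compare `step` in K/G4_Step (complete proof there, same structure). `C₁` from `zero_estR`, `T = C₁ ℓ^(3d²+9d+3)`, `E = ℓ^(3d(d+2)) ≤ T`, `g = Λ T² log T`, `p` from `aux_existsR` (with `R` from `paramsR`), `a, k` from `zero_estR`,
`S = ∑ aeval θ (p κ) aeval vals (der^[k] (Rp κ)) ≠ 0`. By `iteratedDeriv_FR` and `small_derivR` `‖S‖ ≤ (C T²)^T C e^{-g}` (`‖om‖ ≥ 1` since `om² = π`). `norm_lemma_fin` for `y = vals P D`, `ι = Ir d E` (card `E^d`), `l = 4dE + (d+3)T`, `δ = T`,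
`H = (8(d+1)T(4dE + (d+3)T))^T (88(d+1)(dE+1))^(dE)` (`der_iter_gen` with `A = T`, `Rp_bd`, `∑ κ_j ≤ d E`; monotonicity of the bound in `∑ κ_j`), `H' = (T+1) T^T`: a polynomial `Q` of degree `≤ C₂ T`, `log len Q ≤ C₂ T log T`,
`log ‖Q(θ)‖ ≤ log ‖S‖ + C T log T ≤ -g + C' T log T ≤ -(Λ/2) T² log T` for `ℓ` large (`g4_end`). `C₂` does not depend on `Λ`. -/
theorem stepR (P : Par d) (hd : 2 ≤ d) (D : Dt d) (hD : IsOrig P D) (hj : deriv jj P.z ≠ 0) (htr : Transcendental ℚ (jj P.z))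
    (hal : InK (jj P.z) P D) : ∃ (C₁ : ℕ) (C₂ : ℝ), 1 ≤ C₁ ∧ 1 ≤ C₂ ∧ ∀ Λ : ℝ, 1 ≤ Λ → ∀ᶠ ℓ : ℕ in atTop, ∃ Q : Polynomial ℤ,
      Polynomial.aeval (jj P.z) Q ≠ 0 ∧ (Q.natDegree : ℝ) ≤ C₂ * (C₁ * ℓ ^ (3 * d ^ 2 + 9 * d + 3) : ℕ) ∧
      Real.log (len Q) ≤ C₂ * (C₁ * ℓ ^ (3 * d ^ 2 + 9 * d + 3) : ℕ) * Real.log (C₁ * ℓ ^ (3 * d ^ 2 + 9 * d + 3) : ℕ) ∧
      ‖Polynomial.aeval (jj P.z) Q‖ ≤ Real.exp (-(Λ / 2 * (C₁ * ℓ ^ (3 * d ^ 2 + 9 * d + 3) : ℕ) ^ 2 *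
        Real.log (C₁ * ℓ ^ (3 * d ^ 2 + 9 * d + 3) : ℕ))) := by
  have hd1 : 1 ≤ d := by omega
  obtain ⟨C₁, hC₁, hzero⟩ := zero_estR P hd1 D hD hj htr hal
  obtain ⟨Ca, hCa, haux⟩ := aux_existsR P hd D hD (jj P.z)
  obtain ⟨Cd, hCd, hder⟩ := small_derivR P hd D hD
  obtain ⟨Cn, hCn, hnorm⟩ := norm_lemma_fin (jj P.z) htr (vals P D) hal
  have hd0 : (0 : ℝ) ≤ d := Nat.cast_nonneg d
  obtain ⟨K, hKdef⟩ : ∃ K, K = Real.log (8 * ((d : ℝ) + 1) * (5 * d + 3)) + d * Real.log (88 * ((d : ℝ) + 1) * (d + 1)) := ⟨_, rfl⟩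
  have hK : 0 ≤ K := by
    rw [hKdef]
    exact add_nonneg (Real.log_nonneg (c5f_k1 d hd0)) (mul_nonneg hd0 (Real.log_nonneg (c5f_k2 d hd0)))
  have hCdlog : 0 ≤ Real.log Cd := Real.log_nonneg hCd
  have hC₂ : 1 ≤ Cn * (7 * d + 11 + K) := c5f_mul hCn (by linarith)
  refine ⟨C₁, Cn * (7 * d + 11 + K), hC₁, hC₂, fun Λ hΛ => ?_⟩
  filter_upwards [paramsR d hd Ca Λ hCa hΛ C₁ hC₁,
    eventually_ge_atTop (max 3 ⌈2 * (Cn * (7 * d + 11 + K) + (2 * Real.log Cd + 2))⌉₊)] with ℓ hpar hℓ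
  obtain ⟨R, hR1, h1, h2⟩ := hpar
  have hℓ3 : 3 ≤ ℓ := (le_max_left _ _).trans hℓ
  have hℓC : 2 * (Cn * (7 * d + 11 + K) + (2 * Real.log Cd + 2)) ≤ ℓ :=
    (Nat.le_ceil _).trans (by exact_mod_cast (le_max_right _ _).trans hℓ)
  have hℓ1 : 1 ≤ ℓ := by omega
  have hexp : 3 * d * (d + 2) ≤ 3 * d ^ 2 + 9 * d + 3 := by
    have : 3 * d * (d + 2) = 3 * d ^ 2 + 6 * d := by ring
    omega
  have hLT' : ℓ ^ (3 * d * (d + 2)) ≤ C₁ * ℓ ^ (3 * d ^ 2 + 9 * d + 3) :=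
    (Nat.pow_le_pow_right hℓ1 hexp).trans (Nat.le_mul_of_pos_left _ hC₁)
  have hℓT' : ℓ ≤ C₁ * ℓ ^ (3 * d ^ 2 + 9 * d + 3) := by
    calc ℓ = ℓ ^ 1 := (pow_one _).symm
      _ ≤ ℓ ^ (3 * d ^ 2 + 9 * d + 3) := Nat.pow_le_pow_right hℓ1 (by omega)
      _ ≤ C₁ * ℓ ^ (3 * d ^ 2 + 9 * d + 3) := Nat.le_mul_of_pos_left _ hC₁
  have hL1' : 1 ≤ ℓ ^ (3 * d * (d + 2)) := Nat.one_le_pow _ _ hℓ1
  have hz := hzero ℓ hℓ1
  revert h1 h2 hLT' hℓT' hL1' hz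
  generalize C₁ * ℓ ^ (3 * d ^ 2 + 9 * d + 3) = T
  generalize ℓ ^ (3 * d * (d + 2)) = E
  intro h1 h2 hLT hℓT hL1 hz
  have hT3 : 3 ≤ T := hℓ3.trans hℓT
  have hT1 : 1 ≤ T := by omega
  have hT1' : (1 : ℝ) ≤ T := by exact_mod_cast hT1
  have hL1' : (1 : ℝ) ≤ E := by exact_mod_cast hL1
  have hLT' : (E : ℝ) ≤ T := by exact_mod_cast hLT
  have hlg := g4_logT T hT3
  have hg : 0 ≤ Λ * (T : ℝ) ^ 2 * Real.log T := by positivity
  obtain ⟨p, hp0, hpd, hpc, hsm⟩ := haux E T R (Λ * (T : ℝ) ^ 2 * Real.log T) hL1 hLT hT3 hR1 hg h1 h2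
  obtain ⟨a, ha, k, hk, hS⟩ := hz p hp0
  have hom : 1 ≤ ‖D.om‖ := by
    have h3 : ‖D.om‖ ^ 2 = Real.pi := by
      rw [← norm_pow, hD.om, Complex.norm_real, Real.norm_of_nonneg Real.pi_pos.le]
    have h4 : 1 ≤ ‖D.om‖ ^ 2 := by
      rw [h3]
      linarith [Real.pi_gt_three]
    exact (one_le_sq_iff₀ (norm_nonneg D.om)).1 h4
  have hSle : ‖∑ κ, Polynomial.aeval (jj P.z) (p κ) * MvPolynomial.aeval (vals P D) ((der (fun j => (a j : ℤ)))^[k] (Rp (fun j => (κ j).val)))‖ ≤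
      (Cd * T ^ 2) ^ T * Cd * Real.exp (-(Λ * (T : ℝ) ^ 2 * Real.log T)) := by
    have h3 := hder E (fun κ => Polynomial.aeval (jj P.z) (p κ)) _ (Real.exp_pos _).le hsm T hT1 a ha k hk.le
    have h4 := iteratedDeriv_FR P D (fun κ => Polynomial.aeval (jj P.z) (p κ)) (fun j => (a j : ℤ)) k
    simp only [Int.cast_natCast] at h4
    rw [h4, norm_mul, norm_pow] at h3
    refine le_trans ?_ h3
    exact le_mul_of_one_le_left (norm_nonneg _) (one_le_pow₀ hom)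
  have hSpos : 0 < ‖∑ κ, Polynomial.aeval (jj P.z) (p κ) * MvPolynomial.aeval (vals P D) ((der (fun j => (a j : ℤ)))^[k] (Rp (fun j => (κ j).val)))‖ :=
    norm_pos_iff.2 hS
  have hSlog : Real.log ‖∑ κ, Polynomial.aeval (jj P.z) (p κ) * MvPolynomial.aeval (vals P D) ((der (fun j => (a j : ℤ)))^[k] (Rp (fun j => (κ j).val)))‖ ≤
      (2 * Real.log Cd + 2) * (T * Real.log T) - Λ * (T : ℝ) ^ 2 * Real.log T := by
    refine (Real.log_le_log hSpos hSle).trans ?_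
    have hCd0 : 0 < Cd := by linarith
    rw [Real.log_mul (by positivity) (by positivity), Real.log_mul (by positivity) (by positivity), Real.log_exp,
      Real.log_pow, Real.log_mul (by positivity) (by positivity), Real.log_pow]
    refine c5f_s hCdlog hT1' hlg ?_
    push_cast
    rfl
  have hcard : (Fintype.card (Ir d E) : ℝ) = (E : ℝ) ^ d := by
    have h : Fintype.card (Ir d E) = E ^ d := by
      show Fintype.card (Fin d → Fin E) = _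
      simp
    rw [h]
    push_cast
    ring
  obtain ⟨Q, hQ0, hQd, hQl, hQn⟩ := hnorm (Ir d E) (4 * (d * E) + (d + 3) * T) T
    ((8 * (d + 1) * T * ((4 * (d * E) : ℕ) + (d + 3) * T)) ^ T * (88 * (d + 1) * ((d * E : ℕ) + 1)) ^ (d * E)) ((T + 1) * (T : ℝ) ^ T) p
    (fun κ => (der (fun j => (a j : ℤ)))^[k] (Rp (fun j => (κ j).val))) (c5_nn T E d hT1)
    (by
      have h3 : (1 : ℝ) ≤ (T : ℝ) ^ T := one_le_pow₀ hT1'
      exact c5f_mul (by linarith) h3)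
    (fun κ => c5_Rp d T E hT1 hL1 a ha k hk.le κ)
    hpd
    (fun κ => by
      have h3 := len_le_of_coeff (p κ) ((T : ℝ) ^ T) (fun i => hpc κ i)
      refine h3.trans (mul_le_mul_of_nonneg_right ?_ (by positivity))
      have : ((p κ).natDegree : ℝ) ≤ T := by exact_mod_cast hpd κ
      linarith)
    hS
  rw [hcard] at hQl hQn
  have hTT : (T : ℝ) ≤ T * Real.log T := c5f_TT hT1' hlg
  have hl : (((4 * (d * E) + (d + 3) * T : ℕ)) : ℝ) ≤ (5 * d + 3) * T := by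
    push_cast
    exact c5f_l1 hd0 hLT'
  obtain ⟨X, hX⟩ : ∃ X, X = Real.log ((E : ℝ) ^ d * ((8 * (d + 1) * T * ((4 * (d * E) : ℕ) + (d + 3) * T)) ^ T *
      (88 * (d + 1) * ((d * E : ℕ) + 1)) ^ (d * E)) * ((T + 1) * (T : ℝ) ^ T)) := ⟨_, rfl⟩
  have hlog : X ≤ (2 * d + 4 + K) * (T * Real.log T) := by
    rw [hX, hKdef]
    refine (c5_log d T E hT3 hL1 hLT).trans (le_of_eq ?_)
    rw [← add_assoc (2 * (d : ℝ) + 4)]
  rw [← hX] at hQl hQn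
  have hCn0 : 0 ≤ Cn := by linarith
  have hT0 : (0 : ℝ) ≤ T := by linarith
  refine ⟨Q, hQ0, ?_, ?_, ?_⟩
  · refine hQd.trans ?_
    rw [mul_assoc]
    exact mul_le_mul_of_nonneg_left (c5f_A hT0 hd0 hK hl) hCn0
  · refine hQl.trans ?_
    have e : Cn * (7 * d + 11 + K) * (T : ℝ) * Real.log T = Cn * ((7 * d + 11 + K) * (T * Real.log T)) := by
      rw [mul_assoc, mul_assoc]
    rw [e]
    exact mul_le_mul_of_nonneg_left (c5f_B hlog hl hTT hT1' hd0) hCn0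
  · rw [← Real.log_le_iff_le_exp (norm_pos_iff.2 hQ0)]
    have h5 := mul_le_mul_of_nonneg_left (c5f_C hlog hl hTT hT1' hd0) hCn0
    have h6 := g4_end T (Real.log T) Λ (Cn * (7 * d + 11 + K) + (2 * Real.log Cd + 2)) _ hlg hT0 hΛ
      (hℓC.trans (by exact_mod_cast hℓT)) rfl
    refine hQn.trans ((add_le_add hSlog h5).trans (le_trans (le_of_eq ?_) h6))
    ring

end Pool.Agent.MSR
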