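import Pool.Agent.Lib.MP_f58a57_nt.R.Defs
import Pool.Agent.Lib.MP_f58a57_nt.R.C5_Step
import Pool.Agent.Lib.MP_f58a57_nt.K.G5_Core

/-! # R/C6_Core: the contradiction -/

open Complex Filter Topology IntermediateField

noncomputable section

namespace Pool.Agent.MSR

open MSD MSP MSK

variable {d : ℕ}

/-- C6. PROOF. The proof of `core` in K/G5_Core with `stepR` for `step` and the exponent `3d² + 9d + 3` for `2d + 1` (`g5_growth` holds for every exponent; take `a = 2^(f+1)` in `gelfond`). -/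
theorem coreR (P : Par d) (hd : 2 ≤ d) (D : Dt d) (hD : IsOrig P D) (hj : deriv jj P.z ≠ 0) (htr : Transcendental ℚ (jj P.z))
    (hal : InK (jj P.z) P D) : False := by
  obtain ⟨C₁, C₂, hC₁, hC₂, hstep⟩ := stepR P hd D hD hj htr hal
  have ha : (1 : ℝ) ≤ 2 ^ (3 * d ^ 2 + 9 * d + 4) := one_le_pow₀ (by norm_num)
  obtain ⟨Λ, hΛ, hgel⟩ := gelfond (jj P.z) (2 ^ (3 * d ^ 2 + 9 * d + 4)) ha
  set T : ℕ → ℝ := fun n => ((C₁ * n ^ (3 * d ^ 2 + 9 * d + 3) : ℕ) : ℝ) with hT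
  have hgr : ∀ n : ℕ, 3 ≤ n → (3 : ℝ) ≤ T n ∧ (n : ℝ) ≤ T n ∧ 1 ≤ Real.log (T n) ∧ T n ≤ T (n + 1) ∧
      T (n + 1) ≤ 2 ^ (3 * d ^ 2 + 9 * d + 3) * T n ∧ Real.log (T (n + 1)) ≤ 2 * Real.log (T n) := by
    intro n hn
    exact g5_growth (3 * d ^ 2 + 9 * d + 3) C₁ n (by omega) hC₁ hn
  refine hgel (fun n => C₂ * T n) (fun n => C₂ * T n * Real.log (T n)) ?_ ?_ ?_
  · filter_upwards [eventually_ge_atTop 3] with n hn
    obtain ⟨h1, h2, h3, h4, h5, h6⟩ := hgr n hn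
    obtain ⟨g1, g2, g3, -, -, -⟩ := hgr (n + 1) (by omega)
    have hCT : 1 ≤ C₂ * T n := by nlinarith
    have hCT0 : 0 ≤ C₂ * T n := by linarith
    have hmon : C₂ * T n ≤ C₂ * T (n + 1) := mul_le_mul_of_nonneg_left h4 (by linarith)
    have hup : C₂ * T (n + 1) ≤ 2 ^ (3 * d ^ 2 + 9 * d + 3) * (C₂ * T n) := by
      calc C₂ * T (n + 1) ≤ C₂ * (2 ^ (3 * d ^ 2 + 9 * d + 3) * T n) := mul_le_mul_of_nonneg_left h5 (by linarith)
        _ = 2 ^ (3 * d ^ 2 + 9 * d + 3) * (C₂ * T n) := by ring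
    have hlogm : Real.log (T n) ≤ Real.log (T (n + 1)) := Real.log_le_log (by linarith) h4
    refine ⟨hCT, ?_, hmon, ?_, ?_, ?_⟩
    · show C₂ * T n ≤ C₂ * T n * Real.log (T n)
      exact le_mul_of_one_le_right hCT0 h3
    · refine hup.trans ?_
      refine mul_le_mul_of_nonneg_right ?_ hCT0
      exact pow_le_pow_right₀ (by norm_num) (by omega)
    · exact mul_le_mul hmon hlogm (by linarith) (by linarith)
    · calc C₂ * T (n + 1) * Real.log (T (n + 1))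
          ≤ (2 ^ (3 * d ^ 2 + 9 * d + 3) * (C₂ * T n)) * (2 * Real.log (T n)) :=
            mul_le_mul hup h6 (by linarith) (by positivity)
        _ = 2 ^ (3 * d ^ 2 + 9 * d + 4) * (C₂ * T n * Real.log (T n)) := by ring
  · refine tendsto_atTop_mono' atTop ?_ tendsto_natCast_atTop_atTop
    filter_upwards [eventually_ge_atTop 3] with n hn
    obtain ⟨h1, h2, h3, -, -, -⟩ := hgr n hn
    have hCT : T n ≤ C₂ * T n := le_mul_of_one_le_left (by linarith) hC₂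
    have hCT2 : C₂ * T n ≤ C₂ * T n * Real.log (T n) := le_mul_of_one_le_right (by linarith) h3
    linarith
  · have hΛ' : 1 ≤ 2 * Λ * C₂ ^ 2 + 1 := by
      have : 0 ≤ 2 * Λ * C₂ ^ 2 := by positivity
      linarith
    filter_upwards [hstep _ hΛ', eventually_ge_atTop 3] with n ⟨Q, q1, q2, q3, q4⟩ hn
    obtain ⟨h1, h2, h3, -, -, -⟩ := hgr n hn
    refine ⟨Q, q2, q3, q1, q4.trans ?_⟩
    refine Real.exp_le_exp.2 ?_
    show -((2 * Λ * C₂ ^ 2 + 1) / 2 * (T n) ^ 2 * Real.log (T n)) ≤ -(Λ * (C₂ * T n) * (C₂ * T n * Real.log (T n)))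
    have hpos : 0 ≤ (T n) ^ 2 * Real.log (T n) := mul_nonneg (sq_nonneg _) (by linarith)
    nlinarith

end Pool.Agent.MSR
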