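import Pool.Agent.Lib.MP_f58a57_nt.R.Defs
import Pool.Agent.Lib.MP_f58a57_nt.R.C6_Core
import Pool.Agent.Lib.MP_f58a57_nt.K.G7_Main

/-! # R/C7_Main: the theorem for one point -/

open Complex Filter Topology IntermediateField

noncomputable section

namespace Pool.Agent.MSR

open MSD MSP MSK

variable {d : ℕ}

/-- C7. PROOF. The proof of `main_point` in K/G7_Main with `coreR` for `core`. -/
theorem main_pointR (z : ℂ) (hz : 0 < z.im) (hj : deriv jj z ≠ 0) (hd : 3 ≤ (minpoly ℚ z).natDegree) (S : Set ℂ)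
    (m : z ∈ S) (m0 : jj z ∈ S) (m1 : deriv jj z ∈ S) (m2 : deriv (deriv jj) z ∈ S) :
    (2 : Cardinal) ≤ Algebra.trdeg ℚ (adjoin ℚ S) := by
  by_cases ha : IsAlgebraic ℚ (jj z)
  · have hns : ¬ IsSpecial z := by
      intro hs
      have := g7_special z hs
      omega
    exact MSN.trdeg_nonspecial MSN.steps z hz hns hj ha S m m1 m2
  · have htr : Transcendental ℚ (jj z) := ha
    by_contra hcon
    have hal : ∀ t ∈ S, IsAlgebraic ℚ⟮jj z⟯ t := by
      intro t ht
      by_contra hc
      apply hcon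
      have key := MSP.f3_indep (jj z) t htr hc
      have ms : jj z ∈ adjoin ℚ S := subset_adjoin _ _ m0
      have mt : t ∈ adjoin ℚ S := subset_adjoin _ _ ht
      have hx : AlgebraicIndependent ℚ ![(⟨jj z, ms⟩ : adjoin ℚ S), ⟨t, mt⟩] := by
        apply AlgebraicIndependent.of_comp (IntermediateField.val _)
        have e : ((IntermediateField.val (adjoin ℚ S)) ∘ ![(⟨jj z, ms⟩ : adjoin ℚ S), ⟨t, mt⟩]) = ![jj z, t] := by
          funext i
          fin_cases i <;> rfl
        rw [e]
        exact key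
      have h2 := hx.cardinalMk_le_trdeg
      simpa using h2
    have fin : ∀ d : ℕ, 2 ≤ d → (minpoly ℚ z).natDegree = d + 1 → False := by
      intro d hd2 hdeg
      obtain ⟨P, rfl⟩ := exists_par (d := d) z hz hdeg
      obtain ⟨D, hD⟩ := exists_orig P (by omega)
      exact coreR P hd2 D hD hj htr (vals_alg P (by omega) D hD hj _ (hal _ m0) (hal _ m1) (hal _ m2))
    exact fin ((minpoly ℚ z).natDegree - 1) (by omega) (by omega)

end Pool.Agent.MSR
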