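import Pool.Agent.Lib.MP_f58a57_nt.K.Defs

/-!
# MP_f58a57_nt, algebraic points of every degree at least 3: definitions

`z = rt 0` is an algebraic number of degree `d + 1` in the upper half plane. The auxiliary functions are combinations of the
functions `Rp κ`, `κ ∈ {0, ..., E-1}^d`, which have simple poles and are of degree `|κ|` in the additive functions.
-/

open Complex IntermediateField

noncomputable section

namespace Pool.Agent.MSR

open MSD MSP MSK

variable {d : ℕ}

/-! ### The algebraic side -/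

/-- the coefficient of the quasi periodic function with index `l` in the additive function with index `j`, as a polynomial -/
def rhp (l : Fin (d + 1)) (j : Fin d) : MvPolynomial (Vr d) ℤ :=
  MvPolynomial.X Vr.r * ((if l = j.castSucc then 1 else 0) + (if l = Fin.last d then MvPolynomial.X (Vr.b j.succ) else 0)
    - (if l = j.succ then MvPolynomial.X Vr.z else 0))

/-- its value -/
def rhv (P : Par d) (l : Fin (d + 1)) (j : Fin d) : ℂ :=
  rh * ((if l = j.castSucc then 1 else 0) + (if l = Fin.last d then (P.b j.succ : ℂ) else 0) - (if l = j.succ then P.z else 0))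

/-- the values of the derivation `dlt j` at the variables -/
def dlv (j : Fin d) : Vr d → MvPolynomial (Vr d) ℤ
  | .X l => -(rhp l j * MvPolynomial.X (Vr.Y l))
  | .Y l => -(rhp l j * (6 * MvPolynomial.X (Vr.X l) ^ 2 - MvPolynomial.X Vr.g))
  | .Q i => -∑ l, rhp l i * rhp l j * MvPolynomial.X (Vr.X l)
  | .b _ => 0
  | .g => 0
  | .k => 0
  | .z => 0
  | .r => 0

/-- the derivation of the variable `ξ_j` -/
def dlt (j : Fin d) : Derivation ℤ (MvPolynomial (Vr d) ℤ) (MvPolynomial (Vr d) ℤ) := MvPolynomial.mkDerivation ℤ (dlv j)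

/-- the covariant derivative -/
def nab (j : Fin d) (R : MvPolynomial (Vr d) ℤ) : MvPolynomial (Vr d) ℤ := dlt j R + MvPolynomial.X (Vr.Q j) * R

/-- the functions with simple poles, as polynomials in the variables of the differential ring -/
def Rp (κ : Fin d → ℕ) : MvPolynomial (Vr d) ℤ := (List.finRange d).foldr (fun j R => (nab j)^[κ j] R) 1

/-- the operators on polynomials in `u_1, ..., u_d` which correspond to `nab j` -/
def bb (q : Fin d → Fin d → ℂ) (j : Fin d) (B : MvPolynomial (Fin d) ℂ) : MvPolynomial (Fin d) ℂ :=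
  MvPolynomial.X j * B + ∑ i, MvPolynomial.C (q i j) * MvPolynomial.pderiv i B

/-- the polynomials which correspond to `Rp κ` -/
def Bp (q : Fin d → Fin d → ℂ) (κ : Fin d → ℕ) : MvPolynomial (Fin d) ℂ :=
  (List.finRange d).foldr (fun j B => (bb q j)^[κ j] B) 1

/-- sum of the absolute values of the coefficients, with the weight `ρ ^ degree` -/
def nm {σ : Type} (ρ : ℝ) (B : MvPolynomial σ ℂ) : ℝ := ∑ m ∈ B.support, ‖B.coeff m‖ * ρ ^ (m.sum fun _ e => e)

/-! ### The analytic side -/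

/-- the values of the variables for independent `W` (linear part of the additive functions) and `t` -/
def evW (P : Par d) (D : Dt d) (W : Fin d → ℂ) (t : Fin (d + 1) → ℂ) : Vr d → ℂ
  | .X l => D.X l (t l)
  | .Y l => D.Y l (t l)
  | .Q j => W j - 1 / D.om * ∑ l, rhv P l j * D.ps l (t l)
  | .b l => P.b l
  | .g => 2 / 3 * Real.pi ^ 4 * e4 D.τ / D.om ^ 4
  | .k => D.kap
  | .z => P.z
  | .r => rh

/-- the quadratic form of the heat type correction -/
def qq (P : Par d) (D : Dt d) (i j : Fin d) : ℂ := sE D.τ / D.om ^ 2 * ∑ l, rhv P l i * rhv P l j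

/-- the constant in the additive functions -/
def lam (P : Par d) (D : Dt d) (j : Fin d) : ℂ := 1 / D.om * ∑ l, rhv P l j * ph D.τ (D.h l)

/-- the linear functional `X^m ↦ ∏ th^(m_l)(h_l + t_l)` -/
def TH (D : Dt d) (t : Fin (d + 1) → ℂ) (q : MvPolynomial (Fin (d + 1)) ℂ) : ℂ :=
  ∑ m ∈ q.support, q.coeff m * ∏ l, iteratedDeriv (m l) (th D.τ) (D.h l + t l)

/-- the linear polynomials `W_j + lam_j - (1/om) ∑ rho_lj X_l` -/
def lin (P : Par d) (D : Dt d) (W : Fin d → ℂ) (j : Fin d) : MvPolynomial (Fin (d + 1)) ℂ :=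
  MvPolynomial.C (W j + lam P D j) - MvPolynomial.C (1 / D.om) * ∑ l, MvPolynomial.C (rhv P l j) * MvPolynomial.X l

/-- the linear part of the additive functions on `V` -/
def WV (P : Par d) (D : Dt d) (v : Fin d → ℂ) (j : Fin d) : ℂ := D.om * As P D.s v j

/-- index set of the functions -/
abbrev Ir (d E : ℕ) : Type := Fin d → Fin E

/-- the polynomial in `u` of the auxiliary function -/
def Cs (P : Par d) (D : Dt d) {E : ℕ} (c : Ir d E → ℂ) : MvPolynomial (Fin d) ℂ :=
  ∑ κ, MvPolynomial.C (c κ) * Bp (qq P D) (fun j => (κ j).val)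

/-- the auxiliary function on `V` -/
def FR (P : Par d) (D : Dt d) {E : ℕ} (c : Ir d E → ℂ) (v : Fin d → ℂ) : ℂ :=
  ∑ κ, c κ * MvPolynomial.aeval (evW P D (WV P D v) (tt P.z v)) (Rp (fun j => (κ j).val))

/-- the entire function `FR * pp` -/
def GR (P : Par d) (D : Dt d) {E : ℕ} (c : Ir d E → ℂ) (v : Fin d → ℂ) : ℂ :=
  TH D (tt P.z v) (MvPolynomial.aeval (lin P D (WV P D v)) (Cs P D c))

/-- the entire function in absolute coordinates -/
def GA (P : Par d) (D : Dt d) {E : ℕ} (c : Ir d E → ℂ) (v : Fin d → ℂ) : ℂ := GR P D c (fun j => v j - p0 P.z j)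

/-! ### The zero estimate -/

/-- the coefficient of the linear part of the additive eigenfunctions -/
def eps (P : Par d) (D : Dt d) (k : Fin d) : ℂ :=
  D.om ^ 2 * (1 + D.s * (P.rt k.succ - P.z)) / (rh * (P.rt k.succ - P.z))

/-- the two types of specialised curves -/
def Typ (δ a y : ℝ) (P : Par d) (D : Dt d) : Prop :=
  (∀ k k' : Fin d, k ≠ k' → δ ≤ ‖eps P D k‖ ∨ δ ≤ ‖eps P D k'‖) ∨ ∀ k : Fin d, ‖eps P D k‖ ≤ Real.exp (-(a * y))

/-- the eigencoordinates `∑ z_k^j t_j` -/
def eg (P : Par d) (t : Fin (d + 1) → ℂ) (k : Fin d) : ℂ := ∑ j : Fin (d + 1), P.rt k.succ ^ j.val * t j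

/-- the linear polynomials `r_k w_k - (1/s_k) ∑ z_k^j X_j` -/
def lin' (P : Par d) (r s w : Fin d → ℂ) (k : Fin d) : MvPolynomial (Fin (d + 1)) ℂ :=
  MvPolynomial.C (r k * w k) - MvPolynomial.C (1 / s k) * ∑ j : Fin (d + 1), MvPolynomial.C (P.rt k.succ ^ j.val) * MvPolynomial.X j

/-- the coefficients of the theta series at a half period: `(-1)^n p^(n(n+1)/2) e((n+1/2)h)`, `p = e(τ)` -/
def vt (τ h : ℂ) (n : ℤ) : ℂ := (-1) ^ n * ee (τ * (n * (n + 1) / 2) + (n + 1 / 2) * h)

/-- the integer with index `i` in `{-W, ..., W - 1}` -/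
def hf {W : ℕ} (i : Fin (2 * W)) : ℤ := (i.val : ℤ) - W

/-- the vector `(2 π i / s_k) ∑ z_k^j (n_j + 1/2)` -/
def sg (P : Par d) (s : Fin d → ℂ) (n : Fin (d + 1) → ℤ) (k : Fin d) : ℂ :=
  2 * Real.pi * I / s k * ∑ j : Fin (d + 1), P.rt k.succ ^ j.val * ((n j : ℂ) + 1 / 2)

/-- Taylor shift of a polynomial -/
def sh (σ : Fin d → ℂ) (B : MvPolynomial (Fin d) ℂ) : MvPolynomial (Fin d) ℂ :=
  MvPolynomial.aeval (fun j => MvPolynomial.X j + MvPolynomial.C (σ j)) B

/-- the normalising constant of the theta series at `τ = iy` -/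
def kt (y : ℝ) : ℂ := th (I * y) (1 / 2) / ∑' n : ℤ, (-1) ^ n * ee (I * y * (n * (n + 1) / 2) + (n + 1 / 2) * (1 / 2))

end Pool.Agent.MSR
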